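import Mathlib

open Set MeasureTheory Filter Topology

namespace Pool.Agent.MP2e716c

noncomputable section

variable {X : Type*} [MeasurableSpace X] {μ : Measure X} [IsFiniteMeasure μ] {φ : X → X}

/-- Lyapunov functions are invariant.
Proof. `μ (φ ⁻¹' A) = μ A` and `A ⊆ φ ⁻¹' A`, so `A = φ ⁻¹' A` up to a null set (finite measure).
With `G = A.indicator F` (bounded, integrable): `∫ G ∘ φ = ∫ G`, and `G ∘ φ = A.indicator (F ∘ φ)` a.e.
Hence `∫ A.indicator (F ∘ φ - F) = 0` with a nonnegative integrand, which is `0` a.e. -/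
theorem ae_eq_of_le_comp (hφ : MeasurePreserving φ μ μ) {A : Set X} (hA : MeasurableSet A)
    (hinv : ∀ z ∈ A, φ z ∈ A) {F : X → ℝ} (hF : Measurable F) {C : ℝ} (hC : ∀ z ∈ A, |F z| ≤ C)
    (hle : ∀ z ∈ A, F z ≤ F (φ z)) : ∀ᵐ z ∂μ, z ∈ A → F (φ z) = F z := by
  have hμ : μ (φ ⁻¹' A) = μ A := hφ.measure_preimage hA.nullMeasurableSet
  have hsub : A ⊆ φ ⁻¹' A := hinv
  have hdiff : μ (φ ⁻¹' A \ A) = 0 := by
    rw [measure_sdiff hsub hA.nullMeasurableSet (measure_ne_top μ A), hμ, tsub_self]
  have hG : Measurable (A.indicator F) := hF.indicator hA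
  have hGφ : Measurable (A.indicator (fun z => F (φ z))) := (hF.comp hφ.measurable).indicator hA
  have hGint : Integrable (A.indicator F) μ := by
    refine Integrable.of_bound hG.aestronglyMeasurable (max C 0) ?_
    refine Eventually.of_forall fun z => ?_
    by_cases hz : z ∈ A
    · rw [indicator_of_mem hz, Real.norm_eq_abs]; exact (hC z hz).trans (le_max_left _ _)
    · rw [indicator_of_notMem hz, norm_zero]; exact le_max_right _ _
  have hGφint : Integrable (A.indicator (fun z => F (φ z))) μ := by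
    refine Integrable.of_bound hGφ.aestronglyMeasurable (max C 0) ?_
    refine Eventually.of_forall fun z => ?_
    by_cases hz : z ∈ A
    · rw [indicator_of_mem hz, Real.norm_eq_abs]; exact (hC _ (hinv z hz)).trans (le_max_left _ _)
    · rw [indicator_of_notMem hz, norm_zero]; exact le_max_right _ _
  have hae : (fun z => A.indicator F (φ z)) =ᵐ[μ] A.indicator (fun z => F (φ z)) := by
    have : ∀ᵐ z ∂μ, z ∉ φ ⁻¹' A \ A := measure_eq_zero_iff_ae_notMem.1 hdiff
    filter_upwards [this] with z hz
    by_cases hzA : z ∈ A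
    · rw [indicator_of_mem hzA, indicator_of_mem (hinv z hzA)]
    · have hφz : φ z ∉ A := fun h => hz ⟨h, hzA⟩
      rw [indicator_of_notMem hzA, indicator_of_notMem hφz]
  have h1 : ∫ z, A.indicator F (φ z) ∂μ = ∫ z, A.indicator F z ∂μ := by
    have h2 := integral_map (μ := μ) (φ := φ) hφ.measurable.aemeasurable
      (f := A.indicator F) (by rw [hφ.map_eq]; exact hG.aestronglyMeasurable)
    rw [hφ.map_eq] at h2
    exact h2.symm
  rw [integral_congr_ae hae] at h1
  have h3 : ∫ z, (A.indicator (fun z => F (φ z)) z - A.indicator F z) ∂μ = 0 := by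
    rw [integral_sub hGφint hGint, h1, sub_self]
  have h4 : 0 ≤ fun z => A.indicator (fun z => F (φ z)) z - A.indicator F z := by
    intro z
    by_cases hz : z ∈ A
    · simp only [indicator_of_mem hz, Pi.zero_apply]
      linarith [hle z hz]
    · simp [indicator_of_notMem hz]
  rw [integral_eq_zero_iff_of_nonneg h4 (hGφint.sub hGint)] at h3
  filter_upwards [h3] with z hz hzA
  simp only [indicator_of_mem hzA, Pi.zero_apply] at hz
  linarith

end

end Pool.Agent.MP2e716c
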