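import Pool.Agent.H.MP_2e716c_an.Pres
import Pool.Agent.H.MP_2e716c_an.Erg

open Set MeasureTheory Filter Topology

namespace Pool.Agent.MP2e716c

noncomputable section

namespace Table

variable {n : ℕ} [NeZero n] (T : Table n)

/-- Phase points whose forward orbit is infinite, hits only arcs of `S` (the start included) and
hits each arc of `S` infinitely often. -/
def AS (S : Set (Fin n)) : Set (Fin n × ℝ × ℝ) :=
  {z | ∀ k : ℕ, T.Next (T.bmap^[k] z) (T.bmap^[k + 1] z) ∧ (T.bmap^[k] z).1 ∈ S ∧
    ∀ i ∈ S, ∃ m ≥ k, (T.bmap^[m] z).1 = i}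

theorem AS_inv {S : Set (Fin n)} {z : Fin n × ℝ × ℝ} (hz : z ∈ T.AS S) (k : ℕ) :
    T.bmap^[k] z ∈ T.AS S := by
  intro m
  obtain ⟨h1, h2, h3⟩ := hz (m + k)
  rw [← Function.iterate_add_apply, ← Function.iterate_add_apply]
  refine ⟨?_, h2, fun i hi => ?_⟩
  · have e : m + 1 + k = m + k + 1 := by omega
    rw [e]
    exact h1
  · obtain ⟨m', hm', he⟩ := h3 i hi
    refine ⟨m' - k, by omega, ?_⟩
    rw [← Function.iterate_add_apply]
    have e : m' - k + k = m' := by omega
    rw [e]
    exact he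

/-- `Next w (bmap w)` is `w ∈ dom` (`next_bmap`), everything is a countable combination of preimages
of measurable sets under the measurable map `bmap^[k]`. -/
theorem measurableSet_AS (S : Set (Fin n)) : MeasurableSet (T.AS S) := by
  have hm : ∀ k : ℕ, Measurable (T.bmap^[k]) := fun k => T.measurable_bmap.iterate k
  have h : T.AS S = ⋂ k : ℕ, ((T.bmap^[k]) ⁻¹' T.dom ∩ ((T.bmap^[k]) ⁻¹' (Prod.fst ⁻¹' S) ∩
      ⋂ i ∈ S, ⋃ m ≥ k, (T.bmap^[m]) ⁻¹' (Prod.fst ⁻¹' {i}))) := by
    ext z
    simp only [AS, mem_ofPred_eq, mem_iInter, mem_inter_iff, mem_preimage, mem_iUnion,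
      mem_singleton_iff, exists_prop, dom]
    refine forall_congr' fun k => ?_
    have h1 : T.Next (T.bmap^[k] z) (T.bmap^[k + 1] z) ↔ ∃ a, T.Next (T.bmap^[k] z) a := by
      rw [Function.iterate_succ_apply']
      exact ⟨fun h => ⟨_, h⟩, fun h => T.next_bmap h⟩
    rw [h1]
  rw [h]
  refine MeasurableSet.iInter fun k => ?_
  refine (hm k T.measurableSet_dom).inter ((hm k (measurable_fst S.toFinite.measurableSet)).inter ?_)
  refine MeasurableSet.biInter S.to_countable fun i _ => ?_
  refine MeasurableSet.iUnion fun m => MeasurableSet.iUnion fun _ => ?_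
  exact hm m (measurable_fst (measurableSet_singleton i))

/-- If `AS S` is null for every nonempty `S` disjoint from `D`, then almost every orbit hits `D`
infinitely often.
Proof. For a.e. `z` the orbit is infinite (`ae_orbit`) and no `bmap^[k] z` is in one of the
finitely many null sets `AS S` (`measurePreserving_bmap`, iterates are quasi measure preserving).
For such `z` let `S = {i | ∃ᶠ m, (bmap^[m] z).1 = i}`, nonempty by pigeonhole, and let `k` be such that all arcs
hit after time `k` are in `S`.  Then `bmap^[k] z ∈ AS S`; so `S` is not disjoint from `D`. -/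
theorem ae_frequently (D : Set (Fin n))
    (h : ∀ S : Set (Fin n), S.Nonempty → Disjoint S D → T.μ (T.AS S) = 0) :
    ∀ᵐ z ∂T.μ, ∃ᶠ k : ℕ in atTop, (T.bmap^[k] z).1 ∈ D := by
  have h1 : ∀ᵐ z ∂T.μ, ∀ k : ℕ, ∀ S : Set (Fin n), S.Nonempty → Disjoint S D →
      T.bmap^[k] z ∉ T.AS S := by
    rw [ae_all_iff]
    intro k
    rw [ae_all_iff]
    intro S
    by_cases hS : S.Nonempty ∧ Disjoint S D
    · have h2 : T.μ ((T.bmap^[k]) ⁻¹' T.AS S) = 0 := by
        rw [(T.measurePreserving_bmap.iterate k).measure_preimage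
          (T.measurableSet_AS S).nullMeasurableSet]
        exact h S hS.1 hS.2
      filter_upwards [measure_eq_zero_iff_ae_notMem.1 h2] with z hz _ _
      exact hz
    · refine Eventually.of_forall fun z hz1 hz2 => ?_
      exact absurd ⟨hz1, hz2⟩ hS
  filter_upwards [T.ae_orbit, h1] with z hz hz1
  set S : Set (Fin n) := {i | ∃ᶠ m : ℕ in atTop, (T.bmap^[m] z).1 = i} with hS
  have hev : ∀ᶠ m : ℕ in atTop, (T.bmap^[m] z).1 ∈ S := by
    have h3 : ∀ᶠ m : ℕ in atTop, ∀ i : Fin n, i ∉ S → (T.bmap^[m] z).1 ≠ i := by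
      rw [eventually_all]
      intro i
      by_cases hi : i ∈ S
      · exact Eventually.of_forall fun m hm => absurd hi hm
      · have h4 : ∀ᶠ m : ℕ in atTop, ¬ (T.bmap^[m] z).1 = i := not_frequently.mp hi
        filter_upwards [h4] with m hm _
        exact hm
    filter_upwards [h3] with m hm
    by_contra hcon
    exact hm _ hcon rfl
  obtain ⟨k, hk⟩ := eventually_atTop.mp hev
  have hne : S.Nonempty := ⟨_, hk k le_rfl⟩
  have hAS : T.bmap^[k] z ∈ T.AS S := by
    intro m
    rw [← Function.iterate_add_apply, ← Function.iterate_add_apply]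
    refine ⟨?_, hk _ (by omega), fun i hi => ?_⟩
    · have e : m + 1 + k = m + k + 1 := by omega
      rw [e]
      exact hz (m + k)
    · obtain ⟨m', hm', he⟩ := (frequently_atTop.mp (show ∃ᶠ m : ℕ in atTop, (T.bmap^[m] z).1 = i
        from hi)) (m + k)
      refine ⟨m' - k, by omega, ?_⟩
      rw [← Function.iterate_add_apply]
      have e : m' - k + k = m' := by omega
      rw [e]
      exact he
  have hnd : ¬ Disjoint S D := fun hd => hz1 k S hne hd hAS
  rw [Set.not_disjoint_iff] at hnd
  obtain ⟨i, hiS, hiD⟩ := hnd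
  have hfr : ∃ᶠ m : ℕ in atTop, (T.bmap^[m] z).1 = i := hiS
  refine hfr.mono fun m hm => ?_
  rw [hm]
  exact hiD

end Table

end

end Pool.Agent.MP2e716c
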