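import Pool.Agent.H.MP_2e716c_an.Basic

open Set MeasureTheory Filter Topology

namespace Pool.Agent.MP2e716c

noncomputable section

/-- Derivative matrix of the billiard map in the coordinates `(r, θ)`: chord length `τ`,
curvatures `K, K1`, cosines `c, c1`. -/
def dm (τ K K1 c c1 : ℝ) : ℝ × ℝ →L[ℝ] ℝ × ℝ :=
  ((-(τ * K + c) / c1) • ContinuousLinearMap.fst ℝ ℝ ℝ +
    (-τ / c1) • ContinuousLinearMap.snd ℝ ℝ ℝ).prod
  ((-(K1 * (τ * K + c) + K * c1) / c1) • ContinuousLinearMap.fst ℝ ℝ ℝ +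
    (-(τ * K1 + c1) / c1) • ContinuousLinearMap.snd ℝ ℝ ℝ)

theorem dm_apply (τ K K1 c c1 : ℝ) (u : ℝ × ℝ) : dm τ K K1 c c1 u =
    (-(τ * K + c) / c1 * u.1 + -τ / c1 * u.2,
      -(K1 * (τ * K + c) + K * c1) / c1 * u.1 + -(τ * K1 + c1) / c1 * u.2) := by
  simp [dm]

/-- The determinant of `dm` is `c / c1`. -/
theorem dm_det (τ K K1 c c1 : ℝ) (hc1 : c1 ≠ 0) : (dm τ K K1 c c1).det = c / c1 := by
  have h : (dm τ K K1 c c1).det = LinearMap.det (dm τ K K1 c c1 : ℝ × ℝ →ₗ[ℝ] ℝ × ℝ) := rfl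
  rw [h, ← LinearMap.det_toMatrix (Module.Basis.finTwoProd ℝ), Matrix.det_fin_two]
  simp only [LinearMap.toMatrix_apply, ContinuousLinearMap.coe_coe, dm_apply,
    Module.Basis.finTwoProd_zero, Module.Basis.finTwoProd_one, Module.Basis.coe_finTwoProd_repr]
  simp
  field_simp
  ring

/-- Derivative of an implicitly defined real function. -/
theorem deriv_impl {E : Type*} [NormedAddCommGroup E] [NormedSpace ℝ E] {G : E × ℝ → ℝ}
    {S : E → ℝ} {x0 : E} {L : E × ℝ →L[ℝ] ℝ} (hG : HasFDerivAt G L (x0, S x0))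
    (hc : ContinuousAt S x0) (hz : ∀ᶠ x in 𝓝 x0, G (x, S x) = 0) {c : ℝ} (hL : L (0, 1) = c)
    (hc0 : c ≠ 0) {S' : E →L[ℝ] ℝ} (hS' : ∀ v, S' v = -c⁻¹ * L (v, 0)) :
    HasFDerivAt S S' x0 := by
  have hp : Tendsto (fun x => (x, S x)) (𝓝 x0) (𝓝 (x0, S x0)) :=
    (continuousAt_id.prodMk hc)
  have h1 := (hasFDerivAt_iff_isLittleO.1 hG).comp_tendsto hp
  have hz0 : G (x0, S x0) = 0 := hz.self_of_nhds
  have h2 : (fun x => ((0 : E), (S x - S x0) - S' (x - x0))) =o[𝓝 x0]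
      (fun x => ((x, S x) - (x0, S x0) : E × ℝ)) := by
    have h3 : (fun x => c⁻¹ * (G (x, S x) - G (x0, S x0) - L ((x, S x) - (x0, S x0)))) =o[𝓝 x0]
        (fun x => ((x, S x) - (x0, S x0) : E × ℝ)) := h1.const_mul_left _
    have h4 : (fun x => (S x - S x0) - S' (x - x0)) =o[𝓝 x0]
        (fun x => ((x, S x) - (x0, S x0) : E × ℝ)) := by
      refine (h3.neg_left).congr' ?_ (Eventually.of_forall fun _ => rfl)
      filter_upwards [hz] with x hx
      have e : ((x, S x) - (x0, S x0) : E × ℝ) = (x - x0, 0) + (S x - S x0) • ((0 : E), (1 : ℝ)) := by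
        ext <;> simp
      rw [hx, hz0, e, map_add, map_smul, hL, hS', smul_eq_mul]
      field_simp
      ring
    refine Asymptotics.IsLittleO.prod_left ?_ h4
    exact Asymptotics.isLittleO_zero _ _
  have h5 := h2.right_isBigO_sub
  have h6 : (fun x => ((x, S x) - (x0, S x0) : E × ℝ)) =O[𝓝 x0] (fun x => x - x0) := by
    refine h5.trans ?_
    have e : (fun x => ((x, S x) - (x0, S x0) : E × ℝ) - ((0 : E), (S x - S x0) - S' (x - x0)))
        = fun x => (((ContinuousLinearMap.id ℝ E).prod S') (x - x0)) := by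
      funext x
      ext <;> simp
    rw [e]
    exact ContinuousLinearMap.isBigO_comp _ _ _
  refine HasFDerivAt.of_isLittleO ?_
  exact (Asymptotics.isLittleO_prod_left.1 (h2.trans_isBigO h6)).2

theorem deriv_ip_eq_inner (a b : ℂ) : ip a b = inner ℝ a b := by
  rw [Complex.inner, ip]
  simp only [Complex.mul_re, Complex.conj_re, Complex.conj_im]
  ring

theorem deriv_hasFDerivAt_ip {E : Type*} [NormedAddCommGroup E] [NormedSpace ℝ E] {A B : E → ℂ}
    {A' B' : E →L[ℝ] ℂ} {x : E} (hA : HasFDerivAt A A' x) (hB : HasFDerivAt B B' x)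
    {L : E →L[ℝ] ℝ} (hL : ∀ v, L v = ip (A x) (B' v) + ip (A' v) (B x)) :
    HasFDerivAt (fun y => ip (A y) (B y)) L x := by
  have h := HasFDerivAt.inner ℝ hA hB
  have e : (fun y => ip (A y) (B y)) = fun y => inner ℝ (A y) (B y) := by
    funext y; exact deriv_ip_eq_inner _ _
  rw [e]
  refine h.congr_fderiv ?_
  ext v
  rw [hL]
  simp [deriv_ip_eq_inner]

namespace Table

variable {n : ℕ} [NeZero n] (T : Table n)

theorem deriv_hasDerivAt_γ (i : Fin n) (r : ℝ) : HasDerivAt (T.γ i) (deriv (T.γ i) r) r :=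
  ((T.smooth i).differentiable (by norm_num) r).hasDerivAt

theorem deriv_contDiff_deriv (i : Fin n) : ContDiff ℝ 2 (deriv (T.γ i)) := by
  have h := T.smooth i
  rw [show (3 : WithTop ℕ∞) = 2 + 1 by norm_num, contDiff_succ_iff_deriv] at h
  exact h.2.2

/-- Frenet formula: `deriv (deriv (γ i)) r = -K N` (the speed is `1` near `r`). -/
theorem frenet (i : Fin n) {r : ℝ} (hr : r ∈ Ioo 0 (T.len i)) :
    HasDerivAt (deriv (T.γ i)) (-(T.curv i r : ℂ) * (Complex.I * deriv (T.γ i) r)) r := by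
  have hd : HasDerivAt (deriv (T.γ i)) (deriv (deriv (T.γ i)) r) r :=
    ((T.deriv_contDiff_deriv i).differentiable (by norm_num) r).hasDerivAt
  have hu : ‖deriv (T.γ i) r‖ = 1 := T.unit i r ⟨hr.1.le, hr.2.le⟩
  have hF : HasFDerivAt (fun s => ip (deriv (T.γ i) s) (deriv (T.γ i) s))
      ((ContinuousLinearMap.toSpanSingleton ℝ (2 * ip (deriv (T.γ i) r) (deriv (deriv (T.γ i)) r)))) r := by
    refine deriv_hasFDerivAt_ip hd.hasFDerivAt hd.hasFDerivAt ?_
    intro v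
    simp only [ContinuousLinearMap.toSpanSingleton_apply, smul_eq_mul]
    rw [show (v • deriv (deriv (T.γ i)) r : ℂ) = (v : ℂ) * deriv (deriv (T.γ i)) r by
      rw [Complex.real_smul]]
    rw [ip_rmul_right, ip_rmul_left, ip_comm (deriv (deriv (T.γ i)) r)]
    ring
  have hconst : (fun s => ip (deriv (T.γ i) s) (deriv (T.γ i) s)) =ᶠ[𝓝 r] fun _ => (1 : ℝ) := by
    filter_upwards [Ioo_mem_nhds hr.1 hr.2] with s hs
    rw [ip_self, T.unit i s ⟨hs.1.le, hs.2.le⟩]; norm_num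
  have h0 : HasFDerivAt (fun s => ip (deriv (T.γ i) s) (deriv (T.γ i) s)) (0 : ℝ →L[ℝ] ℝ) r :=
    (hasFDerivAt_const (1 : ℝ) r).congr_of_eventuallyEq hconst
  have h1 := hF.unique h0
  have h2 : ip (deriv (T.γ i) r) (deriv (deriv (T.γ i)) r) = 0 := by
    have := congrArg (fun L : ℝ →L[ℝ] ℝ => L 1) h1
    simp only [ContinuousLinearMap.toSpanSingleton_apply, smul_eq_mul, one_mul,
      zero_apply] at this
    linarith
  have h3 := ip_decomp (deriv (deriv (T.γ i)) r) (deriv (T.γ i) r) hu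
  rw [ip_comm, h2] at h3
  have h4 : deriv (deriv (T.γ i)) r = -(T.curv i r : ℂ) * (Complex.I * deriv (T.γ i) r) := by
    rw [curv]
    rw [h3]
    simp only [Complex.ofReal_zero, zero_mul, zero_add, Complex.ofReal_neg, neg_neg]
    congr 2
    conv_lhs => rw [h3]
    simp
  rw [← h4]
  exact hd

/-- Derivative of the outgoing velocity: `d vel = -I vel (dθ + K dr)`. -/
theorem deriv_vel (i : Fin n) {x0 : ℝ × ℝ} (hx : x0.1 ∈ Ioo 0 (T.len i)) {U : ℝ × ℝ →L[ℝ] ℂ}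
    (hU : ∀ v, U v = ((v.2 + T.curv i x0.1 * v.1 : ℝ) : ℂ) * (-Complex.I * T.vel (i, x0))) :
    HasFDerivAt (fun x => T.vel (i, x)) U x0 := by
  have h1 : HasFDerivAt (fun x : ℝ × ℝ => deriv (T.γ i) x.1) _ x0 :=
    (T.frenet i hx).hasFDerivAt.comp x0 (hasFDerivAt_fst (𝕜 := ℝ) (p := x0))
  have h2 : HasFDerivAt (fun x : ℝ × ℝ => ((Real.cos x.2 : ℝ) : ℂ)) _ x0 :=
    ((Real.hasDerivAt_cos x0.2).ofReal_comp).hasFDerivAt.comp x0 (hasFDerivAt_snd (𝕜 := ℝ) (p := x0))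
  have h3 : HasFDerivAt (fun x : ℝ × ℝ => ((Real.sin x.2 : ℝ) : ℂ)) _ x0 :=
    ((Real.hasDerivAt_sin x0.2).ofReal_comp).hasFDerivAt.comp x0 (hasFDerivAt_snd (𝕜 := ℝ) (p := x0))
  have h4 := (h2.mul (h1.const_mul Complex.I)).add (h3.mul h1)
  have e : (fun x => T.vel (i, x)) = fun x : ℝ × ℝ =>
      ((Real.cos x.2 : ℝ) : ℂ) * (Complex.I * deriv (T.γ i) x.1) +
      ((Real.sin x.2 : ℝ) : ℂ) * deriv (T.γ i) x.1 := rfl
  rw [e]
  refine h4.congr_fderiv ?_
  refine ContinuousLinearMap.ext fun v => ?_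
  rw [hU, vel, nor, tang]
  simp [Complex.real_smul]
  linear_combination (v.2 * Complex.cos x0.2 * deriv (T.γ i) x0.1) * Complex.I_mul_I

/-- Derivative of the billiard map.
Proof. Write `f x = (s x, η x)`.  Near `x0`: `F x (s x) = 0` with
`F x s = ip (γ j s - pt (i, x)) (I * vel (i, x))`, `F` is `C^1`,
`∂F/∂s = ip (deriv (γ j) s) (I * vel)` which is `cos y0.2` at the base point (`I vel = I inc`:
`I * inc = cos * tang + sin * nor`).  From `0 = F x (s x) - F x0 (s x0)` and continuity of `s` at `x0` one gets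
`s' = -(∂_s F)⁻¹ ∂_x F`; with `frenet` (`∂_r vel = -I vel K`, `∂_θ vel = -I vel`,
`∂_r F = -(cos x0.2 + τ K)·(-1)...`) the result is
`ds = -(1/cos y0.2) ((cos x0.2 + τ K) dr + τ dθ)`.  Second component:
`sin (η x) = ip (vel (i,x)) (deriv (γ j) (s x))` near `x0`, so `η = arcsin (...)` is differentiable and
`dη = -(dθ + K dr) + K1 ds`.  (Compare: `d vel = -I vel (dθ + K dr)`, `d inc (s, η) = I inc (dη - K1 ds)`.) -/
theorem next_hasFDerivAt {i j : Fin n} {x0 y0 : ℝ × ℝ} (h : T.Next (i, x0) (j, y0))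
    {f : ℝ × ℝ → ℝ × ℝ} (hf0 : f x0 = y0) (hc : ContinuousAt f x0)
    (hf : ∀ᶠ x in 𝓝 x0, T.Next (i, x) (j, f x)) :
    HasFDerivAt f (dm ‖T.pt (j, y0) - T.pt (i, x0)‖ (T.curv i x0.1) (T.curv j y0.1)
      (Real.cos x0.2) (Real.cos y0.2)) x0 := by
  subst hf0
  obtain ⟨hz, hz1, τ, hτ, -, hpt, hinc⟩ := h
  have hnorm : ‖T.pt (j, f x0) - T.pt (i, x0)‖ = τ := by
    rw [hpt, add_sub_cancel_left, norm_mul, T.vel_norm hz, mul_one, Complex.norm_real,
      Real.norm_of_nonneg hτ.le]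
  rw [hnorm]
  set K := T.curv i x0.1 with hK
  set K1 := T.curv j (f x0).1 with hK1
  set c := Real.cos x0.2 with hcdef
  set c1 := Real.cos (f x0).2 with hc1def
  have hc1 : 0 < c1 := T.cos_pos hz1
  -- inner products at the base point
  have i1 : ip (deriv (T.γ j) (f x0).1) (Complex.I * T.vel (i, x0)) = c1 := by
    have := T.ip_inc_nor hz1
    rw [hinc, nor, ip_I_mul_right] at this
    rw [ip_comm]
    change ip (Complex.I * T.vel (i, x0)) (T.tang (j, f x0)) = c1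
    linarith
  have i2 : ip (deriv (T.γ i) x0.1) (Complex.I * T.vel (i, x0)) = -c := by
    have := T.ip_vel_nor hz
    rw [nor, ip_I_mul_right] at this
    rw [ip_comm]
    change ip (Complex.I * T.vel (i, x0)) (T.tang (i, x0)) = -c
    linarith
  have i3 : ip (T.vel (i, x0)) (T.vel (i, x0)) = 1 := by
    rw [ip_self, T.vel_norm hz]; norm_num
  let U : ℝ × ℝ →L[ℝ] ℂ :=
    (((ContinuousLinearMap.snd ℝ ℝ ℝ) + K • (ContinuousLinearMap.fst ℝ ℝ ℝ)).smulRight
      (-Complex.I * T.vel (i, x0)))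
  have hU : ∀ v, U v = ((v.2 + K * v.1 : ℝ) : ℂ) * (-Complex.I * T.vel (i, x0)) := by
    intro v
    simp [U, Complex.real_smul]
  have hvel := T.deriv_vel i hz.1 hU
  -- the implicit equation
  let G : (ℝ × ℝ) × ℝ → ℝ := fun p =>
    ip (T.γ j p.2 - T.γ i p.1.1) (Complex.I * T.vel (i, p.1))
  let L : (ℝ × ℝ) × ℝ →L[ℝ] ℝ :=
    (τ * K + c) • (ContinuousLinearMap.fst ℝ ℝ ℝ).comp (ContinuousLinearMap.fst ℝ (ℝ × ℝ) ℝ) +
    τ • (ContinuousLinearMap.snd ℝ ℝ ℝ).comp (ContinuousLinearMap.fst ℝ (ℝ × ℝ) ℝ) +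
    c1 • ContinuousLinearMap.snd ℝ (ℝ × ℝ) ℝ
  have hL : ∀ v, L v = (τ * K + c) * v.1.1 + τ * v.1.2 + c1 * v.2 := fun v => by simp [L]
  have hG : HasFDerivAt G L (x0, (f x0).1) := by
    have a1 : HasFDerivAt (fun p : (ℝ × ℝ) × ℝ => T.γ j p.2) _ (x0, (f x0).1) :=
      (T.deriv_hasDerivAt_γ j (f x0).1).hasFDerivAt.comp (x0, (f x0).1)
        (hasFDerivAt_snd (𝕜 := ℝ) (p := (x0, (f x0).1)))
    have a2 : HasFDerivAt (fun p : (ℝ × ℝ) × ℝ => T.γ i p.1.1) _ (x0, (f x0).1) :=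
      (T.deriv_hasDerivAt_γ i x0.1).hasFDerivAt.comp (x0, (f x0).1)
        ((hasFDerivAt_fst (𝕜 := ℝ) (p := x0)).comp (x0, (f x0).1)
          (hasFDerivAt_fst (𝕜 := ℝ) (p := (x0, (f x0).1))))
    have a3' : HasFDerivAt (fun p : (ℝ × ℝ) × ℝ => T.vel (i, p.1)) _ (x0, (f x0).1) :=
      HasFDerivAt.comp (g := fun x => T.vel (i, x)) (x0, (f x0).1) hvel
        (hasFDerivAt_fst (𝕜 := ℝ) (p := (x0, (f x0).1)))
    have a3 := a3'.const_mul Complex.I
    refine deriv_hasFDerivAt_ip (a1.sub a2) a3 ?_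
    intro v
    have b1 : T.γ j (f x0).1 - T.γ i x0.1 = (τ : ℂ) * T.vel (i, x0) := by
      have : T.γ j (f x0).1 = T.γ i x0.1 + τ * T.vel (i, x0) := hpt
      rw [this]; ring
    rw [hL]
    change _ = ip (T.γ j (f x0).1 - T.γ i x0.1) _ + _
    simp only [sub_apply, smul_apply, ContinuousLinearMap.comp_apply,
      ContinuousLinearMap.toSpanSingleton_apply, Complex.real_smul, smul_eq_mul,
      ContinuousLinearMap.coe_fst', ContinuousLinearMap.coe_snd']
    rw [b1, hU, ip_sub_left, ip_rmul_left, ip_rmul_left, ip_rmul_left, i1, i2,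
      show Complex.I * (((v.1.2 + K * v.1.1 : ℝ) : ℂ) * (-Complex.I * T.vel (i, x0))) =
        ((v.1.2 + K * v.1.1 : ℝ) : ℂ) * T.vel (i, x0) by
      linear_combination (-((v.1.2 + K * v.1.1 : ℝ) : ℂ) * T.vel (i, x0)) * Complex.I_mul_I,
      ip_rmul_right, i3]
    ring
  have hS : ∀ᶠ x in 𝓝 x0, G (x, (f x).1) = 0 := by
    filter_upwards [hf] with x hx
    obtain ⟨-, -, σ, -, -, hp, -⟩ := hx
    have : T.γ j (f x).1 - T.γ i x.1 = (σ : ℂ) * T.vel (i, x) := by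
      have : T.γ j (f x).1 = T.γ i x.1 + σ * T.vel (i, x) := hp
      rw [this]; ring
    simp only [G]
    rw [this, ip_rmul_left, ip_I_self, mul_zero]
  let S' : ℝ × ℝ →L[ℝ] ℝ :=
    (-(τ * K + c) / c1) • ContinuousLinearMap.fst ℝ ℝ ℝ +
    (-τ / c1) • ContinuousLinearMap.snd ℝ ℝ ℝ
  have hS'v : ∀ v, S' v = -(τ * K + c) / c1 * v.1 + -τ / c1 * v.2 := fun v => by simp [S']
  have hS1 : HasFDerivAt (fun x => (f x).1) S' x0 := by
    refine deriv_impl (S := fun x => (f x).1) (c := c1) hG hc.fst hS ?_ hc1.ne' ?_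
    · rw [hL]; simp
    · intro v
      rw [hL, hS'v]
      field_simp
      ring
  -- the angle
  let E' : ℝ × ℝ →L[ℝ] ℝ :=
    (-(K1 * (τ * K + c) + K * c1)) • ContinuousLinearMap.fst ℝ ℝ ℝ +
    (-(τ * K1 + c1)) • ContinuousLinearMap.snd ℝ ℝ ℝ
  have hE'v : ∀ v, E' v = -(K1 * (τ * K + c) + K * c1) * v.1 + -(τ * K1 + c1) * v.2 :=
    fun v => by simp [E']
  have hE : HasFDerivAt (fun x => ip (T.vel (i, x)) (deriv (T.γ j) (f x).1)) E' x0 := by
    have a1 : HasFDerivAt (fun x => deriv (T.γ j) (f x).1) _ x0 :=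
      HasFDerivAt.comp (g := deriv (T.γ j)) x0 (T.frenet j hz1.1).hasFDerivAt hS1
    refine deriv_hasFDerivAt_ip hvel a1 ?_
    intro v
    rw [hE'v]
    simp only [ContinuousLinearMap.comp_apply,
      ContinuousLinearMap.toSpanSingleton_apply, Complex.real_smul]
    have i4 : ip (T.vel (i, x0)) (Complex.I * deriv (T.γ j) (f x0).1) = -c1 := by
      have := T.ip_inc_nor hz1
      rw [hinc] at this
      exact this
    have i5 : ip (Complex.I * T.vel (i, x0)) (deriv (T.γ j) (f x0).1) = c1 := by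
      rw [ip_comm]; exact i1
    have i6 : ip (T.vel (i, x0)) (-((K1 : ℝ) : ℂ) * (Complex.I * deriv (T.γ j) (f x0).1))
        = K1 * c1 := by
      rw [neg_mul, ip_neg_right, ip_rmul_right, i4]; ring
    have i7 : ip (-Complex.I * T.vel (i, x0)) (deriv (T.γ j) (f x0).1) = -c1 := by
      rw [neg_mul, ip_neg_left, i5]
    rw [hU, hS'v, ip_rmul_right, ip_rmul_left, i7]
    change _ = _ * ip (T.vel (i, x0)) (-((K1 : ℝ) : ℂ) * (Complex.I * deriv (T.γ j) (f x0).1)) + _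
    rw [i6]
    field_simp
    ring
  have hη : (fun x => (f x).2) =ᶠ[𝓝 x0]
      fun x => Real.arcsin (ip (T.vel (i, x)) (deriv (T.γ j) (f x).1)) := by
    filter_upwards [hf] with x hx
    obtain ⟨-, hp, -, -, -, -, hi⟩ := hx
    have := T.ip_inc_tang hp
    rw [hi] at this
    change ip (T.vel (i, x)) (deriv (T.γ j) (f x).1) = Real.sin (f x).2 at this
    rw [this, Real.arcsin_sin hp.2.1.le hp.2.2.le]
  have hs0 : ip (T.vel (i, x0)) (deriv (T.γ j) (f x0).1) = Real.sin (f x0).2 := by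
    have := T.ip_inc_tang hz1
    rw [hinc] at this
    exact this
  have hs1 : Real.cos (f x0).2 ^ 2 = 1 - Real.sin (f x0).2 ^ 2 := Real.cos_sq' _
  have hη' : HasFDerivAt (fun x => (f x).2) (c1⁻¹ • E') x0 := by
    refine HasFDerivAt.congr_of_eventuallyEq ?_ hη
    have b1 : Real.sin (f x0).2 ≠ -1 := by
      intro hh
      rw [hh] at hs1
      have : 0 < Real.cos (f x0).2 ^ 2 := pow_pos hc1 2
      rw [hs1] at this
      norm_num at this
    have b2 : Real.sin (f x0).2 ≠ 1 := by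
      intro hh
      rw [hh] at hs1
      have : 0 < Real.cos (f x0).2 ^ 2 := pow_pos hc1 2
      rw [hs1] at this
      norm_num at this
    have b3 := Real.hasDerivAt_arcsin b1 b2
    rw [← hs1, Real.sqrt_sq hc1.le, ← hs0, one_div] at b3
    exact b3.comp_hasFDerivAt x0 hE
  refine (hS1.prodMk hη').congr_fderiv ?_
  refine ContinuousLinearMap.ext fun v => ?_
  rw [dm_apply]
  ext
  · exact hS'v v
  · simp only [ContinuousLinearMap.prod_apply, smul_apply, smul_eq_mul]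
    rw [hE'v]
    field_simp

end Table

end

end Pool.Agent.MP2e716c
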