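import Pool.Agent.H.MP_2e716c_an.ImpF
import Pool.Agent.H.MP_2e716c_an.Deriv

open Set MeasureTheory Filter Topology

namespace Pool.Agent.MP2e716c

noncomputable section

namespace Table

variable {n : ℕ} [NeZero n] (T : Table n)

/-- Phase points with a successor. -/
def dom : Set (Fin n × ℝ × ℝ) := {z | ∃ a, T.Next z a}

/-- From `next_nhds`, `bmap_eq` and `next_bmap`. -/
theorem bmap_eventually {i j : Fin n} {x0 y0 : ℝ × ℝ} (h : T.Next (i, x0) (j, y0)) :
    ∀ᶠ x in 𝓝 x0, (T.bmap (i, x)).1 = j ∧ T.Next (i, x) (T.bmap (i, x)) := by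
  filter_upwards [T.next_nhds h (U := univ) univ_mem] with x hx
  obtain ⟨y, -, hy⟩ := hx
  rw [T.bmap_eq hy]
  exact ⟨rfl, hy⟩

theorem bmap_continuousAt {i j : Fin n} {x0 y0 : ℝ × ℝ} (h : T.Next (i, x0) (j, y0)) :
    ContinuousAt (fun x => (T.bmap (i, x)).2) x0 := by
  intro U hU
  have h0 : (T.bmap (i, x0)).2 = y0 := by rw [T.bmap_eq h]
  have hU' : U ∈ 𝓝 y0 := by
    have h1 : U ∈ 𝓝 ((T.bmap (i, x0)).2) := hU
    rwa [h0] at h1
  show ∀ᶠ x in 𝓝 x0, (T.bmap (i, x)).2 ∈ U
  filter_upwards [T.next_nhds h hU'] with x hx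
  obtain ⟨y, hyU, hy⟩ := hx
  rw [T.bmap_eq hy]
  exact hyU

theorem bmap_hasFDerivAt {i j : Fin n} {x0 y0 : ℝ × ℝ} (h : T.Next (i, x0) (j, y0)) :
    HasFDerivAt (fun x => (T.bmap (i, x)).2)
      (dm ‖T.pt (j, y0) - T.pt (i, x0)‖ (T.curv i x0.1) (T.curv j y0.1)
        (Real.cos x0.2) (Real.cos y0.2)) x0 := by
  refine T.next_hasFDerivAt h ?_ (T.bmap_continuousAt h) ?_
  · show (T.bmap (i, x0)).2 = y0
    rw [T.bmap_eq h]
  · filter_upwards [T.bmap_eventually h] with x hx
    have h1 : (j, (T.bmap (i, x)).2) = T.bmap (i, x) := Prod.ext hx.1.symm rfl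
    rw [h1]
    exact hx.2

/-- The set of `x` with `(i, x) ∈ dom` is open (for each `i`). -/
theorem isOpen_dom_slice (i : Fin n) : IsOpen {x : ℝ × ℝ | (i, x) ∈ T.dom} := by
  rw [isOpen_iff_mem_nhds]
  rintro x0 ⟨⟨j, y0⟩, h⟩
  filter_upwards [T.bmap_eventually h] with x hx
  exact ⟨_, hx.2⟩

theorem isOpen_dom_slice2 (i j : Fin n) :
    IsOpen {x : ℝ × ℝ | (i, x) ∈ T.dom ∧ (T.bmap (i, x)).1 = j} := by
  rw [isOpen_iff_mem_nhds]
  rintro x0 ⟨⟨⟨k, y0⟩, h⟩, hj⟩
  rw [T.bmap_eq h] at hj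
  have hj' : k = j := hj
  subst hj'
  filter_upwards [T.bmap_eventually h] with x hx
  exact ⟨⟨_, hx.2⟩, hx.1⟩

theorem measurableSet_dom : MeasurableSet T.dom := by
  have h : T.dom = ⋃ i : Fin n, ({i} : Set (Fin n)) ×ˢ {x : ℝ × ℝ | (i, x) ∈ T.dom} := by
    ext ⟨i, x⟩
    simp only [mem_iUnion, mem_prod, mem_singleton_iff]
    constructor
    · intro hx
      exact ⟨i, rfl, hx⟩
    · rintro ⟨k, hk, hx⟩
      have hk' : i = k := hk
      subst hk'
      exact hx
  rw [h]
  exact MeasurableSet.iUnion fun i =>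
    (measurableSet_singleton i).prod (T.isOpen_dom_slice i).measurableSet

theorem measurableSet_phase : MeasurableSet T.phase := by
  have h : T.phase = ⋃ i : Fin n, ({i} : Set (Fin n)) ×ˢ
      (Ioo (0 : ℝ) (T.len i) ×ˢ Ioo (-(Real.pi / 2)) (Real.pi / 2)) := by
    ext ⟨i, x⟩
    simp only [mem_iUnion, mem_prod, mem_singleton_iff]
    constructor
    · intro hx
      exact ⟨i, rfl, hx.1, hx.2⟩
    · rintro ⟨k, hk, hx⟩
      have hk' : i = k := hk
      subst hk'
      exact ⟨hx.1, hx.2⟩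
  rw [h]
  exact MeasurableSet.iUnion fun i =>
    (measurableSet_singleton i).prod (measurableSet_Ioo.prod measurableSet_Ioo)

/-- The billiard map is continuous on every open slice of `dom` and constant off `dom`. -/
theorem measurable_bmap : Measurable T.bmap := by
  refine measurable_from_prod_countable_right fun i => ?_
  refine measurable_of_restrict_of_restrict_compl (s := {x : ℝ × ℝ | (i, x) ∈ T.dom})
    (T.isOpen_dom_slice i).measurableSet ?_ ?_
  · refine Continuous.measurable ?_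
    rw [← continuousOn_iff_continuous_domRestrict]
    rintro x0 ⟨⟨j, y0⟩, h⟩
    refine ContinuousAt.continuousWithinAt ?_
    have h1 : ContinuousAt (fun x => (T.bmap (i, x)).1) x0 := by
      refine ContinuousAt.congr (f := fun _ => j) continuousAt_const ?_
      filter_upwards [T.bmap_eventually h] with x hx
      exact hx.1.symm
    exact h1.prodMk (T.bmap_continuousAt h)
  · have h2 : ({x : ℝ × ℝ | (i, x) ∈ T.dom}ᶜ).domRestrict (fun x => T.bmap (i, x)) =
        fun _ => ((0 : Fin n), (0 : ℝ), (0 : ℝ)) := by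
      funext x
      show T.bmap (i, x.1) = _
      rw [bmap, dif_neg]
      exact x.2
    rw [h2]
    exact measurable_const

end Table

end

end Pool.Agent.MP2e716c
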