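import Pool.Agent.H.MP_2e716c_an.Defs

open Set MeasureTheory Filter Topology

namespace Pool.Agent.MP2e716c

noncomputable section

theorem ip_comm (a b : ℂ) : ip a b = ip b a := by simp only [ip]; ring
theorem ip_add_left (a b c : ℂ) : ip (a + b) c = ip a c + ip b c := by
  simp only [ip, Complex.add_re, Complex.add_im]; ring
theorem ip_add_right (a b c : ℂ) : ip a (b + c) = ip a b + ip a c := by
  simp only [ip, Complex.add_re, Complex.add_im]; ring
theorem ip_sub_left (a b c : ℂ) : ip (a - b) c = ip a c - ip b c := by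
  simp only [ip, Complex.sub_re, Complex.sub_im]; ring
theorem ip_sub_right (a b c : ℂ) : ip a (b - c) = ip a b - ip a c := by
  simp only [ip, Complex.sub_re, Complex.sub_im]; ring
theorem ip_neg_left (a b : ℂ) : ip (-a) b = -ip a b := by
  simp only [ip, Complex.neg_re, Complex.neg_im]; ring
theorem ip_neg_right (a b : ℂ) : ip a (-b) = -ip a b := by
  simp only [ip, Complex.neg_re, Complex.neg_im]; ring
theorem ip_zero_left (b : ℂ) : ip 0 b = 0 := by simp [ip]
theorem ip_zero_right (b : ℂ) : ip b 0 = 0 := by simp [ip]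
theorem ip_rmul_left (t : ℝ) (a b : ℂ) : ip (t * a) b = t * ip a b := by
  simp only [ip, Complex.mul_re, Complex.mul_im, Complex.ofReal_re, Complex.ofReal_im]; ring
theorem ip_rmul_right (t : ℝ) (a b : ℂ) : ip a (t * b) = t * ip a b := by
  simp only [ip, Complex.mul_re, Complex.mul_im, Complex.ofReal_re, Complex.ofReal_im]; ring
theorem ip_self (a : ℂ) : ip a a = ‖a‖ ^ 2 := by
  rw [← Complex.normSq_eq_norm_sq, Complex.normSq_apply, ip]
theorem ip_I_mul (a b : ℂ) : ip (Complex.I * a) (Complex.I * b) = ip a b := by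
  simp only [ip, Complex.mul_re, Complex.mul_im, Complex.I_re, Complex.I_im]; ring
theorem ip_I_self (a : ℂ) : ip a (Complex.I * a) = 0 := by
  simp only [ip, Complex.mul_re, Complex.mul_im, Complex.I_re, Complex.I_im]; ring
theorem ip_self_I (a : ℂ) : ip (Complex.I * a) a = 0 := by
  simp only [ip, Complex.mul_re, Complex.mul_im, Complex.I_re, Complex.I_im]; ring
theorem ip_I_mul_right (a b : ℂ) : ip a (Complex.I * b) = -ip (Complex.I * a) b := by
  simp only [ip, Complex.mul_re, Complex.mul_im, Complex.I_re, Complex.I_im]; ring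
theorem abs_ip_le (a b : ℂ) : |ip a b| ≤ ‖a‖ * ‖b‖ := by
  have h : ip a b = (a * (starRingEnd ℂ) b).re := by
    simp only [ip, Complex.mul_re, Complex.conj_re, Complex.conj_im]; ring
  rw [h]
  calc |(a * (starRingEnd ℂ) b).re| ≤ ‖a * (starRingEnd ℂ) b‖ := Complex.abs_re_le_norm _
    _ = ‖a‖ * ‖b‖ := by rw [norm_mul, RCLike.norm_conj]

/-- Decomposition in the orthonormal frame `u, I u`. -/
theorem ip_decomp (v u : ℂ) (hu : ‖u‖ = 1) :
    v = (ip v u : ℂ) * u + (ip v (Complex.I * u) : ℂ) * (Complex.I * u) := by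
  have h1 : u.re * u.re + u.im * u.im = 1 := by
    have := ip_self u; rw [hu] at this; simpa [ip] using this
  apply Complex.ext
  · simp only [ip, Complex.add_re, Complex.mul_re, Complex.mul_im, Complex.I_re, Complex.I_im,
      Complex.ofReal_re, Complex.ofReal_im]
    linear_combination (-v.re) * h1
  · simp only [ip, Complex.add_im, Complex.mul_re, Complex.mul_im, Complex.I_re, Complex.I_im,
      Complex.ofReal_re, Complex.ofReal_im]
    linear_combination (-v.im) * h1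

theorem ip_continuous : Continuous (fun p : ℂ × ℂ => ip p.1 p.2) := by
  unfold ip; fun_prop

theorem norm_sq_decomp (v u : ℂ) (hu : ‖u‖ = 1) :
    ‖v‖ ^ 2 = ip v u ^ 2 + ip v (Complex.I * u) ^ 2 := by
  have h1 : u.re * u.re + u.im * u.im = 1 := by
    have := ip_self u; rw [hu] at this; simpa [ip] using this
  rw [← ip_self]
  simp only [ip, Complex.mul_re, Complex.mul_im, Complex.I_re, Complex.I_im]
  linear_combination (-(v.re * v.re + v.im * v.im)) * h1

namespace Table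

variable {n : ℕ} [NeZero n] (T : Table n)

theorem tang_norm {z : Fin n × ℝ × ℝ} (hz : z ∈ T.phase) : ‖T.tang z‖ = 1 :=
  T.unit z.1 z.2.1 ⟨hz.1.1.le, hz.1.2.le⟩

theorem cos_pos {z : Fin n × ℝ × ℝ} (hz : z ∈ T.phase) : 0 < Real.cos z.2.2 :=
  Real.cos_pos_of_mem_Ioo hz.2

theorem nor_norm {z : Fin n × ℝ × ℝ} (hz : z ∈ T.phase) : ‖T.nor z‖ = 1 := by
  rw [nor, norm_mul, Complex.norm_I, one_mul, T.tang_norm hz]

theorem ip_vel_nor {z : Fin n × ℝ × ℝ} (hz : z ∈ T.phase) :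
    ip (T.vel z) (T.nor z) = Real.cos z.2.2 := by
  have h : ip (T.tang z) (T.nor z) = 0 := ip_I_self _
  rw [vel, ip_add_left, ip_rmul_left, ip_rmul_left, ip_self, T.nor_norm hz, h]
  ring

theorem ip_vel_tang {z : Fin n × ℝ × ℝ} (hz : z ∈ T.phase) :
    ip (T.vel z) (T.tang z) = Real.sin z.2.2 := by
  simp only [vel, nor, ip_add_left, ip_rmul_left, ip_self_I, ip_self, T.tang_norm hz]
  ring

theorem ip_inc_nor {z : Fin n × ℝ × ℝ} (hz : z ∈ T.phase) :
    ip (T.inc z) (T.nor z) = -Real.cos z.2.2 := by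
  have h : ip (T.tang z) (T.nor z) = 0 := ip_I_self _
  rw [inc, ip_add_left, neg_mul, ip_neg_left, ip_rmul_left, ip_rmul_left, ip_self, T.nor_norm hz, h]
  ring

theorem ip_inc_tang {z : Fin n × ℝ × ℝ} (hz : z ∈ T.phase) :
    ip (T.inc z) (T.tang z) = Real.sin z.2.2 := by
  simp only [inc, nor, ip_add_left, neg_mul, ip_neg_left, ip_rmul_left, ip_self_I, ip_self,
    T.tang_norm hz]
  ring

theorem vel_norm {z : Fin n × ℝ × ℝ} (hz : z ∈ T.phase) : ‖T.vel z‖ = 1 := by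
  have h := norm_sq_decomp (T.vel z) (T.tang z) (T.tang_norm hz)
  have h1 := T.ip_vel_tang hz
  have h2 := T.ip_vel_nor hz
  rw [nor] at h2
  rw [h1, h2, Real.sin_sq_add_cos_sq] at h
  nlinarith [norm_nonneg (T.vel z)]

theorem inc_norm {z : Fin n × ℝ × ℝ} (hz : z ∈ T.phase) : ‖T.inc z‖ = 1 := by
  have h := norm_sq_decomp (T.inc z) (T.tang z) (T.tang_norm hz)
  have h1 := T.ip_inc_tang hz
  have h2 := T.ip_inc_nor hz
  rw [nor] at h2
  rw [h1, h2, neg_sq, Real.sin_sq_add_cos_sq] at h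
  nlinarith [norm_nonneg (T.inc z)]

theorem angle_inj {a b : ℝ} (ha : a ∈ Ioo (-(Real.pi / 2)) (Real.pi / 2))
    (hb : b ∈ Ioo (-(Real.pi / 2)) (Real.pi / 2)) (h : Real.sin a = Real.sin b) : a = b :=
  Real.injOn_sin ⟨ha.1.le, ha.2.le⟩ ⟨hb.1.le, hb.2.le⟩ h

/-- Angle coordinate of an outgoing unit vector. -/
theorem vel_arcsin (i : Fin n) {r : ℝ} (hr : r ∈ Ioo 0 (T.len i)) {v : ℂ} (hv : ‖v‖ = 1)
    (h : 0 < ip v (Complex.I * deriv (T.γ i) r)) :
    (i, r, Real.arcsin (ip v (deriv (T.γ i) r))) ∈ T.phase ∧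
      T.vel (i, r, Real.arcsin (ip v (deriv (T.γ i) r))) = v := by
  have hu : ‖deriv (T.γ i) r‖ = 1 := T.unit i r ⟨hr.1.le, hr.2.le⟩
  have hd := norm_sq_decomp v _ hu
  rw [hv] at hd
  set a := ip v (deriv (T.γ i) r) with ha
  set b := ip v (Complex.I * deriv (T.γ i) r) with hb
  have ha1 : -1 < a := by nlinarith
  have ha2 : a < 1 := by nlinarith
  have hph : (i, r, Real.arcsin a) ∈ T.phase :=
    ⟨hr, Real.neg_pi_div_two_lt_arcsin.2 ha1, Real.arcsin_lt_pi_div_two.2 ha2⟩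
  refine ⟨hph, ?_⟩
  have hs : Real.sin (Real.arcsin a) = a := Real.sin_arcsin ha1.le ha2.le
  have hc : Real.cos (Real.arcsin a) = b := by
    rw [Real.cos_arcsin]
    rw [show 1 - a ^ 2 = b ^ 2 by linarith]
    exact Real.sqrt_sq h.le
  rw [vel]
  show (Real.cos (Real.arcsin a) : ℂ) * (Complex.I * deriv (T.γ i) r) +
    (Real.sin (Real.arcsin a) : ℂ) * deriv (T.γ i) r = v
  rw [hs, hc, add_comm]
  exact (ip_decomp v _ hu).symm

/-- Angle coordinate of an incoming unit vector. -/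
theorem inc_arcsin (i : Fin n) {r : ℝ} (hr : r ∈ Ioo 0 (T.len i)) {v : ℂ} (hv : ‖v‖ = 1)
    (h : ip v (Complex.I * deriv (T.γ i) r) < 0) :
    (i, r, Real.arcsin (ip v (deriv (T.γ i) r))) ∈ T.phase ∧
      T.inc (i, r, Real.arcsin (ip v (deriv (T.γ i) r))) = v := by
  have hu : ‖deriv (T.γ i) r‖ = 1 := T.unit i r ⟨hr.1.le, hr.2.le⟩
  have hd := norm_sq_decomp v _ hu
  rw [hv] at hd
  set a := ip v (deriv (T.γ i) r) with ha
  set b := ip v (Complex.I * deriv (T.γ i) r) with hb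
  have ha1 : -1 < a := by nlinarith
  have ha2 : a < 1 := by nlinarith
  have hph : (i, r, Real.arcsin a) ∈ T.phase :=
    ⟨hr, Real.neg_pi_div_two_lt_arcsin.2 ha1, Real.arcsin_lt_pi_div_two.2 ha2⟩
  refine ⟨hph, ?_⟩
  have hs : Real.sin (Real.arcsin a) = a := Real.sin_arcsin ha1.le ha2.le
  have hc : Real.cos (Real.arcsin a) = -b := by
    rw [Real.cos_arcsin]
    rw [show 1 - a ^ 2 = (-b) ^ 2 by rw [neg_sq]; linarith]
    exact Real.sqrt_sq (by linarith)
  rw [inc]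
  show -(Real.cos (Real.arcsin a) : ℂ) * (Complex.I * deriv (T.γ i) r) +
    (Real.sin (Real.arcsin a) : ℂ) * deriv (T.γ i) r = v
  rw [hs, hc, add_comm]
  rw [show -((-b : ℝ) : ℂ) = (b : ℂ) by push_cast; ring]
  exact (ip_decomp v _ hu).symm

theorem arc_mem_frontier (i : Fin n) {r : ℝ} (hr : r ∈ Icc 0 (T.len i)) :
    T.γ i r ∈ frontier T.region := by
  rw [T.frontier_eq]; exact mem_iUnion.2 ⟨i, r, hr, rfl⟩

theorem frontier_not_mem {x : ℂ} (hx : x ∈ frontier T.region) : x ∉ T.region := by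
  rw [T.isOpen.frontier_eq] at hx; exact hx.2

theorem pt_mem_frontier {z : Fin n × ℝ × ℝ} (hz : z ∈ T.phase) : T.pt z ∈ frontier T.region :=
  T.arc_mem_frontier z.1 ⟨hz.1.1.le, hz.1.2.le⟩

theorem pt_not_mem {z : Fin n × ℝ × ℝ} (hz : z ∈ T.phase) : T.pt z ∉ T.region :=
  T.frontier_not_mem (T.pt_mem_frontier hz)

theorem pt_inj {z w : Fin n × ℝ × ℝ} (hz : z ∈ T.phase) (hw : w ∈ T.phase)
    (h : T.pt z = T.pt w) : z.1 = w.1 ∧ z.2.1 = w.2.1 :=
  T.inj _ _ _ _ ⟨hz.1.1.le, hz.1.2⟩ ⟨hw.1.1.le, hw.1.2⟩ h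

/-- The successor of a phase point is unique. -/
theorem next_unique {z a b : Fin n × ℝ × ℝ} (ha : T.Next z a) (hb : T.Next z b) : a = b := by
  obtain ⟨hz, hap, τ, hτ, hin, hpa, hva⟩ := ha
  obtain ⟨-, hbp, σ, hσ, hin', hpb, hvb⟩ := hb
  have hτσ : τ = σ := by
    rcases lt_trichotomy τ σ with h | h | h
    · exact absurd (hpa ▸ hin' τ ⟨hτ, h⟩) (T.pt_not_mem hap)
    · exact h
    · exact absurd (hpb ▸ hin σ ⟨hσ, h⟩) (T.pt_not_mem hbp)
  subst hτσ
  obtain ⟨h1, h2⟩ := T.pt_inj hap hbp (hpa.trans hpb.symm)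
  obtain ⟨i, r, θ⟩ := a
  obtain ⟨j, s, η⟩ := b
  simp only at h1 h2
  subst h1 h2
  have h3 : Real.sin θ = Real.sin η := by
    have e1 := T.ip_inc_tang hap
    have e2 := T.ip_inc_tang hbp
    rw [hva] at e1
    rw [hvb] at e2
    exact e1.symm.trans e2
  have h4 : θ = η := angle_inj hap.2 hbp.2 h3
  rw [h4]

/-- Time reversal. -/
def rev (z : Fin n × ℝ × ℝ) : Fin n × ℝ × ℝ := (z.1, z.2.1, -z.2.2)

omit [NeZero n] in
theorem rev_rev (z : Fin n × ℝ × ℝ) : rev (rev z) = z := by simp [rev]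

theorem rev_mem {z : Fin n × ℝ × ℝ} (hz : z ∈ T.phase) : rev z ∈ T.phase :=
  ⟨hz.1, by have := hz.2.2; simp only [rev]; linarith, by have := hz.2.1; simp only [rev]; linarith⟩

theorem pt_rev (z : Fin n × ℝ × ℝ) : T.pt (rev z) = T.pt z := rfl

theorem vel_rev (z : Fin n × ℝ × ℝ) : T.vel (rev z) = -T.inc z := by
  simp only [vel, inc, rev, nor, tang, Real.cos_neg, Real.sin_neg]; push_cast; ring

theorem inc_rev (z : Fin n × ℝ × ℝ) : T.inc (rev z) = -T.vel z := by
  simp only [vel, inc, rev, nor, tang, Real.cos_neg, Real.sin_neg]; push_cast; ring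

theorem next_rev {z a : Fin n × ℝ × ℝ} (h : T.Next z a) : T.Next (rev a) (rev z) := by
  obtain ⟨hz, ha, τ, hτ, hin, hp, hv⟩ := h
  refine ⟨T.rev_mem ha, T.rev_mem hz, τ, hτ, ?_, ?_, ?_⟩
  · intro t ht
    rw [pt_rev, vel_rev, hv, hp]
    have := hin (τ - t) ⟨by linarith [ht.2], by linarith [ht.1]⟩
    convert this using 1
    push_cast; ring
  · rw [pt_rev, pt_rev, vel_rev, hv, hp]; ring
  · rw [inc_rev, vel_rev, hv]

/-- The predecessor of a phase point is unique. -/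
theorem next_inj {z w a : Fin n × ℝ × ℝ} (hz : T.Next z a) (hw : T.Next w a) : z = w := by
  have := T.next_unique (T.next_rev hz) (T.next_rev hw)
  rw [← rev_rev z, this, rev_rev]

theorem bmap_eq {z a : Fin n × ℝ × ℝ} (h : T.Next z a) : T.bmap z = a := by
  have hex : ∃ z1, T.Next z z1 := ⟨a, h⟩
  rw [bmap, dif_pos hex]
  exact T.next_unique hex.choose_spec h

theorem next_bmap {z : Fin n × ℝ × ℝ} (h : ∃ a, T.Next z a) : T.Next z (T.bmap z) := by
  obtain ⟨a, ha⟩ := h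
  rwa [T.bmap_eq ha]

theorem zero_not_mem : ((0 : Fin n), (0 : ℝ), (0 : ℝ)) ∉ T.phase := fun h => lt_irrefl _ h.1.1

theorem next_of_bmap_mem {z : Fin n × ℝ × ℝ} (h : T.bmap z ∈ T.phase) : T.Next z (T.bmap z) := by
  by_cases hex : ∃ a, T.Next z a
  · exact T.next_bmap hex
  · rw [bmap, dif_neg hex] at h
    exact absurd h T.zero_not_mem

end Table

end

end Pool.Agent.MP2e716c
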