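import Mathlib

open Set Filter Topology

namespace Pool.Agent.MP2e716c

noncomputable section

open Classical in
theorem cone_card (G : Set ℕ) (k : ℕ) :
    Nat.card {l : ℕ // l < k ∧ l ∈ G} = Nat.count (fun l => l ∈ G) k := by
  rw [Nat.count_eq_card_filter_range]
  exact Nat.subtype_card _ (fun l => by simp)

/-- Lower bound for a sequence growing at the times in `G`. -/
theorem cone_iter (G : Set ℕ) (q : ℕ → ℝ) (κ : ℝ) (k1 : ℕ)
    (h1 : ∀ k, k1 ≤ k → q k ≤ q (k + 1)) (h2 : ∀ k, k1 ≤ k → k ∈ G → q k + κ ≤ q (k + 1)) :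
    ∀ k, k1 ≤ k → q k1 + κ * ((Nat.card {l : ℕ // l < k ∧ l ∈ G} : ℝ) -
      (Nat.card {l : ℕ // l < k1 ∧ l ∈ G} : ℝ)) ≤ q k := by
  classical
  intro k hk
  rw [cone_card, cone_card]
  induction k, hk using Nat.le_induction with
  | base => simp
  | succ k hk ih =>
    rw [Nat.count_succ]
    by_cases hG : k ∈ G
    · have := h2 k hk hG
      simp only [hG, if_true]
      push_cast
      linarith
    · have := h1 k hk
      simp only [hG, if_false]
      push_cast
      linarith

/-- Growth and decay along a product of nonnegative unimodular matrices `(a b; c d)`.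
`G` is the set of times at which all entries are in `[m, M]`; it is visited with density `≥ c0`
infinitely often.  Write `Q k = x k * y k`, `κ = log (1 + 2 m^2)`, `S k = #(G ∩ [0, k))`.
Facts. `(x k, y k) ≠ 0` for all `k` (determinant 1).
(A) If `x, y` have the same sign (`Q ≥ 0`) then `Q (k+1) = (a x + b y)(c x + d y) ≥ (a d + b c) Q k =
(1 + 2 b c) Q k`, and if `k ∈ G`, `Q k ≥ 0` then `Q (k+1) > 0`.
(B) If `Q k < 0` and `Q (k+1) < 0` then `|Q k| ≥ (1 + 2 b c) |Q (k+1)|` (apply the inverse matrix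
`(d -b; -c a)` to `(x', -y')`).
(C) if moreover `k ∈ G` then `c/d < |y k / x k| < a/b`, so `max |x k| |y k| ^ 2 ≤ (M/m) |Q k|`.
Case 1: `Q k0 ≥ 0` for some `k0`.  After the next time in `G`: `Q k1 > 0` and
`Q k ≥ Q k1 exp (κ (S k - S k1))`, `max |x|,|y| ^ 2 ≥ Q`; for infinitely many `k`, `S k ≥ c0 k`.
Case 2: `Q k < 0` for all `k`: `|Q k| ≤ |Q 0| exp (-κ S k)` and (C) at the times `k ∈ G`. -/
theorem cone_growth (a b c d x y : ℕ → ℝ) (G : Set ℕ) {m M c0 : ℝ} (hm : 0 < m) (hc0 : 0 < c0)
    (ha : ∀ k, 0 ≤ a k) (hb : ∀ k, 0 ≤ b k) (hc : ∀ k, 0 ≤ c k) (hd : ∀ k, 0 ≤ d k)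
    (hdet : ∀ k, a k * d k - b k * c k = 1)
    (hx : ∀ k, x (k + 1) = -(a k * x k + b k * y k))
    (hy : ∀ k, y (k + 1) = -(c k * x k + d k * y k)) (h0 : x 0 ≠ 0 ∨ y 0 ≠ 0)
    (hG : ∀ k ∈ G, m ≤ a k ∧ m ≤ b k ∧ m ≤ c k ∧ m ≤ d k ∧ a k ≤ M ∧ b k ≤ M ∧ c k ≤ M ∧ d k ≤ M)
    (hfreq : ∃ᶠ k : ℕ in atTop, k ∈ G ∧ c0 * k ≤ (Nat.card {l : ℕ // l < k ∧ l ∈ G} : ℝ)) :
    (∃ᶠ k : ℕ in atTop, c0 * Real.log (1 + 2 * m ^ 2) / 4 * k ≤ Real.log (max |x k| |y k|)) ∨
    (∃ᶠ k : ℕ in atTop, k ∈ G ∧
      Real.log (max |x k| |y k|) ≤ -(c0 * Real.log (1 + 2 * m ^ 2) / 4 * k)) := by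
  have hκ : 0 < Real.log (1 + 2 * m ^ 2) := Real.log_pos (by nlinarith [pow_pos hm 2])
  set κ := Real.log (1 + 2 * m ^ 2) with hκdef
  have hm2 : 0 < 1 + 2 * m ^ 2 := by positivity
  -- the vector never vanishes
  have hne : ∀ k, x k ≠ 0 ∨ y k ≠ 0 := by
    intro k
    induction k with
    | zero => exact h0
    | succ k ih =>
      by_contra hcon
      push Not at hcon
      obtain ⟨e1, e2⟩ := hcon
      rw [hx] at e1
      rw [hy] at e2
      have f1 : x k = 0 := by
        linear_combination (-(d k)) * e1 + (b k) * e2 - x k * hdet k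
      have f2 : y k = 0 := by
        linear_combination (c k) * e1 - (a k) * e2 - y k * hdet k
      rcases ih with h | h
      · exact h f1
      · exact h f2
  have hsq : ∀ k, 0 < x k ^ 2 + y k ^ 2 := by
    intro k
    rcases hne k with h | h
    · have := pow_pos (abs_pos.2 h) 2
      rw [sq_abs] at this
      nlinarith [sq_nonneg (y k)]
    · have := pow_pos (abs_pos.2 h) 2
      rw [sq_abs] at this
      nlinarith [sq_nonneg (x k)]
  have hQ : ∀ k, x (k + 1) * y (k + 1) =
      a k * c k * x k ^ 2 + b k * d k * y k ^ 2 + (1 + 2 * (b k * c k)) * (x k * y k) := by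
    intro k
    rw [hx, hy]
    linear_combination (x k * y k) * hdet k
  -- inverse relation
  have hQi : ∀ k, -(x k * y k) =
      d k * c k * x (k + 1) ^ 2 + a k * b k * y (k + 1) ^ 2 +
        (1 + 2 * (b k * c k)) * (-(x (k + 1) * y (k + 1))) := by
    intro k
    have e1 : x k = -(d k * x (k + 1) - b k * y (k + 1)) := by
      rw [hx, hy]
      linear_combination (-x k) * hdet k
    have e2 : y k = -(-(c k) * x (k + 1) + a k * y (k + 1)) := by
      rw [hx, hy]
      linear_combination (-y k) * hdet k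
    rw [e1, e2]
    linear_combination (-(x (k + 1) * y (k + 1))) * hdet k
  by_cases hcase : ∃ k0, 0 ≤ x k0 * y k0
  · left
    obtain ⟨k0, hk0⟩ := hcase
    have hbc : ∀ k, 0 ≤ b k * c k := fun k => mul_nonneg (hb k) (hc k)
    have hstep : ∀ k, 0 ≤ x k * y k → x k * y k ≤ x (k + 1) * y (k + 1) := by
      intro k hk
      rw [hQ k]
      have t1 : 0 ≤ a k * c k * x k ^ 2 := by have := ha k; have := hc k; positivity
      have t2 : 0 ≤ b k * d k * y k ^ 2 := by have := hb k; have := hd k; positivity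
      have t3 : 0 ≤ (b k * c k) * (x k * y k) := mul_nonneg (hbc k) hk
      nlinarith
    have hstepG : ∀ k, k ∈ G → 0 ≤ x k * y k →
        (1 + 2 * m ^ 2) * (x k * y k) ≤ x (k + 1) * y (k + 1) := by
      intro k hkG hk
      rw [hQ k]
      obtain ⟨g1, g2, g3, g4, -⟩ := hG k hkG
      have t1 : 0 ≤ a k * c k * x k ^ 2 := by have := ha k; have := hc k; positivity
      have t2 : 0 ≤ b k * d k * y k ^ 2 := by have := hb k; have := hd k; positivity
      have t3 : m ^ 2 ≤ b k * c k := by nlinarith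
      have t4 : m ^ 2 * (x k * y k) ≤ (b k * c k) * (x k * y k) :=
        mul_le_mul_of_nonneg_right t3 hk
      nlinarith
    have hstepP : ∀ k, k ∈ G → 0 ≤ x k * y k → 0 < x (k + 1) * y (k + 1) := by
      intro k hkG hk
      rw [hQ k]
      obtain ⟨g1, g2, g3, g4, -⟩ := hG k hkG
      have t1 : m ^ 2 * x k ^ 2 ≤ a k * c k * x k ^ 2 :=
        mul_le_mul_of_nonneg_right (by nlinarith) (sq_nonneg _)
      have t2 : m ^ 2 * y k ^ 2 ≤ b k * d k * y k ^ 2 :=
        mul_le_mul_of_nonneg_right (by nlinarith) (sq_nonneg _)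
      have t3 : 0 ≤ (1 + 2 * (b k * c k)) * (x k * y k) :=
        mul_nonneg (by have := hbc k; linarith) hk
      have t4 : 0 < m ^ 2 * (x k ^ 2 + y k ^ 2) := mul_pos (pow_pos hm 2) (hsq k)
      nlinarith
    have hnn : ∀ k, k0 ≤ k → 0 ≤ x k * y k := by
      intro k hk
      induction k, hk using Nat.le_induction with
      | base => exact hk0
      | succ k hk ih => exact ih.trans (hstep k ih)
    -- the first visit after k0
    obtain ⟨k2, hk2, hk2G, -⟩ := (Filter.frequently_atTop.1 hfreq) k0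
    have hpos1 : 0 < x (k2 + 1) * y (k2 + 1) := hstepP k2 hk2G (hnn k2 hk2)
    have hpos : ∀ k, k2 + 1 ≤ k → 0 < x k * y k := by
      intro k hk
      induction k, hk using Nat.le_induction with
      | base => exact hpos1
      | succ k hk ih => exact ih.trans_le (hstep k ih.le)
    have hit := cone_iter G (fun k => Real.log (x k * y k)) κ (k2 + 1)
      (fun k hk => Real.log_le_log (hpos k hk) (hstep k (hpos k hk).le))
      (fun k hk hkG => by
        have h1 := hstepG k hkG (hpos k hk).le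
        have h2 := Real.log_le_log (mul_pos hm2 (hpos k hk)) h1
        rw [Real.log_mul hm2.ne' (hpos k hk).ne'] at h2
        show Real.log (x k * y k) + κ ≤ Real.log (x (k + 1) * y (k + 1))
        linarith)
    set C := κ * (Nat.card {l : ℕ // l < k2 + 1 ∧ l ∈ G} : ℝ) -
      Real.log (x (k2 + 1) * y (k2 + 1)) with hC
    have hev : ∀ᶠ k : ℕ in atTop, k2 + 1 ≤ k ∧ C ≤ c0 * κ / 2 * (k : ℝ) := by
      refine (eventually_ge_atTop (k2 + 1)).and ?_
      have : Tendsto (fun k : ℕ => c0 * κ / 2 * (k : ℝ)) atTop atTop :=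
        tendsto_natCast_atTop_atTop.const_mul_atTop (by positivity)
      exact this.eventually_ge_atTop C
    refine (hfreq.and_eventually hev).mono ?_
    rintro k ⟨⟨-, hkS⟩, hk, hkC⟩
    have h1 : Real.log (x (k2 + 1) * y (k2 + 1)) +
        κ * ((Nat.card {l : ℕ // l < k ∧ l ∈ G} : ℝ) -
          (Nat.card {l : ℕ // l < k2 + 1 ∧ l ∈ G} : ℝ)) ≤ Real.log (x k * y k) := hit k hk
    have h2 : x k * y k ≤ max |x k| |y k| ^ 2 := by
      have e1 : x k * y k ≤ |x k| * |y k| := by
        rw [← abs_mul]; exact le_abs_self _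
      have e2 : |x k| * |y k| ≤ max |x k| |y k| * max |x k| |y k| :=
        mul_le_mul (le_max_left _ _) (le_max_right _ _) (abs_nonneg _)
          ((abs_nonneg _).trans (le_max_left _ _))
      nlinarith
    have h3 := Real.log_le_log (hpos k hk) h2
    rw [Real.log_pow] at h3
    push_cast at h3
    have h4 : κ * (c0 * k) ≤ κ * (Nat.card {l : ℕ // l < k ∧ l ∈ G} : ℝ) :=
      mul_le_mul_of_nonneg_left hkS hκ.le
    linarith
  · right
    push Not at hcase
    have hbc : ∀ k, 0 ≤ b k * c k := fun k => mul_nonneg (hb k) (hc k)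
    have hstep : ∀ k, -(x (k + 1) * y (k + 1)) ≤ -(x k * y k) := by
      intro k
      rw [hQi k]
      have t1 : 0 ≤ d k * c k * x (k + 1) ^ 2 := by have := hd k; have := hc k; positivity
      have t2 : 0 ≤ a k * b k * y (k + 1) ^ 2 := by have := ha k; have := hb k; positivity
      have t3 : 0 ≤ (b k * c k) * (-(x (k + 1) * y (k + 1))) :=
        mul_nonneg (hbc k) (by have := hcase (k + 1); linarith)
      nlinarith
    have hstepG : ∀ k, k ∈ G → (1 + 2 * m ^ 2) * (-(x (k + 1) * y (k + 1))) ≤ -(x k * y k) := by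
      intro k hkG
      rw [hQi k]
      obtain ⟨g1, g2, g3, g4, -⟩ := hG k hkG
      have t1 : 0 ≤ d k * c k * x (k + 1) ^ 2 := by have := hd k; have := hc k; positivity
      have t2 : 0 ≤ a k * b k * y (k + 1) ^ 2 := by have := ha k; have := hb k; positivity
      have t3 : m ^ 2 ≤ b k * c k := by nlinarith
      have t4 : m ^ 2 * (-(x (k + 1) * y (k + 1))) ≤ (b k * c k) * (-(x (k + 1) * y (k + 1))) :=
        mul_le_mul_of_nonneg_right t3 (by have := hcase (k + 1); linarith)
      nlinarith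
    have hpos : ∀ k, 0 < -(x k * y k) := fun k => by have := hcase k; linarith
    have hit := cone_iter G (fun k => -Real.log (-(x k * y k))) κ 0
      (fun k _ => by
        have := Real.log_le_log (hpos (k + 1)) (hstep k)
        show -Real.log (-(x k * y k)) ≤ -Real.log (-(x (k + 1) * y (k + 1)))
        linarith)
      (fun k _ hkG => by
        have h2 := Real.log_le_log (mul_pos hm2 (hpos (k + 1))) (hstepG k hkG)
        rw [Real.log_mul hm2.ne' (hpos (k + 1)).ne'] at h2
        show -Real.log (-(x k * y k)) + κ ≤ -Real.log (-(x (k + 1) * y (k + 1)))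
        linarith)
    have hS0 : (Nat.card {l : ℕ // l < 0 ∧ l ∈ G} : ℝ) = 0 := by
      classical
      rw [cone_card]; simp
    rw [hS0] at hit
    set C := Real.log (M / m) + Real.log (-(x 0 * y 0)) with hC
    have hev : ∀ᶠ k : ℕ in atTop, C ≤ c0 * κ / 2 * (k : ℝ) := by
      have : Tendsto (fun k : ℕ => c0 * κ / 2 * (k : ℝ)) atTop atTop :=
        tendsto_natCast_atTop_atTop.const_mul_atTop (by positivity)
      exact this.eventually_ge_atTop C
    refine (hfreq.and_eventually hev).mono ?_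
    rintro k ⟨⟨hkG, hkS⟩, hkC⟩
    refine ⟨hkG, ?_⟩
    obtain ⟨g1, g2, g3, g4, g5, g6, g7, g8⟩ := hG k hkG
    have hM : 0 < M := lt_of_lt_of_le hm (g1.trans g5)
    have h1 : -Real.log (-(x 0 * y 0)) +
        κ * ((Nat.card {l : ℕ // l < k ∧ l ∈ G} : ℝ) - 0) ≤ -Real.log (-(x k * y k)) :=
      hit k (Nat.zero_le k)
    have hq := hcase k
    have hq' := hcase (k + 1)
    have hxa : |x k| * |y k| = -(x k * y k) := by rw [← abs_mul, abs_of_neg hq]
    have hx0 : 0 < |x k| := by
      rcases eq_or_ne (x k) 0 with h | h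
      · rw [h, zero_mul] at hq; exact absurd hq (lt_irrefl _)
      · exact abs_pos.2 h
    have hy0 : 0 < |y k| := by
      rcases eq_or_ne (y k) 0 with h | h
      · rw [h, mul_zero] at hq; exact absurd hq (lt_irrefl _)
      · exact abs_pos.2 h
    -- the product in absolute values
    have hprod : (a k * |x k| - b k * |y k|) * (c k * |x k| - d k * |y k|) < 0 := by
      have e : (a k * |x k| - b k * |y k|) * (c k * |x k| - d k * |y k|) =
          x (k + 1) * y (k + 1) := by
        rw [hx, hy]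
        have s1 : |x k| ^ 2 = x k ^ 2 := sq_abs _
        have s2 : |y k| ^ 2 = y k ^ 2 := sq_abs _
        linear_combination (a k * c k) * s1 + (b k * d k) * s2 -
          (a k * d k + b k * c k) * hxa
      rw [e]; exact hq'
    have hkey : b k * |y k| < a k * |x k| ∧ c k * |x k| < d k * |y k| := by
      rcases mul_neg_iff.1 hprod with ⟨h1, h2⟩ | ⟨h1, h2⟩
      · exact ⟨by linarith, by linarith⟩
      · exfalso
        -- a|x| < b|y|, d|y| < c|x|
        have e1 : a k * |x k| < b k * |y k| := by linarith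
        have e2 : d k * |y k| < c k * |x k| := by linarith
        have hdp : 0 < d k := lt_of_lt_of_le hm g4
        have hbp : 0 < b k := lt_of_lt_of_le hm g2
        have e3 : d k * (a k * |x k|) < d k * (b k * |y k|) := mul_lt_mul_of_pos_left e1 hdp
        have e4 : b k * (d k * |y k|) < b k * (c k * |x k|) := mul_lt_mul_of_pos_left e2 hbp
        have e5 := hdet k
        nlinarith
    have hbx : m * |y k| ≤ M * |x k| := by
      have e1 : m * |y k| ≤ b k * |y k| := mul_le_mul_of_nonneg_right g2 hy0.le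
      have e2 : a k * |x k| ≤ M * |x k| := mul_le_mul_of_nonneg_right g5 hx0.le
      linarith [hkey.1]
    have hby : m * |x k| ≤ M * |y k| := by
      have e1 : m * |x k| ≤ c k * |x k| := mul_le_mul_of_nonneg_right g3 hx0.le
      have e2 : d k * |y k| ≤ M * |y k| := mul_le_mul_of_nonneg_right g8 hy0.le
      linarith [hkey.2]
    have hmax : max |x k| |y k| ^ 2 ≤ M / m * (-(x k * y k)) := by
      rw [← hxa, div_mul_eq_mul_div, le_div_iff₀ hm]
      rcases le_total |x k| |y k| with h | h
      · rw [max_eq_right h]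
        nlinarith [mul_le_mul_of_nonneg_right hbx hy0.le]
      · rw [max_eq_left h]
        nlinarith [mul_le_mul_of_nonneg_right hby hx0.le]
    have hmaxpos : 0 < max |x k| |y k| := lt_max_of_lt_left hx0
    have h3 := Real.log_le_log (pow_pos hmaxpos 2) hmax
    rw [Real.log_pow, Real.log_mul (div_pos hM hm).ne' (hpos k).ne'] at h3
    push_cast at h3
    have h4 : κ * (c0 * k) ≤ κ * (Nat.card {l : ℕ // l < k ∧ l ∈ G} : ℝ) :=
      mul_le_mul_of_nonneg_left hkS hκ.le
    linarith

end

end Pool.Agent.MP2e716c
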