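import Mathlib

/-!
# Semi-dispersive billiard tables (MP_2e716c_an): definitions

The plane is `ℂ`.  A `Table n` is a bounded connected open region whose boundary is a simple closed
curve made of `n` regular `C^3` arcs, parametrised by arclength, with the region on the left.
-/

open Set MeasureTheory Filter Topology

namespace Pool.Agent.MP2e716c

noncomputable section

/-- Real inner product of two complex numbers. -/
def ip (a b : ℂ) : ℝ := a.re * b.re + a.im * b.im

/-- A billiard table with `n` boundary arcs `γ 0, ..., γ (n-1)` (indices modulo `n`). -/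
structure Table (n : ℕ) [NeZero n] where
  /-- length of the `i`-th arc -/
  len : Fin n → ℝ
  /-- arclength parametrisation of the `i`-th arc on `[0, len i]` -/
  γ : Fin n → ℝ → ℂ
  /-- the open region -/
  region : Set ℂ
  len_pos : ∀ i, 0 < len i
  smooth : ∀ i, ContDiff ℝ 3 (γ i)
  unit : ∀ i, ∀ r ∈ Icc 0 (len i), ‖deriv (γ i) r‖ = 1
  /-- the arcs form a closed curve -/
  closed : ∀ i, γ i (len i) = γ (i + 1) 0
  /-- the closed curve is simple -/
  inj : ∀ i j r s, r ∈ Ico 0 (len i) → s ∈ Ico 0 (len j) → γ i r = γ j s → i = j ∧ r = s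
  isOpen : IsOpen region
  bounded : Bornology.IsBounded region
  connected : IsConnected region
  frontier_eq : frontier region = ⋃ i, γ i '' Icc 0 (len i)
  /-- near an interior point of an arc the region is exactly the left side of the arc -/
  left : ∀ i, ∀ r ∈ Ioo 0 (len i), ∃ ε > 0, ∀ s h : ℝ, |s| < ε → 0 < h → h < ε →
    γ i (r + s) + h * (Complex.I * deriv (γ i) r) ∈ region ∧
    γ i (r + s) - h * (Complex.I * deriv (γ i) r) ∉ region

namespace Table

variable {n : ℕ} [NeZero n] (T : Table n)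

/-- Foot point of a phase point `z = (i, r, θ)`: the point of arc `i` at arclength `r`. -/
def pt (z : Fin n × ℝ × ℝ) : ℂ := T.γ z.1 z.2.1

/-- Unit tangent at the foot point. -/
def tang (z : Fin n × ℝ × ℝ) : ℂ := deriv (T.γ z.1) z.2.1

/-- Unit inward normal at the foot point. -/
def nor (z : Fin n × ℝ × ℝ) : ℂ := Complex.I * T.tang z

/-- Outgoing unit velocity, at angle `θ` with the inward normal. -/
def vel (z : Fin n × ℝ × ℝ) : ℂ :=
  (Real.cos z.2.2 : ℂ) * T.nor z + (Real.sin z.2.2 : ℂ) * T.tang z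

/-- Velocity just before the reflection whose outgoing velocity is `vel z`. -/
def inc (z : Fin n × ℝ × ℝ) : ℂ :=
  -(Real.cos z.2.2 : ℂ) * T.nor z + (Real.sin z.2.2 : ℂ) * T.tang z

/-- The phase space: foot point in the interior of an arc, angle in `(-π/2, π/2)`. -/
def phase : Set (Fin n × ℝ × ℝ) :=
  {z | z.2.1 ∈ Ioo 0 (T.len z.1) ∧ z.2.2 ∈ Ioo (-(Real.pi / 2)) (Real.pi / 2)}

/-- Curvature of the `i`-th arc; positive if the arc bends into the region. -/
def curv (i : Fin n) (r : ℝ) : ℝ :=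
  -ip (deriv (deriv (T.γ i)) r) (Complex.I * deriv (T.γ i) r)

/-- `z1` is the phase point following `z`: the open chord from the foot of `z` in the direction
`vel z` stays in the region until it ends at the foot of `z1`, where it is reflected. -/
def Next (z z1 : Fin n × ℝ × ℝ) : Prop :=
  z ∈ T.phase ∧ z1 ∈ T.phase ∧ ∃ τ : ℝ, 0 < τ ∧
    (∀ t ∈ Ioo 0 τ, T.pt z + t * T.vel z ∈ T.region) ∧
    T.pt z1 = T.pt z + τ * T.vel z ∧ T.inc z1 = T.vel z

open Classical in
/-- The billiard map (value `(0, 0, 0)`, outside the phase space, where it is not defined). -/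
def bmap (z : Fin n × ℝ × ℝ) : Fin n × ℝ × ℝ :=
  if h : ∃ z1, T.Next z z1 then h.choose else (0, 0, 0)

/-- Hyperbolicity of the billiard map: for almost every phase point `(i, x)`, all iterates are
defined and differentiable at `(i, x)` and there is `c > 0` such that for every tangent vector
`u ≠ 0` one has `c ≤ |(1/k) log ‖D(φ^k) u‖|` for infinitely many `k`; so no Lyapunov exponent
is zero. -/
def Hyperbolic : Prop :=
  ∀ i : Fin n, ∀ᵐ x : ℝ × ℝ, (i, x) ∈ T.phase →
    (∀ k : ℕ, T.bmap^[k] (i, x) ∈ T.phase ∧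
      (∀ᶠ y in 𝓝 x, (T.bmap^[k] (i, y)).1 = (T.bmap^[k] (i, x)).1) ∧
      DifferentiableAt ℝ (fun y => (T.bmap^[k] (i, y)).2) x) ∧
    ∃ c > 0, ∀ u : ℝ × ℝ, u ≠ 0 → ∃ᶠ k : ℕ in atTop,
      c * k ≤ |Real.log ‖fderiv ℝ (fun y => (T.bmap^[k] (i, y)).2) x u‖|

/-- The affine test field `x ↦ B x + b` is dissipation free (`⟨B v, v⟩ ≥ 0`), points into the
table (weakly) along all arcs of `S`, and one of these inequalities is somewhere strict. -/
def Unloaded (S : Set (Fin n)) : Prop :=
  ∃ (B : ℂ →L[ℝ] ℂ) (b : ℂ), (∀ v, 0 ≤ ip (B v) v) ∧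
    (∀ i ∈ S, ∀ r ∈ Icc 0 (T.len i), 0 ≤ ip (B (T.γ i r) + b) (Complex.I * deriv (T.γ i) r)) ∧
    ((∃ v, 0 < ip (B v) v) ∨
      ∃ i ∈ S, ∃ r ∈ Icc 0 (T.len i), 0 < ip (B (T.γ i r) + b) (Complex.I * deriv (T.γ i) r))

/-- Any two arcs of `S` (used for straight arcs) make an angle in `πℚ`. -/
def Rational (S : Set (Fin n)) : Prop :=
  ∀ i ∈ S, ∀ j ∈ S, ∃ q : ℚ,
    deriv (T.γ j) 0 = deriv (T.γ i) 0 * Complex.exp ((q : ℂ) * (Real.pi : ℂ) * Complex.I)

/-- All boundary arcs are straight: the table is a simple polygon. -/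
def Straight : Prop := ∀ i, ∃ p u : ℂ, ∀ r : ℝ, T.γ i r = p + r * u

end Table

/-- A semi-dispersive billiard table `Y`, obtained from a simple polygon `P` by replacing the
sides in `disp` by `C^3` curves with the same end points which bend into the region. -/
structure SemiDisp (n : ℕ) [NeZero n] where
  /-- the polygon -/
  P : Table n
  /-- the table -/
  Y : Table n
  /-- the replaced sides -/
  disp : Set (Fin n)
  disp_nonempty : disp.Nonempty
  straight : P.Straight
  corner : ∀ i, Y.γ i 0 = P.γ i 0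
  neutral : ∀ i, i ∉ disp → Y.len i = P.len i ∧ Y.γ i = P.γ i
  curved : ∀ i ∈ disp, ∀ r ∈ Icc 0 (Y.len i), 0 < Y.curv i r
  sub : Y.region ⊆ P.region

end

end Pool.Agent.MP2e716c
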