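import Mathlib

open Set MeasureTheory Filter Topology

namespace Pool.Agent.MP2e716c

noncomputable section

variable {X : Type*} [MeasurableSpace X] {μ : Measure X} [IsFiniteMeasure μ] {φ : X → X}

/-- number of visits before time `m` -/
def densS (φ : X → X) (A : Set X) (m : ℕ) (z : X) : ℝ :=
  ∑ k ∈ Finset.range m, (A.indicator (fun _ => (1:ℝ)) (φ^[k] z))

omit [MeasurableSpace X] in
theorem densS_card (φ : X → X) (A : Set X) (m : ℕ) (z : X) :
    densS φ A m z = (Nat.card {k : ℕ // k < m ∧ φ^[k] z ∈ A} : ℝ) := by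
  classical
  unfold densS
  rw [Nat.subtype_card ((Finset.range m).filter (fun k => φ^[k] z ∈ A))
    (by intro x; simp)]
  simp [Set.indicator_apply]

omit [MeasurableSpace X] in
theorem densS_nonneg (φ : X → X) (A : Set X) (m : ℕ) (z : X) : 0 ≤ densS φ A m z := by
  unfold densS
  exact Finset.sum_nonneg (fun k _ => Set.indicator_nonneg (fun _ _ => zero_le_one) _)

omit [MeasurableSpace X] in
theorem densS_le (φ : X → X) (A : Set X) (m : ℕ) (z : X) : densS φ A m z ≤ m := by
  unfold densS
  calc _ ≤ ∑ k ∈ Finset.range m, (1:ℝ) := Finset.sum_le_sum (fun k _ =>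
        Set.indicator_le_self' (fun _ _ => zero_le_one) _)
    _ = m := by simp

omit [MeasurableSpace X] in
theorem densS_succ' (φ : X → X) (A : Set X) (m : ℕ) (z : X) :
    densS φ A (m + 1) z = densS φ A m (φ z) + A.indicator (fun _ => (1:ℝ)) z := by
  unfold densS
  rw [Finset.sum_range_succ']
  simp [Function.iterate_succ_apply]

omit [MeasurableSpace X] in
theorem densS_succ (φ : X → X) (A : Set X) (m : ℕ) (z : X) :
    densS φ A (m + 1) z = densS φ A m z + A.indicator (fun _ => (1:ℝ)) (φ^[m] z) := by
  unfold densS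
  rw [Finset.sum_range_succ]

/-- points whose visits have density zero -/
def densB (φ : X → X) (A : Set X) : Set X :=
  {z | Tendsto (fun m : ℕ => densS φ A m z / m) atTop (𝓝 0)}

theorem dens_meas (hφ : Measurable φ) {A : Set X} (hA : MeasurableSet A) (m : ℕ) :
    Measurable (fun z => densS φ A m z) := by
  unfold densS
  refine Finset.measurable_sum _ (fun k _ => ?_)
  exact (measurable_const.indicator hA).comp (hφ.iterate k)

theorem densB_meas (hφ : Measurable φ) {A : Set X} (hA : MeasurableSet A) :
    MeasurableSet (densB φ A) := by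
  unfold densB
  exact measurableSet_tendsto (𝓝 0) (fun m => (dens_meas hφ hA m).div_const _)

omit [MeasurableSpace X] in
theorem densB_inv (φ : X → X) (A : Set X) (z : X) : φ z ∈ densB φ A ↔ z ∈ densB φ A := by
  unfold densB
  simp only [Set.mem_ofPred_eq]
  have key : Tendsto (fun m : ℕ => densS φ A m (φ z) / m - densS φ A m z / m) atTop (𝓝 0) := by
    have hb : ∀ m : ℕ, |densS φ A m (φ z) / m - densS φ A m z / m| ≤ 1 / (m : ℝ) := by
      intro m
      have h1 := densS_succ' φ A m z
      have h2 := densS_succ φ A m z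
      have h3 : densS φ A m (φ z) - densS φ A m z =
          A.indicator (fun _ => (1:ℝ)) (φ^[m] z) - A.indicator (fun _ => (1:ℝ)) z := by linarith
      have h4 : |densS φ A m (φ z) - densS φ A m z| ≤ 1 := by
        rw [h3]
        have a1 : 0 ≤ A.indicator (fun _ => (1:ℝ)) (φ^[m] z) :=
          Set.indicator_nonneg (fun _ _ => zero_le_one) _
        have a2 : A.indicator (fun _ => (1:ℝ)) (φ^[m] z) ≤ 1 :=
          Set.indicator_le_self' (fun _ _ => zero_le_one) _
        have a3 : 0 ≤ A.indicator (fun _ => (1:ℝ)) z :=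
          Set.indicator_nonneg (fun _ _ => zero_le_one) _
        have a4 : A.indicator (fun _ => (1:ℝ)) z ≤ 1 :=
          Set.indicator_le_self' (fun _ _ => zero_le_one) _
        rw [abs_le]; constructor <;> linarith
      rw [← sub_div, abs_div, abs_of_nonneg (Nat.cast_nonneg m : (0:ℝ) ≤ m)]
      exact div_le_div_of_nonneg_right h4 (Nat.cast_nonneg m)
    exact squeeze_zero_norm (fun m => by simpa using hb m) tendsto_one_div_atTop_nhds_zero_nat
  constructor
  · intro h
    have := h.sub key
    simpa using this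
  · intro h
    have := h.add key
    simpa using this

omit [MeasurableSpace X] in
theorem densB_iter (φ : X → X) (A : Set X) (k : ℕ) (z : X) :
    φ^[k] z ∈ densB φ A ↔ z ∈ densB φ A := by
  induction k with
  | zero => simp
  | succ k ih => rw [Function.iterate_succ_apply', densB_inv, ih]

theorem dens_null (hφ : MeasurePreserving φ μ μ) {A : Set X} (hA : MeasurableSet A) :
    μ (A ∩ densB φ A) = 0 := by
  have hB : MeasurableSet (densB φ A) := densB_meas hφ.measurable hA
  have hAB : MeasurableSet (A ∩ densB φ A) := hA.inter hB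
  -- the integral of each term
  have hterm : ∀ k : ℕ, ∫ z in densB φ A, A.indicator (fun _ => (1:ℝ)) (φ^[k] z) ∂μ =
      μ.real (A ∩ densB φ A) := by
    intro k
    have e : (densB φ A).indicator (fun z => A.indicator (fun _ => (1:ℝ)) (φ^[k] z)) =
        (φ^[k] ⁻¹' (A ∩ densB φ A)).indicator (fun _ => (1:ℝ)) := by
      funext z
      by_cases h1 : z ∈ densB φ A
      · have h1' : φ^[k] z ∈ densB φ A := (densB_iter φ A k z).2 h1
        by_cases h2 : φ^[k] z ∈ A
        · rw [Set.indicator_of_mem h1, Set.indicator_of_mem h2, Set.indicator_of_mem]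
          exact ⟨h2, h1'⟩
        · rw [Set.indicator_of_mem h1, Set.indicator_of_notMem h2, Set.indicator_of_notMem]
          exact fun h => h2 h.1
      · have h1' : φ^[k] z ∉ densB φ A := fun h => h1 ((densB_iter φ A k z).1 h)
        rw [Set.indicator_of_notMem h1, Set.indicator_of_notMem]
        exact fun h => h1' h.2
    rw [← integral_indicator hB, e, integral_indicator_const _ ((hφ.measurable.iterate k) hAB)]
    have := (hφ.iterate k).measure_preimage hAB.nullMeasurableSet
    rw [Measure.real, this]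
    simp [Measure.real]
  have hint : ∀ m : ℕ, 0 < m → ∫ z in densB φ A, densS φ A m z / m ∂μ =
      μ.real (A ∩ densB φ A) := by
    intro m hm
    have hm' : (m : ℝ) ≠ 0 := by positivity
    rw [integral_div]
    have : ∫ z in densB φ A, densS φ A m z ∂μ = m * μ.real (A ∩ densB φ A) := by
      unfold densS
      rw [integral_finsetSum]
      · simp [hterm]
      · intro k _
        refine Integrable.mono' (integrable_const (1:ℝ)) ?_ ?_
        · exact ((measurable_const.indicator hA).comp
            (hφ.measurable.iterate k)).aestronglyMeasurable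
        · refine Eventually.of_forall (fun z => ?_)
          rw [Real.norm_of_nonneg (Set.indicator_nonneg (fun _ _ => zero_le_one) _)]
          exact Set.indicator_le_self' (fun _ _ => zero_le_one) _
    rw [this]
    field_simp
  have hlim : Tendsto (fun m : ℕ => ∫ z in densB φ A, densS φ A m z / m ∂μ) atTop
      (𝓝 (∫ z in densB φ A, (0:ℝ) ∂μ)) := by
    refine tendsto_integral_of_dominated_convergence (fun _ => (1:ℝ)) ?_ ?_ ?_ ?_
    · intro m
      exact ((dens_meas hφ.measurable hA m).div_const _).aestronglyMeasurable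
    · exact integrable_const _
    · intro m
      refine Eventually.of_forall (fun z => ?_)
      rw [Real.norm_of_nonneg (div_nonneg (densS_nonneg φ A m z) (Nat.cast_nonneg m))]
      exact div_le_one_of_le₀ (densS_le φ A m z) (Nat.cast_nonneg m)
    · rw [ae_restrict_iff' hB]
      exact Eventually.of_forall (fun z hz => hz)
  have hconst : Tendsto (fun m : ℕ => ∫ z in densB φ A, densS φ A m z / m ∂μ) atTop
      (𝓝 (μ.real (A ∩ densB φ A))) := by
    refine tendsto_const_nhds.congr' ?_
    filter_upwards [eventually_gt_atTop 0] with m hm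
    exact (hint m hm).symm
  have h0 : μ.real (A ∩ densB φ A) = 0 := by
    have := tendsto_nhds_unique hconst hlim
    simpa using this
  exact (measureReal_eq_zero_iff).1 h0

omit [MeasurableSpace X] in
/-- A point outside of `densB` has many visits. -/
theorem dens_freq (φ : X → X) (A : Set X) (z : X) (hz : z ∉ densB φ A) :
    ∃ c : ℝ, 0 < c ∧ ∃ᶠ m : ℕ in atTop, φ^[m] z ∈ A ∧ c * m ≤ densS φ A m z := by
  -- `2 c m ≤ S m` infinitely often
  obtain ⟨c, hc, hfreq⟩ : ∃ c : ℝ, 0 < c ∧ ∃ᶠ m : ℕ in atTop, 2 * c * m ≤ densS φ A m z := by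
    by_contra hcon
    push Not at hcon
    apply hz
    show Tendsto (fun m : ℕ => densS φ A m z / m) atTop (𝓝 0)
    rw [Metric.tendsto_atTop]
    intro ε hε
    have h := hcon (ε / 2) (by positivity)
    have h2 := h.and (eventually_gt_atTop 0)
    rw [Filter.eventually_atTop] at h2
    obtain ⟨N, hN⟩ := h2
    refine ⟨N, fun m hm => ?_⟩
    obtain ⟨h3, h4⟩ := hN m hm
    have h4' : (0:ℝ) < m := by exact_mod_cast h4
    rw [Real.dist_eq, sub_zero, abs_of_nonneg (div_nonneg (densS_nonneg φ A m z) h4'.le),
      div_lt_iff₀ h4']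
    linarith
  refine ⟨c, hc, ?_⟩
  rw [Filter.frequently_atTop]
  intro N
  rw [Filter.frequently_atTop] at hfreq
  -- choose `m` large
  obtain ⟨M, hM⟩ := exists_nat_gt ((N + 1 : ℝ) / c)
  obtain ⟨m, hmM, hm⟩ := hfreq M
  have hmM' : (M : ℝ) ≤ m := by exact_mod_cast hmM
  have hcm : (N : ℝ) + 1 < c * m := by
    have := (div_lt_iff₀ hc).1 hM
    nlinarith
  -- the last visit before `m`
  classical
  let F := (Finset.range m).filter (fun k => φ^[k] z ∈ A)
  have hSF : ∀ j : ℕ, densS φ A j z = (((Finset.range j).filter (fun k => φ^[k] z ∈ A)).card : ℝ) := by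
    intro j
    unfold densS
    simp [Set.indicator_apply]
  have hFcard : 2 * c * m ≤ (F.card : ℝ) := by rw [← hSF m]; exact hm
  have hFne : F.Nonempty := by
    rw [← Finset.card_pos]
    have : (0:ℝ) < F.card := by
      have : (0:ℝ) ≤ N := Nat.cast_nonneg N
      nlinarith
    exact_mod_cast this
  let m' := F.max' hFne
  have hm'F : m' ∈ F := F.max'_mem hFne
  have hm'1 : m' < m := by
    have := (Finset.mem_filter.1 hm'F).1
    exact Finset.mem_range.1 this
  have hm'2 : φ^[m'] z ∈ A := (Finset.mem_filter.1 hm'F).2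
  have hsub : F ⊆ insert m' ((Finset.range m').filter (fun k => φ^[k] z ∈ A)) := by
    intro k hk
    have h1 : k ≤ m' := F.le_max' k hk
    rcases h1.lt_or_eq with h | h
    · refine Finset.mem_insert_of_mem (Finset.mem_filter.2 ⟨Finset.mem_range.2 h, ?_⟩)
      exact (Finset.mem_filter.1 hk).2
    · rw [h]; exact Finset.mem_insert_self _ _
  have hcard : (F.card : ℝ) ≤ densS φ A m' z + 1 := by
    rw [hSF m']
    have := (Finset.card_le_card hsub).trans (Finset.card_insert_le _ _)
    exact_mod_cast this
  have hle : densS φ A m' z ≤ m' := densS_le φ A m' z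
  have hm'm : (m' : ℝ) ≤ m := by exact_mod_cast hm'1.le
  refine ⟨m', ?_, hm'2, ?_⟩
  · have : (N : ℝ) ≤ m' := by nlinarith
    exact_mod_cast this
  · have h1 : c * m' ≤ c * m := by nlinarith
    have : (0:ℝ) ≤ N := Nat.cast_nonneg N
    nlinarith

/-- A set which is visited at all is visited with positive upper density.
Proof. Let `S m z = #{k < m | φ^[k] z ∈ A}` and `B = {z | S m z / m → 0}`.  `B` is measurable and
`φ ⁻¹' B = B` (`S (m+1) z = 1_A z + S m (φ z)`).  By invariance
`∫_B S m / m dμ = μ (A ∩ B)` for all `m ≥ 1` (each term: `∫_B 1_A ∘ φ^[k] = μ (A ∩ B)`), and the left side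
tends to `0` by dominated convergence, so `μ (A ∩ B) = 0`; then a.e. `z` satisfies: no iterate is in
`A ∩ B`, so if `z ∈ B` (hence all iterates are in `B`) no iterate is in `A`.  If `z ∉ B`
then `limsup S m z / m > 0`: there is `c > 0` with `S m z ≥ 2 c m` for infinitely many `m`.  Let `m' < m` be
the last visit to `A` before time `m`: `φ^[m'] z ∈ A`, `S m' z = S m z - 1 ≥ 2 c m - 1 ≥ c m'` when
`m` is large, and `m' → ∞` because `m' ≥ S m' z`. -/
theorem visit_density (hφ : MeasurePreserving φ μ μ) {A : Set X} (hA : MeasurableSet A) :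
    ∀ᵐ z ∂μ, (∃ k : ℕ, φ^[k] z ∈ A) → ∃ c : ℝ, 0 < c ∧ ∃ᶠ m : ℕ in atTop,
      φ^[m] z ∈ A ∧ c * m ≤ (Nat.card {k : ℕ // k < m ∧ φ^[k] z ∈ A} : ℝ) := by
  have hnull := dens_null hφ hA
  have h1 : ∀ᵐ z ∂μ, ∀ k : ℕ, φ^[k] z ∉ A ∩ densB φ A := by
    rw [ae_all_iff]
    intro k
    have h2 : μ (φ^[k] ⁻¹' (A ∩ densB φ A)) = 0 := by
      rw [(hφ.iterate k).measure_preimage
        (hA.inter (densB_meas hφ.measurable hA)).nullMeasurableSet]
      exact hnull
    exact measure_eq_zero_iff_ae_notMem.1 h2
  filter_upwards [h1] with z hz hk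
  obtain ⟨k, hk⟩ := hk
  have hzB : z ∉ densB φ A := fun h => hz k ⟨hk, (densB_iter φ A k z).2 h⟩
  obtain ⟨c, hc, hf⟩ := dens_freq φ A z hzB
  refine ⟨c, hc, hf.mono (fun m hm => ⟨hm.1, ?_⟩)⟩
  rw [← densS_card]
  exact hm.2

end

end Pool.Agent.MP2e716c
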