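import Pool.Agent.H.MP_2e716c_an.NonAdj

/-!
# Separated sets of sides: convex polygons (MP_2e716c_an, helper4)
-/

open Set MeasureTheory Filter Topology

namespace Pool.Agent.MP2e716c

noncomputable section

namespace Table

variable {n : ℕ} [NeZero n] {T : Table n}

/-- Non adjacent arcs are disjoint. -/
theorem disjoint_side {i j : Fin n} (hij : i ≠ j) (h1 : j ≠ i + 1) (h2 : i ≠ j + 1) :
    Disjoint (T.side i) (T.side j) := by
  rw [Set.disjoint_left]
  rintro _ ⟨r, hr, rfl⟩ ⟨s, hs, hsr⟩
  have li := T.len_pos i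
  have lj := T.len_pos j
  rcases hr.2.lt_or_eq with hr' | hr'
  · rcases hs.2.lt_or_eq with hs' | hs'
    · exact hij (T.inj i j r s ⟨hr.1, hr'⟩ ⟨hs.1, hs'⟩ hsr.symm).1
    · rw [hs', T.closed j] at hsr
      exact h2 (T.inj i (j + 1) r 0 ⟨hr.1, hr'⟩ ⟨le_refl _, T.len_pos _⟩ hsr.symm).1
  · rw [hr', T.closed i] at hsr
    rcases hs.2.lt_or_eq with hs' | hs'
    · exact h1 (T.inj j (i + 1) s 0 ⟨hs.1, hs'⟩ ⟨le_refl _, T.len_pos _⟩ hsr).1
    · rw [hs', T.closed j] at hsr
      have := (T.inj (j + 1) (i + 1) 0 0 ⟨le_refl _, T.len_pos _⟩ ⟨le_refl _, T.len_pos _⟩ hsr).1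
      exact hij (add_right_cancel this).symm

/-- A convex region lies on the left of each of its straight sides. -/
theorem left_of_convex (hconv : Convex ℝ T.region) {k : Fin n} {p u : ℂ}
    (h : ∀ r : ℝ, T.γ k r = p + r * u) {y : ℂ} (hy : y ∈ closure T.region) :
    0 ≤ ip (y - T.γ k 0) (Complex.I * u) := by
  have hu := na_norm h
  have hl := T.len_pos k
  have hIu : ‖Complex.I * u‖ = 1 := by rw [norm_mul, Complex.norm_I, one_mul, hu]
  have main : ∀ y ∈ T.region, 0 ≤ ip (y - T.γ k 0) (Complex.I * u) := by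
    intro y hy
    by_contra hneg
    push Not at hneg
    set x := T.γ k (T.len k / 2) with hx
    have hr : T.len k / 2 ∈ Ioo 0 (T.len k) := ⟨by linarith, by linarith⟩
    obtain ⟨ε, hε, hleft⟩ := T.left k (T.len k / 2) hr
    rw [na_deriv h] at hleft
    have hxp : x = T.γ k 0 + ((T.len k / 2 : ℝ) : ℂ) * u := by rw [hx, h, h]; push_cast; ring
    set ν := -(ip (y - x) (Complex.I * u)) with hν
    have hν0 : 0 < ν := by
      rw [hν, hxp, show y - (T.γ k 0 + ((T.len k / 2 : ℝ) : ℂ) * u) =
        (y - T.γ k 0) - ((T.len k / 2 : ℝ) : ℂ) * u by ring, ip_sub_left, ip_rmul_left,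
        ip_I_self]
      linarith
    set σ := ip (y - x) u with hσ
    -- the point at parameter `t` of the segment from `x + h0 I u` to `y`
    set M := |σ| + ν + 1 with hM
    have hM0 : 0 < M := by positivity
    set h0 := min (min (ε / 2) (ν / 2)) (ν * ε / (4 * M)) with hh0
    have hh0p : 0 < h0 := by positivity
    have hh1 : h0 < ε := by
      have h1 := min_le_left (min (ε / 2) (ν / 2)) (ν * ε / (4 * M))
      have h2 := min_le_left (ε / 2) (ν / 2)
      rw [hh0]; linarith
    have hh3 : h0 < ν := by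
      have h1 := min_le_left (min (ε / 2) (ν / 2)) (ν * ε / (4 * M))
      have h2 := min_le_right (ε / 2) (ν / 2)
      rw [hh0]; linarith
    have hh2 : h0 ≤ ν * ε / (4 * M) := min_le_right _ _
    have hP := (hleft 0 h0 (by rw [abs_zero]; exact hε) hh0p hh1).1
    rw [add_zero, ← hx] at hP
    set t := 2 * h0 / (ν + h0) with ht
    have ht0 : 0 < t := by positivity
    have hνM : ν ≤ M := by rw [hM]; linarith [abs_nonneg σ]
    have htν : t * (ν + h0) = 2 * h0 := by rw [ht]; field_simp
    have htM : t * M ≤ ε / 2 := by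
      have h1 : t ≤ 2 * h0 / ν := by
        rw [ht]; apply div_le_div_of_nonneg_left (by positivity) hν0 (by linarith)
      calc t * M ≤ 2 * h0 / ν * M := by gcongr
        _ ≤ 2 * (ν * ε / (4 * M)) / ν * M := by gcongr
        _ = ε / 2 := by field_simp; ring
    have ht1 : t < 1 := by
      rw [ht, div_lt_one (by positivity)]
      linarith
    have hw : (1 - t) • (x + h0 * (Complex.I * u)) + t • y ∈ T.region :=
      hconv hP hy (by linarith) ht0.le (by ring)
    have hdec := ip_decomp (y - x) u hu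
    have e : (1 - t) • (x + h0 * (Complex.I * u)) + t • y =
        T.γ k (T.len k / 2 + t * σ) - ((h0 : ℝ) : ℂ) * (Complex.I * u) := by
      have e1 : T.γ k (T.len k / 2 + t * σ) = x + ((t * σ : ℝ) : ℂ) * u := by
        rw [hx, h, h]; push_cast; ring
      have e2 : (y : ℂ) = x + (σ : ℂ) * u - (ν : ℂ) * (Complex.I * u) := by
        rw [hσ, hν]; push_cast; linear_combination hdec
      have e3 : (t : ℂ) * (ν + h0) = 2 * h0 := by exact_mod_cast htν
      rw [e1, e2]
      simp only [Complex.real_smul]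
      push_cast
      linear_combination (-(Complex.I * u)) * e3
    rw [e] at hw
    refine (hleft (t * σ) h0 ?_ hh0p hh1).2 hw
    rw [abs_mul, abs_of_pos ht0]
    have : t * |σ| ≤ t * M := by gcongr; rw [hM]; linarith
    linarith
  have hclosed : IsClosed {y : ℂ | 0 ≤ ip (y - T.γ k 0) (Complex.I * u)} := by
    apply isClosed_le continuous_const
    unfold ip
    fun_prop
  exact closure_minimal main hclosed hy

/-- Two consecutive straight arcs do not have opposite directions. -/
theorem not_opposite {k : Fin n} {p u p' u' : ℂ} (h : ∀ r : ℝ, T.γ k r = p + r * u)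
    (h' : ∀ r : ℝ, T.γ (k + 1) r = p' + r * u') (hop : u' = -u) : False := by
  have l1 := T.len_pos k
  have l2 := T.len_pos (k + 1)
  have hu := na_norm h
  have hu0 : u ≠ 0 := by intro h0; rw [h0] at hu; simp at hu
  set s := min (T.len k) (T.len (k + 1)) / 2 with hs
  have hs0 : 0 < s := by positivity
  have hs1 : s < T.len k := by
    have := min_le_left (T.len k) (T.len (k + 1)); rw [hs]; linarith
  have hs2 : s < T.len (k + 1) := by
    have := min_le_right (T.len k) (T.len (k + 1)); rw [hs]; linarith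
  have hc := T.closed k
  rw [h, h'] at hc
  have hcol : p' = p + (T.len k : ℂ) * u := by
    have := hc.symm
    push_cast at this
    rw [zero_mul, add_zero] at this
    exact this
  have e1 : T.γ k (T.len k - s) = T.γ (k + 1) s := by
    rw [h, h', hcol, hop]; push_cast; ring
  have e2 : T.γ k (T.len k - s / 2) = T.γ (k + 1) (s / 2) := by
    rw [h, h', hcol, hop]; push_cast; ring
  have i1 := (T.inj k (k + 1) _ _ ⟨by linarith, by linarith⟩ ⟨hs0.le, hs2⟩ e1).2
  have i2 := (T.inj k (k + 1) _ _ ⟨by linarith, by linarith⟩ ⟨by positivity, by linarith⟩ e2).2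
  linarith

/-- In a convex polygon without straight corners, pairwise disjoint sides are separated. -/
theorem separated_of_convex (hT : T.Straight) (hconv : Convex ℝ T.region)
    (hcorner : ∀ i, deriv (T.γ (i + 1)) 0 ≠ deriv (T.γ i) 0) {S : Set (Fin n)}
    (hdisj : ∀ i ∈ S, ∀ j ∈ S, i ≠ j → Disjoint (T.side i) (T.side j)) : T.Separated S := by
  refine ⟨hdisj, ?_⟩
  intro i hi j hj k hk hij hik hjk x hx y hy hxy
  rw [Set.disjoint_left]
  intro z hz hzk
  obtain ⟨p, u, hpu⟩ := hT k
  have hu := na_norm hpu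
  have hu0 : u ≠ 0 := by intro h0; rw [h0] at hu; simp at hu
  have hl := T.len_pos k
  have hxk : x ∉ T.side k := Set.disjoint_left.1 (hdisj i hi k hk hik) hx
  have hyk : y ∉ T.side k := Set.disjoint_left.1 (hdisj j hj k hk hjk) hy
  have hxK : x ∈ closure T.region := hxy (left_mem_segment ℝ x y)
  have hyK : y ∈ closure T.region := hxy (right_mem_segment ℝ x y)
  have nx := left_of_convex hconv hpu hxK
  have ny := left_of_convex hconv hpu hyK
  -- the point `x` is on the line of the side `k`
  have hx0 : ip (x - T.γ k 0) (Complex.I * u) = 0 := by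
    obtain ⟨s, s0, s1, hzs⟩ := Pool.Agent.H.MP_2e716c_an.mem_seg.1 hz
    obtain ⟨r, hr, hzr⟩ := hzk
    have nz : ip (z - T.γ k 0) (Complex.I * u) = 0 := by
      rw [← hzr, hpu, hpu, show p + ((r : ℝ) : ℂ) * u - (p + ((0 : ℝ) : ℂ) * u) = (r : ℂ) * u by
        push_cast; ring, ip_rmul_left, ip_I_self, mul_zero]
    have nz2 : ip (z - T.γ k 0) (Complex.I * u) = (1 - s) * ip (x - T.γ k 0) (Complex.I * u) +
        s * ip (y - T.γ k 0) (Complex.I * u) := by
      rw [hzs, ← ip_rmul_left, ← ip_rmul_left, ← ip_add_left]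
      congr 1
      push_cast; ring
    have hs1 : s ≠ 1 := by
      rintro rfl
      apply hyk
      have : z = y := by rw [hzs]; push_cast; ring
      rw [← this]; exact ⟨r, hr, hzr⟩
    have hs1' : 0 < 1 - s := by
      rcases s1.lt_or_eq with h | h
      · linarith
      · exact absurd h hs1
    rw [nz] at nz2
    nlinarith [mul_nonneg hs1'.le nx, mul_nonneg s0 ny]
  set σ := ip (x - T.γ k 0) u with hσ
  have hxσ : x = T.γ k 0 + (σ : ℂ) * u := by
    have := ip_decomp (x - T.γ k 0) u hu
    rw [hx0, ← hσ] at this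
    push_cast at this
    linear_combination this
  have hout : σ < 0 ∨ T.len k < σ := by
    by_contra hcon
    push Not at hcon
    apply hxk
    refine ⟨σ, ⟨hcon.1, hcon.2⟩, ?_⟩
    rw [hxσ, hpu, hpu]; push_cast; ring
  have hend0 : T.γ k 0 ∈ closure T.region :=
    frontier_subset_closure (T.arc_mem_frontier k ⟨le_refl _, hl.le⟩)
  have hend1 : T.γ k (T.len k) ∈ closure T.region :=
    frontier_subset_closure (T.arc_mem_frontier k ⟨hl.le, le_refl _⟩)
  -- parallel unit vectors
  have hpar : ∀ w : ℂ, ‖w‖ = 1 → ip u (Complex.I * w) = 0 → w = u ∨ w = -u := by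
    intro w hw h0
    have hd := ip_decomp u w hw
    rw [h0] at hd
    have hn := norm_sq_decomp u w hw
    rw [h0, hu] at hn
    have h1 : ip u w = 1 ∨ ip u w = -1 := by
      have : ip u w ^ 2 = 1 := by nlinarith
      exact sq_eq_one_iff.1 this
    rcases h1 with h1 | h1
    · left; rw [h1] at hd; rw [hd]; push_cast; ring
    · right; rw [h1] at hd; rw [hd]; push_cast; ring
  rcases hout with hσ0 | hσl
  · -- use the previous side
    obtain ⟨p', u', hpu'⟩ := hT (k - 1)
    have hu' := na_norm hpu'
    have hk1 : k - 1 + 1 = k := sub_add_cancel k 1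
    have hjoin : T.γ (k - 1) (T.len (k - 1)) = T.γ k 0 := by rw [T.closed, hk1]
    have m1 := left_of_convex hconv hpu' hxK
    have m2 := left_of_convex hconv hpu' hend1
    have e1 : T.γ k 0 = T.γ (k - 1) 0 + (T.len (k - 1) : ℂ) * u' := by
      rw [← hjoin, hpu', hpu']; push_cast; ring
    rw [hxσ, e1, show T.γ (k - 1) 0 + (T.len (k - 1) : ℂ) * u' + (σ : ℂ) * u - T.γ (k - 1) 0 =
      (T.len (k - 1) : ℂ) * u' + (σ : ℂ) * u by ring, ip_add_left, ip_rmul_left, ip_rmul_left,
      ip_I_self] at m1
    have e2 : T.γ k (T.len k) = T.γ (k - 1) 0 + (T.len (k - 1) : ℂ) * u' + (T.len k : ℂ) * u := by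
      rw [← e1, hpu, hpu]; push_cast; ring
    rw [e2, show T.γ (k - 1) 0 + (T.len (k - 1) : ℂ) * u' + (T.len k : ℂ) * u - T.γ (k - 1) 0 =
      (T.len (k - 1) : ℂ) * u' + (T.len k : ℂ) * u by ring, ip_add_left, ip_rmul_left,
      ip_rmul_left, ip_I_self] at m2
    have hz0 : ip u (Complex.I * u') = 0 := by
      have a1 : 0 ≤ ip u (Complex.I * u') := by
        by_contra hneg
        push Not at hneg
        nlinarith
      nlinarith
    rcases hpar u' hu' hz0 with h1 | h1
    · apply hcorner (k - 1)
      rw [hk1, na_deriv hpu, na_deriv hpu', h1]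
    · refine not_opposite (k := k - 1) (T := T) hpu' (p' := p) (u' := u) ?_ ?_
      · rw [hk1]; exact hpu
      · rw [h1]; ring
  · obtain ⟨p', u', hpu'⟩ := hT (k + 1)
    have hu' := na_norm hpu'
    have hjoin : T.γ k (T.len k) = T.γ (k + 1) 0 := T.closed k
    have m1 := left_of_convex hconv hpu' hxK
    have m2 := left_of_convex hconv hpu' hend0
    have e1 : T.γ k 0 = T.γ (k + 1) 0 - (T.len k : ℂ) * u := by
      rw [← hjoin, hpu, hpu]; push_cast; ring
    rw [hxσ, e1, show T.γ (k + 1) 0 - (T.len k : ℂ) * u + (σ : ℂ) * u - T.γ (k + 1) 0 =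
      ((σ - T.len k : ℝ) : ℂ) * u by push_cast; ring, ip_rmul_left] at m1
    rw [e1, show T.γ (k + 1) 0 - (T.len k : ℂ) * u - T.γ (k + 1) 0 =
      ((-T.len k : ℝ) : ℂ) * u by push_cast; ring, ip_rmul_left] at m2
    have hz0 : ip u (Complex.I * u') = 0 := by
      have a1 : 0 ≤ ip u (Complex.I * u') := by
        by_contra hneg
        push Not at hneg
        nlinarith
      nlinarith
    rcases hpar u' hu' hz0 with h1 | h1
    · apply hcorner k
      rw [na_deriv hpu, na_deriv hpu', h1]
    · exact not_opposite hpu hpu' h1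

/-- In a convex polygon without straight corners, a set of sides with no two adjacent sides is
separated. -/
theorem separated_of_nonadjacent (hT : T.Straight) (hconv : Convex ℝ T.region)
    (hcorner : ∀ i, deriv (T.γ (i + 1)) 0 ≠ deriv (T.γ i) 0) {S : Set (Fin n)}
    (hS : ∀ i ∈ S, i + 1 ∉ S) : T.Separated S := by
  refine separated_of_convex hT hconv hcorner ?_
  intro i hi j hj hij
  refine disjoint_side hij ?_ ?_
  · rintro rfl; exact hS i hi hj
  · rintro rfl; exact hS j hj hi

end Table

namespace SemiDisp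

variable {n : ℕ} [NeZero n] (T : SemiDisp n)

/-- The separation property passes from the polygon to the table. -/
theorem separated_Y {S : Set (Fin n)} (hS : Disjoint S T.disp) (h : T.P.Separated S) :
    T.Y.Separated S := by
  have key : ∀ i ∈ S, T.Y.side i = T.P.side i := by
    intro i hi
    have hn := T.neutral i fun h' => (Set.disjoint_left.1 hS hi) h'
    rw [Table.side, Table.side, hn.1, hn.2]
  refine ⟨?_, ?_⟩
  · intro i hi j hj hij
    rw [key i hi, key j hj]
    exact h.1 i hi j hj hij
  · intro i hi j hj k hk hij hik hjk p hp q hq hpq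
    rw [key i hi] at hp
    rw [key j hj] at hq
    rw [key k hk]
    exact h.2 i hi j hj k hk hij hik hjk p hp q hq (hpq.trans (closure_mono T.sub))

/-- Separated sets of neutral sides are null. -/
theorem AS_null_of_separated {S : Set (Fin n)} (hS : Disjoint S T.disp) (h : T.Y.Separated S) :
    T.Y.μ (T.Y.AS S) = 0 := by
  refine Table.AS_null_of_separated ?_ h
  intro i hi
  have hn := T.neutral i fun h' => (Set.disjoint_left.1 hS hi) h'
  rw [hn.2]
  exact T.straight i

end SemiDisp

end

end Pool.Agent.MP2e716c
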