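import Pool.Agent.H.MP_2e716c_an.Main
import Pool.Agent.H.MP_2e716c_an.NonAdj2

open Set MeasureTheory Filter Topology

namespace Pool.Agent.MP2e716c

noncomputable section

namespace SemiDisp

variable {n : ℕ} [NeZero n] (T : SemiDisp n)

theorem hyperbolic_of_sets (h : ∀ S : Set (Fin n), S.Nonempty → Disjoint S T.disp →
    T.P.Unloaded S ∨ T.P.Rational S ∨ T.Y.Separated S) : T.Y.Hyperbolic := by
  refine T.Y.hyperbolic_of_frequently T.disp ?_ T.curved ?_
  · intro i r hr
    by_cases hi : i ∈ T.disp
    · exact (T.curved i hi r hr).le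
    · rw [T.curv_neutral hi]
  · refine T.Y.ae_frequently T.disp ?_
    intro S hne hS
    rcases h S hne hS with hu | hr | hsep
    · refine T.Y.AS_null_of_unloaded ?_ (T.unloaded_Y hS hu)
      intro i hi
      have hi' : i ∉ T.disp := fun h' => (Set.disjoint_left.1 hS hi) h'
      rw [(T.neutral i hi').2]
      exact T.straight i
    · exact T.AS_null_of_rational hS hr
    · exact T.AS_null_of_separated hS hsep

/-- At most two neutral sides. -/
theorem hyperbolic_of_le_two (h : (T.dispᶜ).ncard ≤ 2) : T.Y.Hyperbolic := by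
  refine T.hyperbolic_of_sets ?_
  intro S hne hS
  refine Or.inl (T.unloaded_of_le_two hne (le_trans ?_ h))
  refine Set.ncard_le_ncard ?_ (Set.toFinite _)
  intro i hi h'
  exact Set.disjoint_left.1 hS hi h'

/-- A common point of the closed outer half planes of the neutral sides. -/
theorem hyperbolic_of_common (O : ℂ) (h : ∀ i, i ∉ T.disp →
    0 ≤ ip (T.P.γ i 0 - O) (Complex.I * deriv (T.P.γ i) 0)) : T.Y.Hyperbolic := by
  refine T.hyperbolic_of_sets ?_
  intro S _ hS
  refine Or.inl (T.unloaded_of_common (O := O) ?_)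
  intro i hi
  exact h i fun h' => Set.disjoint_left.1 hS hi h'

/-- All neutral sides pairwise rational. -/
theorem hyperbolic_of_rational (h : T.P.Rational T.dispᶜ) : T.Y.Hyperbolic := by
  refine T.hyperbolic_of_sets ?_
  intro S _ hS
  refine Or.inr (Or.inl ?_)
  intro i hi j hj
  exact h i (fun h' => Set.disjoint_left.1 hS hi h') j (fun h' => Set.disjoint_left.1 hS hj h')

/-- Convex `P`, no two neutral sides adjacent. -/
theorem hyperbolic_of_nonadjacent (hconv : Convex ℝ T.P.region)
    (hcorner : ∀ i, deriv (T.P.γ (i + 1)) 0 ≠ deriv (T.P.γ i) 0)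
    (h : ∀ i, i ∉ T.disp → i + 1 ∈ T.disp) : T.Y.Hyperbolic := by
  refine T.hyperbolic_of_sets ?_
  intro S _ hS
  refine Or.inr (Or.inr (T.separated_Y hS ?_))
  refine Table.separated_of_nonadjacent T.straight hconv hcorner ?_
  intro i hi h'
  exact Set.disjoint_left.1 hS h' (h i fun h'' => Set.disjoint_left.1 hS hi h'')

end SemiDisp

end

end Pool.Agent.MP2e716c
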