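import Pool.Agent.H.MP_2e716c_an.Stab

open Set MeasureTheory Filter Topology

namespace Pool.Agent.MP2e716c

noncomputable section

namespace Table

variable {n : ℕ} [NeZero n] (T : Table n)

/-- Direction of the (straight) side `i`. -/
def dir (i : Fin n) : ℂ := deriv (T.γ i) 0

/-- Component of `w` along the inward normal of the (straight) side `i`. -/
def nw (i : Fin n) (w : ℂ) : ℝ := ip w (Complex.I * T.dir i)

/-- The phase point on side `i` with outgoing velocity `w` and flux coordinate `x`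
(`x = r cos θ`). -/
def st (i : Fin n) (w : ℂ) (x : ℝ) : Fin n × ℝ × ℝ :=
  (i, x / T.nw i w, Real.arcsin (ip w (T.dir i)))

/-- Reflection of a direction in side `i`. -/
def rfl' (i : Fin n) (w : ℂ) : ℂ := T.dir i ^ 2 * (starRingEnd ℂ) w

variable {T}

theorem dir_norm (i : Fin n) : ‖T.dir i‖ = 1 :=
  T.unit i 0 ⟨le_refl 0, (T.len_pos i).le⟩

theorem geo1_dir_conj (i : Fin n) : T.dir i * (starRingEnd ℂ) (T.dir i) = 1 := by
  rw [Complex.mul_conj, Complex.normSq_eq_norm_sq, dir_norm]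
  norm_num

theorem rfl'_rfl' (i : Fin n) (w : ℂ) : T.rfl' i (T.rfl' i w) = w := by
  have h := geo1_dir_conj (T := T) i
  simp only [rfl', map_mul, map_pow, Complex.conj_conj]
  calc T.dir i ^ 2 * ((starRingEnd ℂ) (T.dir i) ^ 2 * w)
      = (T.dir i * (starRingEnd ℂ) (T.dir i)) ^ 2 * w := by ring
    _ = w := by rw [h]; ring

theorem geo1_deriv (hT : T.Straight) (i : Fin n) :
    ∃ p u : ℂ, (∀ r : ℝ, T.γ i r = p + r * u) ∧ ∀ r : ℝ, deriv (T.γ i) r = u := by
  obtain ⟨p, u, h⟩ := hT i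
  refine ⟨p, u, h, fun r => ?_⟩
  have h1 : T.γ i = fun r : ℝ => p + (r : ℂ) * u := funext h
  rw [h1]
  have h2 : HasDerivAt (fun r : ℝ => p + (r : ℂ) * u) (1 * u) r :=
    ((Complex.ofRealCLM.hasDerivAt (x := r)).mul_const u).const_add p
  rw [h2.deriv, one_mul]

theorem straight_deriv (hT : T.Straight) (i : Fin n) (r : ℝ) : deriv (T.γ i) r = T.dir i := by
  obtain ⟨p, u, -, h⟩ := geo1_deriv hT i
  rw [dir, h r, h 0]

theorem straight_eq (hT : T.Straight) (i : Fin n) (r : ℝ) : T.γ i r = T.γ i 0 + r * T.dir i := by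
  obtain ⟨p, u, h1, h⟩ := geo1_deriv hT i
  rw [dir, h 0, h1 r, h1 0]
  push_cast
  ring

theorem corner_next (hT : T.Straight) (i : Fin n) :
    T.γ (i + 1) 0 = T.γ i 0 + (T.len i : ℂ) * T.dir i := by
  rw [← T.closed i, straight_eq hT]

theorem vel_eq_rfl' (hT : T.Straight) (a : Fin n × ℝ × ℝ) : T.vel a = T.rfl' a.1 (T.inc a) := by
  have h := geo1_dir_conj (T := T) a.1
  have h1 : T.tang a = T.dir a.1 := straight_deriv hT a.1 a.2.1
  simp only [rfl', inc, vel, nor, h1, map_add, map_mul, map_neg, Complex.conj_I,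
    Complex.conj_ofReal]
  linear_combination (-((Real.cos a.2.2 : ℂ) * Complex.I + (Real.sin a.2.2 : ℂ)) * T.dir a.1) * h

theorem inc_eq_rfl' (hT : T.Straight) (a : Fin n × ℝ × ℝ) : T.inc a = T.rfl' a.1 (T.vel a) := by
  rw [vel_eq_rfl' hT a, rfl'_rfl']

theorem nw_vel (hT : T.Straight) {z : Fin n × ℝ × ℝ} (hz : z ∈ T.phase) :
    T.nw z.1 (T.vel z) = Real.cos z.2.2 := by
  have h1 : T.tang z = T.dir z.1 := straight_deriv hT z.1 z.2.1
  rw [nw, ← h1]
  exact T.ip_vel_nor hz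

theorem geo1_vel_st (hT : T.Straight) {i : Fin n} {w : ℂ} (hw : ‖w‖ = 1) (hp : 0 < T.nw i w)
    (x : ℝ) : T.vel (T.st i w x) = w := by
  have hr : T.len i / 2 ∈ Ioo 0 (T.len i) :=
    ⟨by linarith [T.len_pos i], by linarith [T.len_pos i]⟩
  have hd : ∀ r, deriv (T.γ i) r = T.dir i := straight_deriv hT i
  have h := (T.vel_arcsin i hr hw (by rw [hd]; exact hp)).2
  simp only [vel, nor, tang, hd] at h
  simp only [vel, nor, tang, hd, st]
  exact h

theorem st_mem (hT : T.Straight) {i : Fin n} {w : ℂ} (hw : ‖w‖ = 1) (hp : 0 < T.nw i w) {x : ℝ}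
    (hx : 0 < x) (hx' : x < T.len i * T.nw i w) : T.st i w x ∈ T.phase ∧ T.vel (T.st i w x) = w := by
  refine ⟨?_, geo1_vel_st hT hw hp x⟩
  have hr : x / T.nw i w ∈ Ioo 0 (T.len i) := ⟨div_pos hx hp, (div_lt_iff₀ hp).mpr hx'⟩
  have hd : ∀ r, deriv (T.γ i) r = T.dir i := straight_deriv hT i
  have h := (T.vel_arcsin i hr hw (by rw [hd]; exact hp)).1
  rw [hd] at h
  exact h

/-- Every phase point of a polygon is a state. -/
theorem st_eq (hT : T.Straight) {z : Fin n × ℝ × ℝ} (hz : z ∈ T.phase) :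
    T.st z.1 (T.vel z) (z.2.1 * Real.cos z.2.2) = z ∧ 0 < z.2.1 * Real.cos z.2.2 ∧
      z.2.1 * Real.cos z.2.2 < T.len z.1 * T.nw z.1 (T.vel z) := by
  have hc := T.cos_pos hz
  have hn := nw_vel hT hz
  have h1 : T.tang z = T.dir z.1 := straight_deriv hT z.1 z.2.1
  refine ⟨?_, mul_pos hz.1.1 hc, ?_⟩
  · have h2 : Real.arcsin (ip (T.vel z) (T.dir z.1)) = z.2.2 := by
      rw [← h1, T.ip_vel_tang hz]
      exact Real.arcsin_sin hz.2.1.le hz.2.2.le
    simp only [st]
    rw [hn, h2, mul_div_assoc, div_self hc.ne', mul_one]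
  · rw [hn]
    exact mul_lt_mul_of_pos_right hz.1.2 hc

/-- The billiard map in a fixed direction is an orientation reversing isometry in flux
coordinates.
Proof: `chord_stable` at `x0 = (st i w x).2`; with `s = (a.2.1 cos θ_a - t) / cos θ_a` one has
`γ a.1 s = pt (st i w (x+t)) + τ' w` for some real `τ'`, because the difference has inner product `0` with
`I w` (`ip (dir i) (I w) = - nw i w`, `ip (dir a.1) (I w) = cos θ_a` since `w = inc a`), and a vector
orthogonal to `I w` is a real multiple of `w` (`ip_decomp`).  The angle is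
`arcsin (ip w (dir a.1)) = a.2.2`, i.e. `arcsin (ip (vel a) (dir a.1))`. -/
theorem st_next_loc (hT : T.Straight) {i : Fin n} {w : ℂ} {x : ℝ} (hw : ‖w‖ = 1)
    (hp : 0 < T.nw i w) {a : Fin n × ℝ × ℝ} (h : T.Next (T.st i w x) a) :
    ∃ ε > 0, ∀ t : ℝ, |t| < ε → T.Next (T.st i w (x + t))
      (T.st a.1 (T.vel a) (a.2.1 * Real.cos a.2.2 - t)) := by
  obtain ⟨j, y0⟩ := a
  have h' : T.Next (i, (x / T.nw i w, Real.arcsin (ip w (T.dir i)))) (j, y0) := h
  obtain ⟨δ, hδ, hst⟩ := T.chord_stable h'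
  obtain ⟨hz, ha, τ0, hτ0, -, hpa, hva⟩ := h
  have hc : 0 < Real.cos y0.2 := T.cos_pos ha
  have hn : T.nw j (T.vel (j, y0)) = Real.cos y0.2 := nw_vel hT ha
  have hvel : ∀ x', T.vel (T.st i w x') = w := geo1_vel_st hT hw hp
  rw [hvel] at hva hpa
  have htang : T.tang (j, y0) = T.dir j := straight_deriv hT j y0.1
  -- the vector `D`
  set D : ℂ := ((1 / Real.cos y0.2 : ℝ) : ℂ) * T.dir j + ((1 / T.nw i w : ℝ) : ℂ) * T.dir i
    with hD
  have hDI : ip D (Complex.I * w) = 0 := by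
    rw [hD, ip_add_left, ip_rmul_left, ip_rmul_left]
    have e1 : ip (T.dir i) (Complex.I * w) = -T.nw i w := by
      rw [ip_I_mul_right, ip_comm, nw]
    have e2 : ip (T.dir j) (Complex.I * w) = Real.cos y0.2 := by
      rw [ip_I_mul_right, ip_comm, ← hva, ← htang]
      have := T.ip_inc_nor ha
      rw [nor] at this
      rw [this, neg_neg]
    rw [e1, e2]
    field_simp
    ring
  have hDw : D = ((ip D w : ℝ) : ℂ) * w := by
    have h1 := ip_decomp D w hw
    rw [hDI] at h1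
    rw [Complex.ofReal_zero, zero_mul, add_zero] at h1
    exact h1
  refine ⟨min (δ * T.nw i w) (δ * Real.cos y0.2), lt_min (mul_pos hδ hp) (mul_pos hδ hc),
    fun t ht => ?_⟩
  have ht1 : |t| < δ * T.nw i w := lt_of_lt_of_le ht (min_le_left _ _)
  have ht2 : |t| < δ * Real.cos y0.2 := lt_of_lt_of_le ht (min_le_right _ _)
  have hdist : dist ((x + t) / T.nw i w, Real.arcsin (ip w (T.dir i)))
      (x / T.nw i w, Real.arcsin (ip w (T.dir i))) < δ := by
    rw [Prod.dist_eq, dist_self, max_lt_iff]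
    refine ⟨?_, hδ⟩
    rw [Real.dist_eq, ← sub_div, add_sub_cancel_left, abs_div, abs_of_pos hp, div_lt_iff₀ hp]
    exact ht1
  have hs : |(y0.1 * Real.cos y0.2 - t) / Real.cos y0.2 - y0.1| < δ := by
    have e : (y0.1 * Real.cos y0.2 - t) / Real.cos y0.2 - y0.1 = -t / Real.cos y0.2 := by
      field_simp
      ring
    rw [e, abs_div, abs_neg, abs_of_pos hc, div_lt_iff₀ hc]
    exact ht2
  have hvel' : T.vel (i, ((x + t) / T.nw i w, Real.arcsin (ip w (T.dir i)))) = w := hvel (x + t)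
  have key := hst ((x + t) / T.nw i w, Real.arcsin (ip w (T.dir i))) hdist
    ((y0.1 * Real.cos y0.2 - t) / Real.cos y0.2) hs (τ0 - t * ip D w) (by
      rw [hvel']
      have hp1 : T.pt (i, ((x + t) / T.nw i w, Real.arcsin (ip w (T.dir i)))) =
          T.γ i 0 + (((x + t) / T.nw i w : ℝ) : ℂ) * T.dir i := straight_eq hT i _
      have hp0 : T.pt (T.st i w x) = T.γ i 0 + ((x / T.nw i w : ℝ) : ℂ) * T.dir i :=
        straight_eq hT i _
      have hpj : T.pt (j, y0) = T.γ j 0 + (y0.1 : ℂ) * T.dir j := straight_eq hT j _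
      rw [hp1, straight_eq hT j]
      rw [hp0, hpj] at hpa
      have hDt : (t : ℂ) * D = (t : ℂ) * (((ip D w : ℝ) : ℂ) * w) := by rw [← hDw]
      have e1 : (((y0.1 * Real.cos y0.2 - t) / Real.cos y0.2 : ℝ) : ℂ) =
          (y0.1 : ℂ) - (t : ℂ) * ((1 / Real.cos y0.2 : ℝ) : ℂ) := by
        rw [← Complex.ofReal_mul, ← Complex.ofReal_sub]
        congr 1
        field_simp
      have e2 : (((x + t) / T.nw i w : ℝ) : ℂ) =
          ((x / T.nw i w : ℝ) : ℂ) + (t : ℂ) * ((1 / T.nw i w : ℝ) : ℂ) := by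
        rw [← Complex.ofReal_mul, ← Complex.ofReal_add]
        congr 1
        ring
      rw [e1, e2, Complex.ofReal_sub, Complex.ofReal_mul]
      rw [hD] at hDt
      linear_combination hpa - hDt)
  rw [hvel', straight_deriv hT j] at key
  have hang : ip w (T.dir j) = ip (T.vel (j, y0)) (T.dir j) := by
    have e1 := T.ip_inc_tang ha
    have e2 := T.ip_vel_tang ha
    rw [htang, hva] at e1
    rw [htang] at e2
    exact e1.trans e2.symm
  rw [hang] at key
  show T.Next (T.st i w (x + t)) (j, (y0.1 * Real.cos y0.2 - t) / T.nw j (T.vel (j, y0)),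
    Real.arcsin (ip (T.vel (j, y0)) (T.dir j)))
  rw [hn]
  exact key

end Table

end

end Pool.Agent.MP2e716c
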