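import Pool.Agent.H.MP_2e716c_an.Geo1

open Set MeasureTheory Filter Topology

namespace Pool.Agent.MP2e716c

noncomputable section

namespace Table

variable {n : ℕ} [NeZero n] (T : Table n)

/-- Reflection of the plane in the line of side `i`. -/
def reflA (i : Fin n) (x : ℂ) : ℂ := T.γ i 0 + T.rfl' i (x - T.γ i 0)

/-- Composition of reflections in the sides of a list. -/
def unf (L : List (Fin n)) (x : ℂ) : ℂ := L.foldr (fun i y => T.reflA i y) x

/-- Unit directions of (unfolded) saddle connections: from a corner to a reflected corner. -/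
def conn : Set ℂ := {w | ‖w‖ = 1 ∧ ∃ (L : List (Fin n)) (i j : Fin n) (τ : ℝ), 0 < τ ∧
  T.unf L (T.γ j 0) = T.γ i 0 + τ * w}

/-- For given `L, i, j` at most one unit vector. -/
theorem conn_countable : T.conn.Countable := by
  have h : T.conn ⊆ ⋃ p : List (Fin n) × Fin n × Fin n,
      {w : ℂ | ‖w‖ = 1 ∧ ∃ τ : ℝ, 0 < τ ∧ T.unf p.1 (T.γ p.2.2 0) = T.γ p.2.1 0 + τ * w} := by
    rintro w ⟨hw, L, i, j, τ, hτ, he⟩
    exact mem_iUnion.2 ⟨(L, i, j), hw, τ, hτ, he⟩
  refine (countable_iUnion fun p => ?_).mono h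
  apply Set.Subsingleton.countable
  rintro w ⟨hw, τ, hτ, he⟩ w' ⟨hw', τ', hτ', he'⟩
  have h1 : (τ : ℂ) * w = τ' * w' := by
    have := he.symm.trans he'
    exact add_left_cancel this
  have h2 : τ = τ' := by
    have := congrArg norm h1
    rwa [norm_mul, norm_mul, hw, hw', mul_one, mul_one, Complex.norm_real, Complex.norm_real,
      Real.norm_of_nonneg hτ.le, Real.norm_of_nonneg hτ'.le] at this
  subst h2
  have h3 : (τ : ℂ) ≠ 0 := by exact_mod_cast hτ.ne'
  exact mul_left_cancel₀ h3 h1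

variable {T}

/-- Sides are saddle connections. -/
theorem nw_ne_zero (hT : T.Straight) {w : ℂ} (hw : ‖w‖ = 1) (hc : w ∉ T.conn) (i : Fin n) :
    T.nw i w ≠ 0 := by
  intro h0
  rw [nw] at h0
  have hd : ‖T.dir i‖ = 1 := dir_norm i
  have h1 := ip_decomp w (T.dir i) hd
  rw [h0] at h1
  have h2 := norm_sq_decomp w (T.dir i) hd
  rw [h0, hw] at h2
  have h3 : ip w (T.dir i) = 1 ∨ ip w (T.dir i) = -1 := by
    have : (ip w (T.dir i) - 1) * (ip w (T.dir i) + 1) = 0 := by nlinarith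
    rcases mul_eq_zero.1 this with h | h
    · left; linarith
    · right; linarith
  rcases h3 with h | h
  · rw [h] at h1
    have hw' : w = T.dir i := by simpa using h1
    refine hc ⟨hw, [], i, i + 1, T.len i, T.len_pos i, ?_⟩
    rw [hw']
    simpa [unf] using corner_next hT i
  · rw [h] at h1
    have hw' : w = -T.dir i := by simpa using h1
    refine hc ⟨hw, [], i + 1, i, T.len i, T.len_pos i, ?_⟩
    rw [hw', corner_next hT i]
    simp [unf]

theorem geo2_rfl_add (i : Fin n) (x y : ℂ) : T.rfl' i (x + y) = T.rfl' i x + T.rfl' i y := by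
  simp only [rfl', map_add]; ring

theorem geo2_rfl_real (i : Fin n) (t : ℝ) (x : ℂ) : T.rfl' i (t * x) = t * T.rfl' i x := by
  simp only [rfl', map_mul, Complex.conj_ofReal]; ring

theorem geo2_rfl_dir (i : Fin n) : T.rfl' i (T.dir i) = T.dir i := by
  have h : T.dir i * (starRingEnd ℂ) (T.dir i) = 1 := by
    rw [Complex.mul_conj, Complex.normSq_eq_norm_sq, dir_norm i]; simp
  rw [rfl', sq, mul_assoc, h, mul_one]

/-- `reflA` maps the outgoing ray to the continued incoming ray. -/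
theorem geo2_reflA (hT : T.Straight) (a : Fin n × ℝ × ℝ) (σ : ℝ) :
    T.reflA a.1 (T.pt a + σ * T.vel a) = T.pt a + σ * T.inc a := by
  have h1 : T.pt a = T.γ a.1 0 + a.2.1 * T.dir a.1 := straight_eq hT a.1 a.2.1
  rw [reflA, inc_eq_rfl' hT a, h1]
  rw [show T.γ a.1 0 + (a.2.1 : ℂ) * T.dir a.1 + σ * T.vel a - T.γ a.1 0 =
    (a.2.1 : ℂ) * T.dir a.1 + σ * T.vel a by ring, geo2_rfl_add, geo2_rfl_real, geo2_rfl_real,
    geo2_rfl_dir]
  ring

/-- Unfolding one reflection: `reflA` fixes `pt a` and maps the ray `pt a + σ vel a` to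
`pt a + σ inc a = pt z + (τ + σ) vel z`. -/
theorem unfold_step (hT : T.Straight) {z a : Fin n × ℝ × ℝ} (h : T.Next z a) {q : ℂ} {σ : ℝ}
    (hσ : 0 ≤ σ) (hq : q = T.pt a + σ * T.vel a) :
    ∃ σ' : ℝ, 0 < σ' ∧ T.reflA a.1 q = T.pt z + σ' * T.vel z := by
  obtain ⟨-, -, τ, hτ, -, hp, hv⟩ := h
  refine ⟨τ + σ, by linarith, ?_⟩
  rw [hq, geo2_reflA hT, hv, hp]
  push_cast; ring

/-- The same at the first reflection, when the backward ray starts at a corner. -/
theorem unfold_start (hT : T.Straight) {a : Fin n × ℝ × ℝ} (ha : a ∈ T.phase) {k : Fin n} {τ : ℝ}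
    (hτ : 0 < τ) (hk : T.γ k 0 = T.pt a - τ * T.inc a) {q : ℂ} {σ : ℝ}
    (hσ : 0 ≤ σ) (hq : q = T.pt a + σ * T.vel a) :
    ∃ σ' : ℝ, 0 < σ' ∧ T.reflA a.1 q = T.γ k 0 + σ' * T.inc a := by
  refine ⟨τ + σ, by linarith, ?_⟩
  rw [hq, geo2_reflA hT, hk]
  push_cast; ring

/-- If the velocity is not a connection direction, a phase point without successor hits a
corner (`next_or_bad`, `nw_ne_zero`). -/
theorem next_or_corner (hT : T.Straight) {z : Fin n × ℝ × ℝ} (hz : z ∈ T.phase)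
    (hc : T.vel z ∉ T.conn) :
    (∃ a, T.Next z a) ∨ ∃ τ : ℝ, 0 < τ ∧ ∃ j, T.γ j 0 = T.pt z + τ * T.vel z := by
  rcases T.next_or_bad hz with h | ⟨τ, hτ, -, ⟨j, hj⟩ | ⟨j, s, hs, -, h0⟩⟩
  · exact Or.inl h
  · exact Or.inr ⟨τ, hτ, j, hj⟩
  · exfalso
    refine nw_ne_zero hT (T.vel_norm hz) hc j ?_
    rw [nw, ← straight_deriv hT j s]
    exact h0

/-- In a fixed direction only finitely many states have no successor: the corner `γ j 0` determines
`x` by `ip (γ j 0 - γ i 0) (I w) = - x`. -/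
theorem finite_singular (hT : T.Straight) {i : Fin n} {w : ℂ} (hw : ‖w‖ = 1) (hc : w ∉ T.conn)
    (hp : 0 < T.nw i w) :
    {x : ℝ | 0 < x ∧ x < T.len i * T.nw i w ∧ ¬ ∃ a, T.Next (T.st i w x) a}.Finite := by
  refine (Set.finite_range fun j : Fin n => -ip (T.γ j 0 - T.γ i 0) (Complex.I * w)).subset ?_
  rintro x ⟨hx, hx', hn⟩
  obtain ⟨hz, hv⟩ := st_mem hT hw hp hx hx'
  have hc' : T.vel (T.st i w x) ∉ T.conn := by rwa [hv]
  rcases next_or_corner hT hz hc' with h | ⟨τ, hτ, j, hj⟩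
  · exact absurd h hn
  · refine ⟨j, ?_⟩
    have h1 : T.pt (T.st i w x) = T.γ i 0 + ((x / T.nw i w : ℝ) : ℂ) * T.dir i :=
      straight_eq hT i (x / T.nw i w)
    have h2 : T.γ j 0 - T.γ i 0 = ((x / T.nw i w : ℝ) : ℂ) * T.dir i + τ * w := by
      rw [hj, hv, h1]; ring
    have h3 : ip (T.dir i) (Complex.I * w) = -T.nw i w := by
      rw [ip_I_mul_right, nw, ip_comm w]
    show -ip (T.γ j 0 - T.γ i 0) (Complex.I * w) = x
    rw [h2, ip_add_left, ip_rmul_left, ip_rmul_left, h3, ip_I_self]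
    field_simp
    ring

end Table

end

end Pool.Agent.MP2e716c
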