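import Mathlib

/-!
# Interval systems with exits

`I × ℝ` is a finite family of lines; `V` is the family of open intervals `(0, ℓ a)`.
`T` is defined on `V` minus the finite set `D` of singular points; it either exits (`none`) or
maps locally isometrically and orientation reversing into `V`.
-/

open Set MeasureTheory Filter Topology

namespace Pool.Agent.MP2e716c

noncomputable section

/-- Shift of a point along its line. -/
def sh {I : Type} (z : I × ℝ) (t : ℝ) : I × ℝ := (z.1, z.2 + t)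

/-- An interval system with exits. -/
structure IntSys (I : Type) where
  ℓ : I → ℝ
  T : I × ℝ → Option (I × ℝ)
  D : Set (I × ℝ)
  Db : Set (I × ℝ)
  D_fin : D.Finite
  loc : ∀ z : I × ℝ, 0 < z.2 → z.2 < ℓ z.1 → z ∉ D → ∃ ε > 0,
    (∀ t : ℝ, |t| < ε → sh z t ∉ D) ∧
    ((∀ t : ℝ, |t| < ε → T (sh z t) = none) ∨
      ∃ y : I × ℝ, 0 < y.2 ∧ y.2 < ℓ y.1 ∧ ∀ t : ℝ, |t| < ε → T (sh z t) = some (sh y (-t)))
  inj : ∀ z w y : I × ℝ, 0 < z.2 → z.2 < ℓ z.1 → z ∉ D → 0 < w.2 → w.2 < ℓ w.1 → w ∉ D →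
    T z = some y → T w = some y → z = w
  back : ∀ y : I × ℝ, 0 < y.2 → y.2 < ℓ y.1 → y ∉ Db →
    (∃ z : I × ℝ, 0 < z.2 ∧ z.2 < ℓ z.1 ∧ z ∉ D ∧ T z = some y) ∨
    (∃ ε > 0, ∀ t : ℝ, |t| < ε → ∀ z : I × ℝ, 0 < z.2 → z.2 < ℓ z.1 → z ∉ D →
      T z ≠ some (sh y t))

namespace IntSys

variable {I : Type} (A : IntSys I)

/-- The state space. -/
def V : Set (I × ℝ) := {z | 0 < z.2 ∧ z.2 < A.ℓ z.1}

/-- One regular step. -/
def Step (z w : I × ℝ) : Prop := z ∈ A.V ∧ z ∉ A.D ∧ A.T z = some w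

/-- `k` regular steps. -/
def Steps : ℕ → I × ℝ → I × ℝ → Prop
  | 0, z, w => z = w
  | k + 1, z, w => ∃ y, A.Step z y ∧ Steps k y w

/-- States which exit at time `k + 1`. -/
def Ex : ℕ → Set (I × ℝ)
  | 0 => {z | z ∈ A.V ∧ z ∉ A.D ∧ A.T z = none}
  | k + 1 => {z | ∃ y, A.Step z y ∧ y ∈ Ex k}

/-- Mortal states: they exit in finite time. -/
def E : Set (I × ℝ) := ⋃ k, A.Ex k

/-- Immortal states. -/
def Imm : Set (I × ℝ) := {z | z ∈ A.V ∧ ∀ k : ℕ, ∃ w, A.Steps k z w ∧ w ∉ A.D}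

/-- No connection between a backward singular and a forward singular point. -/
def NoConn : Prop := ∀ y ∈ A.V, y ∈ A.Db → ∀ (k : ℕ) (z : I × ℝ), A.Steps k y z → z ∉ A.D

theorem sh_zero (z : I × ℝ) : sh z 0 = z := by
  simp [sh]

theorem step_mem {z w : I × ℝ} (h : A.Step z w) : w ∈ A.V := by
  obtain ⟨hz, hD, hT⟩ := h
  obtain ⟨ε, hε, -, h1 | ⟨y, hy1, hy2, h1⟩⟩ := A.loc z hz.1 hz.2 hD
  · have h2 := h1 0 (by simpa using hε)
    rw [sh_zero, hT] at h2
    cases h2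
  · have h2 := h1 0 (by simpa using hε)
    rw [sh_zero, hT] at h2
    have h3 : w = y := by
      have := Option.some.inj h2
      simpa [sh] using this
    rw [h3]
    exact ⟨hy1, hy2⟩

theorem steps_mem {k : ℕ} {z w : I × ℝ} (hz : z ∈ A.V) (h : A.Steps k z w) : w ∈ A.V := by
  induction k generalizing z with
  | zero =>
    have h1 : z = w := h
    rw [← h1]
    exact hz
  | succ k ih =>
    obtain ⟨y, hy, h2⟩ := h
    exact ih (A.step_mem hy) h2

theorem steps_add {k m : ℕ} {z w : I × ℝ} :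
    A.Steps (k + m) z w ↔ ∃ y, A.Steps k z y ∧ A.Steps m y w := by
  induction k generalizing z with
  | zero =>
    rw [Nat.zero_add]
    constructor
    · intro h
      exact ⟨z, rfl, h⟩
    · rintro ⟨y, hy, h⟩
      have h1 : z = y := hy
      rw [h1]
      exact h
  | succ k ih =>
    rw [Nat.succ_add]
    constructor
    · rintro ⟨y, hy, h⟩
      obtain ⟨x, h1, h2⟩ := ih.1 h
      exact ⟨x, ⟨y, hy, h1⟩, h2⟩
    · rintro ⟨x, ⟨y, hy, h1⟩, h2⟩
      exact ⟨y, hy, ih.2 ⟨x, h1, h2⟩⟩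

theorem step_unique {z w w' : I × ℝ} (h : A.Step z w) (h' : A.Step z w') : w = w' := by
  have h1 := h.2.2
  rw [h'.2.2] at h1
  exact (Option.some.inj h1).symm

theorem steps_unique {k : ℕ} {z w w' : I × ℝ} (h : A.Steps k z w) (h' : A.Steps k z w') :
    w = w' := by
  induction k generalizing z with
  | zero =>
    have h1 : z = w := h
    have h2 : z = w' := h'
    rw [← h1, ← h2]
  | succ k ih =>
    obtain ⟨y, hy, h1⟩ := h
    obtain ⟨y', hy', h1'⟩ := h'
    have h2 := A.step_unique hy hy'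
    rw [← h2] at h1'
    exact ih h1 h1'

theorem steps_inj {k : ℕ} {z z' w : I × ℝ} (h : A.Steps k z w) (h' : A.Steps k z' w) :
    z = z' := by
  induction k generalizing z z' with
  | zero =>
    have h1 : z = w := h
    have h2 : z' = w := h'
    rw [h1, h2]
  | succ k ih =>
    obtain ⟨y, hy, h1⟩ := h
    obtain ⟨y', hy', h1'⟩ := h'
    have h2 := ih h1 h1'
    rw [← h2] at hy'
    exact A.inj z z' y hy.1.1 hy.1.2 hy.2.1 hy'.1.1 hy'.1.2 hy'.2.1 hy.2.2 hy'.2.2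

theorem ex_sub {k : ℕ} : A.Ex k ⊆ A.V := by
  cases k with
  | zero => exact fun z hz => hz.1
  | succ k =>
    rintro z ⟨y, hy, -⟩
    exact hy.1

theorem ex_steps {k m : ℕ} {z : I × ℝ} (h : z ∈ A.Ex (k + m)) :
    ∃ w, A.Steps k z w ∧ w ∈ A.Ex m := by
  induction k generalizing z with
  | zero =>
    rw [Nat.zero_add] at h
    exact ⟨z, rfl, h⟩
  | succ k ih =>
    rw [Nat.succ_add] at h
    obtain ⟨y, hy, h1⟩ := h
    obtain ⟨w, h2, h3⟩ := ih h1
    exact ⟨w, ⟨y, hy, h2⟩, h3⟩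

theorem ex_of_steps {k m : ℕ} {z w : I × ℝ} (h : A.Steps k z w) (hw : w ∈ A.Ex m) :
    z ∈ A.Ex (k + m) := by
  induction k generalizing z with
  | zero =>
    have h1 : z = w := h
    rw [Nat.zero_add, h1]
    exact hw
  | succ k ih =>
    obtain ⟨y, hy, h1⟩ := h
    rw [Nat.succ_add]
    exact ⟨y, hy, ih h1⟩

theorem ex_disjoint {k m : ℕ} {z : I × ℝ} (h : z ∈ A.Ex k) (h' : z ∈ A.Ex m) : k = m := by
  induction k generalizing z m with
  | zero =>
    cases m with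
    | zero => rfl
    | succ m =>
      obtain ⟨y, hy, -⟩ := h'
      have h1 := hy.2.2
      rw [h.2.2] at h1
      cases h1
  | succ k ih =>
    obtain ⟨y, hy, h1⟩ := h
    cases m with
    | zero =>
      have h2 := hy.2.2
      rw [h'.2.2] at h2
      cases h2
    | succ m =>
      obtain ⟨y', hy', h1'⟩ := h'
      have h2 := A.step_unique hy hy'
      rw [← h2] at h1'
      rw [ih h1 h1']

theorem mem_E {z : I × ℝ} : z ∈ A.E ↔ ∃ k, z ∈ A.Ex k := by
  simp [E]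

/-- `E` is invariant along steps, in both directions. -/
theorem step_mem_E {z w : I × ℝ} (h : A.Step z w) : z ∈ A.E ↔ w ∈ A.E := by
  rw [mem_E, mem_E]
  constructor
  · rintro ⟨k, hk⟩
    cases k with
    | zero =>
      have h1 := h.2.2
      rw [hk.2.2] at h1
      cases h1
    | succ k =>
      obtain ⟨y, hy, h1⟩ := hk
      rw [A.step_unique hy h] at h1
      exact ⟨k, h1⟩
  · rintro ⟨k, hk⟩
    exact ⟨k + 1, w, h, hk⟩

theorem steps_mem_E {k : ℕ} {z w : I × ℝ} (h : A.Steps k z w) : z ∈ A.E ↔ w ∈ A.E := by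
  induction k generalizing z with
  | zero =>
    have h1 : z = w := h
    rw [h1]
  | succ k ih =>
    obtain ⟨y, hy, h1⟩ := h
    rw [A.step_mem_E hy]
    exact ih h1

theorem steps_one {z w : I × ℝ} (h : A.Step z w) : A.Steps 1 z w := ⟨w, h, rfl⟩

/-- The first `k` steps exist, or the state exits before, or it hits a singular point before. -/
theorem steps_or {z : I × ℝ} (hz : z ∈ A.V) (k : ℕ) :
    (∃ w, A.Steps k z w) ∨ (∃ j < k, z ∈ A.Ex j) ∨ (∃ j < k, ∃ d ∈ A.D, A.Steps j z d) := by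
  induction k with
  | zero => exact Or.inl ⟨z, rfl⟩
  | succ k ih =>
    rcases ih with ⟨w, hw⟩ | ⟨j, hj, h1⟩ | ⟨j, hj, d, hd, h1⟩
    · by_cases hD : w ∈ A.D
      · exact Or.inr (Or.inr ⟨k, Nat.lt_succ_self k, w, hD, hw⟩)
      · have hV := A.steps_mem hz hw
        rcases hT : A.T w with _ | y
        · refine Or.inr (Or.inl ⟨k, Nat.lt_succ_self k, ?_⟩)
          have h2 : w ∈ A.Ex 0 := ⟨hV, hD, hT⟩
          exact A.ex_of_steps hw h2
        · refine Or.inl ⟨y, ?_⟩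
          exact A.steps_add.2 ⟨w, hw, A.steps_one ⟨hV, hD, hT⟩⟩
    · exact Or.inr (Or.inl ⟨j, Nat.lt_succ_of_lt hj, h1⟩)
    · exact Or.inr (Or.inr ⟨j, Nat.lt_succ_of_lt hj, d, hd, h1⟩)

/-- Exit and singularity exclude each other: no state of `Ex k` reaches `D`. -/
theorem ex_not_D {k j : ℕ} {z d : I × ℝ} (h : z ∈ A.Ex k) (hd : A.Steps j z d) : d ∉ A.D := by
  induction j generalizing z k with
  | zero =>
    have h1 : z = d := hd
    rw [← h1]
    cases k with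
    | zero => exact h.2.1
    | succ k =>
      obtain ⟨y, hy, -⟩ := h
      exact hy.2.1
  | succ j ih =>
    obtain ⟨y, hy, h1⟩ := hd
    cases k with
    | zero =>
      have h2 := hy.2.2
      rw [h.2.2] at h2
      cases h2
    | succ k =>
      obtain ⟨y', hy', h1'⟩ := h
      rw [A.step_unique hy' hy] at h1'
      exact ih h1' h1

theorem not_E_of_reach {z d : I × ℝ} {j : ℕ} (hd : d ∈ A.D) (h : A.Steps j z d) : z ∉ A.E := by
  intro hE
  obtain ⟨k, hk⟩ := A.mem_E.1 hE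
  exact A.ex_not_D hk h hd

/-- Every state is mortal, immortal or reaches `D`. -/
theorem trichotomy {z : I × ℝ} (hz : z ∈ A.V) :
    z ∈ A.E ∨ z ∈ A.Imm ∨ ∃ j, ∃ d ∈ A.D, A.Steps j z d := by
  by_cases h1 : z ∈ A.E
  · exact Or.inl h1
  by_cases h2 : ∃ j, ∃ d ∈ A.D, A.Steps j z d
  · exact Or.inr (Or.inr h2)
  refine Or.inr (Or.inl ⟨hz, fun k => ?_⟩)
  rcases A.steps_or hz k with ⟨w, hw⟩ | ⟨j, -, h3⟩ | ⟨j, -, d, hd, h3⟩
  · exact ⟨w, hw, fun hD => h2 ⟨k, w, hD, hw⟩⟩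
  · exact absurd (A.mem_E.2 ⟨j, h3⟩) h1
  · exact absurd ⟨j, d, hd, h3⟩ h2

end IntSys

end

end Pool.Agent.MP2e716c
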