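import Pool.Agent.H.MP_2e716c_an.Geo2
import Pool.Agent.H.MP_2e716c_an.IS1

open Set MeasureTheory Filter Topology

namespace Pool.Agent.MP2e716c

noncomputable section

namespace Table

variable {n : ℕ} [NeZero n] (T : Table n)

/-- A finite set of unit directions, closed under reflection in the sides of `S`, without
connection directions. -/
structure DirClass (S : Set (Fin n)) (W : Finset ℂ) : Prop where
  unit : ∀ w ∈ W, ‖w‖ = 1
  refl : ∀ w ∈ W, ∀ i ∈ S, T.rfl' i w ∈ W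
  noconn : ∀ w ∈ W, w ∉ T.conn

open Classical in
/-- The billiard map on states `(i, w, x)`, killed when it leaves `S`. -/
def nextW (S : Set (Fin n)) (W : Finset ℂ) (z : (Fin n × W) × ℝ) : Option ((Fin n × W) × ℝ) :=
  if h : ∃ a, T.Next (T.st z.1.1 z.1.2 z.2) a ∧ a.1 ∈ S ∧ T.vel a ∈ W then
    some ((h.choose.1, ⟨T.vel h.choose, h.choose_spec.2.2⟩),
      h.choose.2.1 * Real.cos h.choose.2.2)
  else none

/-- Length of a line of states. -/
def lenW (W : Finset ℂ) (a : Fin n × W) : ℝ := T.len a.1 * T.nw a.1 a.2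

/-- Forward singular states. -/
def singF (W : Finset ℂ) : Set ((Fin n × W) × ℝ) :=
  {z | 0 < z.2 ∧ z.2 < T.lenW W z.1 ∧ ¬ ∃ a, T.Next (T.st z.1.1 z.1.2 z.2) a}

/-- Backward singular states. -/
def singB (S : Set (Fin n)) (W : Finset ℂ) : Set ((Fin n × W) × ℝ) :=
  {z | 0 < z.2 ∧ z.2 < T.lenW W z.1 ∧ z.1.1 ∈ S ∧
    ¬ ∃ a, T.Next a (T.st z.1.1 z.1.2 z.2)}

variable {T}

theorem geo3_nw_pos {W : Finset ℂ} {z : (Fin n × W) × ℝ} (hz : 0 < z.2)
    (hz' : z.2 < T.lenW W z.1) : 0 < T.nw z.1.1 z.1.2 := by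
  have h : 0 < T.len z.1.1 * T.nw z.1.1 z.1.2 := hz.trans hz'
  exact (mul_pos_iff_of_pos_left (T.len_pos _)).1 h

theorem geo3_mem (hT : T.Straight) {S : Set (Fin n)} {W : Finset ℂ} (hW : T.DirClass S W)
    {z : (Fin n × W) × ℝ} (hz : 0 < z.2) (hz' : z.2 < T.lenW W z.1) :
    T.st z.1.1 z.1.2 z.2 ∈ T.phase ∧ T.vel (T.st z.1.1 z.1.2 z.2) = z.1.2 :=
  st_mem hT (hW.unit _ z.1.2.2) (geo3_nw_pos hz hz') hz hz'

/-- A state is determined by its phase point. -/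
theorem geo3_ext (hT : T.Straight) {S : Set (Fin n)} {W : Finset ℂ} (hW : T.DirClass S W)
    {z w : (Fin n × W) × ℝ} (hz : 0 < z.2) (hz' : z.2 < T.lenW W z.1)
    (hw : 0 < w.2) (hw' : w.2 < T.lenW W w.1)
    (h : T.st z.1.1 z.1.2 z.2 = T.st w.1.1 w.1.2 w.2) : z = w := by
  obtain ⟨-, e1⟩ := geo3_mem hT hW hz hz'
  obtain ⟨-, e2⟩ := geo3_mem hT hW hw hw'
  have h1 : z.1.1 = w.1.1 := congrArg (fun a => a.1) h
  have h2 : (z.1.2 : ℂ) = w.1.2 := by rw [← e1, ← e2, h]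
  have h3 : z.2 / T.nw z.1.1 z.1.2 = w.2 / T.nw w.1.1 w.1.2 := congrArg (fun a => a.2.1) h
  have p1 := geo3_nw_pos hz hz'
  obtain ⟨⟨i, v⟩, x⟩ := z
  obtain ⟨⟨j, u⟩, x'⟩ := w
  simp only at h1 h2 h3 p1
  subst h1
  have h4 : v = u := Subtype.ext h2
  subst h4
  have h5 : x = x' := by
    field_simp at h3
    exact h3
  rw [h5]

/-- Recover the coordinates of a state from its phase point. -/
theorem geo3_coord (hT : T.Straight) {S : Set (Fin n)} {W : Finset ℂ} (hW : T.DirClass S W)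
    {y : (Fin n × W) × ℝ} (hy : 0 < y.2) (hy' : y.2 < T.lenW W y.1)
    (hv : T.vel (T.st y.1.1 y.1.2 y.2) ∈ W) :
    ((((T.st y.1.1 y.1.2 y.2).1, ⟨T.vel (T.st y.1.1 y.1.2 y.2), hv⟩),
      (T.st y.1.1 y.1.2 y.2).2.1 * Real.cos (T.st y.1.1 y.1.2 y.2).2.2) : (Fin n × W) × ℝ) = y := by
  obtain ⟨hm, e1⟩ := geo3_mem hT hW hy hy'
  have h1 := nw_vel hT hm
  rw [e1] at h1
  have hp := geo3_nw_pos hy hy'
  have h2 : (T.st y.1.1 y.1.2 y.2).2.1 * Real.cos (T.st y.1.1 y.1.2 y.2).2.2 = y.2 := by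
    rw [← h1]
    show y.2 / T.nw y.1.1 y.1.2 * T.nw y.1.1 y.1.2 = y.2
    field_simp
  refine Prod.ext (Prod.ext rfl (Subtype.ext e1)) h2

/-- Characterisation of `nextW` by the (unique) successor. -/
theorem nextW_eq_some (hT : T.Straight) {S : Set (Fin n)} {W : Finset ℂ} (hW : T.DirClass S W)
    {z : (Fin n × W) × ℝ} (hz : 0 < z.2) (hz' : z.2 < T.lenW W z.1) {a : Fin n × ℝ × ℝ}
    (h : T.Next (T.st z.1.1 z.1.2 z.2) a) (ha : a.1 ∈ S) :
    ∃ hv : T.vel a ∈ W, T.nextW S W z = some ((a.1, ⟨T.vel a, hv⟩), a.2.1 * Real.cos a.2.2) := by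
  obtain ⟨hm, e1⟩ := geo3_mem hT hW hz hz'
  have hv : T.vel a ∈ W := by
    obtain ⟨-, -, τ, -, -, -, hinc⟩ := id h
    rw [vel_eq_rfl' hT a, hinc, e1]
    exact hW.refl _ z.1.2.2 _ ha
  refine ⟨hv, ?_⟩
  have hex : ∃ a, T.Next (T.st z.1.1 z.1.2 z.2) a ∧ a.1 ∈ S ∧ T.vel a ∈ W := ⟨a, h, ha, hv⟩
  rw [nextW, dif_pos hex]
  have key : ∀ (b : Fin n × ℝ × ℝ) (hb : b = a) (hv' : T.vel b ∈ W),
      (some ((b.1, ⟨T.vel b, hv'⟩), b.2.1 * Real.cos b.2.2) : Option ((Fin n × W) × ℝ)) =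
        some ((a.1, ⟨T.vel a, hv⟩), a.2.1 * Real.cos a.2.2) := by
    rintro b rfl hv'; rfl
  exact key _ (T.next_unique hex.choose_spec.1 h) _

theorem nextW_eq_none {S : Set (Fin n)} {W : Finset ℂ}
    {z : (Fin n × W) × ℝ} {a : Fin n × ℝ × ℝ}
    (h : T.Next (T.st z.1.1 z.1.2 z.2) a) (ha : a.1 ∉ S) : T.nextW S W z = none := by
  rw [nextW, dif_neg]
  rintro ⟨b, hb, hbS, -⟩
  exact ha (T.next_unique hb h ▸ hbS)

theorem nextW_some_iff (hT : T.Straight) {S : Set (Fin n)} {W : Finset ℂ} (hW : T.DirClass S W)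
    {z y : (Fin n × W) × ℝ} (hz : 0 < z.2) (hz' : z.2 < T.lenW W z.1) :
    T.nextW S W z = some y ↔
      y.1.1 ∈ S ∧ T.Next (T.st z.1.1 z.1.2 z.2) (T.st y.1.1 y.1.2 y.2) ∧
        0 < y.2 ∧ y.2 < T.lenW W y.1 := by
  constructor
  · intro h
    rw [nextW] at h
    split_ifs at h with hex
    · obtain ⟨h1, h2, h3⟩ := hex.choose_spec
      have hph : hex.choose ∈ T.phase := h1.2.1
      obtain ⟨e1, e2, e3⟩ := st_eq hT hph
      have hy := Option.some.inj h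
      rw [← hy]
      refine ⟨h2, ?_, e2, e3⟩
      show T.Next (T.st z.1.1 z.1.2 z.2) (T.st hex.choose.1 (T.vel hex.choose)
        (hex.choose.2.1 * Real.cos hex.choose.2.2))
      rw [e1]
      exact h1
  · rintro ⟨h1, h2, h3, h4⟩
    obtain ⟨hv, e⟩ := nextW_eq_some hT hW hz hz' h2 h1
    rw [e]
    exact congrArg some (geo3_coord hT hW h3 h4 hv)

/-- `finite_singular`, finitely many lines. -/
theorem singF_finite (hT : T.Straight) {S : Set (Fin n)} {W : Finset ℂ} (hW : T.DirClass S W) :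
    (T.singF W).Finite := by
  have hfin : ∀ p : Fin n × W, {x : ℝ | 0 < x ∧ x < T.lenW W p ∧
      ¬ ∃ a, T.Next (T.st p.1 p.2 x) a}.Finite := by
    intro p
    by_cases hp : 0 < T.nw p.1 p.2
    · exact finite_singular hT (hW.unit _ p.2.2) (hW.noconn _ p.2.2) hp
    · have : {x : ℝ | 0 < x ∧ x < T.lenW W p ∧ ¬ ∃ a, T.Next (T.st p.1 p.2 x) a} = ∅ := by
        ext x
        simp only [mem_ofPred_eq, mem_empty_iff_false, iff_false]
        rintro ⟨h1, h2, -⟩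
        exact hp (geo3_nw_pos (z := (p, x)) h1 h2)
      rw [this]
      exact finite_empty
  refine (finite_iUnion fun p => (hfin p).image (fun x => (p, x))).subset ?_
  rintro ⟨p, x⟩ ⟨h1, h2, h3⟩
  exact mem_iUnion.2 ⟨p, x, ⟨h1, h2, h3⟩, rfl⟩

/-- `st_next_loc`. -/
theorem nextW_loc (hT : T.Straight) {S : Set (Fin n)} {W : Finset ℂ} (hW : T.DirClass S W)
    (z : (Fin n × W) × ℝ) (hz : 0 < z.2) (hz' : z.2 < T.lenW W z.1) (hD : z ∉ T.singF W) :
    ∃ ε > 0, (∀ t : ℝ, |t| < ε → sh z t ∉ T.singF W) ∧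
    ((∀ t : ℝ, |t| < ε → T.nextW S W (sh z t) = none) ∨
      ∃ y : (Fin n × W) × ℝ, 0 < y.2 ∧ y.2 < T.lenW W y.1 ∧
        ∀ t : ℝ, |t| < ε → T.nextW S W (sh z t) = some (sh y (-t))) := by
  have hex : ∃ a, T.Next (T.st z.1.1 z.1.2 z.2) a := by
    by_contra h
    exact hD ⟨hz, hz', h⟩
  obtain ⟨a, ha⟩ := hex
  obtain ⟨ε, hε, hloc⟩ := st_next_loc hT (hW.unit _ z.1.2.2) (geo3_nw_pos hz hz') ha
  obtain ⟨hm, e0⟩ := geo3_mem hT hW hz hz'
  by_cases haS : a.1 ∈ S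
  · obtain ⟨hv, -⟩ := nextW_eq_some hT hW hz hz' ha haS
    obtain ⟨e1, e2, e3⟩ := st_eq hT ha.2.1
    set x' := a.2.1 * Real.cos a.2.2 with hx'
    have hd1 : 0 < T.lenW W z.1 - z.2 := by linarith
    have hd2 : 0 < T.len a.1 * T.nw a.1 (T.vel a) - x' := by linarith
    refine ⟨min ε (min (min z.2 (T.lenW W z.1 - z.2))
      (min x' (T.len a.1 * T.nw a.1 (T.vel a) - x'))),
      lt_min hε (lt_min (lt_min hz hd1) (lt_min e2 hd2)), ?_, Or.inr ?_⟩
    · intro t ht hcon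
      exact hcon.2.2 ⟨_, hloc t (ht.trans_le (min_le_left _ _))⟩
    · refine ⟨((a.1, ⟨T.vel a, hv⟩), x'), e2, e3, ?_⟩
      intro t ht
      have t1 : |t| < ε := ht.trans_le (min_le_left _ _)
      have t2 : |t| < z.2 := ht.trans_le
        ((min_le_right _ _).trans ((min_le_left _ _).trans (min_le_left _ _)))
      have t3 : |t| < T.lenW W z.1 - z.2 := ht.trans_le
        ((min_le_right _ _).trans ((min_le_left _ _).trans (min_le_right _ _)))
      have t4 : |t| < x' := ht.trans_le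
        ((min_le_right _ _).trans ((min_le_right _ _).trans (min_le_left _ _)))
      have t5 : |t| < T.len a.1 * T.nw a.1 (T.vel a) - x' := ht.trans_le
        ((min_le_right _ _).trans ((min_le_right _ _).trans (min_le_right _ _)))
      have u := abs_lt.1 t1
      have u2 := abs_lt.1 t2
      have u3 := abs_lt.1 t3
      have u4 := abs_lt.1 t4
      have u5 := abs_lt.1 t5
      refine (nextW_some_iff hT hW (z := sh z t) ?_ ?_).2 ⟨haS, ?_, ?_, ?_⟩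
      · show 0 < z.2 + t
        linarith [u2.1]
      · show z.2 + t < T.lenW W z.1
        linarith [u3.2]
      · exact hloc t t1
      · show 0 < x' + -t
        linarith [u4.2]
      · show x' + -t < T.len a.1 * T.nw a.1 (T.vel a)
        linarith [u5.1]
  · refine ⟨ε, hε, ?_, Or.inl ?_⟩
    · intro t ht hcon
      exact hcon.2.2 ⟨_, hloc t ht⟩
    · intro t ht
      exact nextW_eq_none (z := sh z t) (hloc t ht) haS

/-- `next_inj`. -/
theorem nextW_inj (hT : T.Straight) {S : Set (Fin n)} {W : Finset ℂ} (hW : T.DirClass S W)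
    (z w y : (Fin n × W) × ℝ) (hz : 0 < z.2) (hz' : z.2 < T.lenW W z.1)
    (hw : 0 < w.2) (hw' : w.2 < T.lenW W w.1)
    (h : T.nextW S W z = some y) (h' : T.nextW S W w = some y) : z = w := by
  obtain ⟨-, h1, -, -⟩ := (nextW_some_iff hT hW hz hz').1 h
  obtain ⟨-, h2, -, -⟩ := (nextW_some_iff hT hW hw hw').1 h'
  exact geo3_ext hT hW hz hz' hw hw' (T.next_inj h1 h2)

/-- If `y.1.1 ∉ S` no state is mapped near `y`.  If `y.1.1 ∈ S` and `y ∉ singB`: `Next a (st y)`, and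
`vel a = inc (st y) = rfl' y.1.1 y.1.2 ∈ W`, `a = st a.1 (vel a) (a.2.1 cos)` (`st_eq`), so `y` has a preimage. -/
theorem nextW_back (hT : T.Straight) {S : Set (Fin n)} {W : Finset ℂ} (hW : T.DirClass S W)
    (y : (Fin n × W) × ℝ) (hy : 0 < y.2) (hy' : y.2 < T.lenW W y.1) (hD : y ∉ T.singB S W) :
    (∃ z : (Fin n × W) × ℝ, 0 < z.2 ∧ z.2 < T.lenW W z.1 ∧ z ∉ T.singF W ∧
      T.nextW S W z = some y) ∨
    (∃ ε > 0, ∀ t : ℝ, |t| < ε → ∀ z : (Fin n × W) × ℝ, 0 < z.2 → z.2 < T.lenW W z.1 →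
      z ∉ T.singF W → T.nextW S W z ≠ some (sh y t)) := by
  by_cases hS : y.1.1 ∈ S
  · left
    have hex : ∃ a, T.Next a (T.st y.1.1 y.1.2 y.2) := by
      by_contra h
      exact hD ⟨hy, hy', hS, h⟩
    obtain ⟨a, ha⟩ := hex
    obtain ⟨hm, e0⟩ := geo3_mem hT hW hy hy'
    have hv : T.vel a ∈ W := by
      obtain ⟨-, -, τ, -, -, -, hinc⟩ := id ha
      rw [← hinc, inc_eq_rfl' hT, e0]
      exact hW.refl _ y.1.2.2 _ hS
    obtain ⟨e1, e2, e3⟩ := st_eq hT ha.1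
    have hN : T.Next (T.st a.1 (T.vel a) (a.2.1 * Real.cos a.2.2)) (T.st y.1.1 y.1.2 y.2) := by
      rw [e1]; exact ha
    refine ⟨((a.1, ⟨T.vel a, hv⟩), a.2.1 * Real.cos a.2.2), e2, e3, ?_, ?_⟩
    · rintro ⟨-, -, hno⟩
      exact hno ⟨_, hN⟩
    · exact (nextW_some_iff hT hW (z := ((a.1, ⟨T.vel a, hv⟩), a.2.1 * Real.cos a.2.2)) e2 e3).2
        ⟨hS, hN, hy, hy'⟩
  · right
    refine ⟨1, one_pos, fun t _ z hz hz' _ h => ?_⟩
    exact hS ((nextW_some_iff hT hW hz hz').1 h).1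

/-- The interval system of a direction class. -/
def sys (hT : T.Straight) {S : Set (Fin n)} {W : Finset ℂ} (hW : T.DirClass S W) :
    IntSys (Fin n × W) where
  ℓ := T.lenW W
  T := T.nextW S W
  D := T.singF W
  Db := T.singB S W
  D_fin := singF_finite hT hW
  loc := nextW_loc hT hW
  inj := fun z w y hz hz' _ hw hw' _ h h' => nextW_inj hT hW z w y hz hz' hw hw' h h'
  back := nextW_back hT hW

/-- No connections.
Proof. Let `y ∈ singB`, `Steps k y z`, `z ∈ singF`.  The backward ray of `st y` hits a corner: apply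
`next_or_corner` to `rev (st y)` (its velocity is `-inc (st y)`; if `Next (rev (st y)) a` then
`Next (rev a) (st y)` by `next_rev`; the hypothesis `-inc ∉ conn` of `next_or_corner` is only used for
`nw ≠ 0`, use `next_or_bad` and `nw_ne_zero` for `inc (st y) ∈ W` instead): `γ k0 0 = pt (st y) - τ inc (st y)`.
The forward ray of `st z` hits a corner `γ j 0 = pt + σ vel` (`next_or_corner`).  Unfold backwards
along the steps with `unfold_step` and finally `unfold_start`: there is a list `L` with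
`unf L (γ j 0) = γ k0 0 + σ' inc (st y)`, so `inc (st y) ∈ conn`, but `inc (st y) = rfl' y.1.1 y.1.2 ∈ W`. -/
theorem sys_noConn (hT : T.Straight) {S : Set (Fin n)} {W : Finset ℂ} (hW : T.DirClass S W) :
    (sys hT hW).NoConn := by
  intro y hyV hyB k z hsteps hzF
  have hyV' : 0 < y.2 ∧ y.2 < T.lenW W y.1 := hyV
  obtain ⟨-, -, hyS, hyno⟩ : 0 < y.2 ∧ y.2 < T.lenW W y.1 ∧ y.1.1 ∈ S ∧
    ¬ ∃ a, T.Next a (T.st y.1.1 y.1.2 y.2) := hyB
  obtain ⟨hz1, hz2, hzno⟩ : 0 < z.2 ∧ z.2 < T.lenW W z.1 ∧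
    ¬ ∃ a, T.Next (T.st z.1.1 z.1.2 z.2) a := hzF
  obtain ⟨hym, hyv⟩ := geo3_mem hT hW hyV'.1 hyV'.2
  obtain ⟨hzm, hzv⟩ := geo3_mem hT hW hz1 hz2
  have hincW : T.inc (T.st y.1.1 y.1.2 y.2) ∈ W := by
    rw [inc_eq_rfl' hT, hyv]
    exact hW.refl _ y.1.2.2 _ hyS
  -- backward corner
  have hback : ∃ τ : ℝ, 0 < τ ∧ ∃ j, T.γ j 0 = T.pt (T.st y.1.1 y.1.2 y.2) -
      τ * T.inc (T.st y.1.1 y.1.2 y.2) := by
    rcases T.next_or_bad (T.rev_mem hym) with ⟨a, ha⟩ | ⟨τ, hτ, -, ⟨j, hj⟩ | ⟨j, s, hs, -, hperp⟩⟩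
    · refine absurd ⟨rev a, ?_⟩ hyno
      have := T.next_rev ha
      rwa [rev_rev] at this
    · refine ⟨τ, hτ, j, ?_⟩
      rw [hj, T.pt_rev, T.vel_rev]
      ring
    · exfalso
      rw [T.vel_rev, ip_neg_left, neg_eq_zero, straight_deriv hT] at hperp
      exact nw_ne_zero hT (hW.unit _ hincW) (hW.noconn _ hincW) j hperp
  obtain ⟨τ, hτ, k0, hk0⟩ := hback
  -- forward corner
  have hfor : ∃ τ : ℝ, 0 < τ ∧ ∃ j, T.γ j 0 = T.pt (T.st z.1.1 z.1.2 z.2) +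
      τ * T.vel (T.st z.1.1 z.1.2 z.2) := by
    rcases next_or_corner hT hzm (by rw [hzv]; exact hW.noconn _ z.1.2.2) with h | h
    · exact absurd h hzno
    · exact h
  obtain ⟨σ, hσ, j, hj⟩ := hfor
  -- unfolding
  have hunf : ∀ (k : ℕ) (y : (Fin n × W) × ℝ), 0 < y.2 → y.2 < T.lenW W y.1 →
      (sys hT hW).Steps k y z → ∃ (L : List (Fin n)) (σ' : ℝ), 0 < σ' ∧
        T.unf L (T.γ j 0) = T.pt (T.st y.1.1 y.1.2 y.2) +
          σ' * T.vel (T.st y.1.1 y.1.2 y.2) := by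
    intro k
    induction k with
    | zero =>
      intro y _ _ hs
      have hs' : y = z := hs
      subst hs'
      exact ⟨[], σ, hσ, hj⟩
    | succ k ih =>
      intro y hy hy' hs
      obtain ⟨y1, hstep, hrest⟩ : ∃ y1, (sys hT hW).Step y y1 ∧ (sys hT hW).Steps k y1 z := hs
      obtain ⟨-, -, hnext⟩ := hstep
      obtain ⟨-, hN, hy1, hy1'⟩ := (nextW_some_iff hT hW hy hy').1 hnext
      obtain ⟨L, σ1, hσ1, hL⟩ := ih y1 hy1 hy1' hrest
      obtain ⟨σ2, hσ2, hr⟩ := unfold_step hT hN hσ1.le hL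
      exact ⟨y1.1.1 :: L, σ2, hσ2, hr⟩
  obtain ⟨L, σ1, hσ1, hL⟩ := hunf k y hyV'.1 hyV'.2 hsteps
  obtain ⟨σ2, hσ2, hr⟩ := unfold_start hT hym hτ hk0 hσ1.le hL
  refine hW.noconn _ hincW ⟨hW.unit _ hincW, y.1.1 :: L, k0, j, σ2, hσ2, hr⟩

end Table

end

end Pool.Agent.MP2e716c
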