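import Pool.Agent.H.MP_2e716c_an.IS2

open Set MeasureTheory Filter Topology

namespace Pool.Agent.MP2e716c

noncomputable section

namespace IntSys

variable {I : Type} (A : IntSys I)

theorem is4_imm_iff {z : I × ℝ} :
    z ∈ A.Imm ↔ z ∈ A.V ∧ z ∉ A.E ∧ ¬ ∃ j, ∃ d ∈ A.D, A.Steps j z d := by
  constructor
  · intro h
    refine ⟨h.1, fun hE => ?_, ?_⟩
    · obtain ⟨k, hk⟩ := mem_iUnion.1 hE
      obtain ⟨w, hw, hw0⟩ := A.ex_steps (k := k) (m := 0) hk
      obtain ⟨w', hw', -⟩ := h.2 (k + 1)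
      obtain ⟨y, hy, hy'⟩ := A.steps_add.1 hw'
      have h1 := A.steps_unique hy hw
      rw [h1] at hy'
      obtain ⟨y', hy'', -⟩ := hy'
      have h5 := hy''.2.2
      rw [hw0.2.2] at h5
      exact absurd h5 (by simp)
    · rintro ⟨j, d, hd, hs⟩
      obtain ⟨w, hw, hwD⟩ := h.2 j
      rw [A.steps_unique hw hs] at hwD
      exact hwD hd
  · rintro ⟨h1, h2, h3⟩
    rcases A.trichotomy h1 with h | h | h
    · exact absurd h h2
    · exact h
    · exact absurd h h3

theorem is4_imm_step {z w : I × ℝ} (h : A.Step z w) : z ∈ A.Imm ↔ w ∈ A.Imm := by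
  constructor
  · intro hz
    refine ⟨A.step_mem h, fun k => ?_⟩
    obtain ⟨w', ⟨y, hy, hy'⟩, hwD⟩ := hz.2 (k + 1)
    have h1 : y = w := by
      have h2 := hy.2.2
      rw [h.2.2] at h2
      exact (Option.some.inj h2).symm
    rw [h1] at hy'
    exact ⟨w', hy', hwD⟩
  · intro hw
    refine ⟨h.1, fun k => ?_⟩
    cases k with
    | zero => exact ⟨z, rfl, h.2.1⟩
    | succ k =>
      obtain ⟨w', hw', hwD⟩ := hw.2 k
      exact ⟨w', ⟨w, h, hw'⟩, hwD⟩

theorem is4_countable (a : I) : {x : ℝ | ∃ j, ∃ d ∈ A.D, A.Steps j (a, x) d}.Countable :=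
  A.countable_reach.preimage (Prod.mk_right_injective a)

/-- The immortal part of a line is a Borel set: the complement of the open set `E` and of the
countable set of states reaching `D` (`trichotomy`, `countable_reach`, `isOpen_E`). -/
theorem measurableSet_imm (a : I) : MeasurableSet {x : ℝ | (a, x) ∈ A.Imm} := by
  have h : {x : ℝ | (a, x) ∈ A.Imm} = (Ioo 0 (A.ℓ a) \ {x : ℝ | (a, x) ∈ A.E}) \
      {x : ℝ | ∃ j, ∃ d ∈ A.D, A.Steps j (a, x) d} := by
    ext x
    constructor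
    · intro hx
      obtain ⟨h1, h2, h3⟩ := A.is4_imm_iff.1 hx
      exact ⟨⟨h1, h2⟩, h3⟩
    · rintro ⟨⟨h1, h2⟩, h3⟩
      exact A.is4_imm_iff.2 ⟨h1, h2, h3⟩
  rw [h]
  exact (measurableSet_Ioo.diff (A.isOpen_E a).measurableSet).diff (A.is4_countable a).measurableSet

/-- the part of the line `a` which is mapped to the line `b` -/
def is4U (a b : I) : Set ℝ := {x : ℝ | (a, x) ∈ A.V ∧ (a, x) ∉ A.D ∧ ∃ y, A.T (a, x) = some (b, y)}

open Classical in
/-- the map from the line `a` to the line `b` -/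
def is4g (a b : I) (x : ℝ) : ℝ := if h : ∃ y, A.T (a, x) = some (b, y) then h.choose else 0

theorem is4g_spec {a b : I} {x : ℝ} (hx : ∃ y, A.T (a, x) = some (b, y)) :
    A.T (a, x) = some (b, A.is4g a b x) := by
  unfold is4g
  rw [dif_pos hx]
  exact hx.choose_spec

theorem is4g_eq {a b : I} {x y : ℝ} (hx : A.T (a, x) = some (b, y)) : A.is4g a b x = y := by
  have h := A.is4g_spec ⟨y, hx⟩
  rw [hx] at h
  have h2 := Option.some.inj h
  exact (congrArg Prod.snd h2).symm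

theorem is4_local {a b : I} {x : ℝ} (hx : x ∈ A.is4U a b) :
    ∃ ε > 0, ∀ t : ℝ, |t| < ε → x + t ∈ A.is4U a b ∧ A.is4g a b (x + t) = A.is4g a b x - t := by
  obtain ⟨hV, hD, hy⟩ := hx
  obtain ⟨ε, hε, h1, h2⟩ := A.loc (a, x) hV.1 hV.2 hD
  rcases h2 with h2 | ⟨y, hy1, hy2, h2⟩
  · have h3 := h2 0 (by simpa using hε)
    have h4 : sh (a, x) 0 = (a, x) := by simp [sh]
    rw [h4] at h3
    obtain ⟨y, hy⟩ := hy
    rw [h3] at hy
    exact absurd hy (by simp)
  · have h3 := h2 0 (by simpa using hε)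
    have h4 : sh (a, x) 0 = (a, x) := by simp [sh]
    have h5 : sh y (-0) = y := by simp [sh]
    rw [h4, h5] at h3
    have h6 : y = (b, A.is4g a b x) := by
      have h7 := A.is4g_spec hy
      rw [h3] at h7
      exact Option.some.inj h7
    have hx0 : 0 < x := hV.1
    have hxl : x < A.ℓ a := hV.2
    refine ⟨min ε (min x (A.ℓ a - x)), lt_min hε (lt_min hx0 (by linarith)), fun t ht => ?_⟩
    have ht1 : |t| < ε := ht.trans_le (min_le_left _ _)
    have ht2 : |t| < x := ht.trans_le ((min_le_right _ _).trans (min_le_left _ _))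
    have ht3 : |t| < A.ℓ a - x := ht.trans_le ((min_le_right _ _).trans (min_le_right _ _))
    have h8 : A.T (a, x + t) = some (b, A.is4g a b x - t) := by
      have h9 := h2 t ht1
      rw [h6] at h9
      exact h9
    refine ⟨⟨⟨?_, ?_⟩, h1 t ht1, _, h8⟩, A.is4g_eq h8⟩
    · show 0 < x + t
      linarith [(abs_lt.1 ht2).1]
    · show x + t < A.ℓ a
      linarith [(abs_lt.1 ht3).2]

theorem is4_isOpen (a b : I) : IsOpen (A.is4U a b) := by
  rw [Metric.isOpen_iff]
  intro x hx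
  obtain ⟨ε, hε, h⟩ := A.is4_local hx
  refine ⟨ε, hε, fun y hy => ?_⟩
  have h1 := (h (y - x) (by rwa [Metric.mem_ball, Real.dist_eq] at hy)).1
  rwa [add_sub_cancel] at h1

theorem is4_deriv {a b : I} {x : ℝ} (hx : x ∈ A.is4U a b) :
    HasDerivAt (A.is4g a b) (-1) x := by
  obtain ⟨ε, hε, h⟩ := A.is4_local hx
  have h1 : HasDerivAt (fun y : ℝ => A.is4g a b x - (y - x)) (-1) x := by
    have h2 := ((hasDerivAt_id x).sub_const x).const_sub (A.is4g a b x)
    simpa using h2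
  refine h1.congr_of_eventuallyEq ?_
  filter_upwards [Metric.ball_mem_nhds x hε] with y hy
  have h2 := (h (y - x) (by rwa [Metric.mem_ball, Real.dist_eq] at hy)).2
  rwa [add_sub_cancel] at h2

/-- Almost every immortal state has a predecessor.
Proof. Let `M a = {x | (a, x) ∈ Imm}` and `M a b = {x ∈ M a | ∃ y, T (a, x) = some (b, y)}`; the map
`f = f a b` sending `x ∈ M a b` to `y` is injective (`A.inj`) with derivative `-1` (`A.loc`), so
`volume (f '' M a b) = volume (M a b)` (`lintegral_image_eq_lintegral_abs_deriv_mul`).  For fixed `b` the images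
for different `a` are disjoint subsets of `M b`.  Sum over `a, b`:
`∑_b volume (⋃_a f '' M a b) = ∑_{a,b} volume (M a b) = ∑_a volume (M a) = ∑_b volume (M b) < ∞`, so for every
`b` the set `M b \ ⋃_a f '' M a b` is null. -/
theorem imm_has_pred [Fintype I] (b : I) :
    volume {y : ℝ | (b, y) ∈ A.Imm ∧ ¬ ∃ z, A.Step z (b, y)} = 0 := by
  classical
  obtain ⟨M, hM⟩ : ∃ M : I → Set ℝ, ∀ a x, x ∈ M a ↔ (a, x) ∈ A.Imm :=
    ⟨fun a => {x | (a, x) ∈ A.Imm}, fun a x => Iff.rfl⟩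
  have hMmeas : ∀ a, MeasurableSet (M a) := by
    intro a
    have h : M a = {x : ℝ | (a, x) ∈ A.Imm} := by
      ext x
      exact hM a x
    rw [h]
    exact A.measurableSet_imm a
  have hMfin : ∀ a, volume (M a) ≠ ⊤ := by
    intro a
    have h : M a ⊆ Ioo 0 (A.ℓ a) := fun x hx => ((hM a x).1 hx).1
    exact ((measure_mono h).trans_lt (by rw [Real.volume_Ioo]; exact ENNReal.ofReal_lt_top)).ne
  have hUmeas : ∀ a c, MeasurableSet (M a ∩ A.is4U a c) := fun a c =>
    (hMmeas a).inter (A.is4_isOpen a c).measurableSet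
  have hinj : ∀ a c, InjOn (A.is4g a c) (M a ∩ A.is4U a c) := by
    intro a c x hx y hy hxy
    have h1 := A.is4g_spec hx.2.2.2
    have h2 := A.is4g_spec hy.2.2.2
    rw [← hxy] at h2
    have h3 := A.inj (a, x) (a, y) _ hx.2.1.1 hx.2.1.2 hx.2.2.1 hy.2.1.1 hy.2.1.2 hy.2.2.1 h1 h2
    exact congrArg Prod.snd h3
  have hder : ∀ a c, ∀ x ∈ M a ∩ A.is4U a c,
      HasDerivWithinAt (A.is4g a c) (-1) (M a ∩ A.is4U a c) x := fun a c x hx =>
    (A.is4_deriv hx.2).hasDerivWithinAt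
  have hvol : ∀ a c, volume (A.is4g a c '' (M a ∩ A.is4U a c)) = volume (M a ∩ A.is4U a c) := by
    intro a c
    have h1 := lintegral_image_eq_lintegral_abs_deriv_mul (hUmeas a c) (hder a c) (hinj a c)
      (fun _ => 1)
    simpa using h1
  have himeas : ∀ a c, MeasurableSet (A.is4g a c '' (M a ∩ A.is4U a c)) := fun a c =>
    measurable_image_of_fderivWithin (hUmeas a c)
      (fun x hx => (hder a c x hx).hasFDerivWithinAt) (hinj a c)
  have hsub : ∀ c, (⋃ a, A.is4g a c '' (M a ∩ A.is4U a c)) ⊆ M c := by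
    intro c y hy
    obtain ⟨a, x, hx, rfl⟩ := mem_iUnion.1 hy
    have hstep : A.Step (a, x) (c, A.is4g a c x) :=
      ⟨hx.2.1, hx.2.2.1, A.is4g_spec hx.2.2.2⟩
    exact (hM c _).2 ((A.is4_imm_step hstep).1 ((hM a x).1 hx.1))
  have hPmeas : ∀ c, MeasurableSet (⋃ a, A.is4g a c '' (M a ∩ A.is4U a c)) := fun c =>
    MeasurableSet.iUnion fun a => himeas a c
  have hPvol : ∀ c, volume (⋃ a, A.is4g a c '' (M a ∩ A.is4U a c)) =
      ∑ a, volume (M a ∩ A.is4U a c) := by
    intro c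
    rw [measure_iUnion _ (fun a => himeas a c), tsum_fintype]
    · exact Finset.sum_congr rfl fun a _ => hvol a c
    · intro a a' haa'
      rw [Function.onFun, Set.disjoint_left]
      rintro y ⟨x, hx, hxy⟩ ⟨x', hx', hxy'⟩
      have h1 := A.is4g_spec hx.2.2.2
      have h2 := A.is4g_spec hx'.2.2.2
      rw [hxy] at h1
      rw [hxy'] at h2
      have h3 := A.inj (a, x) (a', x') _ hx.2.1.1 hx.2.1.2 hx.2.2.1 hx'.2.1.1 hx'.2.1.2
        hx'.2.2.1 h1 h2
      exact haa' (congrArg Prod.fst h3)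
  have hMvol : ∀ a, volume (M a) = ∑ c, volume (M a ∩ A.is4U a c) := by
    intro a
    have h1 : M a = ⋃ c, M a ∩ A.is4U a c := by
      ext x
      refine ⟨fun hx => ?_, fun hx => ?_⟩
      · have hI := (hM a x).1 hx
        obtain ⟨w', ⟨y, hy, -⟩, -⟩ := hI.2 1
        exact mem_iUnion.2 ⟨y.1, hx, hy.1, hy.2.1, y.2, hy.2.2⟩
      · obtain ⟨c, hc⟩ := mem_iUnion.1 hx
        exact hc.1
    have h2 : volume (⋃ c, M a ∩ A.is4U a c) = ∑ c, volume (M a ∩ A.is4U a c) := by
      rw [measure_iUnion _ (fun c => hUmeas a c), tsum_fintype]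
      intro c c' hcc'
      rw [Function.onFun, Set.disjoint_left]
      rintro x ⟨-, -, -, y, hy⟩ ⟨-, -, -, y', hy'⟩
      rw [hy] at hy'
      exact hcc' (congrArg Prod.fst (Option.some.inj hy'))
    rw [← h2, ← h1]
  have hsplit : ∀ c, volume (M c) = volume (⋃ a, A.is4g a c '' (M a ∩ A.is4U a c)) +
      volume (M c \ ⋃ a, A.is4g a c '' (M a ∩ A.is4U a c)) := by
    intro c
    have h1 := measure_inter_add_sdiff (μ := volume) (M c) (hPmeas c)
    rw [inter_eq_self_of_subset_right (hsub c)] at h1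
    exact h1.symm
  have hsum : ∑ c, volume (M c) = ∑ c, volume (⋃ a, A.is4g a c '' (M a ∩ A.is4U a c)) := by
    calc ∑ c, volume (M c) = ∑ a, ∑ c, volume (M a ∩ A.is4U a c) :=
          Finset.sum_congr rfl fun a _ => hMvol a
      _ = ∑ c, ∑ a, volume (M a ∩ A.is4U a c) := Finset.sum_comm
      _ = ∑ c, volume (⋃ a, A.is4g a c '' (M a ∩ A.is4U a c)) :=
          Finset.sum_congr rfl fun c _ => (hPvol c).symm
  have hfin : ∑ c, volume (⋃ a, A.is4g a c '' (M a ∩ A.is4U a c)) ≠ ⊤ := by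
    rw [← hsum]
    exact ENNReal.sum_ne_top.2 fun a _ => hMfin a
  have hzero : ∑ c, volume (M c \ ⋃ a, A.is4g a c '' (M a ∩ A.is4U a c)) = 0 := by
    have h1 : ∑ c, volume (M c) = ∑ c, volume (⋃ a, A.is4g a c '' (M a ∩ A.is4U a c)) +
        ∑ c, volume (M c \ ⋃ a, A.is4g a c '' (M a ∩ A.is4U a c)) := by
      rw [← Finset.sum_add_distrib]
      exact Finset.sum_congr rfl fun c _ => hsplit c
    rw [hsum] at h1
    have h2 : ∑ c, volume (⋃ a, A.is4g a c '' (M a ∩ A.is4U a c)) + 0 =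
        ∑ c, volume (⋃ a, A.is4g a c '' (M a ∩ A.is4U a c)) +
        ∑ c, volume (M c \ ⋃ a, A.is4g a c '' (M a ∩ A.is4U a c)) := by
      rw [add_zero]
      exact h1
    exact ((ENNReal.add_right_inj hfin).1 h2).symm
  have hb := (Finset.sum_eq_zero_iff.1 hzero) b (Finset.mem_univ b)
  refine measure_mono_null ?_ hb
  rintro y ⟨hy, hno⟩
  refine ⟨(hM b y).2 hy, fun hy' => hno ?_⟩
  obtain ⟨a, x, hx, hxy⟩ := mem_iUnion.1 hy'
  refine ⟨(a, x), hx.2.1, hx.2.2.1, ?_⟩
  rw [A.is4g_spec hx.2.2.2, hxy]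

/-- An interval of states without mortal states contains a state which has a predecessor
(all but countably many of its states are immortal). -/
theorem exists_pred_of_no_mortal [Fintype I] {b : I} {α β : ℝ} (hαβ : α < β)
    (hV : ∀ y ∈ Ioo α β, (b, y) ∈ A.V) (h : ∀ y ∈ Ioo α β, (b, y) ∉ A.E) :
    ∃ y ∈ Ioo α β, ∃ z, A.Step z (b, y) := by
  by_contra hcon
  push Not at hcon
  have h1 : Ioo α β ⊆ {y : ℝ | (b, y) ∈ A.Imm ∧ ¬ ∃ z, A.Step z (b, y)} ∪
      {x : ℝ | ∃ j, ∃ d ∈ A.D, A.Steps j (b, x) d} := by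
    intro y hy
    rcases A.trichotomy (hV y hy) with h2 | h2 | h2
    · exact absurd h2 (h y hy)
    · left
      refine ⟨h2, ?_⟩
      rintro ⟨z, hz⟩
      exact hcon y hy z hz
    · right
      exact h2
  have h2 : volume (Ioo α β) = 0 := by
    refine measure_mono_null h1 (measure_union_null (A.imm_has_pred b) ?_)
    exact (A.is4_countable b).measure_zero volume
  rw [Real.volume_Ioo] at h2
  have h3 := ENNReal.ofReal_eq_zero.1 h2
  linarith

end IntSys

end

end Pool.Agent.MP2e716c
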