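import Pool.Agent.H.MP_2e716c_an.IS3
import Pool.Agent.H.MP_2e716c_an.IS4

open Set MeasureTheory Filter Topology

namespace Pool.Agent.MP2e716c

noncomputable section

namespace IntSys

variable {I : Type} (A : IntSys I)

/-- Border states for the length `l`: one side (`σ`) consists of mortal states of one exit time, the
other side contains no mortal states near the point. -/
def Border (l : ℝ) : Set (I × ℝ) :=
  {z | z ∈ A.V ∧ ∃ σ : ℝ, (σ = 1 ∨ σ = -1) ∧ (∃ k, ∀ t ∈ Ioo 0 l, sh z (σ * t) ∈ A.Ex k) ∧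
    ∃ ε > 0, ∀ t ∈ Ioo 0 ε, sh z (-σ * t) ∉ A.E}

/-- A border state is not mortal (otherwise its neighbours on both sides are). -/
theorem border_not_E {l : ℝ} (hl : 0 < l) {z : I × ℝ} (hz : z ∈ A.Border l) : z ∉ A.E := by
  intro hE
  obtain ⟨hV, σ, hσ, ⟨k, hk⟩, ε, hε, hno⟩ := hz
  obtain ⟨m, hm⟩ := mem_iUnion.1 hE
  obtain ⟨δ, hδ, hloc⟩ := A.ex_loc hm
  have h1 : 0 < min (ε / 2) (δ / 2) := lt_min (by linarith) (by linarith)
  have h2 : min (ε / 2) (δ / 2) ≤ ε / 2 := min_le_left _ _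
  have h3 : min (ε / 2) (δ / 2) ≤ δ / 2 := min_le_right _ _
  have h4 : |(-σ) * min (ε / 2) (δ / 2)| < δ := by
    rw [abs_mul, abs_neg, abs_of_pos h1]
    rcases hσ with h | h <;> rw [h] <;> simp only [abs_neg, abs_one, one_mul] <;> linarith
  exact hno _ ⟨h1, by linarith⟩ (mem_iUnion.2 ⟨m, hloc _ h4⟩)

theorem sep_injOn {l : ℝ} (hl : 0 < l) {S : Set ℝ}
    (hS : ∀ x ∈ S, ∀ y ∈ S, x < y → l ≤ y - x) : InjOn (fun x : ℝ => ⌊x / l⌋) S := by
  have key : ∀ x ∈ S, ∀ y ∈ S, ⌊x / l⌋ = ⌊y / l⌋ → ¬ x < y := by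
    intro x hx y hy hxy hlt
    have h1 := hS x hx y hy hlt
    have h2 : x / l + 1 ≤ y / l := by
      rw [div_add' _ _ _ hl.ne', div_le_div_iff_of_pos_right hl]
      linarith
    have h3 := Int.floor_mono h2
    rw [Int.floor_add_one] at h3
    omega
  intro x hx y hy hxy
  have hxy' : ⌊x / l⌋ = ⌊y / l⌋ := hxy
  rcases lt_trichotomy x y with h | h | h
  · exact absurd h (key x hx y hy hxy')
  · exact h
  · exact absurd h (key y hy x hx hxy'.symm)

theorem sep_finite {l L : ℝ} (hl : 0 < l) {S : Set ℝ} (hSL : S ⊆ Ioo 0 L)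
    (hS : ∀ x ∈ S, ∀ y ∈ S, x < y → l ≤ y - x) : S.Finite := by
  refine Set.Finite.of_finite_image ?_ (sep_injOn hl hS)
  refine (Set.finite_Icc (0 : ℤ) ⌊L / l⌋).subset ?_
  rintro _ ⟨x, hx, rfl⟩
  have h := hSL hx
  refine ⟨Int.floor_nonneg.2 (div_nonneg h.1.le hl.le), ?_⟩
  exact Int.floor_mono (div_le_div_of_nonneg_right h.2.le hl.le)

theorem sep_countable {l : ℝ} (hl : 0 < l) {S : Set ℝ}
    (hS : ∀ x ∈ S, ∀ y ∈ S, x < y → l ≤ y - x) : S.Countable :=
  Set.countable_of_injective_of_countable_image (sep_injOn hl hS) (Set.to_countable _)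

/-- Two border states of the same line and side `σ` have distance `≥ l`, so there are finitely many. -/
theorem border_finite [Finite I] {l : ℝ} (hl : 0 < l) : (A.Border l).Finite := by
  have hfin : ∀ (a : I) (σ : ℝ), (σ = 1 ∨ σ = -1) →
      {x : ℝ | (a, x) ∈ A.Border l ∧ ∃ k, ∀ t ∈ Ioo 0 l, (a, x + σ * t) ∈ A.Ex k}.Finite := by
    intro a σ hσ
    refine sep_finite (L := A.ℓ a) hl ?_ ?_
    · rintro x ⟨hx, -⟩
      exact hx.1
    · rintro x ⟨hx, k, hk⟩ y ⟨hy, m, hm⟩ hxy
      by_contra hlt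
      push Not at hlt
      rcases hσ with h | h
      · have := hk (y - x) ⟨by linarith, hlt⟩
        rw [h] at this
        have e : x + 1 * (y - x) = y := by ring
        rw [e] at this
        exact A.border_not_E hl hy (mem_iUnion.2 ⟨k, this⟩)
      · have := hm (y - x) ⟨by linarith, hlt⟩
        rw [h] at this
        have e : y + -1 * (y - x) = x := by ring
        rw [e] at this
        exact A.border_not_E hl hx (mem_iUnion.2 ⟨m, this⟩)
  have hcov : A.Border l ⊆
      (⋃ a : I, (fun x : ℝ => (a, x)) '' {x : ℝ | (a, x) ∈ A.Border l ∧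
        ∃ k, ∀ t ∈ Ioo 0 l, (a, x + 1 * t) ∈ A.Ex k}) ∪
      (⋃ a : I, (fun x : ℝ => (a, x)) '' {x : ℝ | (a, x) ∈ A.Border l ∧
        ∃ k, ∀ t ∈ Ioo 0 l, (a, x + (-1) * t) ∈ A.Ex k}) := by
    rintro ⟨a, x⟩ hz
    obtain ⟨hV, σ, hσ, hk, hrest⟩ := hz
    rcases hσ with h | h
    · left
      refine mem_iUnion.2 ⟨a, x, ⟨⟨hV, σ, Or.inl h, hk, hrest⟩, ?_⟩, rfl⟩
      rw [← h]
      exact hk
    · right
      refine mem_iUnion.2 ⟨a, x, ⟨⟨hV, σ, Or.inr h, hk, hrest⟩, ?_⟩, rfl⟩
      rw [← h]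
      exact hk
  refine Set.Finite.subset (Set.Finite.union ?_ ?_) hcov
  · exact Set.finite_iUnion fun a => (hfin a 1 (Or.inl rfl)).image _
  · exact Set.finite_iUnion fun a => (hfin a (-1) (Or.inr rfl)).image _

/-- A border state reaches `D` (`end_reaches`). -/
theorem border_reaches {l : ℝ} (hl : 0 < l) {z : I × ℝ} (hz : z ∈ A.Border l) :
    ∃ j, ∃ d ∈ A.D, A.Steps j z d := by
  have hz' := hz
  obtain ⟨hV, σ, hσ, ⟨k, hk⟩, ε, hε, hno⟩ := hz
  obtain ⟨a, x⟩ := z
  obtain ⟨j, -, d, hd, hs⟩ := A.end_reaches hl hσ hV hk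
    (fun h => A.border_not_E hl hz' (mem_iUnion.2 ⟨k, h⟩))
  exact ⟨j, d, hd, hs⟩

/-- A border state which is not backward singular has a predecessor, which is a border state.
Proof. By `A.back` either there is a predecessor, or no state near `y` has one; the latter
contradicts `exists_pred_of_no_mortal` on the non mortal side.  Let `z` be the predecessor.  By
`A.loc` the neighbours of `z` are mapped to those of `y`, orientation reversed, so on one side `-σ` of `z` mortal points accumulate, on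
the other side there are none near `z`; `z ∉ E` (`step_mem_E`); by `dichotomy` the mortal side is
an interval of length `l` of constant exit time. -/
theorem border_pred [Fintype I] {l : ℝ} (hl : 0 < l)
    (hmin : ∀ (k : ℕ) (a : I) (α β : ℝ), α < β →
      (∀ x ∈ Ioo α β, (a, x) ∈ A.Ex k) → (a, α) ∉ A.Ex k → (a, β) ∉ A.Ex k → l ≤ β - α)
    {y : I × ℝ} (hy : y ∈ A.Border l) (hb : y ∉ A.Db) : ∃ z ∈ A.Border l, A.Step z y := by
  have hyE := A.border_not_E hl hy
  obtain ⟨hV, σ, hσ, ⟨k, hk⟩, ε, hε, hno⟩ := hy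
  have hV' : 0 < y.2 ∧ y.2 < A.ℓ y.1 := hV
  have hσ1 : |σ| = 1 := by rcases hσ with h | h <;> simp [h]
  have hσσ : σ * σ = 1 := by rcases hσ with h | h <;> simp [h]
  rcases A.back y hV'.1 hV'.2 hb with ⟨z, hz0, hz1, hzD, hT⟩ | ⟨δ, hδ, hnone⟩
  · have hzV : z ∈ A.V := ⟨hz0, hz1⟩
    have hstep : A.Step z y := ⟨hzV, hzD, hT⟩
    obtain ⟨η, hη, hD, hTT⟩ := A.loc z hz0 hz1 hzD
    rcases hTT with hTT | ⟨y', hy0, hy1, hTT⟩
    · have h := hTT 0 (by simpa using hη)
      have e : sh z 0 = z := by simp [sh]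
      rw [e, hT] at h
      exact absurd h (by simp)
    · have h := hTT 0 (by simpa using hη)
      have e : sh z 0 = z := by simp [sh]
      have e' : sh y' (-0) = y' := by simp [sh]
      rw [e, e', hT] at h
      have hyy : y' = y := (Option.some.inj h).symm
      subst hyy
      -- radius where `sh z t` stays in `V`
      obtain ⟨ρ, hρ, hρη, hρ0, hρ1⟩ : ∃ ρ > 0, ρ ≤ η ∧ ρ ≤ z.2 ∧ ρ ≤ A.ℓ z.1 - z.2 :=
        ⟨min η (min z.2 (A.ℓ z.1 - z.2)), lt_min hη (lt_min hz0 (by linarith)), min_le_left _ _,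
          (min_le_right _ _).trans (min_le_left _ _), (min_le_right _ _).trans (min_le_right _ _)⟩
      have hst : ∀ t : ℝ, |t| < ρ → A.Step (sh z t) (sh y' (-t)) := by
        intro t ht
        have h1 := abs_lt.1 ht
        refine ⟨⟨?_, ?_⟩, hD t (by linarith), hTT t (by linarith)⟩
        · show 0 < z.2 + t
          linarith
        · show z.2 + t < A.ℓ z.1
          linarith
      have hzE : z ∉ A.E := fun h => hyE ((A.step_mem_E hstep).1 h)
      -- the other side of `z` has no mortal states near `z`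
      have hno' : ∃ ε' > 0, ∀ t ∈ Ioo 0 ε', sh z (σ * t) ∉ A.E := by
        refine ⟨min ε ρ, lt_min hε hρ, fun t ht hE => ?_⟩
        have ht1 : t < ε := ht.2.trans_le (min_le_left _ _)
        have ht2 : t < ρ := ht.2.trans_le (min_le_right _ _)
        have habs : |σ * t| < ρ := by rw [abs_mul, hσ1, one_mul, abs_of_pos ht.1]; exact ht2
        have h2 := (A.step_mem_E (hst _ habs)).1 hE
        rw [← neg_mul] at h2
        exact hno t ⟨ht.1, ht1⟩ h2
      have hyes : ∀ ε' > 0, ∃ t ∈ Ioo 0 ε', (z.1, z.2 + (-σ) * t) ∈ A.E := by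
        intro ε' hε'
        have hm : 0 < min (min l ρ) ε' := lt_min (lt_min hl hρ) hε'
        have hm1 : min (min l ρ) ε' ≤ l := (min_le_left _ _).trans (min_le_left _ _)
        have hm2 : min (min l ρ) ε' ≤ ρ := (min_le_left _ _).trans (min_le_right _ _)
        have hm3 : min (min l ρ) ε' ≤ ε' := min_le_right _ _
        refine ⟨min (min l ρ) ε' / 2, ⟨by linarith, by linarith⟩, ?_⟩
        have habs : |(-σ) * (min (min l ρ) ε' / 2)| < ρ := by
          rw [abs_mul, abs_neg, hσ1, one_mul, abs_of_pos (by linarith)]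
          linarith
        have h2 := A.step_mem_E (hst _ habs)
        refine h2.2 ?_
        have h3 := hk (min (min l ρ) ε' / 2) ⟨by linarith, by linarith⟩
        have e2 : -(-σ * (min (min l ρ) ε' / 2)) = σ * (min (min l ρ) ε' / 2) := by ring
        rw [e2]
        exact mem_iUnion.2 ⟨k, h3⟩
      refine ⟨z, ⟨hzV, -σ, ?_, ?_, ?_⟩, hstep⟩
      · rcases hσ with h | h
        · right; rw [h]
        · left; rw [h]; norm_num
      · have hσ' : -σ = 1 ∨ -σ = -1 := by
          rcases hσ with h | h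
          · right; rw [h]
          · left; rw [h]; norm_num
        have hzE' : (z.1, z.2) ∉ A.E := hzE
        rcases A.dichotomy hl hmin hzE' hσ' with h | ⟨ε', hε', h⟩
        · exact h
        · obtain ⟨t, ht, hE⟩ := hyes ε' hε'
          exact absurd hE (h t ht)
      · rw [neg_neg]
        exact hno'
  · exfalso
    obtain ⟨ρ, hρ, hρδ, hρε, hρ0, hρ1⟩ : ∃ ρ > 0, ρ ≤ δ ∧ ρ ≤ ε ∧ ρ ≤ y.2 ∧ ρ ≤ A.ℓ y.1 - y.2 :=
      ⟨min (min δ ε) (min y.2 (A.ℓ y.1 - y.2)),
        lt_min (lt_min hδ hε) (lt_min hV'.1 (by linarith)),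
        (min_le_left _ _).trans (min_le_left _ _), (min_le_left _ _).trans (min_le_right _ _),
        (min_le_right _ _).trans (min_le_left _ _), (min_le_right _ _).trans (min_le_right _ _)⟩
    have key : ∃ α β : ℝ, α < β ∧ ∀ x ∈ Ioo α β, (-σ) * (x - y.2) ∈ Ioo 0 ρ := by
      rcases hσ with h | h
      · refine ⟨y.2 - ρ, y.2, by linarith, fun x hx => ?_⟩
        rw [h]
        constructor
        · linarith [hx.2]
        · linarith [hx.1]
      · refine ⟨y.2, y.2 + ρ, by linarith, fun x hx => ?_⟩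
        rw [h]
        constructor
        · linarith [hx.1]
        · linarith [hx.2]
    obtain ⟨α, β, hαβ, hI⟩ := key
    have hx : ∀ x ∈ Ioo α β, |x - y.2| < ρ := by
      intro x hx
      have h := hI x hx
      have h2 : |(-σ) * (x - y.2)| < ρ := by rw [abs_of_pos h.1]; exact h.2
      rwa [abs_mul, abs_neg, hσ1, one_mul] at h2
    obtain ⟨x, hxI, z, hz⟩ := A.exists_pred_of_no_mortal (b := y.1) hαβ
      (fun x hxI => by
        have h := abs_lt.1 (hx x hxI)
        exact ⟨by show 0 < x; linarith, by show x < A.ℓ y.1; linarith⟩)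
      (fun x hxI hE => by
        have h := hI x hxI
        refine hno ((-σ) * (x - y.2)) ⟨h.1, h.2.trans_le hρε⟩ ?_
        have e : sh y (-σ * (-σ * (x - y.2))) = (y.1, x) := by
          have e1 : y.2 + -σ * (-σ * (x - y.2)) = x := by
            have : -σ * (-σ * (x - y.2)) = (σ * σ) * (x - y.2) := by ring
            rw [this, hσσ]; ring
          simp only [sh, e1]
        rw [e]
        exact hE)
    have h := abs_lt.1 (hx x hxI)
    refine hnone (x - y.2) ?_ z hz.1.1 hz.1.2 hz.2.1 ?_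
    · exact (hx x hxI).trans_le hρδ
    · have e : sh y (x - y.2) = (y.1, x) := by simp [sh]
      rw [e]
      exact hz.2.2

/-- Without connections there are no border states.
Proof. Suppose `y0` is one.  If `y` is a border state, `Steps m y y0`, then `y ∉ Db`: otherwise
`y ∈ Db` reaches `D` through `y0` (`border_reaches`, `steps_add`), contradicting `NoConn`.  So `border_pred` gives an infinite
sequence `y0, y1, y2, ...` of border states with `Step y_{k+1} y_k`.  By finiteness `y_k = y_l` with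
`k < l`; then `y_0 = y_{l-k}` (forward uniqueness), so `Steps m y0 y0` with `m = l - k ≥ 1`.  Hence `y0` makes
arbitrarily many steps (`steps_add`), and all states it reaches are followed by a step, so are not in
`D`; contradiction to `border_reaches`. -/
theorem border_empty [Fintype I] (hno : A.NoConn) {l : ℝ} (hl : 0 < l)
    (hmin : ∀ (k : ℕ) (a : I) (α β : ℝ), α < β →
      (∀ x ∈ Ioo α β, (a, x) ∈ A.Ex k) → (a, α) ∉ A.Ex k → (a, β) ∉ A.Ex k → l ≤ β - α) :
    A.Border l = ∅ := by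
  rw [Set.eq_empty_iff_forall_notMem]
  intro y0 hy0
  obtain ⟨j, d, hd, hj⟩ := A.border_reaches hl hy0
  have hex : ∀ n : ℕ, ∃ y ∈ A.Border l, A.Steps n y y0 := by
    intro n
    induction n with
    | zero => exact ⟨y0, hy0, rfl⟩
    | succ n ih =>
      obtain ⟨y, hy, hs⟩ := ih
      have hb : y ∉ A.Db := by
        intro hb
        exact hno y hy.1 hb (n + j) d (A.steps_add.2 ⟨y0, hs, hj⟩) hd
      obtain ⟨z, hz, hzy⟩ := A.border_pred hl hmin hy hb
      exact ⟨z, hz, y, hzy, hs⟩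
  choose f hfB hfS using hex
  obtain ⟨k, m, hkm, hfe⟩ := Set.Finite.exists_lt_map_eq_of_forall_mem (t := A.Border l)
    (f := f) hfB (A.border_finite hl)
  obtain ⟨r, rfl⟩ : ∃ r, m = k + (r + 1) := ⟨m - k - 1, by omega⟩
  have h1 := hfS (k + (r + 1))
  rw [← hfe] at h1
  obtain ⟨w, hw1, hw2⟩ := A.steps_add.1 h1
  have hw : w = y0 := A.steps_unique hw1 (hfS k)
  rw [hw] at hw2
  -- `y0` is periodic
  have hper : ∀ q : ℕ, A.Steps (q * (r + 1)) y0 y0 := by
    intro q
    induction q with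
    | zero => rw [Nat.zero_mul]; exact rfl
    | succ q ih =>
      rw [Nat.succ_mul]
      exact A.steps_add.2 ⟨y0, ih, hw2⟩
  have h2 := hper (j + 1)
  obtain ⟨s, hs⟩ : ∃ s, (j + 1) * (r + 1) = j + (s + 1) := ⟨(j + 1) * (r + 1) - j - 1, by
    have : j + 1 ≤ (j + 1) * (r + 1) := Nat.le_mul_of_pos_right _ (Nat.succ_pos r)
    omega⟩
  rw [hs] at h2
  obtain ⟨w', hw1', hw2'⟩ := A.steps_add.1 h2
  have hw' : w' = d := A.steps_unique hw1' hj
  rw [hw'] at hw2'
  obtain ⟨y, hy, -⟩ := hw2'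
  exact hy.2.1 hd

/-- Every line is either free of mortal states or mortal up to a countable set.
Proof. `l` from `exists_min_length`.  If `(a, x0) ∈ E`, let `G` be the set of `x ∈ (0, ℓ a)` such that
`(a, x) ∈ E` or both sides of `x` are mortal in the sense of the first alternative of `dichotomy`.
By `dichotomy` and `border_empty` every other point of `(0, ℓ a)` has a neighbourhood without mortal points, and that
neighbourhood does not meet `G`; so `G` and its complement are open in the connected set `(0, ℓ a)`, `G` is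
nonempty, `G = (0, ℓ a)`.  The points of `G \ E` have distance `≥ l` from each other, so they are
countably many. -/
theorem line_dichotomy [Fintype I] (hno : A.NoConn) (a : I) :
    (∀ x : ℝ, (a, x) ∉ A.E) ∨ {x : ℝ | (a, x) ∈ A.V ∧ (a, x) ∉ A.E}.Countable := by
  obtain ⟨l, hl, hmin⟩ := A.exists_min_length
  have hB := A.border_empty hno hl hmin
  by_cases hall : ∀ x : ℝ, (a, x) ∉ A.E
  · exact Or.inl hall
  right
  push Not at hall
  obtain ⟨x0, hx0⟩ := hall
  have hEV : ∀ x : ℝ, (a, x) ∈ A.E → (a, x) ∈ A.V := by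
    intro x hx
    obtain ⟨k, hk⟩ := mem_iUnion.1 hx
    exact A.ex_sub hk
  let M : Set ℝ := {x | (∃ k, ∀ t ∈ Ioo 0 l, (a, x + 1 * t) ∈ A.Ex k) ∧
    (∃ k, ∀ t ∈ Ioo 0 l, (a, x + (-1) * t) ∈ A.Ex k)}
  let G : Set ℝ := {x | (a, x) ∈ A.V ∧ ((a, x) ∈ A.E ∨ x ∈ M)}
  have hGopen : IsOpen G := by
    rw [Metric.isOpen_iff]
    rintro x ⟨hxV, hx | ⟨⟨k, hk⟩, ⟨m, hm⟩⟩⟩
    · obtain ⟨k, hk⟩ := mem_iUnion.1 hx
      obtain ⟨ε, hε, h⟩ := A.ex_loc hk
      refine ⟨ε, hε, fun y hy => ?_⟩
      rw [Metric.mem_ball, Real.dist_eq] at hy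
      have h1 := h (y - x) hy
      have e : sh (a, x) (y - x) = (a, y) := by simp [sh]
      rw [e] at h1
      have h2 : (a, y) ∈ A.E := mem_iUnion.2 ⟨k, h1⟩
      exact ⟨hEV y h2, Or.inl h2⟩
    · refine ⟨l, hl, fun y hy => ?_⟩
      rw [Metric.mem_ball, Real.dist_eq] at hy
      rcases lt_trichotomy y x with h | h | h
      · have h1 := hm (x - y) ⟨by linarith, by linarith [(abs_lt.1 hy).1]⟩
        have e : x + (-1) * (x - y) = y := by ring
        rw [e] at h1
        have h2 : (a, y) ∈ A.E := mem_iUnion.2 ⟨m, h1⟩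
        exact ⟨hEV y h2, Or.inl h2⟩
      · rw [h]
        exact ⟨hxV, Or.inr ⟨⟨k, hk⟩, ⟨m, hm⟩⟩⟩
      · have h1 := hk (y - x) ⟨by linarith, by linarith [(abs_lt.1 hy).2]⟩
        have e : x + 1 * (y - x) = y := by ring
        rw [e] at h1
        have h2 : (a, y) ∈ A.E := mem_iUnion.2 ⟨k, h1⟩
        exact ⟨hEV y h2, Or.inl h2⟩
  have hCopen : IsOpen (Ioo 0 (A.ℓ a) \ G) := by
    rw [Metric.isOpen_iff]
    rintro x ⟨hxV, hxG⟩
    have hxV' : (a, x) ∈ A.V := hxV
    have hxE : (a, x) ∉ A.E := fun h => hxG ⟨hxV', Or.inl h⟩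
    have hxM : x ∉ M := fun h => hxG ⟨hxV', Or.inr h⟩
    -- no mortal points on both sides
    have hfree : ∃ ε > 0, (∀ t ∈ Ioo 0 ε, (a, x + 1 * t) ∉ A.E) ∧
        (∀ t ∈ Ioo 0 ε, (a, x + (-1) * t) ∉ A.E) := by
      rcases A.dichotomy hl hmin hxE (Or.inl rfl : (1 : ℝ) = 1 ∨ (1 : ℝ) = -1) with h1 | h1 <;>
        rcases A.dichotomy hl hmin hxE (Or.inr rfl : (-1 : ℝ) = 1 ∨ (-1 : ℝ) = -1) with h2 | h2
      · exact absurd ⟨h1, h2⟩ hxM
      · exfalso
        have : (a, x) ∈ A.Border l := ⟨hxV', 1, Or.inl rfl, h1, h2⟩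
        rw [hB] at this
        exact this
      · exfalso
        have : (a, x) ∈ A.Border l := by
          refine ⟨hxV', -1, Or.inr rfl, h2, ?_⟩
          rw [neg_neg]
          exact h1
        rw [hB] at this
        exact this
      · obtain ⟨ε1, hε1, h1⟩ := h1
        obtain ⟨ε2, hε2, h2⟩ := h2
        exact ⟨min ε1 ε2, lt_min hε1 hε2,
          fun t ht => h1 t ⟨ht.1, ht.2.trans_le (min_le_left _ _)⟩,
          fun t ht => h2 t ⟨ht.1, ht.2.trans_le (min_le_right _ _)⟩⟩
    obtain ⟨ε, hε, hf1, hf2⟩ := hfree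
    have hball : ∀ y : ℝ, |y - x| < ε → (a, y) ∉ A.E := by
      intro y hy
      rcases lt_trichotomy y x with h | h | h
      · have h1 := hf2 (x - y) ⟨by linarith, by linarith [(abs_lt.1 hy).1]⟩
        have e : x + (-1) * (x - y) = y := by ring
        rwa [e] at h1
      · rw [h]; exact hxE
      · have h1 := hf1 (y - x) ⟨by linarith, by linarith [(abs_lt.1 hy).2]⟩
        have e : x + 1 * (y - x) = y := by ring
        rwa [e] at h1
    refine ⟨min ε (min x (A.ℓ a - x)), lt_min hε (lt_min hxV.1 (by linarith [hxV.2])),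
      fun y hy => ?_⟩
    rw [Metric.mem_ball, Real.dist_eq] at hy
    have hy1 : |y - x| < ε := hy.trans_le (min_le_left _ _)
    have hy2 : |y - x| < x := hy.trans_le ((min_le_right _ _).trans (min_le_left _ _))
    have hy3 : |y - x| < A.ℓ a - x := hy.trans_le ((min_le_right _ _).trans (min_le_right _ _))
    refine ⟨⟨by linarith [(abs_lt.1 hy2).1], by linarith [(abs_lt.1 hy3).2]⟩, ?_⟩
    rintro ⟨-, h | ⟨⟨k, hk⟩, -⟩⟩
    · exact hball y hy1 h
    · have hpos : 0 < min l (ε - |y - x|) := lt_min hl (by linarith)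
      have hp1 : min l (ε - |y - x|) ≤ l := min_le_left _ _
      have hp2 : min l (ε - |y - x|) ≤ ε - |y - x| := min_le_right _ _
      have h1 := hk (min l (ε - |y - x|) / 2) ⟨by linarith, by linarith⟩
      refine hball (y + 1 * (min l (ε - |y - x|) / 2)) ?_ (mem_iUnion.2 ⟨k, h1⟩)
      have e : y + 1 * (min l (ε - |y - x|) / 2) - x = (y - x) + min l (ε - |y - x|) / 2 := by ring
      rw [e]
      have h3 := abs_add_le (y - x) (min l (ε - |y - x|) / 2)
      rw [abs_of_pos (by linarith : 0 < min l (ε - |y - x|) / 2)] at h3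
      linarith
  have hsub : Ioo 0 (A.ℓ a) ⊆ G := by
    refine IsPreconnected.subset_left_of_subset_union hGopen hCopen disjoint_sdiff_self_right ?_ ?_
      isPreconnected_Ioo
    · intro x hx
      by_cases h : x ∈ G
      · exact Or.inl h
      · exact Or.inr ⟨hx, h⟩
    · exact ⟨x0, hEV x0 hx0, ⟨hEV x0 hx0, Or.inl hx0⟩⟩
  refine sep_countable hl ?_
  rintro x ⟨hxV, hxE⟩ y ⟨hyV, hyE⟩ hxy
  by_contra hlt
  push Not at hlt
  obtain ⟨-, h | ⟨⟨k, hk⟩, -⟩⟩ := hsub hxV
  · exact hxE h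
  · have h1 := hk (y - x) ⟨by linarith, hlt⟩
    have e : x + 1 * (y - x) = y := by ring
    rw [e] at h1
    exact hyE (mem_iUnion.2 ⟨k, h1⟩)

/-- A line which is never hit is mortal up to a countable set (`exists_pred_of_no_mortal`). -/
theorem source_mortal [Fintype I] (hno : A.NoConn) (a : I)
    (ha : ∀ z w, A.Step z w → w.1 ≠ a) :
    {x : ℝ | (a, x) ∈ A.V ∧ (a, x) ∉ A.E}.Countable := by
  rcases A.line_dichotomy hno a with h | h
  · rcases lt_or_ge 0 (A.ℓ a) with hpos | hneg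
    · exfalso
      obtain ⟨y, -, z, hz⟩ := A.exists_pred_of_no_mortal (b := a) hpos (fun y hy => hy)
        (fun y _ => h y)
      exact ha z (a, y) hz rfl
    · refine Set.Countable.mono ?_ Set.countable_empty
      rintro x ⟨hx, -⟩
      have hx' : 0 < x ∧ x < A.ℓ a := hx
      exact absurd (hx'.1.trans hx'.2) (not_lt.2 hneg)
  · exact h

end IntSys

end

end Pool.Agent.MP2e716c
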