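import Pool.Agent.H.MP_2e716c_an.Geo3
import Pool.Agent.H.MP_2e716c_an.IS5

open Set MeasureTheory Filter Topology

namespace Pool.Agent.MP2e716c

noncomputable section

namespace Table

variable {n : ℕ} [NeZero n] (T : Table n)

/-- Mortal phase points: the forward orbit hits an arc not in `S` (the start does not count). -/
def MEx (S : Set (Fin n)) : ℕ → Set (Fin n × ℝ × ℝ)
  | 0 => {z | ∃ a, T.Next z a ∧ a.1 ∉ S}
  | k + 1 => {z | ∃ a, T.Next z a ∧ a.1 ∈ S ∧ a ∈ MEx S k}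

def Mort (S : Set (Fin n)) : Set (Fin n × ℝ × ℝ) := ⋃ k, T.MEx S k

variable {T}

theorem mort_of_next_not {S : Set (Fin n)} {z a : Fin n × ℝ × ℝ} (h : T.Next z a) (ha : a.1 ∉ S) :
    z ∈ T.Mort S :=
  mem_iUnion.2 ⟨0, a, h, ha⟩

theorem mort_iff_of_next {S : Set (Fin n)} {z a : Fin n × ℝ × ℝ} (h : T.Next z a) (ha : a.1 ∈ S) :
    z ∈ T.Mort S ↔ a ∈ T.Mort S := by
  constructor
  · intro hz
    obtain ⟨k, hk⟩ := mem_iUnion.1 hz
    cases k with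
    | zero =>
      obtain ⟨b, hb, hbS⟩ := hk
      rw [T.next_unique hb h] at hbS
      exact absurd ha hbS
    | succ k =>
      obtain ⟨b, hb, hbS, hbk⟩ := hk
      rw [T.next_unique hb h] at hbk
      exact mem_iUnion.2 ⟨k, hbk⟩
  · intro haM
    obtain ⟨k, hk⟩ := mem_iUnion.1 haM
    exact mem_iUnion.2 ⟨k + 1, a, h, ha, hk⟩

theorem geo4_mem_Ex_iff (hT : T.Straight) {S : Set (Fin n)} {W : Finset ℂ} (hW : T.DirClass S W)
    (k : ℕ) (z : (Fin n × W) × ℝ) (hz : 0 < z.2) (hz' : z.2 < T.lenW W z.1) :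
    z ∈ (sys hT hW).Ex k ↔ T.st z.1.1 z.1.2 z.2 ∈ T.MEx S k := by
  induction k generalizing z with
  | zero =>
    constructor
    · rintro ⟨-, hD, hN⟩
      have hD' : ¬ (0 < z.2 ∧ z.2 < T.lenW W z.1 ∧ ¬ ∃ a, T.Next (T.st z.1.1 z.1.2 z.2) a) := hD
      have hN' : T.nextW S W z = none := hN
      have hex : ∃ a, T.Next (T.st z.1.1 z.1.2 z.2) a := by
        by_contra hcon
        exact hD' ⟨hz, hz', hcon⟩
      obtain ⟨a, ha⟩ := hex
      refine ⟨a, ha, fun haS => ?_⟩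
      obtain ⟨hv, he⟩ := nextW_eq_some hT hW hz hz' ha haS
      rw [hN'] at he
      exact absurd he (by simp)
    · rintro ⟨a, ha, haS⟩
      refine ⟨⟨hz, hz'⟩, ?_, ?_⟩
      · intro hD
        have hD' : 0 < z.2 ∧ z.2 < T.lenW W z.1 ∧ ¬ ∃ a, T.Next (T.st z.1.1 z.1.2 z.2) a := hD
        exact hD'.2.2 ⟨a, ha⟩
      · exact nextW_eq_none ha haS
  | succ k ih =>
    constructor
    · rintro ⟨y, ⟨-, -, hN⟩, hy⟩
      have hN' : T.nextW S W z = some y := hN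
      obtain ⟨h1, h2, h3, h4⟩ := (nextW_some_iff hT hW hz hz').1 hN'
      exact ⟨T.st y.1.1 y.1.2 y.2, h2, h1, (ih y h3 h4).1 hy⟩
    · rintro ⟨a, ha, haS, hak⟩
      obtain ⟨hv, he⟩ := nextW_eq_some hT hW hz hz' ha haS
      obtain ⟨e1, e2, e3⟩ := st_eq hT ha.2.1
      refine ⟨((a.1, ⟨T.vel a, hv⟩), a.2.1 * Real.cos a.2.2), ⟨⟨hz, hz'⟩, ?_, he⟩, ?_⟩
      · intro hD
        have hD' : 0 < z.2 ∧ z.2 < T.lenW W z.1 ∧ ¬ ∃ a, T.Next (T.st z.1.1 z.1.2 z.2) a := hD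
        exact hD'.2.2 ⟨a, ha⟩
      · refine (ih _ e2 e3).2 ?_
        show T.st a.1 (T.vel a) (a.2.1 * Real.cos a.2.2) ∈ T.MEx S k
        rw [e1]
        exact hak

/-- Mortality in the interval system. -/
theorem mem_E_iff (hT : T.Straight) {S : Set (Fin n)} {W : Finset ℂ} (hW : T.DirClass S W)
    (z : (Fin n × W) × ℝ) (hz : 0 < z.2) (hz' : z.2 < T.lenW W z.1) :
    z ∈ (sys hT hW).E ↔ T.st z.1.1 z.1.2 z.2 ∈ T.Mort S := by
  constructor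
  · intro h
    obtain ⟨k, hk⟩ := mem_iUnion.1 h
    exact mem_iUnion.2 ⟨k, (geo4_mem_Ex_iff hT hW k z hz hz').1 hk⟩
  · intro h
    obtain ⟨k, hk⟩ := mem_iUnion.1 h
    exact mem_iUnion.2 ⟨k, (geo4_mem_Ex_iff hT hW k z hz hz').2 hk⟩

theorem geo4_line (hT : T.Straight) {S : Set (Fin n)} {W : Finset ℂ} (hW : T.DirClass S W)
    {i : Fin n} {w : ℂ} (hw : w ∈ W) (hp : 0 < T.nw i w) {r : ℝ} (hr : r ∈ Ioo 0 (T.len i)) :
    (((i, (⟨w, hw⟩ : W)), r * T.nw i w) : (Fin n × W) × ℝ) ∈ (sys hT hW).V ∧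
    ((((i, (⟨w, hw⟩ : W)), r * T.nw i w) : (Fin n × W) × ℝ) ∈ (sys hT hW).E ↔
      (i, r, Real.arcsin (ip w (T.dir i))) ∈ T.Mort S) := by
  have h1 : 0 < r * T.nw i w := mul_pos hr.1 hp
  have h2 : r * T.nw i w < T.len i * T.nw i w := mul_lt_mul_of_pos_right hr.2 hp
  refine ⟨⟨h1, h2⟩, ?_⟩
  have h3 := mem_E_iff hT hW (((i, (⟨w, hw⟩ : W)), r * T.nw i w) : (Fin n × W) × ℝ) h1 h2
  have h4 : T.st i w (r * T.nw i w) = (i, r, Real.arcsin (ip w (T.dir i))) := by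
    rw [st, mul_div_cancel_right₀ r hp.ne']
  rw [h3]
  show T.st i w (r * T.nw i w) ∈ T.Mort S ↔ _
  rw [h4]

theorem geo4_countable (hT : T.Straight) {S : Set (Fin n)} {W : Finset ℂ} (hW : T.DirClass S W)
    {i : Fin n} {w : ℂ} (hw : w ∈ W) (hp : 0 < T.nw i w)
    (hc : {x : ℝ | (((i, (⟨w, hw⟩ : W)), x) : (Fin n × W) × ℝ) ∈ (sys hT hW).V ∧
      (((i, (⟨w, hw⟩ : W)), x) : (Fin n × W) × ℝ) ∉ (sys hT hW).E}.Countable) :
    {r : ℝ | r ∈ Ioo 0 (T.len i) ∧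
      (i, r, Real.arcsin (ip w (T.dir i))) ∉ T.Mort S}.Countable := by
  have hinj : Function.Injective fun r : ℝ => r * T.nw i w :=
    fun a b hab => mul_right_cancel₀ hp.ne' hab
  refine (hc.preimage hinj).mono ?_
  rintro r ⟨hr, hrM⟩
  have h := geo4_line hT hW hw hp hr
  exact ⟨h.1, fun hE => hrM (h.2.1 hE)⟩

/-- `IntSys.line_dichotomy`, `sys_noConn`, `mem_E_iff`, and `x = r * nw i w`. -/
theorem geo_dichotomy (hT : T.Straight) {S : Set (Fin n)} {W : Finset ℂ} (hW : T.DirClass S W)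
    {i : Fin n} {w : ℂ} (hw : w ∈ W) (hp : 0 < T.nw i w) :
    (∀ r ∈ Ioo 0 (T.len i), (i, r, Real.arcsin (ip w (T.dir i))) ∉ T.Mort S) ∨
    {r : ℝ | r ∈ Ioo 0 (T.len i) ∧ (i, r, Real.arcsin (ip w (T.dir i))) ∉ T.Mort S}.Countable := by
  rcases (sys hT hW).line_dichotomy (sys_noConn hT hW) (i, (⟨w, hw⟩ : W)) with h | h
  · left
    intro r hr hM
    exact h (r * T.nw i w) ((geo4_line hT hW hw hp hr).2.2 hM)
  · right
    exact geo4_countable hT hW hw hp h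

/-- `IntSys.source_mortal`. -/
theorem geo_source (hT : T.Straight) {S : Set (Fin n)} {W : Finset ℂ} (hW : T.DirClass S W)
    {i : Fin n} (hi : i ∉ S) {w : ℂ} (hw : w ∈ W) (hp : 0 < T.nw i w) :
    {r : ℝ | r ∈ Ioo 0 (T.len i) ∧ (i, r, Real.arcsin (ip w (T.dir i))) ∉ T.Mort S}.Countable := by
  refine geo4_countable hT hW hw hp ((sys hT hW).source_mortal (sys_noConn hT hW)
    (i, (⟨w, hw⟩ : W)) ?_)
  rintro z y ⟨⟨hz, hz'⟩, -, hN⟩ hy
  have hN' : T.nextW S W z = some y := hN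
  obtain ⟨h1, -⟩ := (nextW_some_iff hT hW hz hz').1 hN'
  rw [hy] at h1
  exact hi h1

end Table

end

end Pool.Agent.MP2e716c
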