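import Pool.Agent.H.MP_2e716c_an.Geo2

open Set MeasureTheory Filter Topology

namespace Pool.Agent.MP2e716c

noncomputable section

namespace Table

variable {n : ℕ} [NeZero n] (T : Table n)

/-- `Land w x a`: the ray from the region point `x` in direction `w` lands at `a`. -/
def Land (w x : ℂ) (a : Fin n × ℝ × ℝ) : Prop :=
  a ∈ T.phase ∧ T.inc a = w ∧ ∃ τ : ℝ, 0 < τ ∧ (∀ t ∈ Ico 0 τ, x + t * w ∈ T.region) ∧
    T.pt a = x + τ * w

/-- `Start w x b`: the backward ray from `x` comes from `b`. -/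
def Start (w x : ℂ) (b : Fin n × ℝ × ℝ) : Prop :=
  b ∈ T.phase ∧ T.vel b = w ∧ ∃ τ : ℝ, 0 < τ ∧ (∀ t ∈ Ico 0 τ, x - t * w ∈ T.region) ∧
    T.pt b = x - τ * w

variable {T}

theorem geo5_start_iff {w x : ℂ} {b : Fin n × ℝ × ℝ} :
    T.Start w x b ↔ T.Land (-w) x (rev b) := by
  constructor
  · rintro ⟨hb, hv, τ, hτ, hin, hp⟩
    refine ⟨T.rev_mem hb, by rw [inc_rev, hv], τ, hτ, fun t ht => ?_, ?_⟩
    · have h1 : x + (t : ℂ) * (-w) = x - t * w := by ring
      rw [h1]
      exact hin t ht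
    · rw [pt_rev, hp]
      ring
  · rintro ⟨hb, hv, τ, hτ, hin, hp⟩
    rw [inc_rev, neg_inj] at hv
    rw [pt_rev] at hp
    have hb' := T.rev_mem hb
    rw [rev_rev] at hb'
    refine ⟨hb', hv, τ, hτ, fun t ht => ?_, ?_⟩
    · have h1 : x - (t : ℂ) * w = x + t * (-w) := by ring
      rw [h1]
      exact hin t ht
    · rw [hp]
      ring

theorem geo5_land (hT : T.Straight) {w x : ℂ} (hw : ‖w‖ = 1) (hn : ∀ i, T.nw i w ≠ 0)
    (hx : x ∈ T.region) :
    (∃ a, T.Land w x a) ∨ ∃ τ : ℝ, 0 < τ ∧ ∃ j, T.γ j 0 = x + τ * w := by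
  obtain ⟨ε, hε, hball⟩ := Metric.isOpen_iff.1 T.isOpen x hx
  have h0 : ∀ t ∈ Ioo (0 : ℝ) ε, x + t * w ∈ T.region := by
    intro t ht
    apply hball
    rw [Metric.mem_ball, dist_eq_norm]
    have h1 : x + (t : ℂ) * w - x = t * w := by ring
    rw [h1, norm_mul, hw, mul_one, Complex.norm_real, Real.norm_of_nonneg ht.1.le]
    exact ht.2
  obtain ⟨τ, hτ, hin, hfr⟩ := T.exists_exit hw hε h0
  have hτ0 : 0 < τ := hε.trans_le hτ
  rcases T.frontier_cases hfr with ⟨j, hj⟩ | ⟨j, s, hs, hj⟩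
  · exact Or.inr ⟨τ, hτ0, j, hj⟩
  · left
    have h1 := T.ip_nor_nonpos hw hτ0 hin hs hj
    have h2 : ip w (Complex.I * deriv (T.γ j) s) ≠ 0 := by
      rw [straight_deriv hT]
      exact hn j
    obtain ⟨h3, h4⟩ := T.inc_arcsin j hs hw (lt_of_le_of_ne h1 h2)
    refine ⟨_, h3, h4, τ, hτ0, fun t ht => ?_, hj⟩
    rcases ht.1.eq_or_lt with h5 | h5
    · rw [← h5, Complex.ofReal_zero, zero_mul, add_zero]
      exact hx
    · exact hin t ⟨h5, ht.2⟩

theorem geo5_nw_neg (i : Fin n) (w : ℂ) : T.nw i (-w) = -T.nw i w := by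
  simp only [nw, ip_neg_left]

/-- The ray from a region point lands or hits a corner (`exists_exit`, `frontier_cases`,
`ip_nor_nonpos`, `nw_ne_zero`, `inc_arcsin`). -/
theorem land_or_corner (hT : T.Straight) {w x : ℂ} (hw : ‖w‖ = 1) (hc : w ∉ T.conn)
    (hx : x ∈ T.region) :
    (∃ a, T.Land w x a) ∨ ∃ τ : ℝ, 0 < τ ∧ ∃ j, T.γ j 0 = x + τ * w :=
  geo5_land hT hw (fun i => nw_ne_zero hT hw hc i) hx

/-- `b = rev a` where `a` is a landing point in direction `-w` (`nw i (-w) = -nw i w ≠ 0`). -/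
theorem start_or_corner (hT : T.Straight) {w x : ℂ} (hw : ‖w‖ = 1) (hc : w ∉ T.conn)
    (hx : x ∈ T.region) :
    (∃ b, T.Start w x b) ∨ ∃ τ : ℝ, 0 < τ ∧ ∃ j, T.γ j 0 = x - τ * w := by
  have hn : ∀ i, T.nw i (-w) ≠ 0 := by
    intro i
    rw [geo5_nw_neg]
    exact neg_ne_zero.2 (nw_ne_zero hT hw hc i)
  rcases geo5_land hT (w := -w) (by rw [norm_neg, hw]) hn hx with ⟨a, ha⟩ | ⟨τ, hτ, j, hj⟩
  · left
    refine ⟨rev a, geo5_start_iff.2 ?_⟩
    rw [rev_rev]
    exact ha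
  · right
    refine ⟨τ, hτ, j, ?_⟩
    rw [hj]
    ring

/-- Both alternatives cannot fail: a segment between two corners is a connection. -/
theorem land_or_start (hT : T.Straight) {w x : ℂ} (hw : ‖w‖ = 1) (hc : w ∉ T.conn)
    (hx : x ∈ T.region) : (∃ a, T.Land w x a) ∨ (∃ b, T.Start w x b) := by
  rcases land_or_corner hT hw hc hx with h | ⟨τ, hτ, j, hj⟩
  · exact Or.inl h
  · rcases start_or_corner hT hw hc hx with h | ⟨σ, hσ, i, hi⟩
    · exact Or.inr h
    · exfalso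
      apply hc
      refine ⟨hw, [], i, j, τ + σ, by positivity, ?_⟩
      change T.γ j 0 = _
      rw [hj, hi]
      push_cast
      ring

theorem next_of_start_land {w x : ℂ} {a b : Fin n × ℝ × ℝ} (hb : T.Start w x b)
    (ha : T.Land w x a) : T.Next b a := by
  obtain ⟨hbp, hbv, σ, hσ, hbin, hbpt⟩ := hb
  obtain ⟨hap, hav, τ, hτ, hain, hapt⟩ := ha
  refine ⟨hbp, hap, σ + τ, by positivity, fun t ht => ?_, ?_, by rw [hav, hbv]⟩
  · rw [hbv, hbpt]
    rcases lt_or_ge t σ with h | h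
    · have h1 : x - (σ : ℂ) * w + t * w = x - ((σ - t : ℝ) : ℂ) * w := by push_cast; ring
      rw [h1]
      exact hbin _ ⟨by linarith, by linarith [ht.1]⟩
    · have h1 : x - (σ : ℂ) * w + t * w = x + ((t - σ : ℝ) : ℂ) * w := by push_cast; ring
      rw [h1]
      exact hain _ ⟨by linarith, by linarith [ht.2]⟩
  · rw [hbv, hbpt, hapt]
    push_cast
    ring

/-- Stability of the landing point, with an affine formula.
Proof: as `chord_stable` (compactness of `{x0 + t w}`, `inward_cone` at the landing point with `v = -w`);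
the foot `γ j s = x + τ w` has `(s - s0) cos θ = ip (x - x0) (I w)` since `ip (dir j) (I w) = cos θ` for
`w = inc a`. -/
theorem land_stable (hT : T.Straight) {w x0 : ℂ} (hw : ‖w‖ = 1) (hx : x0 ∈ T.region)
    {a : Fin n × ℝ × ℝ} (ha : T.Land w x0 a) :
    ∀ᶠ x in 𝓝 x0, T.Land w x
      (a.1, a.2.1 + ip (x - x0) (Complex.I * w) / Real.cos a.2.2, a.2.2) := by
  obtain ⟨e, s0, θ⟩ := a
  obtain ⟨hap, hav, τ, hτ, hin, hpt⟩ := ha
  simp only
  have hs0 : s0 ∈ Ioo 0 (T.len e) := hap.1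
  have hθ : θ ∈ Ioo (-(Real.pi / 2)) (Real.pi / 2) := hap.2
  have hcos : 0 < Real.cos θ := Real.cos_pos_of_mem_Ioo hθ
  have hnor := T.ip_inc_nor hap
  rw [hav] at hnor
  have hnw : T.nw e w = -Real.cos θ := by
    have h1 : T.nor (e, s0, θ) = Complex.I * T.dir e := by
      simp only [nor, tang, straight_deriv hT]
    rw [h1] at hnor
    exact hnor
  have hdirw : ip (T.dir e) (Complex.I * w) = Real.cos θ := by
    rw [ip_I_mul_right, ip_comm]
    have h2 : ip w (Complex.I * T.dir e) = -Real.cos θ := hnw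
    rw [h2, neg_neg]
  -- the two continuous functions
  set σ : ℂ → ℝ := fun x => ip (x - x0) (Complex.I * w) / Real.cos θ with hσ
  have hσc : Continuous σ := by
    apply Continuous.div_const
    exact ip_continuous.comp ((continuous_id.sub continuous_const).prodMk continuous_const)
  have hσ0 : σ x0 = 0 := by
    simp only [hσ, sub_self, ip_zero_left, zero_div]
  set ρ : ℂ → ℝ := fun x => ip (x0 - x + σ x * T.dir e) w with hρ
  have hρc : Continuous ρ :=
    ip_continuous.comp (((continuous_const.sub continuous_id).add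
      ((Complex.continuous_ofReal.comp hσc).mul continuous_const)).prodMk continuous_const)
  have hρ0 : ρ x0 = 0 := by
    simp only [hρ, hσ0, sub_self, Complex.ofReal_zero, zero_mul, add_zero, ip_zero_left]
  have hkey : ∀ x, x0 - x + σ x * T.dir e = ρ x * w := by
    intro x
    have h1 := ip_decomp (x0 - x + σ x * T.dir e) w hw
    have h2 : ip (x0 - x + σ x * T.dir e) (Complex.I * w) = 0 := by
      rw [ip_add_left, ip_rmul_left, hdirw]
      have h3 : σ x * Real.cos θ = ip (x - x0) (Complex.I * w) := by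
        simp only [hσ]
        rw [div_mul_cancel₀ _ hcos.ne']
      rw [h3, ← ip_add_left]
      have h4 : x0 - x + (x - x0) = 0 := by ring
      rw [h4, ip_zero_left]
    rw [h2, Complex.ofReal_zero, zero_mul, add_zero] at h1
    exact h1
  obtain ⟨ε, hε, hcone⟩ := T.inward_cone e hs0 hcos
  -- eventually small
  have ev : ∀ (f : ℂ → ℝ), Continuous f → f x0 = 0 → ∀ δ > 0, ∀ᶠ x in 𝓝 x0, |f x| < δ := by
    intro f hf hf0 δ hδ
    have h1 : Tendsto (fun x => |f x|) (𝓝 x0) (𝓝 |f x0|) := hf.abs.tendsto x0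
    rw [hf0, abs_zero] at h1
    exact h1.eventually (gt_mem_nhds hδ)
  have hmid : ∀ᶠ x in 𝓝 x0, ∀ t ∈ Icc (0 : ℝ) (τ - ε / 2), x + t * w ∈ T.region := by
    refine isCompact_Icc.eventually_forall_of_forall_eventually (fun t ht => ?_)
    have h1 : x0 + t * w ∈ T.region := hin t ⟨ht.1, by linarith [ht.2]⟩
    have h2 : Continuous (fun z : ℂ × ℝ => z.1 + z.2 * w) :=
      continuous_fst.add ((Complex.continuous_ofReal.comp continuous_snd).mul continuous_const)
    exact h2.continuousAt.eventually (T.isOpen.mem_nhds h1)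
  filter_upwards [hmid, ev σ hσc hσ0 ε hε, ev σ hσc hσ0 s0 hs0.1,
    ev σ hσc hσ0 (T.len e - s0) (sub_pos.2 hs0.2), ev ρ hρc hρ0 (ε / 4) (by positivity),
    ev ρ hρc hρ0 τ hτ] with x hx1 hx2 hx3 hx4 hx5 hx6
  have hx3' := abs_lt.1 hx3
  have hx4' := abs_lt.1 hx4
  have hx5' := abs_lt.1 hx5
  have hx6' := abs_lt.1 hx6
  change T.Land w x (e, s0 + σ x, θ)
  have hpt' : T.γ e (s0 + σ x) = x + ((τ + ρ x : ℝ) : ℂ) * w := by
    have h1 := hkey x
    have h2 : T.γ e s0 = x0 + τ * w := hpt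
    rw [straight_eq hT] at h2 ⊢
    push_cast
    linear_combination h2 + h1
  refine ⟨⟨⟨by simp only; linarith [hx3'.1], by simp only; linarith [hx4'.2]⟩, hθ⟩, ?_, τ + ρ x,
    by linarith [hx6'.1], fun t ht => ?_, hpt'⟩
  · have h1 : T.inc (e, s0 + σ x, θ) = T.inc (e, s0, θ) := by
      simp only [inc, nor, tang, straight_deriv hT]
    rw [h1, hav]
  · rcases le_or_gt t (τ - ε / 2) with h | h
    · exact hx1 t ⟨ht.1, h⟩
    · have h1 := (hcone (s0 + σ x) (by rw [add_sub_cancel_left]; exact hx2) (-w)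
        (by rw [norm_neg, hw]) (by
          rw [straight_deriv hT, ip_neg_left]
          have h2 : ip w (Complex.I * T.dir e) = -Real.cos θ := hnw
          rw [h2, neg_neg]) (τ + ρ x - t)
        ⟨by linarith [ht.2], by linarith [hx5'.2]⟩).1
      rw [hpt'] at h1
      have h3 : x + ((τ + ρ x : ℝ) : ℂ) * w + ((τ + ρ x - t : ℝ) : ℂ) * (-w) = x + t * w := by
        push_cast
        ring
      rw [h3] at h1
      exact h1

/-- The same backwards (apply `land_stable` to `-w` and `rev`). -/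
theorem start_stable (hT : T.Straight) {w x0 : ℂ} (hw : ‖w‖ = 1) (hx : x0 ∈ T.region)
    {b : Fin n × ℝ × ℝ} (hb : T.Start w x0 b) :
    ∀ᶠ x in 𝓝 x0, T.Start w x
      (b.1, b.2.1 - ip (x - x0) (Complex.I * w) / Real.cos b.2.2, b.2.2) := by
  have h1 := land_stable hT (w := -w) (by rw [norm_neg, hw]) hx (geo5_start_iff.1 hb)
  filter_upwards [h1] with x hx1
  rw [geo5_start_iff]
  have h2 : (rev (b.1, b.2.1 - ip (x - x0) (Complex.I * w) / Real.cos b.2.2, b.2.2) :
      Fin n × ℝ × ℝ) = ((rev b).1, (rev b).2.1 + ip (x - x0) (Complex.I * (-w)) /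
        Real.cos (rev b).2.2, (rev b).2.2) := by
    simp only [rev, Real.cos_neg, mul_neg, ip_neg_right, neg_div]
    rfl
  rw [h2]
  exact hx1

/-- Points of a chord. -/
theorem chord_point {z a : Fin n × ℝ × ℝ} (h : T.Next z a) {t : ℝ} (ht : 0 < t)
    (ht' : t < ‖T.pt a - T.pt z‖) :
    T.pt z + t * T.vel z ∈ T.region ∧ T.Start (T.vel z) (T.pt z + t * T.vel z) z ∧
      T.Land (T.vel z) (T.pt z + t * T.vel z) a := by
  obtain ⟨hz, ha, τ, hτ, hin, hp, hv⟩ := h
  have hlen : ‖T.pt a - T.pt z‖ = τ := by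
    rw [hp, add_sub_cancel_left, norm_mul, T.vel_norm hz, mul_one, Complex.norm_real,
      Real.norm_of_nonneg hτ.le]
  rw [hlen] at ht'
  refine ⟨hin t ⟨ht, ht'⟩, ⟨hz, rfl, t, ht, fun s hs => ?_, by ring⟩,
    ⟨ha, hv, τ - t, by linarith, fun s hs => ?_, ?_⟩⟩
  · have h1 : T.pt z + (t : ℂ) * T.vel z - s * T.vel z =
        T.pt z + ((t - s : ℝ) : ℂ) * T.vel z := by push_cast; ring
    rw [h1]
    exact hin _ ⟨by linarith [hs.2], by linarith [hs.1]⟩
  · have h1 : T.pt z + (t : ℂ) * T.vel z + s * T.vel z =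
        T.pt z + ((t + s : ℝ) : ℂ) * T.vel z := by push_cast; ring
    rw [h1]
    exact hin _ ⟨by linarith [hs.1], by linarith [hs.2]⟩
  · rw [hp]
    push_cast
    ring

/-- Points near an interior point of side `e` seen in the outward direction `w` land on `e`
(`inward_cone` with `v = -w`). -/
theorem exists_land (hT : T.Straight) {w : ℂ} (hw : ‖w‖ = 1) {e : Fin n} (he : T.nw e w < 0) :
    ∃ x ∈ T.region, ∃ a, T.Land w x a ∧ a.1 = e := by
  have hs : T.len e / 2 ∈ Ioo 0 (T.len e) := ⟨by linarith [T.len_pos e], by linarith [T.len_pos e]⟩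
  obtain ⟨ε, hε, hcone⟩ := T.inward_cone e hs (neg_pos.2 he)
  have hd : ip w (Complex.I * deriv (T.γ e) (T.len e / 2)) = T.nw e w := by
    rw [straight_deriv hT]
    rfl
  have hreg : ∀ t ∈ Ioo (0 : ℝ) ε, T.γ e (T.len e / 2) - t * w ∈ T.region := by
    intro t ht
    have h1 := (hcone (T.len e / 2) (by rw [sub_self, abs_zero]; exact hε) (-w)
      (by rw [norm_neg, hw]) (by rw [ip_neg_left, hd]) t ht).1
    have h2 : T.γ e (T.len e / 2) + (t : ℂ) * (-w) = T.γ e (T.len e / 2) - t * w := by ring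
    rw [h2] at h1
    exact h1
  obtain ⟨h3, h4⟩ := T.inc_arcsin e hs hw (by rw [hd]; exact he)
  refine ⟨T.γ e (T.len e / 2) - ((ε / 2 : ℝ) : ℂ) * w, hreg _ ⟨by linarith, by linarith⟩, _,
    ⟨h3, h4, ε / 2, by linarith, fun t ht => ?_, ?_⟩, rfl⟩
  · have h1 : T.γ e (T.len e / 2) - ((ε / 2 : ℝ) : ℂ) * w + t * w =
        T.γ e (T.len e / 2) - ((ε / 2 - t : ℝ) : ℂ) * w := by push_cast; ring
    rw [h1]
    exact hreg _ ⟨by linarith [ht.2], by linarith [ht.1]⟩
  · change T.γ e (T.len e / 2) = _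
    ring

end Table

end

end Pool.Agent.MP2e716c
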