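import Pool.Agent.H.MP_2e716c_an.Geo4
import Pool.Agent.H.MP_2e716c_an.Geo5

open Set MeasureTheory Filter Topology

namespace Pool.Agent.MP2e716c

noncomputable section

namespace Table

variable {n : ℕ} [NeZero n] (T : Table n)

/-- Mortal region points in direction `w`. -/
def MortR (S : Set (Fin n)) (w : ℂ) : Set ℂ :=
  {x | x ∈ T.region ∧ ∃ a, T.Land w x a ∧ (a.1 ∈ S → a ∈ T.Mort S)}

variable {T}

theorem geo6_next_of_mort {S : Set (Fin n)} {b : Fin n × ℝ × ℝ} (hb : b ∈ T.Mort S) :
    ∃ a, T.Next b a := by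
  obtain ⟨k, hk⟩ := mem_iUnion.1 hb
  cases k with
  | zero => obtain ⟨a, ha, -⟩ := hk; exact ⟨a, ha⟩
  | succ k => obtain ⟨a, ha, -⟩ := hk; exact ⟨a, ha⟩

theorem geo6_land_of_start {w x : ℂ} {b a : Fin n × ℝ × ℝ} (hb : T.Start w x b)
    (h : T.Next b a) : T.Land w x a := by
  obtain ⟨hbp, hbv, τ, hτ, hin, hpt⟩ := hb
  obtain ⟨-, hap, σ, hσ, hin', hpa, hva⟩ := id h
  have hw : ‖T.vel b‖ = 1 := T.vel_norm hbp
  have hx : x = T.pt b + τ * T.vel b := by rw [hpt, hbv]; ring
  have hlt : τ < σ := by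
    by_contra hcon
    push Not at hcon
    have h1 := hin (τ - σ) ⟨by linarith, by linarith⟩
    apply T.pt_not_mem hap
    rw [hpa]
    convert h1 using 1
    rw [hx, hbv]; push_cast; ring
  have hnorm : ‖T.pt a - T.pt b‖ = σ := by
    rw [hpa, add_sub_cancel_left, norm_mul, hw, mul_one, Complex.norm_real, Real.norm_eq_abs,
      abs_of_pos hσ]
  have h2 := (T.chord_point h hτ (by rw [hnorm]; exact hlt)).2.2
  rw [← hx, hbv] at h2
  exact h2

/-- A region point with start `b` is mortal iff `b` is (the landing point of `x` is the successor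
of `b`; `mort_iff_of_next`, `mort_of_next_not`). -/
theorem mortR_iff_start (hT : T.Straight) {S : Set (Fin n)} {w x : ℂ} {b : Fin n × ℝ × ℝ}
    (hx : x ∈ T.region) (hb : T.Start w x b) : x ∈ T.MortR S w ↔ b ∈ T.Mort S := by
  constructor
  · rintro ⟨-, a, ha, hm⟩
    have hn := next_of_start_land hb ha
    by_cases haS : a.1 ∈ S
    · exact (mort_iff_of_next hn haS).2 (hm haS)
    · exact mort_of_next_not hn haS
  · intro hm
    obtain ⟨a, ha⟩ := geo6_next_of_mort hm
    refine ⟨hx, a, geo6_land_of_start hb ha, fun haS => (mort_iff_of_next ha haS).1 hm⟩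

/-- The landing angle in direction `w` on side `j` is `arcsin (ip (rfl' j w) (dir j))`. -/
theorem land_angle (hT : T.Straight) {w x : ℂ} {a : Fin n × ℝ × ℝ} (ha : T.Land w x a) :
    a.2.2 = Real.arcsin (ip (T.rfl' a.1 w) (T.dir a.1)) ∧ 0 < T.nw a.1 (T.rfl' a.1 w) := by
  obtain ⟨hap, hinc, -⟩ := ha
  have h1 : T.rfl' a.1 w = T.vel a := by rw [vel_eq_rfl' hT, hinc]
  have h2 : ip (T.vel a) (T.dir a.1) = Real.sin a.2.2 := by
    have := T.ip_vel_tang hap
    rwa [tang, straight_deriv hT] at this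
  rw [h1, h2, Real.arcsin_sin hap.2.1.le hap.2.2.le, nw_vel hT hap]
  exact ⟨rfl, T.cos_pos hap⟩

theorem start_angle (hT : T.Straight) {w x : ℂ} {b : Fin n × ℝ × ℝ} (hb : T.Start w x b) :
    b.2.2 = Real.arcsin (ip w (T.dir b.1)) ∧ 0 < T.nw b.1 w := by
  obtain ⟨hbp, hvel, -⟩ := hb
  have h2 : ip (T.vel b) (T.dir b.1) = Real.sin b.2.2 := by
    have := T.ip_vel_tang hbp
    rwa [tang, straight_deriv hT] at this
  rw [← hvel, h2, Real.arcsin_sin hbp.2.1.le hbp.2.2.le, nw_vel hT hbp]
  exact ⟨rfl, T.cos_pos hbp⟩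

theorem geo6_not_countable_Ioo {a b : ℝ} (hab : a < b) : ¬ (Ioo a b).Countable := by
  intro h
  have h1 := h.measure_zero volume
  rw [Real.volume_Ioo, ENNReal.ofReal_eq_zero] at h1
  linarith

/-- If a set of reals `r` is countable, then in every neighbourhood of `x` there are points `x'` for
which `c + ip (x' - x0) (I w) / κ` is not in the set. -/
theorem exists_near_avoid {w : ℂ} (hw : ‖w‖ = 1) (x0 : ℂ) (c : ℝ) {κ : ℝ} (hκ : κ ≠ 0) {N : Set ℝ}
    (hN : N.Countable) {U : Set ℂ} (hU : IsOpen U) (hne : U.Nonempty) :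
    ∃ x ∈ U, c + ip (x - x0) (Complex.I * w) / κ ∉ N := by
  obtain ⟨y, hy⟩ := hne
  have hcont : Continuous (fun s : ℝ => y + s * (Complex.I * w)) := by fun_prop
  have hopen : IsOpen {s : ℝ | y + s * (Complex.I * w) ∈ U} := hU.preimage hcont
  have h0 : (0 : ℝ) ∈ {s : ℝ | y + s * (Complex.I * w) ∈ U} := by simpa using hy
  obtain ⟨ε, hε, hball⟩ := Metric.isOpen_iff.1 hopen 0 h0
  by_contra hcon
  push Not at hcon
  have hf : ∀ s : ℝ, c + ip (y + s * (Complex.I * w) - x0) (Complex.I * w) / κ =
      (c + ip (y - x0) (Complex.I * w) / κ) + s / κ := by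
    intro s
    have e : y + s * (Complex.I * w) - x0 = (y - x0) + s * (Complex.I * w) := by ring
    rw [e, ip_add_left, ip_rmul_left, ip_I_mul, ip_self, hw]; ring
  apply geo6_not_countable_Ioo hε
  have hsub : Ioo 0 ε ⊆ (fun s : ℝ => (c + ip (y - x0) (Complex.I * w) / κ) + s / κ) ⁻¹' N := by
    intro s hs
    have h1 : y + s * (Complex.I * w) ∈ U := hball (by
      rw [Metric.mem_ball, Real.dist_eq, sub_zero, abs_of_pos hs.1]; exact hs.2)
    have h2 := hcon _ h1
    rw [hf] at h2
    exact h2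
  refine Countable.mono hsub (hN.preimage_of_injOn ?_)
  intro s _ s' _ h
  have h3 : s / κ = s' / κ := by simpa using h
  field_simp at h3
  exact h3

/-- Local dichotomy: near every region point either no point is mortal or mortal points are dense.
Proof. By `land_or_start` there are two cases.
(1) `Land w x a`.  By `land_stable` all `x'` near `x` land on side `a.1` at the parameter
`g x' = a.2.1 + ip (x' - x) (I w) / cos a.2.2`, with angle `a.2.2`.  If `a.1 ∉ S` all are mortal.  If `a.1 ∈ S` and one `x'`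
near `x` is mortal, then `geo_dichotomy` for `i = a.1` and the direction `rfl' a.1 w ∈ W` (`land_angle`) gives
a countable exceptional set `N` of parameters, and `exists_near_avoid` gives density (the landing point is unique).
(2) `Start w x b`: the same with `start_stable`, `mortR_iff_start` and `geo_dichotomy` for `i = b.1`, `w`. -/
theorem near_dichotomy (hT : T.Straight) {S : Set (Fin n)} {W : Finset ℂ} (hW : T.DirClass S W)
    {w : ℂ} (hw : w ∈ W) {x : ℂ} (hx : x ∈ T.region) :
    ∃ ρ > 0, (∃ x' ∈ Metric.ball x ρ, x' ∈ T.MortR S w) →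
      Metric.ball x ρ ⊆ closure (T.MortR S w) := by
  have hreg : ∀ᶠ x' in 𝓝 x, x' ∈ T.region := T.isOpen.mem_nhds hx
  rcases land_or_start hT (hW.unit w hw) (hW.noconn w hw) hx with ⟨a, ha⟩ | ⟨b, hb⟩
  · have hst := land_stable hT (hW.unit w hw) hx ha
    obtain ⟨ρ, hρ, hball⟩ := Metric.eventually_nhds_iff_ball.1 (hst.and hreg)
    refine ⟨ρ, hρ, ?_⟩
    rintro ⟨x', hx', hm⟩
    by_cases haS : a.1 ∈ S
    · have hla := land_angle hT ha
      obtain ⟨hm1, a', ha', hm2⟩ := hm
      have hL := (hball x' hx').1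
      -- landing points are unique
      have huniq : a' = (a.1, a.2.1 + ip (x' - x) (Complex.I * w) / Real.cos a.2.2, a.2.2) := by
        obtain ⟨hap, hinc, τ, hτ, hin, hpa⟩ := ha'
        obtain ⟨hbp, hinc', σ, hσ, hin', hpb⟩ := hL
        have hτσ : τ = σ := by
          rcases lt_trichotomy τ σ with h | h | h
          · exact absurd (hpa ▸ hin' τ ⟨hτ.le, h⟩) (T.pt_not_mem hap)
          · exact h
          · exact absurd (hpb ▸ hin σ ⟨hσ.le, h⟩) (T.pt_not_mem hbp)
        subst hτσ
        obtain ⟨h1, h2⟩ := T.pt_inj hap hbp (hpa.trans hpb.symm)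
        have h3 : T.inc a' = T.inc (a.1, a.2.1 + ip (x' - x) (Complex.I * w) / Real.cos a.2.2, a.2.2) :=
          hinc.trans hinc'.symm
        have h4 : T.vel a' = T.vel (a.1, a.2.1 + ip (x' - x) (Complex.I * w) / Real.cos a.2.2, a.2.2) := by
          rw [vel_eq_rfl' hT, h3, h1, ← vel_eq_rfl' hT]
        have e1 := T.ip_vel_tang hap
        have e2 := T.ip_vel_tang hbp
        rw [tang, straight_deriv hT] at e1 e2
        have h5 : a'.2.2 = a.2.2 := by
          apply angle_inj hap.2 hbp.2
          rw [← e1, ← e2, h4, h1]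
        exact Prod.ext h1 (Prod.ext h2 h5)
      rcases geo_dichotomy hT hW (hW.refl w hw a.1 haS) hla.2 with h | h
      · exfalso
        have hph := ha'.1
        rw [huniq] at hph
        have h1 := h _ hph.1
        rw [← hla.1] at h1
        apply h1
        have h2 := hm2 (by rw [huniq]; exact haS)
        rw [huniq] at h2
        exact h2
      · intro y hy
        rw [mem_closure_iff_nhds]
        intro V hV
        obtain ⟨U, hUV, hUo, hyU⟩ := mem_nhds_iff.1 (inter_mem hV (Metric.isOpen_ball.mem_nhds hy))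
        obtain ⟨x'', hx'', hav⟩ := exists_near_avoid (hW.unit w hw) x a.2.1
          (T.cos_pos ha.1).ne' h hUo ⟨y, hyU⟩
        have hx3 := hUV hx''
        obtain ⟨hL2, hreg2⟩ := hball x'' hx3.2
        refine ⟨x'', hx3.1, hreg2, _, hL2, fun _ => ?_⟩
        by_contra hnm
        apply hav
        refine ⟨hL2.1.1, ?_⟩
        rw [← hla.1]
        exact hnm
    · intro y hy
      obtain ⟨hL, hyr⟩ := hball y hy
      exact subset_closure ⟨hyr, _, hL, fun h => absurd h haS⟩
  · have hst := start_stable hT (hW.unit w hw) hx hb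
    obtain ⟨ρ, hρ, hball⟩ := Metric.eventually_nhds_iff_ball.1 (hst.and hreg)
    refine ⟨ρ, hρ, ?_⟩
    rintro ⟨x', hx', hm⟩
    have hsa := start_angle hT hb
    rcases geo_dichotomy hT hW hw hsa.2 with h | h
    · exfalso
      obtain ⟨hS1, hr1⟩ := hball x' hx'
      have h1 := (mortR_iff_start hT hr1 hS1).1 hm
      have h2 := h _ hS1.1.1
      rw [← hsa.1] at h2
      exact h2 h1
    · intro y hy
      rw [mem_closure_iff_nhds]
      intro V hV
      obtain ⟨U, hUV, hUo, hyU⟩ := mem_nhds_iff.1 (inter_mem hV (Metric.isOpen_ball.mem_nhds hy))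
      obtain ⟨x'', hx'', hav⟩ := exists_near_avoid (hW.unit w hw) x b.2.1
        (κ := -Real.cos b.2.2) (neg_ne_zero.2 (T.cos_pos hb.1).ne') h hUo ⟨y, hyU⟩
      have hx3 := hUV hx''
      obtain ⟨hS2, hreg2⟩ := hball x'' hx3.2
      refine ⟨x'', hx3.1, (mortR_iff_start hT hreg2 hS2).2 ?_⟩
      by_contra hnm
      apply hav
      have e : b.2.1 + ip (x'' - x) (Complex.I * w) / -Real.cos b.2.2 =
          b.2.1 - ip (x'' - x) (Complex.I * w) / Real.cos b.2.2 := by
        rw [div_neg]; ring
      rw [e]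
      refine ⟨hS2.1.1, ?_⟩
      rw [← hsa.1]
      exact hnm

/-- There is a mortal region point.
Proof. Let `e ∉ S`.  If `nw e w < 0`: `exists_land`.  If `nw e w > 0`: by `geo_source` some phase point
`z = (e, r, arcsin (ip w (dir e)))` is mortal (`(0, len e)` is uncountable); it has a successor, and the middle
point of its chord is mortal (`chord_point`, `mortR_iff_start`). -/
theorem mortR_nonempty (hT : T.Straight) {S : Set (Fin n)} {W : Finset ℂ} (hW : T.DirClass S W)
    {e : Fin n} (he : e ∉ S) {w : ℂ} (hw : w ∈ W) : (T.MortR S w).Nonempty := by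
  rcases lt_or_gt_of_ne (nw_ne_zero hT (hW.unit w hw) (hW.noconn w hw) e) with h | h
  · obtain ⟨x, hx, a, ha, hae⟩ := exists_land hT (hW.unit w hw) h
    exact ⟨x, hx, a, ha, fun haS => absurd (hae ▸ haS) he⟩
  · have hc := geo_source hT hW he hw h
    have hex : ∃ r ∈ Ioo 0 (T.len e), (e, r, Real.arcsin (ip w (T.dir e))) ∈ T.Mort S := by
      by_contra hcon
      push Not at hcon
      apply geo6_not_countable_Ioo (T.len_pos e)
      refine hc.mono ?_
      intro r hr
      exact ⟨hr, hcon r hr⟩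
    obtain ⟨r, hr, hm⟩ := hex
    obtain ⟨a, ha⟩ := geo6_next_of_mort hm
    have hnw : 0 < ip w (Complex.I * deriv (T.γ e) r) := by
      rw [straight_deriv hT]; exact h
    obtain ⟨hph, hvel⟩ := T.vel_arcsin e hr (hW.unit w hw) hnw
    rw [straight_deriv hT] at hph hvel
    have hpos : 0 < ‖T.pt a - T.pt (e, r, Real.arcsin (ip w (T.dir e)))‖ := by
      obtain ⟨-, hap, σ, hσ, hin', hpa, hva⟩ := ha
      rw [hpa, add_sub_cancel_left, norm_mul, T.vel_norm hph, mul_one, Complex.norm_real,
        Real.norm_eq_abs, abs_of_pos hσ]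
      exact hσ
    obtain ⟨h1, h2, -⟩ := T.chord_point ha (half_pos hpos) (half_lt_self hpos)
    rw [hvel] at h1 h2
    exact ⟨_, (mortR_iff_start hT h1 h2).2 hm⟩

/-- `closure (MortR) ∩ region` is open (`near_dichotomy`) and closed in the connected region. -/
theorem mortR_dense (hT : T.Straight) {S : Set (Fin n)} {W : Finset ℂ} (hW : T.DirClass S W)
    {e : Fin n} (he : e ∉ S) {w : ℂ} (hw : w ∈ W) : T.region ⊆ closure (T.MortR S w) := by
  have key : ∀ x ∈ T.region, x ∈ closure (T.MortR S w) → x ∈ interior (closure (T.MortR S w)) := by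
    intro x hx hxc
    obtain ⟨ρ, hρ, h⟩ := near_dichotomy hT hW hw hx
    obtain ⟨x', hx', hm⟩ := mem_closure_iff_nhds.1 hxc _ (Metric.ball_mem_nhds x hρ)
    exact mem_interior.2 ⟨_, h ⟨x', hx', hm⟩, Metric.isOpen_ball, Metric.mem_ball_self hρ⟩
  have h1 : T.region ⊆ interior (closure (T.MortR S w)) := by
    apply T.connected.isPreconnected.subset_of_closure_inter_subset isOpen_interior
    · obtain ⟨x, hx⟩ := mortR_nonempty hT hW he hw
      exact ⟨x, hx.1, key x hx.1 (subset_closure hx)⟩
    · rintro x ⟨hx, hxr⟩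
      refine key x hxr ?_
      have : closure (interior (closure (T.MortR S w))) ⊆ closure (T.MortR S w) := by
        apply closure_minimal interior_subset isClosed_closure
      exact this hx
  exact h1.trans interior_subset

/-- All lines are mortal.
Proof. By `geo_dichotomy` it is enough to find one mortal `(i, r, θ)`.  Only finitely many states on the
line have no successor (`finite_singular`), take one with a successor, `x` the middle point of its chord;
`Start w x z` (`chord_point`); by `start_stable` all points near `x` have a start on side `i` with the same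
angle, and one of them is mortal by `mortR_dense`; `mortR_iff_start`. -/
theorem lines_mortal (hT : T.Straight) {S : Set (Fin n)} {W : Finset ℂ} (hW : T.DirClass S W)
    {e : Fin n} (he : e ∉ S) {w : ℂ} (hw : w ∈ W) {i : Fin n} (hp : 0 < T.nw i w) :
    {r : ℝ | r ∈ Ioo 0 (T.len i) ∧ (i, r, Real.arcsin (ip w (T.dir i))) ∉ T.Mort S}.Countable := by
  rcases geo_dichotomy hT hW hw hp with h | h
  · exfalso
    have hfin := finite_singular hT (hW.unit w hw) (hW.noconn w hw) hp
    have hlen : 0 < T.len i * T.nw i w := mul_pos (T.len_pos i) hp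
    have hex : ∃ x, 0 < x ∧ x < T.len i * T.nw i w ∧ ∃ a, T.Next (T.st i w x) a := by
      by_contra hcon
      push Not at hcon
      apply geo6_not_countable_Ioo hlen
      refine hfin.countable.mono ?_
      intro x hx
      refine ⟨hx.1, hx.2, ?_⟩
      rintro ⟨a, ha⟩
      exact hcon x hx.1 hx.2 a ha
    obtain ⟨x, hx0, hx1, a, ha⟩ := hex
    obtain ⟨hph, hvel⟩ := st_mem hT (hW.unit w hw) hp hx0 hx1
    have hpos : 0 < ‖T.pt a - T.pt (T.st i w x)‖ := by
      obtain ⟨-, hap, σ, hσ, hin', hpa, hva⟩ := ha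
      rw [hpa, add_sub_cancel_left, norm_mul, T.vel_norm hph, mul_one, Complex.norm_real,
        Real.norm_eq_abs, abs_of_pos hσ]
      exact hσ
    obtain ⟨h1, h2, -⟩ := T.chord_point ha (half_pos hpos) (half_lt_self hpos)
    rw [hvel] at h1 h2
    have hst := start_stable hT (hW.unit w hw) h1 h2
    have hreg := T.isOpen.mem_nhds h1
    have hcl := mortR_dense hT hW he hw h1
    obtain ⟨x', ⟨hx', hx'r⟩, hm⟩ := mem_closure_iff_nhds.1 hcl _ (inter_mem hst hreg)
    have hm' := (mortR_iff_start hT hx'r hx').1 hm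
    exact h _ hx'.1.1 hm'
  · exact h

end Table

end

end Pool.Agent.MP2e716c
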