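import Pool.Agent.H.MP_2e716c_an.Geo3

open Set MeasureTheory Filter Topology

namespace Pool.Agent.MP2e716c

noncomputable section

namespace Table

variable {n : ℕ} [NeZero n] {T : Table n}

/-- A common exponent: `(dir i ^ 2) ^ M` is the same number `κ` for all `i ∈ S`
(`M` = product of the denominators of the rational numbers). -/
theorem exists_exponent {S : Set (Fin n)} (hr : T.Rational S) :
    ∃ (M : ℕ) (κ : ℂ), 0 < M ∧ ‖κ‖ = 1 ∧ ∀ i ∈ S, (T.dir i ^ 2) ^ M = κ := by
  classical
  rcases S.eq_empty_or_nonempty with hS | ⟨i0, hi0⟩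
  · exact ⟨1, 1, one_pos, by simp, by simp [hS]⟩
  have h1 : ∀ j : Fin n, ∃ q : ℚ, j ∈ S →
      T.dir j = T.dir i0 * Complex.exp ((q : ℂ) * (Real.pi : ℂ) * Complex.I) := by
    intro j
    by_cases hj : j ∈ S
    · obtain ⟨q, hq⟩ := hr i0 hi0 j hj
      exact ⟨q, fun _ => hq⟩
    · exact ⟨0, fun h => absurd h hj⟩
  choose q hq using h1
  refine ⟨∏ j, (q j).den, (T.dir i0 ^ 2) ^ (∏ j, (q j).den), ?_, ?_, ?_⟩
  · exact Finset.prod_pos fun j _ => (q j).pos
  · rw [norm_pow, norm_pow, dir_norm, one_pow, one_pow]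
  · intro j hj
    set M := ∏ j, (q j).den with hM
    obtain ⟨k, hk⟩ : (q j).den ∣ M := Finset.dvd_prod_of_mem _ (Finset.mem_univ j)
    rw [hq j hj, mul_pow, mul_pow]
    have h2 : (Complex.exp ((q j : ℂ) * (Real.pi : ℂ) * Complex.I) ^ 2) ^ M = 1 := by
      rw [← pow_mul, ← Complex.exp_nat_mul, Complex.exp_eq_one_iff]
      refine ⟨(q j).num * k, ?_⟩
      have h3 : ((q j : ℂ)) * ((q j).den : ℂ) = ((q j).num : ℂ) := by
        have := Rat.mul_den_eq_num (q j)
        exact_mod_cast congrArg (fun t : ℚ => (t : ℂ)) this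
      rw [hk]
      push_cast
      linear_combination (2 * (k : ℂ) * (Real.pi : ℂ) * Complex.I) * h3
    rw [h2, mul_one]

/-- For all but countably many unit vectors `v` there is a direction class containing `v`.
Proof. With `M, κ` from `exists_exponent` let `W v = {w | w^M = v^M} ∪ {w | w^M = κ * (conj v)^M}`, a finite set
(`Polynomial.nthRoots`), whose elements are unit vectors; it is closed under `rfl' i`, `i ∈ S`, since
`(rfl' i w)^M = κ * conj (w^M)` and `κ * conj κ = 1`.  `W v` meets the countable set `conn` only if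
`v^M = w^M` or `(conj v)^M = κ⁻¹ w^M` for some `w ∈ conn`: countably many `v`. -/
theorem exists_dirClass {S : Set (Fin n)} (hr : T.Rational S) :
    ∃ C : Set ℂ, C.Countable ∧ ∀ v : ℂ, ‖v‖ = 1 → v ∉ C →
      ∃ W : Finset ℂ, v ∈ W ∧ T.DirClass S W := by
  classical
  obtain ⟨M, κ, hM, hκ, hS⟩ := exists_exponent hr
  have hκ1 : κ * (starRingEnd ℂ) κ = 1 := by
    rw [Complex.mul_conj, Complex.normSq_eq_norm_sq, hκ]; simp
  have hmem : ∀ c w : ℂ, w ∈ (Polynomial.nthRoots M c).toFinset ↔ w ^ M = c := by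
    intro c w
    rw [Multiset.mem_toFinset, Polynomial.mem_nthRoots hM]
  refine ⟨⋃ w ∈ T.conn, (↑(Polynomial.nthRoots M (w ^ M)).toFinset ∪
    (starRingEnd ℂ) ⁻¹' (↑(Polynomial.nthRoots M ((starRingEnd ℂ) κ * w ^ M)).toFinset : Set ℂ)),
    ?_, ?_⟩
  · refine T.conn_countable.biUnion fun w _ => ?_
    refine (Finset.countable_toSet _).union ?_
    exact (Finset.countable_toSet _).preimage (starRingEnd ℂ).injective
  · intro v hv hvC
    refine ⟨(Polynomial.nthRoots M (v ^ M)).toFinset ∪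
      (Polynomial.nthRoots M (κ * (starRingEnd ℂ) v ^ M)).toFinset, ?_, ?_, ?_, ?_⟩
    · rw [Finset.mem_union, hmem]; left; rfl
    · intro w hw
      rw [Finset.mem_union, hmem, hmem] at hw
      have h1 : ‖w‖ ^ M = 1 := by
        rcases hw with hw | hw
        · rw [← norm_pow, hw, norm_pow, hv, one_pow]
        · rw [← norm_pow, hw, norm_mul, norm_pow, hκ, RCLike.norm_conj, hv, one_pow, one_mul]
      exact (pow_eq_one_iff_of_nonneg (norm_nonneg _) hM.ne').1 h1
    · intro w hw i hi
      rw [Finset.mem_union, hmem, hmem] at hw ⊢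
      have h1 : T.rfl' i w ^ M = κ * (starRingEnd ℂ) (w ^ M) := by
        rw [rfl', mul_pow, hS i hi, map_pow]
      rcases hw with hw | hw
      · right
        rw [h1, hw, map_pow]
      · left
        rw [h1, hw, map_mul, map_pow, Complex.conj_conj, ← mul_assoc, hκ1, one_mul]
    · intro w hw hc
      apply hvC
      rw [Finset.mem_union, hmem, hmem] at hw
      refine mem_iUnion₂.2 ⟨w, hc, ?_⟩
      rcases hw with hw | hw
      · left
        rw [Finset.mem_coe, hmem, hw]
      · right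
        rw [mem_preimage, Finset.mem_coe, hmem, hw, ← mul_assoc, mul_comm _ κ, hκ1, one_mul]

end Table

end

end Pool.Agent.MP2e716c
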