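import Pool.Agent.H.MP_2e716c_an.Geo6
import Pool.Agent.H.MP_2e716c_an.Geo7
import Pool.Agent.H.MP_2e716c_an.ASet

open Set MeasureTheory Filter Topology

namespace Pool.Agent.MP2e716c

noncomputable section

namespace SemiDisp

variable {n : ℕ} [NeZero n] (T : SemiDisp n)

theorem geo8_phase {z : Fin n × ℝ × ℝ} (hz : z.1 ∉ T.disp) (h : z ∈ T.Y.phase) :
    z ∈ T.P.phase := by
  refine ⟨?_, h.2⟩
  rw [← (T.neutral _ hz).1]
  exact h.1

theorem geo8_pt {z : Fin n × ℝ × ℝ} (hz : z.1 ∉ T.disp) : T.P.pt z = T.Y.pt z := by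
  simp only [Table.pt, (T.neutral _ hz).2]

theorem geo8_vel {z : Fin n × ℝ × ℝ} (hz : z.1 ∉ T.disp) : T.P.vel z = T.Y.vel z := by
  simp only [Table.vel, Table.nor, Table.tang, (T.neutral _ hz).2]

theorem geo8_inc {z : Fin n × ℝ × ℝ} (hz : z.1 ∉ T.disp) : T.P.inc z = T.Y.inc z := by
  simp only [Table.inc, Table.nor, Table.tang, (T.neutral _ hz).2]

/-- A chord of `Y` between two neutral sides is a chord of `P`. -/
theorem next_P {z a : Fin n × ℝ × ℝ} (h : T.Y.Next z a) (hz : z.1 ∉ T.disp) (ha : a.1 ∉ T.disp) :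
    T.P.Next z a := by
  obtain ⟨hzp, hap, τ, hτ, hin, hp, hv⟩ := h
  refine ⟨T.geo8_phase hz hzp, T.geo8_phase ha hap, τ, hτ, ?_, ?_, ?_⟩
  · intro t ht
    rw [T.geo8_pt hz, T.geo8_vel hz]
    exact T.sub (hin t ht)
  · rw [T.geo8_pt hz, T.geo8_vel hz, T.geo8_pt ha, hp]
  · rw [T.geo8_vel hz, T.geo8_inc ha, hv]

/-- Points of `AS S` are not mortal for the polygon (`Table.next_unique`). -/
theorem not_mort_of_AS {S : Set (Fin n)} (hS : Disjoint S T.disp) {z : Fin n × ℝ × ℝ}
    (hz : z ∈ T.Y.AS S) : z ∉ T.P.Mort S := by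
  have hnd : ∀ i ∈ S, i ∉ T.disp := fun i hi => Set.disjoint_left.1 hS hi
  have key : ∀ k : ℕ, ∀ z ∈ T.Y.AS S, z ∉ T.P.MEx S k := by
    intro k
    induction k with
    | zero =>
      rintro z hz ⟨a, ha, haS⟩
      have h0 := hz 0
      have h1 := hz 1
      simp only [Function.iterate_zero, id, zero_add, Function.iterate_one] at h0 h1
      have h2 := T.next_P h0.1 (hnd _ h0.2.1) (hnd _ h1.2.1)
      rw [T.P.next_unique ha h2] at haS
      exact haS h1.2.1
    | succ k ih =>
      rintro z hz ⟨a, ha, haS, hak⟩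
      have h0 := hz 0
      have h1 := hz 1
      simp only [Function.iterate_zero, id, zero_add, Function.iterate_one] at h0 h1
      have h2 := T.next_P h0.1 (hnd _ h0.2.1) (hnd _ h1.2.1)
      rw [T.P.next_unique ha h2] at hak
      have h3 := T.Y.AS_inv hz 1
      simp only [Function.iterate_one] at h3
      exact ih _ h3 hak
  intro h
  obtain ⟨k, hk⟩ := mem_iUnion.1 h
  exact key k z hz hk

/-- Rational criterion.
Proof. `S ≠ univ` since `disp` is nonempty and disjoint from `S`.  Let `C` be as in `exists_dirClass` for `P`.  Fix `i ∈ S`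
(`AS S` lives over `i ∈ S`).  For all but countably many `θ ∈ (-π/2, π/2)` the vector
`v = cos θ • I u + sin θ • u` (`u = dir i`; injective in `θ`) is not in `C`; then
`θ = arcsin (ip v u)`, `nw i v = cos θ > 0`, and by `lines_mortal` the set of
`r` with `(i, r, θ) ∉ Mort` is countable.  So almost every horizontal slice of the measurable set
`{x | (i, x) ∈ AS S}` is null and the set is null (Fubini, `measure_prod_null` after
swapping, or `Measure.prod_swap`); `mu_apply` / `ae_mu_iff`. -/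
theorem AS_null_of_rational {S : Set (Fin n)} (hS : Disjoint S T.disp) (hr : T.P.Rational S) :
    T.Y.μ (T.Y.AS S) = 0 := by
  classical
  have hnd : ∀ i ∈ S, i ∉ T.disp := fun i hi => Set.disjoint_left.1 hS hi
  obtain ⟨e, he⟩ := T.disp_nonempty
  have heS : e ∉ S := fun h => hnd e h he
  obtain ⟨C, hC, hCW⟩ := Table.exists_dirClass hr
  rw [measure_eq_zero_iff_ae_notMem, Table.ae_mu_iff]
  intro i
  by_cases hi : i ∈ S
  swap
  · exact ae_of_all _ fun x _ hx => hi (hx 0).2.1
  -- the measurable set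
  set E : Set (ℝ × ℝ) := {x | (i, x) ∈ T.Y.AS S ∧ (i, x) ∈ T.Y.phase} with hE
  have hEm : MeasurableSet E := by
    have h1 : Measurable (fun x : ℝ × ℝ => (i, x)) := measurable_prodMk_left
    exact (h1 (T.Y.measurableSet_AS S)).inter (h1 T.Y.measurableSet_phase)
  have hE0 : (volume : Measure (ℝ × ℝ)) E = 0 := by
    have h1 : (volume : Measure (ℝ × ℝ)) (Prod.swap ⁻¹' E) = volume E :=
      (Measure.measurePreserving_swap (μ := (volume : Measure ℝ)) (ν := (volume : Measure ℝ))).measure_preimage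
        hEm.nullMeasurableSet
    rw [← h1]
    have h2 : MeasurableSet (Prod.swap ⁻¹' E : Set (ℝ × ℝ)) := measurable_swap hEm
    rw [Measure.volume_eq_prod, Measure.measure_prod_null h2]
    -- bad angles
    set u := T.P.dir i with hu
    have hu1 : ‖u‖ = 1 := Table.dir_norm i
    set w : ℝ → ℂ := fun θ => (Real.cos θ : ℂ) * (Complex.I * u) + (Real.sin θ : ℂ) * u with hw
    have hwu : ∀ θ, ip (w θ) u = Real.sin θ := by
      intro θ
      simp only [hw, ip_add_left, ip_rmul_left, ip_self_I, ip_self, hu1]; ring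
    have hwn : ∀ θ, ip (w θ) (Complex.I * u) = Real.cos θ := by
      intro θ
      simp only [hw, ip_add_left, ip_rmul_left, ip_I_self, ip_self, norm_mul, Complex.norm_I, hu1]; ring
    have hw1 : ∀ θ, ‖w θ‖ = 1 := by
      intro θ
      have h3 := norm_sq_decomp (w θ) u hu1
      rw [hwu, hwn, Real.sin_sq_add_cos_sq] at h3
      nlinarith [norm_nonneg (w θ)]
    have hbad : {θ : ℝ | θ ∈ Ioo (-(Real.pi / 2)) (Real.pi / 2) ∧ w θ ∈ C}.Countable := by
      refine Set.MapsTo.countable_of_injOn (f := w) (t := C) (fun θ hθ => hθ.2) ?_ hC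
      intro θ hθ θ' hθ' h
      apply Table.angle_inj hθ.1 hθ'.1
      rw [← hwu, ← hwu, h]
    have hae : ∀ᵐ θ : ℝ, θ ∉ {θ : ℝ | θ ∈ Ioo (-(Real.pi / 2)) (Real.pi / 2) ∧ w θ ∈ C} :=
      measure_eq_zero_iff_ae_notMem.1 (hbad.measure_zero _)
    filter_upwards [hae] with θ hθ
    show volume (Prod.mk θ ⁻¹' (Prod.swap ⁻¹' E)) = 0
    by_cases hθr : θ ∈ Ioo (-(Real.pi / 2)) (Real.pi / 2)
    swap
    · have : (Prod.mk θ ⁻¹' (Prod.swap ⁻¹' E) : Set ℝ) = ∅ := by
        ext r
        simp only [mem_preimage, Prod.swap_prod_mk, hE, mem_ofPred_eq, mem_empty_iff_false,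
          iff_false]
        intro h
        exact hθr h.2.2
      rw [this]; simp
    have hwC : w θ ∉ C := fun h => hθ ⟨hθr, h⟩
    obtain ⟨W, hvW, hW⟩ := hCW (w θ) (hw1 θ) hwC
    have hnw : 0 < T.P.nw i (w θ) := by
      rw [Table.nw, hwn]; exact Real.cos_pos_of_mem_Ioo hθr
    have hcount := Table.lines_mortal T.straight hW heS hvW hnw
    have harc : Real.arcsin (ip (w θ) (T.P.dir i)) = θ := by
      rw [hwu]; exact Real.arcsin_sin hθr.1.le hθr.2.le
    rw [harc] at hcount
    refine measure_mono_null ?_ (hcount.measure_zero _)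
    intro r hr
    simp only [mem_preimage, Prod.swap_prod_mk, hE, mem_ofPred_eq] at hr
    refine ⟨?_, T.not_mort_of_AS hS hr.1⟩
    rw [← (T.neutral _ (hnd i hi)).1]
    exact hr.2.1
  have := measure_eq_zero_iff_ae_notMem.1 hE0
  filter_upwards [this] with x hx hph has
  exact hx ⟨has, hph⟩

end SemiDisp

end

end Pool.Agent.MP2e716c
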