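import Pool.Agent.H.MP_2e716c_an.Meas

open Set MeasureTheory Filter Topology

namespace Pool.Agent.MP2e716c

noncomputable section

namespace Table

variable {n : ℕ} [NeZero n] (T : Table n)

/-- on the slice, `bmap (i, x) = (j, f x)` is the successor -/
theorem pres_next {i j : Fin n} {x : ℝ × ℝ} (h : (i, x) ∈ T.dom ∧ (T.bmap (i, x)).1 = j) :
    T.Next (i, x) (j, (T.bmap (i, x)).2) := by
  have h1 := T.next_bmap h.1
  have h2 : T.bmap (i, x) = (j, (T.bmap (i, x)).2) := by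
    rw [← h.2]
  rw [← h2]
  exact h1

theorem pres_injOn (i j : Fin n) :
    InjOn (fun x => (T.bmap (i, x)).2) {x : ℝ × ℝ | (i, x) ∈ T.dom ∧ (T.bmap (i, x)).1 = j} := by
  intro x hx y hy hxy
  have h1 := T.pres_next hx
  have h2 := T.pres_next hy
  simp only at hxy
  rw [hxy] at h1
  have := T.next_inj h1 h2
  exact (Prod.mk.inj this).2

theorem pres_continuousOn (i j : Fin n) :
    ContinuousOn (fun x => (T.bmap (i, x)).2)
      {x : ℝ × ℝ | (i, x) ∈ T.dom ∧ (T.bmap (i, x)).1 = j} := by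
  intro x hx
  exact (T.bmap_continuousAt (T.pres_next hx)).continuousWithinAt

/-- Change of variables on the part of the domain over the arcs `i → j`.
`MeasureTheory.lintegral_image_eq_lintegral_abs_det_fderiv_mul` for the injective (`next_inj`) map
`x ↦ (bmap (i, x)).2` on the open set `{x | (i,x) ∈ dom, (bmap (i,x)).1 = j}`; the Jacobian is
`|cos x.2 / cos y.2|` by `dm_det`. -/
theorem image_measure (i j : Fin n) {E : Set (ℝ × ℝ)} (hE : MeasurableSet E)
    (hsub : E ⊆ {x : ℝ × ℝ | (i, x) ∈ T.dom ∧ (T.bmap (i, x)).1 = j}) :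
    ∫⁻ y in (fun x => (T.bmap (i, x)).2) '' E, ENNReal.ofReal (Real.cos y.2) =
      ∫⁻ x in E, ENNReal.ofReal (Real.cos x.2) := by
  have hd : ∀ x ∈ E, HasFDerivWithinAt (fun x => (T.bmap (i, x)).2)
      (dm ‖T.pt (j, (T.bmap (i, x)).2) - T.pt (i, x)‖ (T.curv i x.1)
        (T.curv j (T.bmap (i, x)).2.1) (Real.cos x.2) (Real.cos (T.bmap (i, x)).2.2)) E x := by
    intro x hx
    exact (T.bmap_hasFDerivAt (T.pres_next (hsub hx))).hasFDerivWithinAt
  rw [lintegral_image_eq_lintegral_abs_det_fderiv_mul volume hE hd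
    ((T.pres_injOn i j).mono hsub)]
  refine setLIntegral_congr_fun hE ?_
  intro x hx
  have hn := T.pres_next (hsub hx)
  have hc : 0 < Real.cos x.2 := T.cos_pos hn.1
  have hc1 : 0 < Real.cos (T.bmap (i, x)).2.2 := by
    have := T.cos_pos hn.2.1
    exact this
  simp only
  rw [dm_det _ _ _ _ _ hc1.ne', abs_of_pos (div_pos hc hc1), ← ENNReal.ofReal_mul (div_pos hc hc1).le,
    div_mul_cancel₀ _ hc1.ne']

/-- `μ (bmap '' A) = μ A` for measurable `A ⊆ dom`: sum `image_measure` over all pairs `(i, j)`;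
the images are disjoint by `next_inj`, measurable by
`MeasurableSet.image_of_continuousOn_injOn` (or `measurable_image...`). -/
theorem mu_image {A : Set (Fin n × ℝ × ℝ)} (hA : MeasurableSet A) (hsub : A ⊆ T.dom) :
    MeasurableSet (T.bmap '' A) ∧ T.μ (T.bmap '' A) = T.μ A := by
  classical
  set E : Fin n → Fin n → Set (ℝ × ℝ) := fun i j => {x | (i, x) ∈ A ∧ (T.bmap (i, x)).1 = j}
    with hEdef
  have hEm : ∀ i j, MeasurableSet (E i j) := by
    intro i j
    have h1 : MeasurableSet {x : ℝ × ℝ | (i, x) ∈ A} := measurable_prodMk_left hA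
    have h2 : MeasurableSet {x : ℝ × ℝ | (T.bmap (i, x)).1 = j} :=
      (measurable_fst.comp (T.measurable_bmap.comp measurable_prodMk_left))
        (measurableSet_singleton j)
    exact h1.inter h2
  have hEs : ∀ i j, E i j ⊆ {x : ℝ × ℝ | (i, x) ∈ T.dom ∧ (T.bmap (i, x)).1 = j} :=
    fun i j x hx => ⟨hsub hx.1, hx.2⟩
  have hIm : ∀ i j, MeasurableSet ((fun x => (T.bmap (i, x)).2) '' E i j) := fun i j =>
    (hEm i j).image_of_continuousOn_injOn ((T.pres_continuousOn i j).mono (hEs i j))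
      ((T.pres_injOn i j).mono (hEs i j))
  have hslice : ∀ j, {y : ℝ × ℝ | (j, y) ∈ T.bmap '' A} =
      ⋃ i, (fun x => (T.bmap (i, x)).2) '' E i j := by
    intro j
    ext y
    simp only [mem_ofPred_eq, mem_image, mem_iUnion, hEdef]
    constructor
    · rintro ⟨⟨i, x⟩, hx, hxy⟩
      exact ⟨i, x, ⟨hx, by rw [hxy]⟩, by rw [hxy]⟩
    · rintro ⟨i, x, ⟨hx, hj⟩, hy⟩
      exact ⟨(i, x), hx, Prod.ext hj hy⟩
  have hBm : MeasurableSet (T.bmap '' A) := by
    have : T.bmap '' A = ⋃ j, (Prod.mk j) '' {y : ℝ × ℝ | (j, y) ∈ T.bmap '' A} := by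
      ext ⟨j, y⟩
      simp only [mem_iUnion, mem_image, mem_ofPred_eq, Prod.mk.injEq]
      constructor
      · intro h
        exact ⟨j, y, h, rfl, rfl⟩
      · rintro ⟨j', y', h, rfl, rfl⟩
        exact h
    rw [this]
    refine MeasurableSet.iUnion fun j => ?_
    rw [hslice]
    exact (measurableEmbedding_prodMk_left j).measurableSet_image.2
      (MeasurableSet.iUnion fun i => hIm i j)
  refine ⟨hBm, ?_⟩
  rw [T.mu_apply hBm, T.mu_apply hA]
  have h1 : ∀ j, ∫⁻ y in {y : ℝ × ℝ | (j, y) ∈ T.bmap '' A ∧ (j, y) ∈ T.phase},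
      ENNReal.ofReal (Real.cos y.2) = ∑ i, ∫⁻ x in E i j, ENNReal.ofReal (Real.cos x.2) := by
    intro j
    have e1 : {y : ℝ × ℝ | (j, y) ∈ T.bmap '' A ∧ (j, y) ∈ T.phase} =
        ⋃ i, (fun x => (T.bmap (i, x)).2) '' E i j := by
      rw [← hslice]
      ext y
      simp only [mem_ofPred_eq, and_iff_left_iff_imp]
      rintro ⟨z, hz, hzy⟩
      rw [← hzy]
      exact (T.next_bmap (hsub hz)).2.1
    rw [e1, lintegral_iUnion (fun i => hIm i j), tsum_fintype]
    · refine Finset.sum_congr rfl fun i _ => ?_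
      exact T.image_measure i j (hEm i j) (hEs i j)
    · intro i i' hii'
      refine disjoint_left.2 ?_
      rintro y ⟨x, hx, hxy⟩ ⟨x', hx', hxy'⟩
      apply hii'
      have n1 := T.pres_next (hEs i j hx)
      have n2 := T.pres_next (hEs i' j hx')
      simp only at hxy hxy'
      rw [hxy] at n1
      rw [hxy'] at n2
      exact (Prod.mk.inj (T.next_inj n1 n2)).1
  rw [Finset.sum_congr rfl fun j _ => h1 j, Finset.sum_comm]
  refine Finset.sum_congr rfl fun i _ => ?_
  have e2 : {x : ℝ × ℝ | (i, x) ∈ A ∧ (i, x) ∈ T.phase} = ⋃ j, E i j := by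
    ext x
    simp only [mem_ofPred_eq, mem_iUnion, hEdef]
    constructor
    · intro h
      exact ⟨_, h.1, rfl⟩
    · rintro ⟨j, hx, -⟩
      exact ⟨hx, (T.next_bmap (hsub hx)).1⟩
  rw [e2, lintegral_iUnion (fun j => hEm i j), tsum_fintype]
  intro j j' hjj'
  refine disjoint_left.2 ?_
  rintro x ⟨_, h⟩ ⟨_, h'⟩
  exact hjj' (h.symm.trans h')

/-- The billiard map preserves `μ`.
Proof. `μ dom = μ univ` (`ae_mem_dom`), so `μ (bmap '' dom) = μ dom = μ univ` and `bmap '' dom` has full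
measure.  For measurable `B`: `bmap ⁻¹' B ∩ dom =: A` satisfies `bmap '' A = B ∩ bmap '' dom`, so
`μ (bmap ⁻¹' B) = μ A = μ (bmap '' A) = μ (B ∩ bmap '' dom) = μ B`. -/
theorem measurePreserving_bmap : MeasurePreserving T.bmap T.μ T.μ := by
  refine ⟨T.measurable_bmap, ?_⟩
  have hD := T.measurableSet_dom
  have hD0 : T.μ (T.dom)ᶜ = 0 := by
    have := T.ae_mem_dom
    rw [ae_iff] at this
    exact this
  obtain ⟨hIm, hIe⟩ := T.mu_image hD subset_rfl
  have hDu : T.μ T.dom = T.μ univ := by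
    have := measure_add_measure_compl (μ := T.μ) hD
    rw [hD0, add_zero] at this
    exact this
  have hI0 : T.μ (T.bmap '' T.dom)ᶜ = 0 := by
    rw [measure_compl hIm (measure_ne_top _ _), hIe, hDu, tsub_self]
  ext B hB
  rw [Measure.map_apply T.measurable_bmap hB]
  have hA : MeasurableSet (T.bmap ⁻¹' B ∩ T.dom) := (T.measurable_bmap hB).inter hD
  have e1 : T.μ (T.bmap ⁻¹' B ∩ T.dom) = T.μ (T.bmap ⁻¹' B) := measure_inter_conull hD0
  have e2 : T.μ (B ∩ T.bmap '' T.dom) = T.μ B := measure_inter_conull hI0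
  have e3 : T.bmap '' (T.bmap ⁻¹' B ∩ T.dom) = B ∩ T.bmap '' T.dom := by
    ext z
    constructor
    · rintro ⟨w, ⟨hw1, hw2⟩, rfl⟩
      exact ⟨hw1, w, hw2, rfl⟩
    · rintro ⟨h1, w, hw, rfl⟩
      exact ⟨w, ⟨h1, hw⟩, rfl⟩
  rw [← e1, ← (T.mu_image hA inter_subset_right).2, e3, e2]

/-- Almost every phase point has an infinite orbit. -/
theorem ae_orbit : ∀ᵐ z ∂T.μ, ∀ k : ℕ, T.Next (T.bmap^[k] z) (T.bmap^[k + 1] z) := by
  rw [ae_all_iff]
  intro k
  have h := (T.measurePreserving_bmap.iterate k).quasiMeasurePreserving.ae T.ae_mem_dom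
  filter_upwards [h] with z hz
  rw [Function.iterate_succ_apply']
  exact T.next_bmap hz

end Table

end

end Pool.Agent.MP2e716c
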