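import Pool.Agent.H.MP_2e716c_an.IterD
import Pool.Agent.H.MP_2e716c_an.Cone
import Pool.Agent.H.MP_2e716c_an.Pres
import Pool.Agent.H.MP_2e716c_an.Dens

open Set MeasureTheory Filter Topology

namespace Pool.Agent.MP2e716c

noncomputable section

namespace Table

variable {n : ℕ} [NeZero n] (T : Table n)

theorem grow_cont_deriv (i : Fin n) : Continuous (deriv (T.γ i)) :=
  (T.smooth i).continuous_deriv (by norm_num)

theorem grow_cont_deriv2 (i : Fin n) : Continuous (deriv (deriv (T.γ i))) := by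
  have h : ContDiff ℝ 2 (deriv (T.γ i)) := by
    have h3 : ContDiff ℝ (2 + 1) (T.γ i) := by
      have h4 : (2 + 1 : WithTop ℕ∞) = 3 := by norm_num
      rw [h4]
      exact T.smooth i
    exact (contDiff_succ_iff_deriv.1 h3).2.2
  exact h.continuous_deriv (by norm_num)

theorem grow_cont_curv (i : Fin n) : Continuous (T.curv i) := by
  have h : Continuous fun r : ℝ => (deriv (deriv (T.γ i)) r, Complex.I * deriv (T.γ i) r) :=
    (T.grow_cont_deriv2 i).prodMk (continuous_const.mul (T.grow_cont_deriv i))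
  exact (ip_continuous.comp h).neg

theorem grow_meas_curv : Measurable (fun z : Fin n × ℝ × ℝ => T.curv z.1 z.2.1) :=
  measurable_from_prod_countable_right fun i =>
    ((T.grow_cont_curv i).comp continuous_fst).measurable

theorem grow_meas_pt : Measurable T.pt :=
  measurable_from_prod_countable_right fun i =>
    ((T.smooth i).continuous.comp continuous_fst).measurable

/-- Good phase points: on an arc of `D`, with successor, cosines, chord length and curvature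
bounded below by `ε`. -/
def good (D : Set (Fin n)) (ε : ℝ) : Set (Fin n × ℝ × ℝ) :=
  {z | z ∈ T.dom ∧ z.1 ∈ D ∧ ε ≤ Real.cos z.2.2 ∧ ε ≤ Real.cos (T.bmap z).2.2 ∧
    ε ≤ ‖T.pt (T.bmap z) - T.pt z‖ ∧ ε ≤ T.curv z.1 z.2.1}

theorem measurableSet_good (D : Set (Fin n)) (ε : ℝ) : MeasurableSet (T.good D ε) := by
  have h1 : MeasurableSet {z : Fin n × ℝ × ℝ | z.1 ∈ D} :=
    measurable_fst (MeasurableSet.of_discrete (s := D))
  have hcos : Measurable fun z : Fin n × ℝ × ℝ => Real.cos z.2.2 :=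
    Real.measurable_cos.comp (measurable_snd.comp measurable_snd)
  have h2 : MeasurableSet {z : Fin n × ℝ × ℝ | ε ≤ Real.cos z.2.2} :=
    measurableSet_le measurable_const hcos
  have h3 : MeasurableSet {z : Fin n × ℝ × ℝ | ε ≤ Real.cos (T.bmap z).2.2} :=
    measurableSet_le measurable_const (hcos.comp T.measurable_bmap)
  have h4 : MeasurableSet {z : Fin n × ℝ × ℝ | ε ≤ ‖T.pt (T.bmap z) - T.pt z‖} :=
    measurableSet_le measurable_const
      ((T.grow_meas_pt.comp T.measurable_bmap).sub T.grow_meas_pt).norm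
  have h5 : MeasurableSet {z : Fin n × ℝ × ℝ | ε ≤ T.curv z.1 z.2.1} :=
    measurableSet_le measurable_const T.grow_meas_curv
  exact T.measurableSet_dom.inter (h1.inter (h2.inter (h3.inter (h4.inter h5))))

/-- The curvature is continuous, hence bounded on `[0, len i]`. -/
theorem curv_bounded : ∃ C : ℝ, ∀ i, ∀ r ∈ Icc 0 (T.len i), |T.curv i r| ≤ C := by
  have h : ∀ i, ∃ C : ℝ, ∀ r ∈ Icc 0 (T.len i), ‖T.curv i r‖ ≤ C := fun i =>
    isCompact_Icc.exists_bound_of_continuousOn (T.grow_cont_curv i).continuousOn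
  choose C hC using h
  refine ⟨∑ i, |C i|, fun i r hr => ?_⟩
  calc |T.curv i r| ≤ C i := hC i r hr
    _ ≤ |C i| := le_abs_self _
    _ ≤ ∑ j, |C j| :=
        Finset.single_le_sum (f := fun j => |C j|) (fun j _ => abs_nonneg _) (Finset.mem_univ i)

/-- Chords of the bounded region are bounded. -/
theorem chord_bounded : ∃ C : ℝ, ∀ z a, T.Next z a → ‖T.pt a - T.pt z‖ ≤ C := by
  obtain ⟨C, hC⟩ := Metric.isBounded_iff.1 T.bounded.closure
  refine ⟨C, fun z a h => ?_⟩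
  rw [← dist_eq_norm]
  exact hC (frontier_subset_closure (T.pt_mem_frontier h.2.1))
    (frontier_subset_closure (T.pt_mem_frontier h.1))

/-- At good points all entries of the flux matrix are in `[m, M]`. -/
theorem good_entries (D : Set (Fin n)) (hcv : ∀ i, ∀ r ∈ Icc 0 (T.len i), 0 ≤ T.curv i r)
    {ε : ℝ} (hε : 0 < ε) : ∃ m M : ℝ, 0 < m ∧ ∀ z ∈ T.good D ε,
      let τ := ‖T.pt (T.bmap z) - T.pt z‖
      let κ := T.curv z.1 z.2.1 / Real.cos z.2.2
      let κ1 := T.curv (T.bmap z).1 (T.bmap z).2.1 / Real.cos (T.bmap z).2.2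
      m ≤ 1 + τ * κ ∧ m ≤ τ ∧ m ≤ κ1 * (1 + τ * κ) + κ ∧ m ≤ 1 + τ * κ1 ∧
      1 + τ * κ ≤ M ∧ τ ≤ M ∧ κ1 * (1 + τ * κ) + κ ≤ M ∧ 1 + τ * κ1 ≤ M := by
  obtain ⟨C, hC⟩ := T.curv_bounded
  obtain ⟨C', hC'⟩ := T.chord_bounded
  obtain ⟨B, hB⟩ : ∃ B, B = |C| / ε := ⟨_, rfl⟩
  obtain ⟨B', hB'⟩ : ∃ B', B' = |C'| := ⟨_, rfl⟩
  have hB0 : 0 ≤ B := by rw [hB]; positivity
  have hB'0 : 0 ≤ B' := by rw [hB']; positivity
  refine ⟨min ε 1, 1 + B' * B + B' + (B * (1 + B' * B) + B), lt_min hε one_pos, ?_⟩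
  rintro z ⟨hdom, -, hc, hc1, hτ, hK⟩
  have hN := T.next_bmap hdom
  intro τ κ κ1
  have hcb : Real.cos z.2.2 ≤ 1 := Real.cos_le_one _
  have hτ1 : ε ≤ τ := hτ
  have hτ2 : τ ≤ B' := by
    rw [hB']
    exact (hC' z _ hN).trans (le_abs_self _)
  have hzr : z.2.1 ∈ Icc 0 (T.len z.1) := ⟨hN.1.1.1.le, hN.1.1.2.le⟩
  have har : (T.bmap z).2.1 ∈ Icc 0 (T.len (T.bmap z).1) := ⟨hN.2.1.1.1.le, hN.2.1.1.2.le⟩
  have hcpos : 0 < Real.cos z.2.2 := hε.trans_le hc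
  have hc1pos : 0 < Real.cos (T.bmap z).2.2 := hε.trans_le hc1
  have hκ1 : ε ≤ κ := by
    show ε ≤ T.curv z.1 z.2.1 / Real.cos z.2.2
    rw [le_div_iff₀ hcpos]
    nlinarith
  have hκ2 : κ ≤ B := by
    show T.curv z.1 z.2.1 / Real.cos z.2.2 ≤ B
    rw [hB]
    have h1 : T.curv z.1 z.2.1 ≤ |C| := (le_abs_self _).trans ((hC _ _ hzr).trans (le_abs_self _))
    exact div_le_div₀ (abs_nonneg _) h1 hε hc
  have hκ3 : 0 ≤ κ1 := div_nonneg (hcv _ _ har) hc1pos.le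
  have hκ4 : κ1 ≤ B := by
    show T.curv (T.bmap z).1 (T.bmap z).2.1 / Real.cos (T.bmap z).2.2 ≤ B
    rw [hB]
    have h1 : T.curv (T.bmap z).1 (T.bmap z).2.1 ≤ |C| :=
      (le_abs_self _).trans ((hC _ _ har).trans (le_abs_self _))
    exact div_le_div₀ (abs_nonneg _) h1 hε hc1
  have hκ0 : 0 ≤ κ := hε.le.trans hκ1
  have hτ0 : 0 ≤ τ := hε.le.trans hτ1
  have hm1 : min ε 1 ≤ ε := min_le_left _ _
  have hm2 : min ε 1 ≤ 1 := min_le_right _ _
  have e1 : 0 ≤ τ * κ := mul_nonneg hτ0 hκ0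
  have e2 : 0 ≤ τ * κ1 := mul_nonneg hτ0 hκ3
  have e3 : τ * κ ≤ B' * B := mul_le_mul hτ2 hκ2 hκ0 hB'0
  have e4 : τ * κ1 ≤ B' * B := mul_le_mul hτ2 hκ4 hκ3 hB'0
  have e5 : 0 ≤ κ1 * (1 + τ * κ) := mul_nonneg hκ3 (by linarith)
  have e6 : κ1 * (1 + τ * κ) ≤ B * (1 + B' * B) :=
    mul_le_mul hκ4 (by linarith) (by linarith) hB0
  have e7 : 0 ≤ B' * B := mul_nonneg hB'0 hB0
  have e8 : 0 ≤ B * (1 + B' * B) := mul_nonneg hB0 (by linarith)
  refine ⟨?_, ?_, ?_, ?_, ?_, ?_, ?_, ?_⟩ <;> linarith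

/-- the core of the argument, at a single phase point -/
theorem grow_point (D : Set (Fin n))
    (hcv : ∀ i, ∀ r ∈ Icc 0 (T.len i), 0 ≤ T.curv i r) {i : Fin n} {x : ℝ × ℝ}
    (horb : ∀ k : ℕ, T.Next (T.bmap^[k] (i, x)) (T.bmap^[k + 1] (i, x))) {ε c0 : ℝ} (hε : 0 < ε)
    (hc0 : 0 < c0)
    (hfreq : ∃ᶠ k : ℕ in atTop, T.bmap^[k] (i, x) ∈ T.good D ε ∧
      c0 * k ≤ (Nat.card {l : ℕ // l < k ∧ T.bmap^[l] (i, x) ∈ T.good D ε} : ℝ)) :
    ∃ c > 0, ∀ u : ℝ × ℝ, u ≠ 0 → ∃ᶠ k : ℕ in atTop,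
      c * k ≤ |Real.log ‖fderiv ℝ (fun y => (T.bmap^[k] (i, y)).2) x u‖| := by
  obtain ⟨m, M, hm, hent⟩ := T.good_entries D hcv hε
  have hlog : 0 < Real.log (1 + 2 * m ^ 2) := Real.log_pos (by nlinarith)
  refine ⟨c0 * Real.log (1 + 2 * m ^ 2) / 8, by positivity, fun u hu => ?_⟩
  obtain ⟨z, hz⟩ : ∃ z : ℕ → Fin n × ℝ × ℝ, ∀ k, z k = T.bmap^[k] (i, x) :=
    ⟨fun k => T.bmap^[k] (i, x), fun k => rfl⟩
  have hN : ∀ k, T.Next (z k) (z (k + 1)) := by
    intro k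
    rw [hz, hz]
    exact horb k
  have hph : ∀ k, z k ∈ T.phase := fun k => (hN k).1
  have hcp : ∀ k, 0 < Real.cos (z k).2.2 := fun k => T.cos_pos (hph k)
  have hbz : ∀ k, T.bmap (z k) = z (k + 1) := fun k => T.bmap_eq (hN k)
  obtain ⟨v, hv⟩ : ∃ v : ℕ → ℝ × ℝ, ∀ k, v k = T.Dk (i, x) k u :=
    ⟨fun k => T.Dk (i, x) k u, fun k => rfl⟩
  have hv0 : v 0 = u := by
    rw [hv]
    rfl
  have hvs : ∀ k, v (k + 1) = T.dmz (z k) (z (k + 1)) (v k) := by
    intro k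
    rw [hv, hv, hz, hz]
    rfl
  have hfd : ∀ k : ℕ, fderiv ℝ (fun y => (T.bmap^[k] (i, y)).2) x u = v k := by
    intro k
    rw [(T.iter_hasFDerivAt horb k).2.fderiv, hv]
  have hcvz : ∀ k, 0 ≤ T.curv (z k).1 (z k).2.1 := fun k =>
    hcv _ _ ⟨(hph k).1.1.le, (hph k).1.2.le⟩
  obtain ⟨τ, hτ⟩ : ∃ τ : ℕ → ℝ, ∀ k, τ k = ‖T.pt (z (k + 1)) - T.pt (z k)‖ :=
    ⟨fun k => ‖T.pt (z (k + 1)) - T.pt (z k)‖, fun k => rfl⟩
  obtain ⟨κ, hκ⟩ : ∃ κ : ℕ → ℝ, ∀ k, κ k = T.curv (z k).1 (z k).2.1 / Real.cos (z k).2.2 :=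
    ⟨fun k => T.curv (z k).1 (z k).2.1 / Real.cos (z k).2.2, fun k => rfl⟩
  have hτ0 : ∀ k, 0 ≤ τ k := fun k => by rw [hτ]; exact norm_nonneg _
  have hκ0 : ∀ k, 0 ≤ κ k := fun k => by rw [hκ]; exact div_nonneg (hcvz k) (hcp k).le
  obtain ⟨X, hX⟩ : ∃ X : ℕ → ℝ, ∀ k, X k = Real.cos (z k).2.2 * (v k).1 :=
    ⟨fun k => Real.cos (z k).2.2 * (v k).1, fun k => rfl⟩
  obtain ⟨Y, hY⟩ : ∃ Y : ℕ → ℝ, ∀ k, Y k = (v k).2 := ⟨fun k => (v k).2, fun k => rfl⟩
  have hXs : ∀ k, X (k + 1) = -((1 + τ k * κ k) * X k + τ k * Y k) := by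
    intro k
    rw [hX, hvs, (T.dmz_flux (hph k) (hph (k + 1)) (v k)).1, hX, hY, hτ, hκ]
  have hYs : ∀ k, Y (k + 1) = -((κ (k + 1) * (1 + τ k * κ k) + κ k) * X k +
      (1 + τ k * κ (k + 1)) * Y k) := by
    intro k
    rw [hY, hvs, (T.dmz_flux (hph k) (hph (k + 1)) (v k)).2, hX, hY, hτ, hκ, hκ]
  have hdet : ∀ k, (1 + τ k * κ k) * (1 + τ k * κ (k + 1)) -
      τ k * (κ (k + 1) * (1 + τ k * κ k) + κ k) = 1 := by
    intro k
    ring
  have h0 : X 0 ≠ 0 ∨ Y 0 ≠ 0 := by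
    by_contra hcon
    push Not at hcon
    refine hu ?_
    have h1 : u.1 = 0 := by
      have h2 := hcon.1
      rw [hX, hv0] at h2
      exact (mul_eq_zero.1 h2).resolve_left (hcp 0).ne'
    have h2 : u.2 = 0 := by
      have h3 := hcon.2
      rwa [hY, hv0] at h3
    exact Prod.ext h1 h2
  have hne : ∀ k, X k ≠ 0 ∨ Y k ≠ 0 := by
    intro k
    induction k with
    | zero => exact h0
    | succ k ih =>
      by_contra hcon
      push Not at hcon
      have h1 := hXs k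
      have h2 := hYs k
      rw [hcon.1] at h1
      rw [hcon.2] at h2
      have h3 := hdet k
      have h4 : X k = 0 := by
        linear_combination (-X k) * h3 + (1 + τ k * κ (k + 1)) * h1 - τ k * h2
      have h5 : Y k = 0 := by
        linear_combination (-Y k) * h3 - (κ (k + 1) * (1 + τ k * κ k) + κ k) * h1 +
          (1 + τ k * κ k) * h2
      rcases ih with h | h
      · exact h h4
      · exact h h5
  have hmax : ∀ k, 0 < max |X k| |Y k| := by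
    intro k
    rcases hne k with h | h
    · exact (abs_pos.2 h).trans_le (le_max_left _ _)
    · exact (abs_pos.2 h).trans_le (le_max_right _ _)
  have hle1 : ∀ k, max |X k| |Y k| ≤ ‖v k‖ := by
    intro k
    refine max_le ?_ ?_
    · rw [hX, abs_mul, abs_of_pos (hcp k)]
      have h1 : |(v k).1| ≤ ‖v k‖ := norm_fst_le (v k)
      have h2 : Real.cos (z k).2.2 * |(v k).1| ≤ 1 * |(v k).1| :=
        mul_le_mul_of_nonneg_right (Real.cos_le_one _) (abs_nonneg _)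
      linarith
    · rw [hY]
      exact norm_snd_le (v k)
  have hle2 : ∀ k, ε ≤ Real.cos (z k).2.2 → ε * ‖v k‖ ≤ max |X k| |Y k| := by
    intro k hk
    have hε1 : ε ≤ 1 := hk.trans (Real.cos_le_one _)
    have h1 : ‖v k‖ = max |(v k).1| |(v k).2| := by
      rw [Prod.norm_def, Real.norm_eq_abs, Real.norm_eq_abs]
    rw [h1, mul_max_of_nonneg _ _ hε.le]
    refine max_le_max ?_ ?_
    · rw [hX, abs_mul, abs_of_pos (hcp k)]
      exact mul_le_mul_of_nonneg_right hk (abs_nonneg _)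
    · rw [hY]
      have h2 := mul_le_mul_of_nonneg_right hε1 (abs_nonneg (v k).2)
      linarith
  have key := cone_growth (fun k => 1 + τ k * κ k) τ
    (fun k => κ (k + 1) * (1 + τ k * κ k) + κ k) (fun k => 1 + τ k * κ (k + 1)) X Y
    {k | T.bmap^[k] (i, x) ∈ T.good D ε} hm hc0
    (fun k => by have := mul_nonneg (hτ0 k) (hκ0 k); linarith) hτ0
    (fun k => by
      have h1 := mul_nonneg (hτ0 k) (hκ0 k)
      have h2 := mul_nonneg (hκ0 (k + 1)) (show 0 ≤ 1 + τ k * κ k by linarith)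
      have h3 := hκ0 k
      linarith)
    (fun k => by have := mul_nonneg (hτ0 k) (hκ0 (k + 1)); linarith) hdet hXs hYs h0
    (M := M)
    (by
      intro k hk
      have hk' : z k ∈ T.good D ε := by
        rw [hz]
        exact hk
      have h1 := hent (z k) hk'
      rw [hbz k] at h1
      have h2 : m ≤ 1 + τ k * κ k ∧ m ≤ τ k ∧ m ≤ κ (k + 1) * (1 + τ k * κ k) + κ k ∧
          m ≤ 1 + τ k * κ (k + 1) ∧ 1 + τ k * κ k ≤ M ∧ τ k ≤ M ∧
          κ (k + 1) * (1 + τ k * κ k) + κ k ≤ M ∧ 1 + τ k * κ (k + 1) ≤ M := by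
        rw [hτ, hκ, hκ]
        exact h1
      obtain ⟨g1, g2, g3, g4, g5, g6, g7, g8⟩ := h2
      exact ⟨g1, g2, g3, g4, g5, g6, g7, g8⟩)
    hfreq
  rcases key with key | key
  · refine key.mono fun k hk => ?_
    rw [hfd k]
    have h1 : Real.log (max |X k| |Y k|) ≤ Real.log ‖v k‖ := Real.log_le_log (hmax k) (hle1 k)
    have h2 : (0 : ℝ) ≤ k := Nat.cast_nonneg k
    have h3 : 0 ≤ c0 * Real.log (1 + 2 * m ^ 2) * k := by positivity
    have h4 := le_abs_self (Real.log ‖v k‖)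
    linarith
  · have hev : ∀ᶠ k : ℕ in atTop,
        -Real.log ε ≤ c0 * Real.log (1 + 2 * m ^ 2) / 8 * k := by
      have h1 : Tendsto (fun k : ℕ => c0 * Real.log (1 + 2 * m ^ 2) / 8 * (k : ℝ)) atTop atTop :=
        tendsto_natCast_atTop_atTop.const_mul_atTop (by positivity)
      exact h1.eventually_ge_atTop _
    refine (key.and_eventually hev).mono ?_
    rintro k ⟨⟨hk1, hk2⟩, hk3⟩
    rw [hfd k]
    have hk' : z k ∈ T.good D ε := by
      rw [hz]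
      exact hk1
    have hck : ε ≤ Real.cos (z k).2.2 := hk'.2.2.1
    have hvpos : 0 < ‖v k‖ := (hmax k).trans_le (hle1 k)
    have h1 := Real.log_le_log (mul_pos hε hvpos) (hle2 k hck)
    rw [Real.log_mul hε.ne' hvpos.ne'] at h1
    have h2 := neg_abs_le (Real.log ‖v k‖)
    linarith

/-- If a.e. orbit hits the arcs of positive curvature infinitely often, the table is hyperbolic.
Proof. By `ae_orbit`, `visit_density` for `A = good D (1/(N+1))`, all `N`, and `ae_mu_iff`, for a.e. `x` with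
`z = (i,x)` in the phase space: the orbit is infinite, it hits `D` (so some iterate is in
`good D (1/(N+1))` for some `N`: all quantities are positive there), and the density statement holds.
The first part of `Hyperbolic` is `iter_hasFDerivAt`.  For `u ≠ 0` apply `cone_growth` with
`X k = cos θ_k (Dk u).1`, `Y k = (Dk u).2` (`dmz_flux`), `G = {k | bmap^[k] z ∈ good D ε}`.
`‖Dk u‖ = max |X k / cos θ_k| |Y k|` is `≥ max |X k| |Y k|`, and `≤ max |X k| |Y k| / ε` for `k ∈ G`.  So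
`c = c0 log (1 + 2 m^2) / 8` works for all `u`. -/
theorem hyperbolic_of_frequently (D : Set (Fin n))
    (hcv : ∀ i, ∀ r ∈ Icc 0 (T.len i), 0 ≤ T.curv i r)
    (hD : ∀ i ∈ D, ∀ r ∈ Icc 0 (T.len i), 0 < T.curv i r)
    (h : ∀ᵐ z ∂T.μ, ∃ᶠ k : ℕ in atTop, (T.bmap^[k] z).1 ∈ D) : T.Hyperbolic := by
  have hvis : ∀ᵐ z ∂T.μ, ∀ N : ℕ, (∃ k : ℕ, T.bmap^[k] z ∈ T.good D (1 / ((N : ℝ) + 1))) →
      ∃ c : ℝ, 0 < c ∧ ∃ᶠ m : ℕ in atTop, T.bmap^[m] z ∈ T.good D (1 / ((N : ℝ) + 1)) ∧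
        c * m ≤ (Nat.card {k : ℕ // k < m ∧ T.bmap^[k] z ∈ T.good D (1 / ((N : ℝ) + 1))} : ℝ) :=
    ae_all_iff.2 fun N => visit_density T.measurePreserving_bmap (T.measurableSet_good D _)
  have hall := T.ae_mu_iff.1 (T.ae_orbit.and (hvis.and h))
  intro i
  filter_upwards [hall i] with x hx hph
  obtain ⟨horb, hv, hf⟩ := hx hph
  refine ⟨fun k => ⟨(horb k).1, (T.iter_hasFDerivAt horb k).1,
    (T.iter_hasFDerivAt horb k).2.differentiableAt⟩, ?_⟩
  obtain ⟨k, hk⟩ := hf.exists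
  have hN := horb k
  have hbk : T.bmap (T.bmap^[k] (i, x)) = T.bmap^[k + 1] (i, x) := T.bmap_eq hN
  have hcurv : 0 < T.curv (T.bmap^[k] (i, x)).1 (T.bmap^[k] (i, x)).2.1 :=
    hD _ hk _ ⟨hN.1.1.1.le, hN.1.1.2.le⟩
  have hc1 := T.cos_pos hN.1
  have hc2 := T.cos_pos hN.2.1
  have hτ : 0 < ‖T.pt (T.bmap^[k + 1] (i, x)) - T.pt (T.bmap^[k] (i, x))‖ := by
    obtain ⟨τ, hτ, -, hτ2, -⟩ := hN.2.2
    rw [hτ2, add_sub_cancel_left, norm_mul, T.vel_norm hN.1, mul_one, Complex.norm_real,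
      Real.norm_of_nonneg hτ.le]
    exact hτ
  obtain ⟨N, hNN⟩ := exists_nat_one_div_lt
    (lt_min (lt_min hc1 hc2) (lt_min hτ hcurv))
  have hgood : T.bmap^[k] (i, x) ∈ T.good D (1 / ((N : ℝ) + 1)) := by
    refine ⟨⟨_, hN⟩, hk, ?_, ?_, ?_, ?_⟩
    · exact (hNN.trans_le ((min_le_left _ _).trans (min_le_left _ _))).le
    · rw [hbk]
      exact (hNN.trans_le ((min_le_left _ _).trans (min_le_right _ _))).le
    · rw [hbk]
      exact (hNN.trans_le ((min_le_right _ _).trans (min_le_left _ _))).le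
    · exact (hNN.trans_le ((min_le_right _ _).trans (min_le_right _ _))).le
  obtain ⟨c0, hc0, hfreq⟩ := hv N ⟨k, hgood⟩
  exact T.grow_point D hcv horb (by positivity) hc0 hfreq

end Table

end

end Pool.Agent.MP2e716c
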