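import Pool.Agent.H.MP_2e716c_an.Loc

open Set MeasureTheory Filter Topology

namespace Pool.Agent.MP2e716c

noncomputable section

namespace Table

variable {n : ℕ} [NeZero n] (T : Table n)

/-- A ray which starts inside the bounded open region leaves it for the first time at a frontier
point.  Proof: `τ = sSup {t | ∀ s ∈ Ioo 0 t, q + s v ∈ region}`, bounded above by boundedness. -/
theorem exists_exit {q v : ℂ} (hv : ‖v‖ = 1) {t0 : ℝ} (ht0 : 0 < t0)
    (h : ∀ t ∈ Ioo 0 t0, q + t * v ∈ T.region) :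
    ∃ τ : ℝ, t0 ≤ τ ∧ (∀ t ∈ Ioo 0 τ, q + t * v ∈ T.region) ∧ q + τ * v ∈ frontier T.region := by
  obtain ⟨R, hR⟩ := T.bounded.subset_closedBall (0 : ℂ)
  set S : Set ℝ := {t | t0 ≤ t ∧ ∀ s ∈ Ioo 0 t, q + s * v ∈ T.region} with hS
  have hne : S.Nonempty := ⟨t0, le_rfl, h⟩
  have hbd : BddAbove S := by
    refine ⟨2 * (R + ‖q‖), ?_⟩
    rintro t ⟨ht, hin⟩
    have htpos : 0 < t := lt_of_lt_of_le ht0 ht
    have h1 := hR (hin (t / 2) ⟨by linarith, by linarith⟩)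
    rw [mem_closedBall_zero_iff] at h1
    have h2 : ‖((t / 2 : ℝ) : ℂ) * v‖ = t / 2 := by
      rw [norm_mul, hv, mul_one, Complex.norm_real, Real.norm_of_nonneg (by linarith)]
    have h3 : ‖((t / 2 : ℝ) : ℂ) * v‖ ≤ ‖q + ((t / 2 : ℝ) : ℂ) * v‖ + ‖q‖ := by
      calc ‖((t / 2 : ℝ) : ℂ) * v‖ = ‖(q + ((t / 2 : ℝ) : ℂ) * v) - q‖ := by
            congr 1; ring
        _ ≤ _ := norm_sub_le _ _
    rw [h2] at h3
    linarith
  have hlub := isLUB_csSup hne hbd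
  set τ := sSup S with hτ
  have ht0τ : t0 ≤ τ := hlub.1 ⟨le_rfl, h⟩
  have hin : ∀ t ∈ Ioo 0 τ, q + t * v ∈ T.region := by
    rintro t ⟨ht1, ht2⟩
    obtain ⟨t', ht', hlt⟩ := exists_lt_of_lt_csSup hne ht2
    exact ht'.2 t ⟨ht1, hlt⟩
  have hcont : Continuous (fun t : ℝ => q + (t : ℂ) * v) := by fun_prop
  refine ⟨τ, ht0τ, hin, ?_⟩
  rw [T.isOpen.frontier_eq]
  constructor
  · have hmem : τ ∈ closure (Ioo 0 τ) := by
      rw [closure_Ioo (ne_of_lt (lt_of_lt_of_le ht0 ht0τ))]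
      exact ⟨(lt_of_lt_of_le ht0 ht0τ).le, le_rfl⟩
    have h1 : (fun t : ℝ => q + (t : ℂ) * v) τ ∈
        closure ((fun t : ℝ => q + (t : ℂ) * v) '' Ioo 0 τ) :=
      image_closure_subset_closure_image hcont (mem_image_of_mem _ hmem)
    refine closure_mono ?_ h1
    rintro _ ⟨t, ht, rfl⟩
    exact hin t ht
  · intro hmem
    have hopen : IsOpen ((fun t : ℝ => q + (t : ℂ) * v) ⁻¹' T.region) :=
      T.isOpen.preimage hcont
    obtain ⟨ε, hε, hball⟩ := Metric.isOpen_iff.1 hopen τ hmem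
    have hext : τ + ε ∈ S := by
      refine ⟨by linarith, ?_⟩
      rintro s ⟨hs1, hs2⟩
      by_cases hsτ : s < τ
      · exact hin s ⟨hs1, hsτ⟩
      · push Not at hsτ
        have : s ∈ Metric.ball τ ε := by
          rw [Metric.mem_ball, Real.dist_eq, abs_of_nonneg (by linarith)]
          linarith
        exact hball this
    have := hlub.1 hext
    linarith

/-- From `inward_cone` with `c = cos θ`, `v = vel z`. -/
theorem phase_start {z : Fin n × ℝ × ℝ} (hz : z ∈ T.phase) :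
    ∃ t0 > 0, ∀ t ∈ Ioo (0 : ℝ) t0, T.pt z + t * T.vel z ∈ T.region := by
  obtain ⟨ε, hε, hc⟩ := T.inward_cone z.1 hz.1 (T.cos_pos hz)
  refine ⟨ε, hε, fun t ht => ?_⟩
  refine (hc z.2.1 (by simpa using hε) (T.vel z) (T.vel_norm hz) ?_ t ht).1
  have := T.ip_vel_nor hz
  rw [nor, tang] at this
  exact this.ge

/-- A frontier point is an interior point of an arc or a corner `γ j 0`
(`γ j (len j) = γ (j+1) 0`). -/
theorem frontier_cases {x : ℂ} (hx : x ∈ frontier T.region) :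
    (∃ j, T.γ j 0 = x) ∨ ∃ j, ∃ s ∈ Ioo 0 (T.len j), T.γ j s = x := by
  rw [T.frontier_eq, mem_iUnion] at hx
  obtain ⟨i, r, hr, rfl⟩ := hx
  rcases eq_or_lt_of_le hr.1 with h0 | h0
  · left
    exact ⟨i, by rw [h0]⟩
  · rcases eq_or_lt_of_le hr.2 with h1 | h1
    · left
      refine ⟨i + 1, ?_⟩
      rw [h1]
      exact (T.closed i).symm
    · right
      exact ⟨i, r, ⟨h0, h1⟩, rfl⟩

/-- If a chord inside the region (velocity `v`) ends at an interior point of arc `j`, then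
`v` does not point inside there.  By `inward_cone` (second part: `γ j s - t v ∉ region`). -/
theorem ip_nor_nonpos {q v : ℂ} (hv : ‖v‖ = 1) {τ : ℝ} (hτ : 0 < τ)
    (hin : ∀ t ∈ Ioo 0 τ, q + t * v ∈ T.region) {j : Fin n} {s : ℝ} (hs : s ∈ Ioo 0 (T.len j))
    (hp : T.γ j s = q + τ * v) : ip v (Complex.I * deriv (T.γ j) s) ≤ 0 := by
  by_contra hcon
  push Not at hcon
  obtain ⟨ε, hε, hc⟩ := T.inward_cone j hs hcon
  have hmin : 0 < min ε τ := lt_min hε hτ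
  have ht : min ε τ / 2 ∈ Ioo (0 : ℝ) ε :=
    ⟨by linarith, by have := min_le_left ε τ; linarith⟩
  have h1 := (hc s (by simpa using hε) v hv le_rfl _ ht).2
  apply h1
  have h2 := hin (τ - min ε τ / 2)
    ⟨by have := min_le_right ε τ; linarith, by linarith⟩
  rw [hp]
  convert h2 using 1
  push_cast
  ring

/-- A transversal hit in the interior of an arc gives the next phase point (`inc_arcsin`). -/
theorem next_of_hit {z : Fin n × ℝ × ℝ} (hz : z ∈ T.phase) {τ : ℝ} (hτ : 0 < τ)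
    (hin : ∀ t ∈ Ioo 0 τ, T.pt z + t * T.vel z ∈ T.region) {j : Fin n} {s : ℝ}
    (hs : s ∈ Ioo 0 (T.len j)) (hp : T.γ j s = T.pt z + τ * T.vel z)
    (hn : ip (T.vel z) (Complex.I * deriv (T.γ j) s) ≠ 0) :
    T.Next z (j, s, Real.arcsin (ip (T.vel z) (deriv (T.γ j) s))) := by
  have h1 := T.ip_nor_nonpos (T.vel_norm hz) hτ hin hs hp
  have h2 := T.inc_arcsin j hs (T.vel_norm hz) (lt_of_le_of_ne h1 hn)
  exact ⟨hz, h2.1, τ, hτ, hin, hp, h2.2⟩

/-- Every phase point has a successor or hits a corner or hits an arc tangentially. -/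
theorem next_or_bad {z : Fin n × ℝ × ℝ} (hz : z ∈ T.phase) :
    (∃ a, T.Next z a) ∨ ∃ τ : ℝ, 0 < τ ∧ (∀ t ∈ Ioo 0 τ, T.pt z + t * T.vel z ∈ T.region) ∧
      ((∃ j, T.γ j 0 = T.pt z + τ * T.vel z) ∨
        ∃ j, ∃ s ∈ Ioo 0 (T.len j), T.γ j s = T.pt z + τ * T.vel z ∧
          ip (T.vel z) (Complex.I * deriv (T.γ j) s) = 0) := by
  obtain ⟨t0, ht0, hst⟩ := T.phase_start hz
  obtain ⟨τ, hτ0, hin, hfr⟩ := T.exists_exit (T.vel_norm hz) ht0 hst
  have hτ : 0 < τ := lt_of_lt_of_le ht0 hτ0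
  rcases T.frontier_cases hfr with ⟨j, hj⟩ | ⟨j, s, hs, hj⟩
  · exact Or.inr ⟨τ, hτ, hin, Or.inl ⟨j, hj⟩⟩
  · by_cases hn : ip (T.vel z) (Complex.I * deriv (T.γ j) s) = 0
    · exact Or.inr ⟨τ, hτ, hin, Or.inr ⟨j, s, hs, hj, hn⟩⟩
    · exact Or.inl ⟨_, T.next_of_hit hz hτ hin hs hj hn⟩

end Table

end

end Pool.Agent.MP2e716c
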