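import Pool.Agent.H.MP_2e716c_an.IS1

open Set MeasureTheory Filter Topology

namespace Pool.Agent.MP2e716c

noncomputable section

namespace IntSys

variable {I : Type} (A : IntSys I)

theorem V_loc {z : I × ℝ} (hz : z ∈ A.V) : ∃ ε > 0, ∀ t : ℝ, |t| < ε → sh z t ∈ A.V := by
  refine ⟨min z.2 (A.ℓ z.1 - z.2), lt_min hz.1 (by linarith [hz.2]), fun t ht => ?_⟩
  have h1 := lt_of_lt_of_le ht (min_le_left _ _)
  have h2 := lt_of_lt_of_le ht (min_le_right _ _)
  rw [abs_lt] at h1 h2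
  refine ⟨?_, ?_⟩
  · show 0 < z.2 + t
    linarith
  · show z.2 + t < A.ℓ z.1
    linarith

/-- Iterates are local isometries.  Induction on `k` with `A.loc`. -/
theorem steps_loc {k : ℕ} {z w : I × ℝ} (hz : z ∈ A.V) (h : A.Steps k z w) :
    ∃ ε > 0, ∀ t : ℝ, |t| < ε →
      sh z t ∈ A.V ∧ sh w ((-1) ^ k * t) ∈ A.V ∧ A.Steps k (sh z t) (sh w ((-1) ^ k * t)) := by
  induction k generalizing z with
  | zero =>
    obtain ⟨ε, hε, h1⟩ := A.V_loc hz
    have h2 : z = w := h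
    refine ⟨ε, hε, fun t ht => ?_⟩
    rw [← h2, pow_zero, one_mul]
    exact ⟨h1 t ht, h1 t ht, rfl⟩
  | succ k ih =>
    obtain ⟨y, hy, h1⟩ := h
    have hyV := A.step_mem hy
    obtain ⟨ε0, hε0, h0⟩ := A.V_loc hz
    obtain ⟨ε2, hε2, h2⟩ := ih hyV h1
    obtain ⟨ε1, hε1, hD1, h3⟩ := A.loc z hz.1 hz.2 hy.2.1
    have h4 : ∀ t : ℝ, |t| < ε1 → A.T (sh z t) = some (sh y (-t)) := by
      rcases h3 with h3 | ⟨y', -, -, h3⟩
      · have h5 := h3 0 (by simpa using hε1)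
        rw [sh_zero, hy.2.2] at h5
        cases h5
      · have h5 := h3 0 (by simpa using hε1)
        rw [sh_zero, hy.2.2] at h5
        have h6 : y = y' := by
          have := Option.some.inj h5
          simpa [sh] using this
        rw [h6]
        exact h3
    refine ⟨min ε0 (min ε1 ε2), lt_min hε0 (lt_min hε1 hε2), fun t ht => ?_⟩
    have ht0 : |t| < ε0 := lt_of_lt_of_le ht (min_le_left _ _)
    have ht1 : |t| < ε1 := lt_of_lt_of_le ht ((min_le_right _ _).trans (min_le_left _ _))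
    have ht2 : |-t| < ε2 := by
      rw [abs_neg]
      exact lt_of_lt_of_le ht ((min_le_right _ _).trans (min_le_right _ _))
    obtain ⟨h5, h6, h7⟩ := h2 (-t) ht2
    have h8 : (-1 : ℝ) ^ k * (-t) = (-1) ^ (k + 1) * t := by ring
    rw [h8] at h6 h7
    exact ⟨h0 t ht0, h6, sh y (-t), ⟨h0 t ht0, hD1 t ht1, h4 t ht1⟩, h7⟩

theorem ex_loc {k : ℕ} {z : I × ℝ} (h : z ∈ A.Ex k) :
    ∃ ε > 0, ∀ t : ℝ, |t| < ε → sh z t ∈ A.Ex k := by
  have hzV := A.ex_sub h
  obtain ⟨w, h1, h2⟩ := A.ex_steps (k := k) (m := 0) h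
  obtain ⟨ε1, hε1, h3⟩ := A.steps_loc hzV h1
  obtain ⟨ε2, hε2, hD, h4⟩ := A.loc w h2.1.1 h2.1.2 h2.2.1
  have h5 : ∀ t : ℝ, |t| < ε2 → A.T (sh w t) = none := by
    rcases h4 with h4 | ⟨y, -, -, h4⟩
    · exact h4
    · have h6 := h4 0 (by simpa using hε2)
      rw [sh_zero, h2.2.2] at h6
      cases h6
  refine ⟨min ε1 ε2, lt_min hε1 hε2, fun t ht => ?_⟩
  obtain ⟨h6, h7, h8⟩ := h3 t (lt_of_lt_of_le ht (min_le_left _ _))
  have h9 : |(-1 : ℝ) ^ k * t| < ε2 := by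
    rw [abs_mul, abs_pow, abs_neg, abs_one, one_pow, one_mul]
    exact lt_of_lt_of_le ht (min_le_right _ _)
  have h10 : sh w ((-1) ^ k * t) ∈ A.Ex 0 := ⟨h7, hD _ h9, h5 _ h9⟩
  exact A.ex_of_steps h8 h10

theorem isOpen_ex (k : ℕ) (a : I) : IsOpen {x : ℝ | (a, x) ∈ A.Ex k} := by
  rw [Metric.isOpen_iff]
  intro x hx
  obtain ⟨ε, hε, h⟩ := A.ex_loc hx
  refine ⟨ε, hε, fun y hy => ?_⟩
  have h1 : |y - x| < ε := by
    rw [Metric.mem_ball, Real.dist_eq] at hy
    exact hy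
  have h2 := h (y - x) h1
  have h3 : sh (a, x) (y - x) = (a, y) := by
    simp [sh]
  rw [h3] at h2
  exact h2

theorem isOpen_E (a : I) : IsOpen {x : ℝ | (a, x) ∈ A.E} := by
  have h : {x : ℝ | (a, x) ∈ A.E} = ⋃ k, {x : ℝ | (a, x) ∈ A.Ex k} := by
    ext x
    simp [mem_E]
  rw [h]
  exact isOpen_iUnion fun k => A.isOpen_ex k a

/-- On an interval on which `k` steps are always possible, `T^k` is one isometry.
Proof: fix `x0` in the interval with image `(b, y0)`; the set of `x` in `(α, β)` with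
`Steps k (a, x) (b, y0 + (-1)^k (x - x0))` is open (`steps_loc`, uniqueness) and closed in `(α, β)`
(`steps_loc` at a limit point and `steps_unique`), so it is `(α, β)` (connectedness). -/
theorem steps_interval {k : ℕ} {a : I} {α β : ℝ} (hαβ : α < β)
    (h : ∀ x ∈ Ioo α β, (a, x) ∈ A.V ∧ ∃ w, A.Steps k (a, x) w) :
    ∃ (b : I) (y : ℝ), ∀ x ∈ Ioo α β, A.Steps k (a, x) (b, y + (-1) ^ k * x) := by
  classical
  have hne : Nonempty (I × ℝ) := ⟨(a, 0)⟩
  choose! hV w hw using h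
  let f : Ioo α β → I × ℝ := fun x => ((w x.1).1, (w x.1).2 - (-1) ^ k * x.1)
  have hf : IsLocallyConstant f := by
    rw [IsLocallyConstant.iff_eventually_eq]
    intro x
    obtain ⟨ε, hε, h1⟩ := A.steps_loc (hV x.1 x.2) (hw x.1 x.2)
    have h2 : ∀ᶠ y : Ioo α β in 𝓝 x, dist y x < ε := Metric.ball_mem_nhds x hε
    filter_upwards [h2] with y hy
    have h3 : |y.1 - x.1| < ε := by
      rw [Subtype.dist_eq, Real.dist_eq] at hy
      exact hy
    obtain ⟨-, -, h4⟩ := h1 (y.1 - x.1) h3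
    have h5 : sh (a, x.1) (y.1 - x.1) = (a, y.1) := by
      simp [sh]
    rw [h5] at h4
    have h6 := A.steps_unique (hw y.1 y.2) h4
    show ((w y.1).1, (w y.1).2 - (-1) ^ k * y.1) = ((w x.1).1, (w x.1).2 - (-1) ^ k * x.1)
    rw [h6]
    simp only [sh, Prod.mk.injEq, true_and]
    ring
  have hpc : PreconnectedSpace (Ioo α β) := Subtype.preconnectedSpace isPreconnected_Ioo
  have hmid : (α + β) / 2 ∈ Ioo α β := ⟨by linarith, by linarith⟩
  let x0 : Ioo α β := ⟨(α + β) / 2, hmid⟩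
  refine ⟨(f x0).1, (f x0).2, fun x hx => ?_⟩
  have h1 : f ⟨x, hx⟩ = f x0 := hf.apply_eq_of_preconnectedSpace _ _
  rw [← h1]
  have h2 : ((f ⟨x, hx⟩).1, (f ⟨x, hx⟩).2 + (-1) ^ k * x) = w x := by
    show ((w x).1, (w x).2 - (-1) ^ k * x + (-1) ^ k * x) = w x
    rw [sub_add_cancel]
  rw [h2]
  exact hw x hx

/-- For each line only countably many states reach `D` (the sets `{z | Steps k z d}`, `d ∈ D`, have at
most one element, `D` is finite). -/
theorem countable_reach : {z : I × ℝ | ∃ j, ∃ d ∈ A.D, A.Steps j z d}.Countable := by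
  have h : {z : I × ℝ | ∃ j, ∃ d ∈ A.D, A.Steps j z d} =
      ⋃ j, ⋃ d ∈ A.D, {z : I × ℝ | A.Steps j z d} := by
    ext z
    simp
  rw [h]
  refine countable_iUnion fun j => ?_
  refine A.D_fin.countable.biUnion fun d _ => ?_
  refine Set.Subsingleton.countable ?_
  intro z hz z' hz'
  exact A.steps_inj hz hz'

end IntSys

end

end Pool.Agent.MP2e716c
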