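import Pool.Agent.H.MP_2e716c_an.IS2

open Set MeasureTheory Filter Topology

namespace Pool.Agent.MP2e716c

noncomputable section

namespace IntSys

variable {I : Type} (A : IntSys I)

theorem ex_not_steps {k : ℕ} {z y : I × ℝ} (h : z ∈ A.Ex k) : ¬ A.Steps (k + 1) z y := by
  intro h1
  obtain ⟨w, h2, h3⟩ := A.ex_steps (k := k) (m := 0) h
  obtain ⟨w', h4, h5⟩ := A.steps_add.1 h1
  obtain ⟨y', h6, -⟩ := h5
  have h7 := A.steps_unique h2 h4
  rw [h7] at h3
  have h8 := h6.2.2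
  rw [h3.2.2] at h8
  cases h8

theorem sigma_abs {σ : ℝ} (hσ : σ = 1 ∨ σ = -1) (t : ℝ) : |σ * t| = |t| := by
  rcases hσ with h | h
  · rw [h, one_mul]
  · rw [h, neg_one_mul, abs_neg]

/-- An end point, inside the state space, of an interval of `Ex k` which is not in `Ex k` itself
reaches `D` in at most `k` steps, along the continuation of the interval map.  (`σ = 1`: right
neighbourhood, `σ = -1`: left neighbourhood.)
Proof. `steps_or` with `k`: if `(a, α) ∈ Ex j` with `j < k` then by `ex_loc` points of `Ex k` near `α` are in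
`Ex j`, contradiction with `ex_disjoint`.  If `Steps j (a, α) d` with `d ∈ D` done (`j < k`).  If
`Steps k (a, α) w`: either `w ∈ D` (done, `j = k`), or `T w = none`, so `(a, α) ∈ Ex k`, excluded, or
`T w = some y`; then by `steps_loc` with `k + 1` steps the points near `α` make `k + 1` steps, but those in
`Ex k` do not (`ex_steps` with `k + 0`). -/
theorem end_reaches {k : ℕ} {a : I} {α δ : ℝ} (hδ : 0 < δ) {σ : ℝ} (hσ : σ = 1 ∨ σ = -1)
    (hα : (a, α) ∈ A.V) (h : ∀ t ∈ Ioo 0 δ, (a, α + σ * t) ∈ A.Ex k) (hn : (a, α) ∉ A.Ex k) :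
    ∃ j ≤ k, ∃ d ∈ A.D, A.Steps j (a, α) d := by
  rcases A.steps_or hα k with ⟨w, hw⟩ | ⟨j, hj, h1⟩ | ⟨j, hj, d, hd, h1⟩
  · by_cases hD : w ∈ A.D
    · exact ⟨k, le_refl k, w, hD, hw⟩
    · exfalso
      have hV := A.steps_mem hα hw
      rcases hT : A.T w with _ | y
      · have h2 : w ∈ A.Ex 0 := ⟨hV, hD, hT⟩
        exact hn (A.ex_of_steps hw h2)
      · have h2 : A.Steps (k + 1) (a, α) y :=
          A.steps_add.2 ⟨w, hw, A.steps_one ⟨hV, hD, hT⟩⟩
        obtain ⟨ε, hε, h3⟩ := A.steps_loc hα h2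
        have ht0 : 0 < min ε δ / 2 := half_pos (lt_min hε hδ)
        have ht1 : min ε δ / 2 < ε := (half_lt_self (lt_min hε hδ)).trans_le (min_le_left _ _)
        have ht2 : min ε δ / 2 < δ := (half_lt_self (lt_min hε hδ)).trans_le (min_le_right _ _)
        have h4 := h (min ε δ / 2) ⟨ht0, ht2⟩
        have h5 : |σ * (min ε δ / 2)| < ε := by
          rw [sigma_abs hσ, abs_of_pos ht0]
          exact ht1
        exact A.ex_not_steps h4 (h3 _ h5).2.2
  · exfalso
    obtain ⟨ε, hε, h3⟩ := A.ex_loc h1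
    have ht0 : 0 < min ε δ / 2 := half_pos (lt_min hε hδ)
    have ht1 : min ε δ / 2 < ε := (half_lt_self (lt_min hε hδ)).trans_le (min_le_left _ _)
    have ht2 : min ε δ / 2 < δ := (half_lt_self (lt_min hε hδ)).trans_le (min_le_right _ _)
    have h4 := h (min ε δ / 2) ⟨ht0, ht2⟩
    have h5 : |σ * (min ε δ / 2)| < ε := by
      rw [sigma_abs hσ, abs_of_pos ht0]
      exact ht1
    have h6 := A.ex_disjoint h4 (h3 _ h5)
    exact absurd h6 (ne_of_gt hj)
  · exact ⟨j, hj.le, d, hd, h1⟩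

theorem germ_unique_aux {b : I} {d σ c c' : ℝ} {k k' : ℕ} (hc : 0 < c)
    (h : ∀ t ∈ Ioo 0 c, (b, d + σ * t) ∈ A.Ex k) (hn : (b, d + σ * c) ∉ A.Ex k)
    (h' : ∀ t ∈ Ioo 0 c', (b, d + σ * t) ∈ A.Ex k') : c' ≤ c := by
  by_contra hcc
  push Not at hcc
  have h1 := h (c / 2) ⟨half_pos hc, half_lt_self hc⟩
  have h2 := h' (c / 2) ⟨half_pos hc, (half_lt_self hc).trans hcc⟩
  have h3 := A.ex_disjoint h1 h2
  have h4 := h' c ⟨hc, hcc⟩
  rw [← h3] at h4
  exact hn h4

/-- Germ lemma: for a fixed base point `(b, d)` and side `σ` there is at most one length `c` of a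
maximal one sided interval of constant exit time. -/
theorem germ_unique {b : I} {d σ c c' : ℝ} {k k' : ℕ} (hc : 0 < c) (hc' : 0 < c')
    (h : ∀ t ∈ Ioo 0 c, (b, d + σ * t) ∈ A.Ex k) (hn : (b, d + σ * c) ∉ A.Ex k)
    (h' : ∀ t ∈ Ioo 0 c', (b, d + σ * t) ∈ A.Ex k') (hn' : (b, d + σ * c') ∉ A.Ex k') :
    c = c' :=
  le_antisymm (A.germ_unique_aux hc' h' hn' h) (A.germ_unique_aux hc h hn h')

/-- Interval map on a closed interval. -/
theorem steps_Icc {j : ℕ} {a : I} {α β : ℝ} (hαβ : α ≤ β)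
    (h : ∀ x ∈ Icc α β, (a, x) ∈ A.V ∧ ∃ w, A.Steps j (a, x) w) :
    ∃ (b : I) (y : ℝ), ∀ x ∈ Icc α β, A.Steps j (a, x) (b, y + (-1) ^ j * x) := by
  obtain ⟨hα, wα, h1⟩ := h α ⟨le_refl _, hαβ⟩
  obtain ⟨hβ, wβ, h2⟩ := h β ⟨hαβ, le_refl _⟩
  obtain ⟨ε1, hε1, h3⟩ := A.steps_loc hα h1
  obtain ⟨ε2, hε2, h4⟩ := A.steps_loc hβ h2
  have h5 : ∀ x ∈ Ioo (α - ε1) (β + ε2), (a, x) ∈ A.V ∧ ∃ w, A.Steps j (a, x) w := by
    intro x hx
    rcases lt_or_ge x α with h6 | h6
    · have h7 : |x - α| < ε1 := by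
        rw [abs_lt]
        constructor <;> linarith [hx.1]
      obtain ⟨h8, -, h9⟩ := h3 (x - α) h7
      have h10 : sh (a, α) (x - α) = (a, x) := by simp [sh]
      rw [h10] at h8 h9
      exact ⟨h8, _, h9⟩
    · rcases lt_or_ge β x with h6' | h6'
      · have h7 : |x - β| < ε2 := by
          rw [abs_lt]
          constructor <;> linarith [hx.2]
        obtain ⟨h8, -, h9⟩ := h4 (x - β) h7
        have h10 : sh (a, β) (x - β) = (a, x) := by simp [sh]
        rw [h10] at h8 h9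
        exact ⟨h8, _, h9⟩
      · exact h x ⟨h6, h6'⟩
  obtain ⟨b, y, h6⟩ := A.steps_interval (by linarith) h5
  exact ⟨b, y, fun x hx => h6 x ⟨by linarith [hx.1], by linarith [hx.2]⟩⟩

/-- The length of a maximal interval of constant exit time is the length of a germ at a singular
point or at an end of a line.
Proof. If `α ≤ 0` then `α = 0` (points of `Ex k` are in `V`), and it is a germ at the end `0` of line
`a` (`j = 0`, `σ = 1`).  Similarly if `β ≥ ℓ a`, then `β = ℓ a` (germ with `σ = -1`).  Otherwise both ends are in `V` and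
`end_reaches` gives the times `jα, jβ ≤ k` at which they reach `D`.  Let `j` be the smaller one, say
`j = jα`, `Steps j (a, α) (b, d)`, `(b, d) ∈ D`.  By `steps_interval` (`ex_steps`: all points of the
interval make `j` steps) and `steps_loc` at `(a, α)` the interval map is `x ↦ (b, d + (-1)^j (x - α))`, so with
`σ = (-1)^j`, `c = β - α`: `(b, d + σ t) ∈ Ex (k - j)` for `t ∈ (0, c)`.  The other end: `j ≤ jβ`, so
`β` makes `j` steps, to `(b, d + σ c)` (again `steps_loc` at `β`), and this point reaches `D` in `jβ - j`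
steps, so it is not in `Ex (k - j)` (`ex_not_D`).  The case `j = jβ < jα` is symmetric
(base point the image of `β`, `σ = -(-1)^j`). -/
theorem length_germ {k : ℕ} {a : I} {α β : ℝ} (hαβ : α < β)
    (h : ∀ x ∈ Ioo α β, (a, x) ∈ A.Ex k) (hα : (a, α) ∉ A.Ex k) (hβ : (a, β) ∉ A.Ex k) :
    ∃ (b : I) (d σ : ℝ) (k' : ℕ), (σ = 1 ∨ σ = -1) ∧ ((b, d) ∈ A.D ∨ d = 0 ∨ d = A.ℓ b) ∧
      (∀ t ∈ Ioo 0 (β - α), (b, d + σ * t) ∈ A.Ex k') ∧ (b, d + σ * (β - α)) ∉ A.Ex k' := by
  rcases le_or_gt α 0 with hα0 | hα0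
  · have h0 : α = 0 := by
      rcases lt_or_eq_of_le hα0 with h1 | h1
      · exfalso
        have hm : (α + min β 0) / 2 ∈ Ioo α β := by
          have h3 : α < min β 0 := lt_min hαβ h1
          constructor
          · linarith
          · have := min_le_left β 0
            linarith
        have h4 := (A.ex_sub (h _ hm)).1
        have h5 : (α + min β 0) / 2 < 0 := by
          have := min_le_right β 0
          linarith
        exact absurd h4 (not_lt.2 h5.le)
      · exact h1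
    refine ⟨a, 0, 1, k, Or.inl rfl, Or.inr (Or.inl rfl), ?_, ?_⟩
    · intro t ht
      apply h
      rw [h0] at ht ⊢
      constructor <;> linarith [ht.1, ht.2]
    · have h1 : (0 : ℝ) + 1 * (β - α) = β := by rw [h0]; ring
      rw [h1]
      exact hβ
  rcases le_or_gt (A.ℓ a) β with hβ0 | hβ0
  · have h0 : β = A.ℓ a := by
      rcases lt_or_eq_of_le hβ0 with h1 | h1
      · exfalso
        have hm : (β + max α (A.ℓ a)) / 2 ∈ Ioo α β := by
          have h3 : max α (A.ℓ a) < β := max_lt hαβ h1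
          constructor
          · have := le_max_left α (A.ℓ a)
            linarith
          · linarith
        have h4 := (A.ex_sub (h _ hm)).2
        have h5 : A.ℓ a < (β + max α (A.ℓ a)) / 2 := by
          have := le_max_right α (A.ℓ a)
          linarith
        exact absurd h4 (not_lt.2 h5.le)
      · exact h1.symm
    refine ⟨a, A.ℓ a, -1, k, Or.inr rfl, Or.inr (Or.inr rfl), ?_, ?_⟩
    · intro t ht
      apply h
      rw [← h0]
      constructor <;> linarith [ht.1, ht.2]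
    · have h1 : A.ℓ a + -1 * (β - α) = α := by rw [← h0]; ring
      rw [h1]
      exact hα
  have hVα : (a, α) ∈ A.V := ⟨hα0, by show α < A.ℓ a; linarith⟩
  have hVβ : (a, β) ∈ A.V := ⟨by show 0 < β; linarith, hβ0⟩
  have hδ : 0 < β - α := sub_pos.2 hαβ
  obtain ⟨jα, hjα, dα, hdα, h1⟩ := A.end_reaches hδ (Or.inl rfl) hVα
    (fun t ht => h _ ⟨by linarith [ht.1], by linarith [ht.2]⟩) hα
  obtain ⟨jβ, hjβ, dβ, hdβ, h2⟩ := A.end_reaches hδ (Or.inr rfl) hVβ
    (fun t ht => h _ ⟨by linarith [ht.2], by linarith [ht.1]⟩) hβ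
  have key : ∀ j, j ≤ jα → j ≤ jβ → ∃ (b : I) (y : ℝ), ∀ x ∈ Icc α β,
      A.Steps j (a, x) (b, y + (-1) ^ j * x) := by
    intro j hj1 hj2
    apply A.steps_Icc hαβ.le
    intro x hx
    rcases eq_or_lt_of_le hx.1 with h3 | h3
    · rw [← h3]
      refine ⟨hVα, ?_⟩
      obtain ⟨i, hi⟩ := Nat.exists_eq_add_of_le hj1
      rw [hi] at h1
      obtain ⟨y, hy, -⟩ := A.steps_add.1 h1
      exact ⟨y, hy⟩
    · rcases eq_or_lt_of_le hx.2 with h4 | h4
      · rw [h4]
        refine ⟨hVβ, ?_⟩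
        obtain ⟨i, hi⟩ := Nat.exists_eq_add_of_le hj2
        rw [hi] at h2
        obtain ⟨y, hy, -⟩ := A.steps_add.1 h2
        exact ⟨y, hy⟩
      · have h5 := h x ⟨h3, h4⟩
        refine ⟨A.ex_sub h5, ?_⟩
        obtain ⟨i, hi⟩ := Nat.exists_eq_add_of_le (hj1.trans hjα)
        rw [hi] at h5
        obtain ⟨w, hw, -⟩ := A.ex_steps h5
        exact ⟨w, hw⟩
  have hpow : ∀ j : ℕ, (-1 : ℝ) ^ j = 1 ∨ (-1 : ℝ) ^ j = -1 := fun j => neg_one_pow_eq_or ℝ j
  have hex : ∀ (j i : ℕ), k = j + i → ∀ (b : I) (y : ℝ),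
      (∀ x ∈ Icc α β, A.Steps j (a, x) (b, y + (-1) ^ j * x)) →
      (∀ x ∈ Ioo α β, (b, y + (-1) ^ j * x) ∈ A.Ex i) ∧
      (b, y + (-1) ^ j * α) ∉ A.Ex i ∧ (b, y + (-1) ^ j * β) ∉ A.Ex i := by
    intro j i hi b y hby
    refine ⟨?_, ?_, ?_⟩
    · intro x hx
      have h3 := h x hx
      rw [hi] at h3
      obtain ⟨w, hw, hw'⟩ := A.ex_steps h3
      have h4 := A.steps_unique hw (hby x ⟨hx.1.le, hx.2.le⟩)
      rw [← h4]
      exact hw'
    · intro h3
      have h4 := A.ex_of_steps (hby α ⟨le_refl _, hαβ.le⟩) h3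
      rw [← hi] at h4
      exact hα h4
    · intro h3
      have h4 := A.ex_of_steps (hby β ⟨hαβ.le, le_refl _⟩) h3
      rw [← hi] at h4
      exact hβ h4
  rcases le_total jα jβ with hj | hj
  · obtain ⟨b, y, hby⟩ := key jα (le_refl _) hj
    obtain ⟨i, hi⟩ := Nat.exists_eq_add_of_le hjα
    obtain ⟨h3, h4, h5⟩ := hex jα i hi b y hby
    have h6 := A.steps_unique h1 (hby α ⟨le_refl _, hαβ.le⟩)
    refine ⟨b, y + (-1) ^ jα * α, (-1) ^ jα, i, hpow jα, Or.inl ?_, ?_, ?_⟩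
    · rw [← h6]
      exact hdα
    · intro t ht
      have h7 := h3 (α + t) ⟨by linarith [ht.1], by linarith [ht.2]⟩
      have h8 : y + (-1) ^ jα * α + (-1) ^ jα * t = y + (-1) ^ jα * (α + t) := by ring
      rw [h8]
      exact h7
    · have h8 : y + (-1) ^ jα * α + (-1) ^ jα * (β - α) = y + (-1) ^ jα * β := by ring
      rw [h8]
      exact h5
  · obtain ⟨b, y, hby⟩ := key jβ hj (le_refl _)
    obtain ⟨i, hi⟩ := Nat.exists_eq_add_of_le hjβ
    obtain ⟨h3, h4, h5⟩ := hex jβ i hi b y hby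
    have h6 := A.steps_unique h2 (hby β ⟨hαβ.le, le_refl _⟩)
    refine ⟨b, y + (-1) ^ jβ * β, -(-1) ^ jβ, i, ?_, Or.inl ?_, ?_, ?_⟩
    · rcases hpow jβ with h7 | h7
      · rw [h7]
        exact Or.inr rfl
      · rw [h7, neg_neg]
        exact Or.inl rfl
    · rw [← h6]
      exact hdβ
    · intro t ht
      have h7 := h3 (β - t) ⟨by linarith [ht.2], by linarith [ht.1]⟩
      have h8 : y + (-1) ^ jβ * β + -(-1) ^ jβ * t = y + (-1) ^ jβ * (β - t) := by ring
      rw [h8]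
      exact h7
    · have h8 : y + (-1) ^ jβ * β + -(-1) ^ jβ * (β - α) = y + (-1) ^ jβ * α := by ring
      rw [h8]
      exact h4

/-- Maximal intervals of constant exit time are not short: by `length_germ` and `germ_unique` their
lengths form a finite set of positive numbers. -/
theorem exists_min_length [Finite I] : ∃ l > 0, ∀ (k : ℕ) (a : I) (α β : ℝ), α < β →
    (∀ x ∈ Ioo α β, (a, x) ∈ A.Ex k) → (a, α) ∉ A.Ex k → (a, β) ∉ A.Ex k → l ≤ β - α := by
  classical
  let P : Set (I × ℝ) := A.D ∪ (range (fun b : I => (b, (0 : ℝ))) ∪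
    range (fun b : I => (b, A.ℓ b)))
  have hP : P.Finite := A.D_fin.union ((finite_range _).union (finite_range _))
  let g : (I × ℝ) → ℝ → Set ℝ := fun p σ => {c : ℝ | 0 < c ∧ ∃ k' : ℕ,
    (∀ t ∈ Ioo 0 c, (p.1, p.2 + σ * t) ∈ A.Ex k') ∧ (p.1, p.2 + σ * c) ∉ A.Ex k'}
  have hg : ∀ p σ, (g p σ).Finite := by
    intro p σ
    apply Set.Subsingleton.finite
    rintro c ⟨hc, k1, h1, h2⟩ c' ⟨hc', k2, h3, h4⟩
    exact A.germ_unique hc hc' h1 h2 h3 h4
  let L : Set ℝ := ⋃ p ∈ P, (g p 1 ∪ g p (-1))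
  have hL : L.Finite := hP.biUnion fun p _ => (hg p 1).union (hg p (-1))
  have hpos : ∀ c ∈ L, 0 < c := by
    intro c hc
    simp only [L, mem_iUnion] at hc
    obtain ⟨p, -, hc | hc⟩ := hc
    · exact hc.1
    · exact hc.1
  obtain ⟨l, hl, hmin⟩ := Set.exists_min_image (insert 1 L) id (hL.insert 1)
    ⟨1, mem_insert 1 L⟩
  refine ⟨l, ?_, ?_⟩
  · rcases hl with h1 | h1
    · rw [h1]
      exact one_pos
    · exact hpos l h1
  · intro k a α β hαβ h hα hβ
    obtain ⟨b, d, σ, k', hσ, hd, h1, h2⟩ := A.length_germ hαβ h hα hβ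
    have hbP : (b, d) ∈ P := by
      rcases hd with hd | hd | hd
      · exact Or.inl hd
      · exact Or.inr (Or.inl ⟨b, by rw [hd]⟩)
      · exact Or.inr (Or.inr ⟨b, by rw [hd]⟩)
    have h3 : β - α ∈ g (b, d) σ := ⟨sub_pos.2 hαβ, k', h1, h2⟩
    have h4 : β - α ∈ L := by
      simp only [L, mem_iUnion]
      refine ⟨(b, d), hbP, ?_⟩
      rcases hσ with hσ | hσ
      · rw [hσ] at h3
        exact Or.inl h3
      · rw [hσ] at h3
        exact Or.inr h3
    exact hmin _ (Or.inr h4)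

/-- Maximal interval around a point of `Ex k`. -/
theorem exists_maximal {k : ℕ} {a : I} {x : ℝ} (hx : (a, x) ∈ A.Ex k) :
    ∃ α β, α < x ∧ x < β ∧ (∀ y ∈ Ioo α β, (a, y) ∈ A.Ex k) ∧ (a, α) ∉ A.Ex k ∧
      (a, β) ∉ A.Ex k := by
  have hV := A.ex_sub hx
  have hclosed : IsClosed {y : ℝ | (a, y) ∉ A.Ex k} := by
    have h1 := (A.isOpen_ex k a).isClosed_compl
    exact h1
  let Lo : Set ℝ := {y : ℝ | (a, y) ∉ A.Ex k} ∩ Iic x
  let Up : Set ℝ := {y : ℝ | (a, y) ∉ A.Ex k} ∩ Ici x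
  have hLo : sSup Lo ∈ Lo := by
    apply IsClosed.csSup_mem (hclosed.inter isClosed_Iic)
    · refine ⟨0, fun h => absurd (A.ex_sub h).1 (lt_irrefl _), hV.1.le⟩
    · exact ⟨x, fun y hy => hy.2⟩
  have hUp : sInf Up ∈ Up := by
    apply IsClosed.csInf_mem (hclosed.inter isClosed_Ici)
    · refine ⟨A.ℓ a, fun h => absurd (A.ex_sub h).2 (lt_irrefl _), hV.2.le⟩
    · exact ⟨x, fun y hy => hy.2⟩
  have h1 : sSup Lo < x := by
    rcases lt_or_eq_of_le (Set.mem_Iic.1 hLo.2) with h | h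
    · exact h
    · exfalso
      apply hLo.1
      rw [h]
      exact hx
  have h2 : x < sInf Up := by
    rcases lt_or_eq_of_le (Set.mem_Ici.1 hUp.2) with h | h
    · exact h
    · exfalso
      apply hUp.1
      rw [← h]
      exact hx
  refine ⟨sSup Lo, sInf Up, h1, h2, ?_, hLo.1, hUp.1⟩
  intro y hy
  by_contra hny
  rcases le_total y x with h3 | h3
  · have h4 : y ≤ sSup Lo := le_csSup ⟨x, fun z hz => hz.2⟩ ⟨hny, h3⟩
    exact absurd hy.1 (not_lt.2 h4)
  · have h4 : sInf Up ≤ y := csInf_le ⟨x, fun z hz => hz.2⟩ ⟨hny, h3⟩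
    exact absurd hy.2 (not_lt.2 h4)

/-- Abstract one sided dichotomy for a disjoint family of open sets. -/
theorem dichotomy_aux {U : ℕ → Set ℝ} {l : ℝ} (hopen : ∀ k, IsOpen (U k))
    (hdisj : ∀ k m x, x ∈ U k → x ∈ U m → k = m)
    (hmax : ∀ k, ∀ x ∈ U k, ∃ α β, α < x ∧ x < β ∧ (∀ y ∈ Ioo α β, y ∈ U k) ∧ α ∉ U k ∧
      β ∉ U k ∧ l ≤ β - α) (hl : 0 < l)
    {x : ℝ} (hx : ∀ k, x ∉ U k) :
    (∃ k, ∀ t ∈ Ioo 0 l, x + t ∈ U k) ∨ (∃ ε > 0, ∀ t ∈ Ioo 0 ε, ∀ k, x + t ∉ U k) := by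
  by_cases hsec : ∃ ε > 0, ∀ t ∈ Ioo 0 ε, ∀ k, x + t ∉ U k
  · exact Or.inr hsec
  left
  push Not at hsec
  obtain ⟨t, ht, k, htk⟩ := hsec l hl
  obtain ⟨α, β, h1, h2, h3, h4, h5, h6⟩ := hmax k _ htk
  have h7 : x ≤ α := by
    by_contra h8
    push Not at h8
    exact hx k (h3 x ⟨h8, by linarith [ht.1]⟩)
  have h8 : α = x := by
    rcases eq_or_lt_of_le h7 with h8 | h8
    · exact h8.symm
    · exfalso
      obtain ⟨t', ht', k', htk'⟩ := hsec (α - x) (sub_pos.2 h8)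
      obtain ⟨α', β', g1, g2, g3, g4, g5, g6⟩ := hmax k' _ htk'
      have g7 : x ≤ α' := by
        by_contra g8
        push Not at g8
        exact hx k' (g3 x ⟨g8, by linarith [ht'.1]⟩)
      have g8 : β' ≤ α := by
        by_contra g9
        push Not at g9
        have g10 : α ∈ U k' := g3 α ⟨by linarith [ht'.2], g9⟩
        obtain ⟨ε, hε, g11⟩ := Metric.isOpen_iff.1 (hopen k') α g10
        have hαβ : α < β := by linarith
        have e0 : 0 < min ε (β - α) / 2 := half_pos (lt_min hε (sub_pos.2 hαβ))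
        have e1 : min ε (β - α) / 2 < ε :=
          (half_lt_self (lt_min hε (sub_pos.2 hαβ))).trans_le (min_le_left _ _)
        have e2 : min ε (β - α) / 2 < β - α :=
          (half_lt_self (lt_min hε (sub_pos.2 hαβ))).trans_le (min_le_right _ _)
        have g12 : α + min ε (β - α) / 2 ∈ U k' := by
          apply g11
          rw [Metric.mem_ball, Real.dist_eq, add_sub_cancel_left, abs_of_pos e0]
          exact e1
        have g13 : α + min ε (β - α) / 2 ∈ U k := h3 _ ⟨by linarith, by linarith⟩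
        have g14 := hdisj _ _ _ g12 g13
        rw [g14] at g10
        exact h4 g10
      linarith [ht.2]
  refine ⟨k, fun s hs => h3 _ ⟨by linarith [hs.1], by linarith [hs.2]⟩⟩

/-- One sided dichotomy at a state which is not mortal (`l` from `exists_min_length`).
Proof (`σ = 1`). If mortal points accumulate at `x` from the right, take one `y` with `x < y < x + l`, in
`Ex k`, and its maximal interval `(α, β)`, `α ≥ x`.  If `α > x`: a mortal point `y'` in `(x, α)` has a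
maximal interval `(α', β')` of constant exit time `k'` inside `[x, α]` (`α ∉ E`: if `(a, α) ∈ Ex m` then by `ex_loc`
and `ex_disjoint` `m = k`, excluded; so `β' ≤ α`), of length `< l`: contradiction.  So `α = x`, and
`β ≥ x + l`. -/
theorem dichotomy {l : ℝ} (hl : 0 < l)
    (hmin : ∀ (k : ℕ) (a : I) (α β : ℝ), α < β →
      (∀ x ∈ Ioo α β, (a, x) ∈ A.Ex k) → (a, α) ∉ A.Ex k → (a, β) ∉ A.Ex k → l ≤ β - α)
    {a : I} {x : ℝ} (hx : (a, x) ∉ A.E) {σ : ℝ} (hσ : σ = 1 ∨ σ = -1) :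
    (∃ k, ∀ t ∈ Ioo 0 l, (a, x + σ * t) ∈ A.Ex k) ∨
    (∃ ε > 0, ∀ t ∈ Ioo 0 ε, (a, x + σ * t) ∉ A.E) := by
  have hx' : ∀ k, (a, x) ∉ A.Ex k := fun k hk => hx (A.mem_E.2 ⟨k, hk⟩)
  rcases hσ with hσ | hσ
  · have h1 := dichotomy_aux (U := fun k => {y : ℝ | (a, y) ∈ A.Ex k}) (l := l)
      (fun k => A.isOpen_ex k a) (fun k m y h h' => A.ex_disjoint h h')
      (fun k y hy => by
        obtain ⟨α, β, h1, h2, h3, h4, h5⟩ := A.exists_maximal hy
        exact ⟨α, β, h1, h2, h3, h4, h5, hmin k a α β (h1.trans h2) h3 h4 h5⟩) hl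
      (x := x) hx'
    rcases h1 with ⟨k, hk⟩ | ⟨ε, hε, h1⟩
    · refine Or.inl ⟨k, fun t ht => ?_⟩
      have h2 := hk t ht
      rw [hσ, one_mul]
      exact h2
    · refine Or.inr ⟨ε, hε, fun t ht hE => ?_⟩
      rw [hσ, one_mul] at hE
      obtain ⟨k, hk⟩ := A.mem_E.1 hE
      exact h1 t ht k hk
  · have h1 := dichotomy_aux (U := fun k => {y : ℝ | (a, -y) ∈ A.Ex k}) (l := l)
      (fun k => (A.isOpen_ex k a).preimage continuous_neg)
      (fun k m y h h' => A.ex_disjoint h h')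
      (fun k y hy => by
        obtain ⟨α, β, h1, h2, h3, h4, h5⟩ := A.exists_maximal hy
        have h6 := hmin k a α β (h1.trans h2) h3 h4 h5
        refine ⟨-β, -α, by linarith, by linarith, ?_, ?_, ?_, by linarith⟩
        · intro z hz
          exact h3 (-z) ⟨by linarith [hz.2], by linarith [hz.1]⟩
        · show ¬ (a, - -β) ∈ A.Ex k
          rw [neg_neg]
          exact h5
        · show ¬ (a, - -α) ∈ A.Ex k
          rw [neg_neg]
          exact h4) hl
      (x := -x) (fun k hk => by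
        have h2 : (a, - -x) ∈ A.Ex k := hk
        rw [neg_neg] at h2
        exact hx' k h2)
    rcases h1 with ⟨k, hk⟩ | ⟨ε, hε, h1⟩
    · refine Or.inl ⟨k, fun t ht => ?_⟩
      have h2 : (a, -(-x + t)) ∈ A.Ex k := hk t ht
      have h3 : -(-x + t) = x + σ * t := by rw [hσ]; ring
      rw [h3] at h2
      exact h2
    · refine Or.inr ⟨ε, hε, fun t ht hE => ?_⟩
      obtain ⟨k, hk⟩ := A.mem_E.1 hE
      have h3 : x + σ * t = -(-x + t) := by rw [hσ]; ring
      rw [h3] at hk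
      exact h1 t ht k hk

end IntSys

end

end Pool.Agent.MP2e716c
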