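import Pool.Agent.H.MP_2e716c_an.Stab

open Set MeasureTheory Filter Topology

namespace Pool.Agent.MP2e716c

noncomputable section

namespace Table

variable {n : ℕ} [NeZero n] (T : Table n)

/-- Continuity of the billiard map.
Proof. Let `F x s = ip (γ j s - pt (i, x)) (I * vel (i, x))`.  `F x0 y0.1 = 0` and
`∂F/∂s (x0, y0.1) = ip (deriv (γ j) y0.1) (I * vel (i,x0)) = ± cos y0.2 ≠ 0` (use
`vel (i,x0) = inc (j,y0)`, `ip_I_mul_right`, `ip_inc_nor`).  So for every small `η > 0`, `F x0 (y0.1 ± η)`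
have opposite signs, this persists for `x` near `x0`, and by the intermediate value theorem there
is `s`, `|s - y0.1| < η`, with `F x s = 0`; then `γ j s = pt (i,x) + τ vel (i,x)` with
`τ = ip (γ j s - pt) vel` (`ip_decomp` with `u = vel`).  `chord_stable` gives
`Next (i,x) (j, s, arcsin (ip (vel (i,x)) (deriv (γ j) s)))`, and the arcsine is near
`arcsin (sin y0.2) = y0.2` by continuity. -/
theorem next_nhds {i j : Fin n} {x0 y0 : ℝ × ℝ} (h : T.Next (i, x0) (j, y0)) {U : Set (ℝ × ℝ)}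
    (hU : U ∈ 𝓝 y0) : ∀ᶠ x in 𝓝 x0, ∃ y ∈ U, T.Next (i, x) (j, y) := by
  obtain ⟨δ, hδ, hst⟩ := T.chord_stable h
  obtain ⟨hz, ha, τ0, hτ0, -, hp, hv⟩ := h
  have hcpt := T.continuous_pt i
  have hcvel := T.continuous_vel i
  have hcγ : Continuous (T.γ j) := (T.smooth j).continuous
  have hcdγ : Continuous (deriv (T.γ j)) := (T.smooth j).continuous_deriv (by norm_num)
  -- the function F
  set F : ℝ × ℝ → ℝ → ℝ := fun x s => ip (T.γ j s - T.pt (i, x)) (Complex.I * T.vel (i, x)) with hF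
  have hFc : Continuous (fun p : (ℝ × ℝ) × ℝ => F p.1 p.2) := by
    have h1 : Continuous (fun p : (ℝ × ℝ) × ℝ =>
        (T.γ j p.2 - T.pt (i, p.1), Complex.I * T.vel (i, p.1))) :=
      ((hcγ.comp continuous_snd).sub (hcpt.comp continuous_fst)).prodMk
        (continuous_const.mul (hcvel.comp continuous_fst))
    exact ip_continuous.comp h1
  have hF0 : F x0 y0.1 = 0 := by
    have : T.γ j y0.1 = T.pt (i, x0) + τ0 * T.vel (i, x0) := hp
    simp only [hF]
    rw [this, add_sub_cancel_left, ip_rmul_left, ip_I_self, mul_zero]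
  have hcos : 0 < Real.cos y0.2 := T.cos_pos ha
  have hder : HasDerivAt (F x0) (Real.cos y0.2) y0.1 := by
    have hdγ : HasDerivAt (T.γ j) (deriv (T.γ j) y0.1) y0.1 :=
      ((T.smooth j).differentiable (by norm_num) y0.1).hasDerivAt
    have hre : HasDerivAt (fun s => (T.γ j s).re) (deriv (T.γ j) y0.1).re y0.1 := by
      exact (Complex.reCLM.hasFDerivAt.comp_hasDerivAt y0.1 hdγ)
    have him : HasDerivAt (fun s => (T.γ j s).im) (deriv (T.γ j) y0.1).im y0.1 := by
      exact (Complex.imCLM.hasFDerivAt.comp_hasDerivAt y0.1 hdγ)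
    have h2 : HasDerivAt (F x0) (ip (deriv (T.γ j) y0.1) (Complex.I * T.vel (i, x0))) y0.1 := by
      have := ((hre.sub_const (T.pt (i, x0)).re).mul_const (Complex.I * T.vel (i, x0)).re).add
        ((him.sub_const (T.pt (i, x0)).im).mul_const (Complex.I * T.vel (i, x0)).im)
      exact this
    have h3 : ip (deriv (T.γ j) y0.1) (Complex.I * T.vel (i, x0)) = Real.cos y0.2 := by
      rw [← hv, ip_I_mul_right, ip_comm]
      have := T.ip_inc_nor ha
      rw [nor, tang] at this
      simp only at this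
      rw [this, neg_neg]
    rwa [h3] at h2
  -- sign of F near y0.1
  have hsl : ∀ᶠ s in 𝓝[≠] y0.1, 0 < slope (F x0) y0.1 s :=
    (hasDerivAt_iff_tendsto_slope.1 hder).eventually (lt_mem_nhds hcos)
  rw [eventually_nhdsWithin_iff, Metric.eventually_nhds_iff] at hsl
  obtain ⟨η1, hη1, hsl⟩ := hsl
  -- the target map
  set G : (ℝ × ℝ) × ℝ → ℝ × ℝ :=
    fun p => (p.2, Real.arcsin (ip (T.vel (i, p.1)) (deriv (T.γ j) p.2))) with hG
  have hGc : Continuous G := by
    have h1 : Continuous (fun p : (ℝ × ℝ) × ℝ => (T.vel (i, p.1), deriv (T.γ j) p.2)) :=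
      (hcvel.comp continuous_fst).prodMk (hcdγ.comp continuous_snd)
    exact continuous_snd.prodMk (Real.continuous_arcsin.comp (ip_continuous.comp h1))
  have hG0 : G (x0, y0.1) = y0 := by
    have h1 := T.ip_inc_tang ha
    rw [hv, tang] at h1
    simp only at h1
    simp only [hG]
    rw [h1, Real.arcsin_sin ha.2.1.le ha.2.2.le]
  have hGU : ∀ᶠ p in 𝓝 ((x0, y0.1) : (ℝ × ℝ) × ℝ), G p ∈ U :=
    hGc.continuousAt.eventually (by rw [hG0]; exact hU)
  rw [nhds_prod_eq] at hGU
  obtain ⟨pa, hpa, pb, hpb, hGab⟩ := Filter.eventually_prod_iff.1 hGU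
  rw [Metric.eventually_nhds_iff] at hpb
  obtain ⟨η2, hη2, hpb⟩ := hpb
  set η : ℝ := min (min δ η1) η2 / 2 with hη
  have hηpos : 0 < η := by positivity
  have hηδ : η < δ := by
    have : min (min δ η1) η2 ≤ δ := (min_le_left _ _).trans (min_le_left _ _)
    have h0 : 0 < min (min δ η1) η2 := by positivity
    linarith
  have hηη1 : η < η1 := by
    have : min (min δ η1) η2 ≤ η1 := (min_le_left _ _).trans (min_le_right _ _)
    have h0 : 0 < min (min δ η1) η2 := by positivity
    linarith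
  have hηη2 : η < η2 := by
    have : min (min δ η1) η2 ≤ η2 := min_le_right _ _
    have h0 : 0 < min (min δ η1) η2 := by positivity
    linarith
  have hpos : 0 < F x0 (y0.1 + η) := by
    have h1 := hsl (y := y0.1 + η) (by rw [Real.dist_eq]; simpa [abs_of_pos hηpos] using hηη1)
      (by simpa using hηpos.ne')
    rw [slope_def_field, hF0, sub_zero, add_sub_cancel_left] at h1
    exact (div_pos_iff_of_pos_right hηpos).1 h1
  have hneg : F x0 (y0.1 - η) < 0 := by
    have h1 := hsl (y := y0.1 - η) (by rw [Real.dist_eq]; simpa [abs_of_pos hηpos] using hηη1)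
      (by simpa using hηpos.ne')
    rw [slope_def_field, hF0, sub_zero, show y0.1 - η - y0.1 = -η by ring] at h1
    by_contra hcon
    push Not at hcon
    have := div_nonpos_of_nonneg_of_nonpos hcon (neg_nonpos.2 hηpos.le)
    linarith
  have e1 : ∀ᶠ x in 𝓝 x0, 0 < F x (y0.1 + η) := by
    have : Continuous (fun x => F x (y0.1 + η)) :=
      hFc.comp (continuous_id.prodMk continuous_const)
    exact this.continuousAt.eventually (lt_mem_nhds hpos)
  have e2 : ∀ᶠ x in 𝓝 x0, F x (y0.1 - η) < 0 := by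
    have : Continuous (fun x => F x (y0.1 - η)) :=
      hFc.comp (continuous_id.prodMk continuous_const)
    exact this.continuousAt.eventually (gt_mem_nhds hneg)
  have e3 : ∀ᶠ x in 𝓝 x0, (i, x) ∈ T.phase := by
    have ho : IsOpen {x : ℝ × ℝ | (i, x) ∈ T.phase} := by
      have : {x : ℝ × ℝ | (i, x) ∈ T.phase} =
        Ioo 0 (T.len i) ×ˢ Ioo (-(Real.pi / 2)) (Real.pi / 2) := by
        ext x; simp [phase]
      rw [this]
      exact isOpen_Ioo.prod isOpen_Ioo
    exact ho.mem_nhds hz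
  have e4 : ∀ᶠ x in 𝓝 x0, dist x x0 < δ := Metric.ball_mem_nhds x0 hδ
  filter_upwards [e1, e2, e3, e4, hpa] with x h1 h2 h3 h4 h5
  have hcF : ContinuousOn (F x) (Icc (y0.1 - η) (y0.1 + η)) :=
    (hFc.comp (continuous_const.prodMk continuous_id)).continuousOn
  obtain ⟨s, hs, hs0⟩ := intermediate_value_Icc (by linarith) hcF
    (show (0 : ℝ) ∈ Icc (F x (y0.1 - η)) (F x (y0.1 + η)) from ⟨h2.le, h1.le⟩)
  have hsη : |s - y0.1| ≤ η := by rw [abs_le]; constructor <;> linarith [hs.1, hs.2]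
  refine ⟨G (x, s), hGab h5 (hpb (by rw [Real.dist_eq]; linarith)), ?_⟩
  refine hst x h4 s (by linarith) (ip (T.γ j s - T.pt (i, x)) (T.vel (i, x))) ?_
  have hd := ip_decomp (T.γ j s - T.pt (i, x)) (T.vel (i, x)) (T.vel_norm h3)
  have hs1 : ip (T.γ j s - T.pt (i, x)) (Complex.I * T.vel (i, x)) = 0 := hs0
  rw [hs1] at hd
  rw [Complex.ofReal_zero, zero_mul, add_zero] at hd
  rw [← hd]; ring

end Table

end

end Pool.Agent.MP2e716c
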