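import Pool.Agent.H.MP_2e716c_an.BMap

open Set MeasureTheory Filter Topology

namespace Pool.Agent.MP2e716c

noncomputable section

namespace Table

variable {n : ℕ} [NeZero n] (T : Table n)

/-- Derivative of the billiard map at `z` with successor `a`. -/
def dmz (z a : Fin n × ℝ × ℝ) : ℝ × ℝ →L[ℝ] ℝ × ℝ :=
  dm ‖T.pt a - T.pt z‖ (T.curv z.1 z.2.1) (T.curv a.1 a.2.1) (Real.cos z.2.2) (Real.cos a.2.2)

/-- Derivative of the `k`-th iterate at `z`. -/
def Dk (z : Fin n × ℝ × ℝ) : ℕ → (ℝ × ℝ →L[ℝ] ℝ × ℝ)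
  | 0 => ContinuousLinearMap.id ℝ (ℝ × ℝ)
  | k + 1 => (T.dmz (T.bmap^[k] z) (T.bmap^[k + 1] z)).comp (Dk z k)

/-- Chain rule along an infinite orbit, by induction on `k` (`Function.iterate_succ'`,
`bmap_eventually`, `bmap_hasFDerivAt`; near `x` the arc `(bmap^[k] (i, y)).1` is constant, so
`(bmap^[k+1] (i,y)).2 = (bmap (j, (bmap^[k] (i,y)).2)).2` near `x`). -/
theorem iter_hasFDerivAt {i : Fin n} {x : ℝ × ℝ}
    (horb : ∀ k : ℕ, T.Next (T.bmap^[k] (i, x)) (T.bmap^[k + 1] (i, x))) (k : ℕ) :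
    (∀ᶠ y in 𝓝 x, (T.bmap^[k] (i, y)).1 = (T.bmap^[k] (i, x)).1) ∧
      HasFDerivAt (fun y => (T.bmap^[k] (i, y)).2) (T.Dk (i, x) k) x := by
  induction k with
  | zero => exact ⟨Eventually.of_forall fun y => rfl, hasFDerivAt_id x⟩
  | succ k ih =>
    obtain ⟨h1, h2⟩ := ih
    have hn : T.Next ((T.bmap^[k] (i, x)).1, (T.bmap^[k] (i, x)).2)
        ((T.bmap^[k + 1] (i, x)).1, (T.bmap^[k + 1] (i, x)).2) := horb k
    have h3 := h2.continuousAt.eventually (T.bmap_eventually hn)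
    have h4 : ∀ᶠ y in 𝓝 x, T.bmap^[k + 1] (i, y) =
        T.bmap ((T.bmap^[k] (i, x)).1, (T.bmap^[k] (i, y)).2) := by
      filter_upwards [h1] with y hy
      rw [Function.iterate_succ_apply', ← hy]
    constructor
    · filter_upwards [h3, h4] with y hy hy'
      rw [hy']
      exact hy.1
    · have h5 := (T.bmap_hasFDerivAt hn).comp x h2
      refine h5.congr_of_eventuallyEq ?_
      filter_upwards [h4] with y hy
      rw [hy]
      rfl

/-- Flux coordinates `X = cos θ · dr`, `Y = dθ`: the derivative becomes minus the nonnegative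
unimodular matrix `(1 + τκ, τ; κ1 (1 + τκ) + κ, 1 + τκ1)`, `κ = K / cos θ`, `κ1 = K1 / cos θ1`. -/
theorem dmz_flux {z a : Fin n × ℝ × ℝ} (hz : z ∈ T.phase) (ha : a ∈ T.phase) (u : ℝ × ℝ) :
    Real.cos a.2.2 * (T.dmz z a u).1 =
      -((1 + ‖T.pt a - T.pt z‖ * (T.curv z.1 z.2.1 / Real.cos z.2.2)) * (Real.cos z.2.2 * u.1) +
        ‖T.pt a - T.pt z‖ * u.2) ∧
    (T.dmz z a u).2 =
      -(((T.curv a.1 a.2.1 / Real.cos a.2.2) *
          (1 + ‖T.pt a - T.pt z‖ * (T.curv z.1 z.2.1 / Real.cos z.2.2)) +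
          T.curv z.1 z.2.1 / Real.cos z.2.2) * (Real.cos z.2.2 * u.1) +
        (1 + ‖T.pt a - T.pt z‖ * (T.curv a.1 a.2.1 / Real.cos a.2.2)) * u.2) := by
  have h1 : Real.cos z.2.2 ≠ 0 := (T.cos_pos hz).ne'
  have h2 : Real.cos a.2.2 ≠ 0 := (T.cos_pos ha).ne'
  rw [dmz, dm_apply]
  constructor
  · simp only
    field_simp
    ring
  · simp only
    field_simp
    ring

end Table

end

end Pool.Agent.MP2e716c
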