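import Pool.Agent.H.MP_2e716c_an.Basic

open Set MeasureTheory Filter Topology

namespace Pool.Agent.MP2e716c

noncomputable section

namespace Table

variable {n : ℕ} [NeZero n] (T : Table n)

theorem loc_hasDerivAt (i : Fin n) (u : ℂ) (s : ℝ) :
    HasDerivAt (fun s => ip (T.γ i s) u) (ip (deriv (T.γ i) s) u) s := by
  have h : HasDerivAt (T.γ i) (deriv (T.γ i) s) s :=
    ((T.smooth i).differentiable (by norm_num) s).hasDerivAt
  have hre : HasDerivAt (fun s => (T.γ i s).re) (deriv (T.γ i) s).re s :=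
    Complex.reCLM.hasFDerivAt.comp_hasDerivAt s h
  have him : HasDerivAt (fun s => (T.γ i s).im) (deriv (T.γ i) s).im s :=
    Complex.imCLM.hasFDerivAt.comp_hasDerivAt s h
  exact (hre.mul_const u.re).add (him.mul_const u.im)

theorem loc_cont (i : Fin n) (u : ℂ) : Continuous (fun s => ip (deriv (T.γ i) s) u) := by
  have h : Continuous (deriv (T.γ i)) := (T.smooth i).continuous_deriv (by norm_num)
  exact ip_continuous.comp (h.prodMk continuous_const)

/-- One step of the argument: solving the tangential equation. -/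
theorem loc_step (i : Fin n) {r0 : ℝ} (hr0 : ‖deriv (T.γ i) r0‖ = 1) {c η : ℝ}
    (ha : ∀ s, |s - r0| < η → 1 / 2 ≤ ip (deriv (T.γ i) s) (deriv (T.γ i) r0))
    (hb : ∀ s, |s - r0| < η → |ip (deriv (T.γ i) s) (Complex.I * deriv (T.γ i) r0)| ≤ c / 8)
    {r t : ℝ} (ht : 0 < t) (hrt : |r - r0| + 2 * t < η) {w : ℂ} (hw : ‖w‖ = 1) :
    ∃ s h : ℝ, |s - r| ≤ 2 * t ∧ T.γ i r + t * w = T.γ i s + h * (Complex.I * deriv (T.γ i) r0) ∧
      |h - t * ip w (Complex.I * deriv (T.γ i) r0)| ≤ c * t / 4 := by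
  set τ0 := deriv (T.γ i) r0 with hτ0
  have hcont : Continuous (fun s => ip (T.γ i s) τ0) :=
    continuous_iff_continuousAt.2 fun s => (T.loc_hasDerivAt i τ0 s).continuousAt
  have hin : ∀ s, |s - r| ≤ 2 * t → |s - r0| < η := by
    intro s hs
    have : |s - r0| ≤ |s - r| + |r - r0| := by
      have := abs_add_le (s - r) (r - r0)
      rwa [sub_add_sub_cancel] at this
    linarith
  -- growth of a
  have hgrow : ∀ s1 s2, |s1 - r| ≤ 2 * t → |s2 - r| ≤ 2 * t → s1 ≤ s2 →
      (s2 - s1) / 2 ≤ ip (T.γ i s2) τ0 - ip (T.γ i s1) τ0 := by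
    intro s1 s2 h1 h2 h12
    have hm := (convex_Icc s1 s2).mul_sub_le_image_sub_of_le_deriv
      (f := fun s => ip (T.γ i s) τ0) (C := 1 / 2) hcont.continuousOn
      (fun s _ => (T.loc_hasDerivAt i τ0 s).differentiableAt.differentiableWithinAt)
      (fun s hs => by
        rw [interior_Icc] at hs
        rw [(T.loc_hasDerivAt i τ0 s).deriv]
        apply ha s (hin s _)
        rw [abs_le] at h1 h2 ⊢
        constructor <;> linarith [hs.1, hs.2])
      s1 (left_mem_Icc.2 h12) s2 (right_mem_Icc.2 h12) h12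
    linarith
  have hbvar : ∀ s, |s - r| ≤ 2 * t →
      |ip (T.γ i s) (Complex.I * τ0) - ip (T.γ i r) (Complex.I * τ0)| ≤ c / 8 * |s - r| := by
    intro s hs
    have hm := (convex_Icc (r - 2 * t) (r + 2 * t)).norm_image_sub_le_of_norm_hasDerivWithin_le
      (f := fun s => ip (T.γ i s) (Complex.I * τ0))
      (f' := fun s => ip (deriv (T.γ i) s) (Complex.I * τ0)) (C := c / 8)
      (fun u _ => (T.loc_hasDerivAt i (Complex.I * τ0) u).hasDerivWithinAt)
      (fun u hu => by
        rw [Real.norm_eq_abs]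
        apply hb u (hin u _)
        rw [abs_le]
        constructor <;> linarith [hu.1, hu.2])
      (x := r) (y := s) ⟨by linarith, by linarith⟩
      (by rw [abs_le] at hs; exact ⟨by linarith [hs.1], by linarith [hs.2]⟩)
    simpa [Real.norm_eq_abs] using hm
  have hwt : |ip w τ0| ≤ 1 := by
    have := abs_ip_le w τ0
    rwa [hw, hr0, one_mul] at this
  have hwt' := abs_le.1 hwt
  have hr0' : |r - r| ≤ 2 * t := by simp; linarith
  have hup : ip (T.γ i r) τ0 + t * ip w τ0 ≤ ip (T.γ i (r + 2 * t)) τ0 := by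
    have h1 := hgrow r (r + 2 * t) hr0' (by rw [add_sub_cancel_left, abs_of_pos (by linarith)])
      (by linarith)
    nlinarith
  have hlo : ip (T.γ i (r - 2 * t)) τ0 ≤ ip (T.γ i r) τ0 + t * ip w τ0 := by
    have h1 := hgrow (r - 2 * t) r
      (by rw [sub_sub_cancel_left, abs_neg, abs_of_pos (by linarith)]) hr0' (by linarith)
    nlinarith
  obtain ⟨s, hs, hsa⟩ := intermediate_value_Icc (by linarith : r - 2 * t ≤ r + 2 * t)
    hcont.continuousOn ⟨hlo, hup⟩
  have hs' : |s - r| ≤ 2 * t := by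
    rw [abs_le]; exact ⟨by linarith [hs.1], by linarith [hs.2]⟩
  refine ⟨s, ip (T.γ i r + t * w - T.γ i s) (Complex.I * τ0), hs', ?_, ?_⟩
  · have hd := ip_decomp (T.γ i r + t * w - T.γ i s) τ0 hr0
    have h0 : ip (T.γ i r + t * w - T.γ i s) τ0 = 0 := by
      rw [ip_sub_left, ip_add_left, ip_rmul_left]
      simp only at hsa
      linarith
    rw [h0] at hd
    rw [Complex.ofReal_zero, zero_mul, zero_add] at hd
    rw [← hd]; ring
  · rw [ip_sub_left, ip_add_left, ip_rmul_left]
    have h1 := hbvar s hs'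
    have h2 : ip (T.γ i r) (Complex.I * τ0) + t * ip w (Complex.I * τ0)
        - ip (T.γ i s) (Complex.I * τ0) - t * ip w (Complex.I * τ0)
        = -(ip (T.γ i s) (Complex.I * τ0) - ip (T.γ i r) (Complex.I * τ0)) := by ring
    rw [h2, abs_neg]
    have hc0 : 0 ≤ c / 8 := le_trans (abs_nonneg _) (hb r (hin r hr0'))
    calc |ip (T.γ i s) (Complex.I * τ0) - ip (T.γ i r) (Complex.I * τ0)|
        ≤ c / 8 * |s - r| := h1
      _ ≤ c / 8 * (2 * t) := mul_le_mul_of_nonneg_left hs' hc0
      _ = c * t / 4 := by ring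

/-- Interior cone property near an interior point of an arc.
Proof. Put `τ0 = deriv (γ i) r0`, `N = I τ0`, `a s = ip (γ i s) τ0`, `b s = ip (γ i s) N`; WLOG `c ≤ 1`
(replace `c` by `min c 1`; or note `c ≤ ip v N ≤ 1` if some such `v` exists).
`a, b` are `C^1`, `a' r0 = 1`, `b' r0 = 0` (unit speed, `ip_I_self`), so for `|s - r0| < η`: `a' s ≥ 1/2`,
`|b' s| ≤ c/8`.  Let `ε0` come from `T.left` and `ε = min (η/4) (ε0/8)`.  For `x = γ r + t v`: by the
intermediate value theorem there is `s`, `|s - r| ≤ 2t`, with `a s = a r + t * ip v τ0 = ip x τ0`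
(as `a (r+2t) ≥ a r + t`, `a (r-2t) ≤ a r - t`).  `h = ip (x - γ s) N = t * ip v N + b r - b s` lies in
`(0, 2t]`, and `x = γ s + h N` by `ip_decomp`, so `x ∈ region` by `T.left` (at `s - r0`).  Same for
`x = γ r - t v`, with `h < 0`. -/
theorem inward_cone (i : Fin n) {r0 : ℝ} (hr : r0 ∈ Ioo 0 (T.len i)) {c : ℝ} (hc : 0 < c) :
    ∃ ε > 0, ∀ r : ℝ, |r - r0| < ε → ∀ v : ℂ, ‖v‖ = 1 →
      c ≤ ip v (Complex.I * deriv (T.γ i) r0) → ∀ t ∈ Ioo (0 : ℝ) ε,
        T.γ i r + t * v ∈ T.region ∧ T.γ i r - t * v ∉ T.region := by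
  have hunit : ‖deriv (T.γ i) r0‖ = 1 := T.unit i r0 ⟨hr.1.le, hr.2.le⟩
  obtain ⟨ε0, hε0, hleft⟩ := T.left i r0 hr
  set c' := min c 1 with hc'
  have hc'0 : 0 < c' := lt_min hc one_pos
  have hc'1 : c' ≤ 1 := min_le_right _ _
  have hc'c : c' ≤ c := min_le_left _ _
  have e1 : ∀ᶠ s in 𝓝 r0, 1 / 2 < ip (deriv (T.γ i) s) (deriv (T.γ i) r0) := by
    have h1 : ip (deriv (T.γ i) r0) (deriv (T.γ i) r0) = 1 := by rw [ip_self, hunit]; norm_num
    exact (T.loc_cont i (deriv (T.γ i) r0)).continuousAt.eventually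
      (lt_mem_nhds (by simp only [h1]; norm_num))
  have e2 : ∀ᶠ s in 𝓝 r0,
      |ip (deriv (T.γ i) s) (Complex.I * deriv (T.γ i) r0)| < c' / 8 := by
    have h1 : ip (deriv (T.γ i) r0) (Complex.I * deriv (T.γ i) r0) = 0 := ip_I_self _
    exact (T.loc_cont i (Complex.I * deriv (T.γ i) r0)).abs.continuousAt.eventually
      (gt_mem_nhds (by simp only [h1, abs_zero]; positivity))
  obtain ⟨η, hη, hball⟩ := Metric.eventually_nhds_iff.1 (e1.and e2)
  have ha : ∀ s, |s - r0| < η → 1 / 2 ≤ ip (deriv (T.γ i) s) (deriv (T.γ i) r0) :=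
    fun s hs => (hball (by rwa [Real.dist_eq])).1.le
  have hb : ∀ s, |s - r0| < η →
      |ip (deriv (T.γ i) s) (Complex.I * deriv (T.γ i) r0)| ≤ c' / 8 :=
    fun s hs => (hball (by rwa [Real.dist_eq])).2.le
  refine ⟨min (η / 4) (ε0 / 8), by positivity, ?_⟩
  intro r hrr v hv hcv t ht
  have ht0 := ht.1
  have htη : t < η / 4 := ht.2.trans_le (min_le_left _ _)
  have htε : t < ε0 / 8 := ht.2.trans_le (min_le_right _ _)
  have hrη : |r - r0| < η / 4 := hrr.trans_le (min_le_left _ _)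
  have hrε : |r - r0| < ε0 / 8 := hrr.trans_le (min_le_right _ _)
  have hvN : ip v (Complex.I * deriv (T.γ i) r0) ≤ 1 := by
    have := abs_ip_le v (Complex.I * deriv (T.γ i) r0)
    rw [hv, norm_mul, Complex.norm_I, hunit] at this
    exact (le_abs_self _).trans (by simpa using this)
  have hct : c' * t ≤ t := by nlinarith
  have hkey : c' * t ≤ t * ip v (Complex.I * deriv (T.γ i) r0) := by nlinarith
  have hkey2 : t * ip v (Complex.I * deriv (T.γ i) r0) ≤ t := by nlinarith
  have hc't : 0 < c' * t := by positivity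
  constructor
  · obtain ⟨s, h, hs, hx, hh⟩ := T.loc_step i hunit ha hb ht0
      (by linarith : |r - r0| + 2 * t < η) hv
    rw [abs_le] at hh
    have hss : |s - r0| < ε0 := by
      have := abs_add_le (s - r) (r - r0)
      rw [sub_add_sub_cancel] at this
      linarith
    have := (hleft (s - r0) h hss (by linarith [hh.1]) (by linarith [hh.2])).1
    rw [add_sub_cancel] at this
    rw [hx]; exact this
  · obtain ⟨s, h, hs, hx, hh⟩ := T.loc_step i hunit ha hb ht0
      (by linarith : |r - r0| + 2 * t < η) (w := -v) (by rw [norm_neg]; exact hv)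
    rw [ip_neg_left, abs_le] at hh
    have hss : |s - r0| < ε0 := by
      have := abs_add_le (s - r) (r - r0)
      rw [sub_add_sub_cancel] at this
      linarith
    have := (hleft (s - r0) (-h) hss (by linarith [hh.2]) (by linarith [hh.1])).2
    rw [add_sub_cancel] at this
    intro hcon
    apply this
    have e : T.γ i r - t * v = T.γ i r + t * (-v) := by ring
    rw [e, hx] at hcon
    convert hcon using 1
    push_cast; ring

end Table

end

end Pool.Agent.MP2e716c
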