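import Pool.Agent.H.MP_2e716c_an.ASet

open Set MeasureTheory Filter Topology

namespace Pool.Agent.MP2e716c

noncomputable section

private theorem unl_rmul (B : ℂ →L[ℝ] ℂ) (t : ℝ) (v : ℂ) : B ((t : ℂ) * v) = (t : ℂ) * B v := by
  rw [← Complex.real_smul, ← Complex.real_smul, map_smul]

private theorem unl_quad (B : ℂ →L[ℝ] ℂ) (s t : ℝ) (v w : ℂ) :
    ip (B ((s : ℂ) * v + (t : ℂ) * w)) ((s : ℂ) * v + (t : ℂ) * w) =
      s ^ 2 * ip (B v) v + s * t * (ip (B v) w + ip (B w) v) + t ^ 2 * ip (B w) w := by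
  rw [map_add, unl_rmul, unl_rmul]
  simp only [ip_add_left, ip_add_right, ip_rmul_left, ip_rmul_right]
  ring

/-- two zeros of a nonnegative nonzero form are parallel -/
private theorem unl_parallel (B : ℂ →L[ℝ] ℂ) (hB : ∀ v, 0 ≤ ip (B v) v)
    (hB1 : ∃ v, 0 < ip (B v) v) {v w : ℂ} (hv : ip (B v) v = 0) (hw : ip (B w) w = 0) :
    v.re * w.im - v.im * w.re = 0 := by
  by_contra hd
  have hc : ip (B v) w + ip (B w) v = 0 := by
    have h1 := hB ((1 : ℝ) * v + (1 : ℝ) * w)
    have h2 := hB ((1 : ℝ) * v + (-1 : ℝ) * w)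
    rw [unl_quad, hv, hw] at h1 h2
    linarith
  obtain ⟨x, hx⟩ := hB1
  have hd' : v.re * w.im - v.im * w.re ≠ 0 := hd
  obtain ⟨s, hs⟩ : ∃ s : ℝ, s * (v.re * w.im - v.im * w.re) = x.re * w.im - x.im * w.re :=
    ⟨_, div_mul_cancel₀ _ hd'⟩
  obtain ⟨t, ht⟩ : ∃ t : ℝ, t * (v.re * w.im - v.im * w.re) = v.re * x.im - v.im * x.re :=
    ⟨_, div_mul_cancel₀ _ hd'⟩
  have h3 : x = (s : ℂ) * v + (t : ℂ) * w := by
    apply Complex.ext
    · simp only [Complex.add_re, Complex.mul_re, Complex.ofReal_re, Complex.ofReal_im]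
      apply mul_right_cancel₀ hd'
      linear_combination (-v.re) * hs - w.re * ht
    · simp only [Complex.add_im, Complex.mul_im, Complex.ofReal_re, Complex.ofReal_im]
      apply mul_right_cancel₀ hd'
      linear_combination (-v.im) * hs - w.im * ht
  rw [h3, unl_quad, hv, hw, hc] at hx
  simp at hx

/-- A nonnegative quadratic form on the plane which is not zero vanishes on at most two unit
vectors `±v0`; in particular for at most countably many angles.
Proof. If `ip (B v) v = 0 = ip (B w) w` with `v, w` independent then for all real `s, t` the value at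
`s v + t w` is `s t (ip (B v) w + ip (B w) v) ≥ 0`, so the bracket is `0` and the form vanishes
identically.  Hence all zeros are parallel to one line, and `u(θ) = cos θ • a + sin θ • b` (with `a, b`
orthonormal) is in a given line for countably many `θ`. -/
theorem zero_angles (B : ℂ →L[ℝ] ℂ) (hB : ∀ v, 0 ≤ ip (B v) v) (hB1 : ∃ v, 0 < ip (B v) v)
    {a : ℂ} (ha : ‖a‖ = 1) :
    {θ : ℝ | ip (B ((Real.cos θ : ℂ) * (Complex.I * a) + (Real.sin θ : ℂ) * a))
      ((Real.cos θ : ℂ) * (Complex.I * a) + (Real.sin θ : ℂ) * a) = 0}.Countable := by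
  rcases Set.eq_empty_or_nonempty {θ : ℝ | ip (B ((Real.cos θ : ℂ) * (Complex.I * a) +
      (Real.sin θ : ℂ) * a)) ((Real.cos θ : ℂ) * (Complex.I * a) + (Real.sin θ : ℂ) * a) = 0}
    with h | ⟨θ0, h0⟩
  · rw [h]
    exact countable_empty
  · refine (countable_range fun m : ℤ => θ0 - m * Real.pi).mono ?_
    intro θ hθ
    have h1 := unl_parallel B hB hB1 hθ h0
    have h2 : a.re * a.re + a.im * a.im = 1 := by
      have := ip_self a
      rw [ha] at this
      simpa [ip] using this
    have h3 : Real.sin (θ0 - θ) = 0 := by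
      rw [Real.sin_sub]
      simp only [Complex.add_re, Complex.add_im, Complex.mul_re, Complex.mul_im,
        Complex.ofReal_re, Complex.ofReal_im, Complex.I_re, Complex.I_im] at h1
      linear_combination (-1 : ℝ) * h1 - (Real.sin θ0 * Real.cos θ - Real.cos θ0 * Real.sin θ) * h2
    obtain ⟨m, hm⟩ := Real.sin_eq_zero_iff.1 h3
    refine ⟨m, ?_⟩
    simp only
    linarith

namespace Table

variable {n : ℕ} [NeZero n] (T : Table n)

/-- The Lyapunov function `F z = ip (B (pt z) + b) (vel z)`. -/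
def lyap (B : ℂ →L[ℝ] ℂ) (b : ℂ) (z : Fin n × ℝ × ℝ) : ℝ := ip (B (T.pt z) + b) (T.vel z)

/-- `vel a = inc a + 2 cos θ nor a`, `pt a = pt z + τ vel z`, `inc a = vel z`. -/
theorem lyap_next (B : ℂ →L[ℝ] ℂ) (b : ℂ) {z a : Fin n × ℝ × ℝ} (h : T.Next z a) :
    T.lyap B b a = T.lyap B b z + ‖T.pt a - T.pt z‖ * ip (B (T.vel z)) (T.vel z) +
      2 * Real.cos a.2.2 * ip (B (T.pt a) + b) (T.nor a) := by
  obtain ⟨hz, ha, τ, hτ, -, hp, hv⟩ := h
  have h1 : ‖T.pt a - T.pt z‖ = τ := by
    rw [hp, add_sub_cancel_left, norm_mul, T.vel_norm hz, mul_one, Complex.norm_real,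
      Real.norm_of_nonneg hτ.le]
  have h2 : T.vel a = T.vel z + ((2 * Real.cos a.2.2 : ℝ) : ℂ) * T.nor a := by
    rw [← hv, vel, inc]
    push_cast
    ring
  rw [h1, lyap, lyap, h2, ip_add_right, ip_rmul_right]
  have h3 : ip (B (T.pt a) + b) (T.vel z) =
      ip (B (T.pt z) + b) (T.vel z) + τ * ip (B (T.vel z)) (T.vel z) := by
    rw [hp, map_add, unl_rmul]
    simp only [ip_add_left, ip_rmul_left]
    ring
  rw [h3]

omit [NeZero n] in
private theorem unl_meas {f : Fin n × ℝ × ℝ → ℝ} (hf : ∀ i, Measurable fun x => f (i, x)) :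
    Measurable f :=
  measurable_from_prod_countable_right hf

private theorem unl_cont (i : Fin n) :
    Continuous (fun x : ℝ × ℝ => T.pt (i, x)) ∧ Continuous (fun x : ℝ × ℝ => T.vel (i, x)) := by
  have h1 : Continuous (T.γ i) := (T.smooth i).continuous
  have h2 : Continuous (deriv (T.γ i)) := (T.smooth i).continuous_deriv (by norm_num)
  constructor
  · exact h1.comp continuous_fst
  · have h3 : Continuous fun x : ℝ × ℝ => deriv (T.γ i) x.1 := h2.comp continuous_fst
    exact ((Complex.continuous_ofReal.comp (Real.continuous_cos.comp continuous_snd)).mul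
      (continuous_const.mul h3)).add
      ((Complex.continuous_ofReal.comp (Real.continuous_sin.comp continuous_snd)).mul h3)

theorem measurable_lyap (B : ℂ →L[ℝ] ℂ) (b : ℂ) : Measurable (T.lyap B b) := by
  apply unl_meas
  intro i
  obtain ⟨h1, h2⟩ := T.unl_cont i
  have : Continuous fun x : ℝ × ℝ => ip (B (T.pt (i, x)) + b) (T.vel (i, x)) :=
    ip_continuous.comp ((((B.continuous.comp h1).add continuous_const)).prodMk h2)
  exact this.measurable

theorem lyap_bounded (B : ℂ →L[ℝ] ℂ) (b : ℂ) : ∃ C : ℝ, ∀ z ∈ T.phase, |T.lyap B b z| ≤ C := by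
  have hb : Bornology.IsBounded (frontier T.region) :=
    T.bounded.closure.subset frontier_subset_closure
  obtain ⟨R, hR⟩ := hb.exists_norm_le
  refine ⟨‖B‖ * R + ‖b‖, fun z hz => ?_⟩
  refine (abs_ip_le _ _).trans ?_
  rw [T.vel_norm hz, mul_one]
  refine (norm_add_le _ _).trans (add_le_add ((B.le_opNorm _).trans ?_) le_rfl)
  exact mul_le_mul_of_nonneg_left (hR _ (T.pt_mem_frontier hz)) (norm_nonneg _)

/-- Test field criterion.
Proof. `F = lyap B b`, `A = AS S`; `ae_eq_of_le_comp` (with `lyap_next`: both increments are `≥ 0` on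
`AS S`) gives `F (bmap z) = F z` for a.e. `z ∈ A`, also for all iterates.  So for a.e. `z ∈ A`, for all
`k`, with `w = bmap^[k] z`: `ip (B (vel w)) (vel w) = 0` and `ip (B (pt w1) + b) (nor w1) = 0`
(`w1 = bmap w`).  If `∃ v, 0 < ip (B v) v`: `zero_angles` with `a = tang z` and Fubini: null.  Otherwise there are
`i ∈ S` and `r` with `g r > 0`, `g s = ip (B (γ i s) + b) (I * deriv (γ i) s)`, which is an affine function
of `s` on the straight side `i`, nonnegative on `[0, len i]`, so `g > 0` on `Ioo 0 (len i)`; but the orbit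
hits side `i` at some time `≥ 1`: contradiction, `A` minus the null set is empty. -/
theorem AS_null_of_unloaded {S : Set (Fin n)}
    (hs : ∀ i ∈ S, ∃ p u : ℂ, ∀ r : ℝ, T.γ i r = p + r * u) (h : T.Unloaded S) :
    T.μ (T.AS S) = 0 := by
  obtain ⟨B, b, hB, hN, hstrict⟩ := h
  obtain ⟨C, hC⟩ := T.lyap_bounded B b
  have hmem : ∀ z ∈ T.AS S, T.Next z (T.bmap z) ∧ T.bmap z ∈ T.AS S := fun z hz =>
    ⟨(hz 0).1, T.AS_inv hz 1⟩
  have hnn : ∀ z ∈ T.AS S, 0 ≤ ‖T.pt (T.bmap z) - T.pt z‖ * ip (B (T.vel z)) (T.vel z) ∧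
      0 ≤ 2 * Real.cos (T.bmap z).2.2 * ip (B (T.pt (T.bmap z)) + b) (T.nor (T.bmap z)) := by
    intro z hz
    obtain ⟨h1, h2⟩ := hmem z hz
    have h3 : T.bmap z ∈ T.phase := h1.2.1
    have h4 : (T.bmap z).1 ∈ S := (h2 0).2.1
    refine ⟨mul_nonneg (norm_nonneg _) (hB _), mul_nonneg ?_ ?_⟩
    · exact mul_nonneg zero_le_two (T.cos_pos h3).le
    · exact hN _ h4 _ ⟨h3.1.1.le, h3.1.2.le⟩
  have hae := ae_eq_of_le_comp T.measurePreserving_bmap (T.measurableSet_AS S)
    (fun z hz => (hmem z hz).2) (T.measurable_lyap B b) (C := C)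
    (fun z hz => hC z (hz 0).1.1) (fun z hz => by
      obtain ⟨h1, h2⟩ := hnn z hz
      rw [T.lyap_next B b (hmem z hz).1]
      linarith)
  have hzero : ∀ z ∈ T.AS S, T.lyap B b (T.bmap z) = T.lyap B b z →
      ip (B (T.vel z)) (T.vel z) = 0 ∧
        ip (B (T.pt (T.bmap z)) + b) (T.nor (T.bmap z)) = 0 := by
    intro z hz he
    obtain ⟨h1, h2⟩ := hnn z hz
    have h3 := (hmem z hz).1
    rw [T.lyap_next B b h3] at he
    have e1 : ‖T.pt (T.bmap z) - T.pt z‖ * ip (B (T.vel z)) (T.vel z) = 0 := by linarith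
    have e2 : 2 * Real.cos (T.bmap z).2.2 *
        ip (B (T.pt (T.bmap z)) + b) (T.nor (T.bmap z)) = 0 := by linarith
    have hcos := T.cos_pos h3.2.1
    constructor
    · refine (mul_eq_zero.1 e1).resolve_left ?_
      obtain ⟨hzp, -, τ, hτ, -, hp, -⟩ := h3
      rw [hp, add_sub_cancel_left, norm_mul, T.vel_norm hzp, mul_one, Complex.norm_real,
        Real.norm_of_nonneg hτ.le]
      exact hτ.ne'
    · exact (mul_eq_zero.1 e2).resolve_left (by positivity)
  rw [measure_eq_zero_iff_ae_notMem]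
  rcases hstrict with hv | ⟨i, hi, r, hr, hpos⟩
  · have hnz : ∀ᵐ z ∂T.μ, ip (B (T.vel z)) (T.vel z) ≠ 0 := by
      refine T.ae_mu_iff.2 fun i => ?_
      have hm : MeasurableSet {x : ℝ × ℝ | ¬((i, x) ∈ T.phase →
          ip (B (T.vel (i, x))) (T.vel (i, x)) ≠ 0)} := by
        have hc : Continuous fun x : ℝ × ℝ => ip (B (T.vel (i, x))) (T.vel (i, x)) :=
          ip_continuous.comp ((B.continuous.comp (T.unl_cont i).2).prodMk (T.unl_cont i).2)
        have he : {x : ℝ × ℝ | ¬((i, x) ∈ T.phase →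
            ip (B (T.vel (i, x))) (T.vel (i, x)) ≠ 0)} =
            (Prod.mk i ⁻¹' T.phase) ∩ {x | ip (B (T.vel (i, x))) (T.vel (i, x)) = 0} := by
          ext x
          simp only [mem_ofPred_eq, Classical.not_imp, not_not, mem_inter_iff, mem_preimage]
        rw [he]
        exact (measurable_prodMk_left T.measurableSet_phase).inter
          (isClosed_eq hc continuous_const).measurableSet
      rw [ae_iff, Measure.volume_eq_prod, Measure.measure_prod_null hm]
      apply Eventually.of_forall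
      intro s
      by_cases hs1 : s ∈ Ioo 0 (T.len i)
      · have hcount := zero_angles B hB hv (T.unit i s ⟨hs1.1.le, hs1.2.le⟩)
        refine measure_mono_null ?_ (hcount.measure_zero volume)
        intro θ hθ
        simp only [mem_preimage, mem_ofPred_eq, Classical.not_imp, not_not] at hθ
        exact hθ.2
      · have he : (Prod.mk s ⁻¹' {x : ℝ × ℝ | ¬((i, x) ∈ T.phase →
            ip (B (T.vel (i, x))) (T.vel (i, x)) ≠ 0)}) = ∅ := by
          ext θ
          simp only [mem_preimage, mem_ofPred_eq, Classical.not_imp, mem_empty_iff_false, iff_false,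
            not_and]
          intro h
          exact absurd h.1 hs1
        simp only [he, measure_empty, Pi.zero_apply]
    filter_upwards [hae, hnz] with z h1 h2 hz
    exact h2 (hzero z hz (h1 hz)).1
  · have hiter : ∀ᵐ z ∂T.μ, ∀ k : ℕ, T.bmap^[k] z ∈ T.AS S →
        T.lyap B b (T.bmap (T.bmap^[k] z)) = T.lyap B b (T.bmap^[k] z) := by
      rw [ae_all_iff]
      intro k
      exact (T.measurePreserving_bmap.iterate k).quasiMeasurePreserving.ae hae
    filter_upwards [hiter] with z h1 hz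
    obtain ⟨m, hm, hmi⟩ := (hz 1).2.2 i hi
    obtain ⟨k, rfl⟩ : ∃ k, m = k + 1 := ⟨m - 1, by omega⟩
    have hw := T.AS_inv hz k
    have h2 := (hzero _ hw (h1 k hw)).2
    have hph : T.bmap^[k + 1] z ∈ T.phase := (hz k).1.2.1
    rw [← Function.iterate_succ_apply' T.bmap k z] at h2
    obtain ⟨p, u, hpu⟩ := hs i hi
    have hd : ∀ s : ℝ, deriv (T.γ i) s = u := by
      intro s
      have : T.γ i = fun r : ℝ => p + (r : ℂ) * u := funext hpu
      rw [this]
      have h3 : HasDerivAt (fun r : ℝ => p + (r : ℂ) * u) (1 * u) s :=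
        ((Complex.ofRealCLM.hasDerivAt (x := s)).mul_const u).const_add p
      rw [h3.deriv, one_mul]
    have haff : ∀ s : ℝ, ip (B (T.γ i s) + b) (Complex.I * deriv (T.γ i) s) =
        ip (B p + b) (Complex.I * u) + s * ip (B u) (Complex.I * u) := by
      intro s
      rw [hd, hpu, map_add, unl_rmul]
      simp only [ip_add_left, ip_rmul_left]
      ring
    have h0 := hN i hi 0 ⟨le_rfl, (T.len_pos i).le⟩
    have hl := hN i hi (T.len i) ⟨(T.len_pos i).le, le_rfl⟩
    have hx : (T.bmap^[k + 1] z).2.1 ∈ Ioo 0 (T.len i) := by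
      have := hph.1
      rwa [hmi] at this
    have h5 : ip (B (T.γ i (T.bmap^[k + 1] z).2.1) + b)
        (Complex.I * deriv (T.γ i) (T.bmap^[k + 1] z).2.1) = 0 := by
      have h6 : T.pt (T.bmap^[k + 1] z) = T.γ i (T.bmap^[k + 1] z).2.1 := by
        rw [pt, hmi]
      have h7 : T.nor (T.bmap^[k + 1] z) =
          Complex.I * deriv (T.γ i) (T.bmap^[k + 1] z).2.1 := by
        rw [nor, tang, hmi]
      rw [← h6, ← h7]
      exact h2
    rw [haff] at h0 hl hpos h5
    generalize ip (B p + b) (Complex.I * u) = α at *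
    generalize ip (B u) (Complex.I * u) = β at *
    generalize (T.bmap^[k + 1] z).2.1 = x at *
    have hα : α = 0 := by nlinarith [hx.1, hx.2, T.len_pos i]
    subst hα
    have hβ : β = 0 := by
      have : x * β = 0 := by linarith
      exact (mul_eq_zero.1 this).resolve_left hx.1.ne'
    subst hβ
    simp at hpos

end Table

end

end Pool.Agent.MP2e716c
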