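import Pool.Agent.H.MP_2e716c_an.Geo8
import Pool.Agent.H.MP_2e716c_an.Unl
import Pool.Agent.H.MP_2e716c_an.Grow

open Set MeasureTheory Filter Topology

namespace Pool.Agent.MP2e716c

noncomputable section

namespace SemiDisp

variable {n : ℕ} [NeZero n] (T : SemiDisp n)

/-- Transfer of the test field criterion from `P` to `Y` (same neutral sides). -/
theorem unloaded_Y {S : Set (Fin n)} (hS : Disjoint S T.disp) (h : T.P.Unloaded S) :
    T.Y.Unloaded S := by
  have key : ∀ i ∈ S, T.Y.len i = T.P.len i ∧ T.Y.γ i = T.P.γ i := fun i hi =>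
    T.neutral i (fun h' => (Set.disjoint_left.1 hS hi) h')
  obtain ⟨B, b, h1, h2, h3⟩ := h
  refine ⟨B, b, h1, ?_, ?_⟩
  · intro i hi r hr
    rw [(key i hi).1] at hr
    rw [(key i hi).2]
    exact h2 i hi r hr
  · rcases h3 with h3 | ⟨i, hi, r, hr, h3⟩
    · exact Or.inl h3
    · refine Or.inr ⟨i, hi, r, ?_, ?_⟩
      · rw [(key i hi).1]; exact hr
      · rw [(key i hi).2]; exact h3

/-- Curvature of a neutral side is `0`. -/
theorem curv_neutral {i : Fin n} (hi : i ∉ T.disp) (r : ℝ) : T.Y.curv i r = 0 := by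
  obtain ⟨p, u, hpu⟩ := T.straight i
  have h1 : T.Y.γ i = fun r : ℝ => p + r * u := by
    rw [(T.neutral i hi).2]; funext r; exact hpu r
  have h2 : deriv (T.Y.γ i) = fun _ => u := by
    rw [h1]; funext r
    have : HasDerivAt (fun r : ℝ => p + (r : ℂ) * u) (1 * u) r :=
      ((Complex.ofRealCLM.hasDerivAt (x := r)).mul_const u).const_add p
    rw [this.deriv, one_mul]
  rw [Table.curv, h2]
  simp [ip]

theorem hyperbolic (h : ∀ S : Set (Fin n), S.Nonempty → Disjoint S T.disp →
    T.P.Unloaded S ∨ T.P.Rational S) : T.Y.Hyperbolic := by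
  refine T.Y.hyperbolic_of_frequently T.disp ?_ T.curved ?_
  · intro i r hr
    by_cases hi : i ∈ T.disp
    · exact (T.curved i hi r hr).le
    · rw [T.curv_neutral hi]
  · refine T.Y.ae_frequently T.disp ?_
    intro S hne hS
    rcases h S hne hS with hu | hr
    · refine T.Y.AS_null_of_unloaded ?_ (T.unloaded_Y hS hu)
      intro i hi
      have hi' : i ∉ T.disp := fun h' => (Set.disjoint_left.1 hS hi) h'
      rw [(T.neutral i hi').2]
      exact T.straight i
    · exact T.AS_null_of_rational hS hr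

theorem main_deriv (i : Fin n) (r : ℝ) : deriv (T.P.γ i) r = deriv (T.P.γ i) 0 := by
  obtain ⟨p, u, hpu⟩ := T.straight i
  have h1 : T.P.γ i = fun r : ℝ => p + r * u := by funext r; exact hpu r
  have h2 : deriv (T.P.γ i) = fun _ => u := by
    rw [h1]; funext r
    have : HasDerivAt (fun r : ℝ => p + (r : ℂ) * u) (1 * u) r :=
      ((Complex.ofRealCLM.hasDerivAt (x := r)).mul_const u).const_add p
    rw [this.deriv, one_mul]
  rw [h2]

theorem main_eq (i : Fin n) (r : ℝ) :
    T.P.γ i r = T.P.γ i 0 + r * deriv (T.P.γ i) 0 := by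
  obtain ⟨p, u, hpu⟩ := T.straight i
  have h1 : T.P.γ i = fun r : ℝ => p + r * u := by funext r; exact hpu r
  have h2 : deriv (T.P.γ i) = fun _ => u := by
    rw [h1]; funext r
    have : HasDerivAt (fun r : ℝ => p + (r : ℂ) * u) (1 * u) r :=
      ((Complex.ofRealCLM.hasDerivAt (x := r)).mul_const u).const_add p
    rw [this.deriv, one_mul]
  rw [h2, hpu, hpu]; simp

theorem main_norm (i : Fin n) : ‖deriv (T.P.γ i) 0‖ = 1 :=
  T.P.unit i 0 ⟨le_refl _, (T.P.len_pos i).le⟩

theorem main_ip (u v : ℂ) (hu : ‖u‖ = 1) (hv : ‖v‖ = 1) (h : u ≠ -v) : -1 < ip u v := by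
  have h1 := ip_self (u + v)
  rw [ip_add_left, ip_add_right, ip_add_right, ip_self, ip_self, hu, hv, ip_comm v u] at h1
  have h2 : 0 < ‖u + v‖ := by
    rw [norm_pos_iff]; intro h0; exact h (eq_neg_of_add_eq_zero_left h0)
  nlinarith [sq_pos_of_pos h2]

/-- One or two sides of a polygon: take `B = 0`, `b = N_i + N_j`, or, if `N_j = -N_i`,
`B x = ip x u • u` with `u` the direction of the sides and `b = 0`. -/
theorem unloaded_of_le_two {S : Set (Fin n)} (hne : S.Nonempty) (h2 : S.ncard ≤ 2) :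
    T.P.Unloaded S := by
  -- a constant field is enough unless two normals are opposite
  have hconst : (∃ b : ℂ, ∀ i ∈ S, 0 < ip b (Complex.I * deriv (T.P.γ i) 0)) → T.P.Unloaded S := by
    rintro ⟨b, hb⟩
    obtain ⟨i0, hi0⟩ := hne
    refine ⟨0, b, ?_, ?_, Or.inr ⟨i0, hi0, 0, ⟨le_refl _, (T.P.len_pos i0).le⟩, ?_⟩⟩
    · intro v; simp [ip]
    · intro i hi r hr
      rw [T.main_deriv]
      simpa using (hb i hi).le
    · simpa using hb i0 hi0
  obtain ⟨i, hi⟩ := hne
  by_cases hsub : S ⊆ {i}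
  · apply hconst
    refine ⟨Complex.I * deriv (T.P.γ i) 0, ?_⟩
    intro j hj
    have hji : j = i := hsub hj
    subst hji
    rw [ip_I_mul, ip_self, T.main_norm]; norm_num
  · obtain ⟨j, hj, hji⟩ := Set.not_subset.1 hsub
    have hji' : j ≠ i := hji
    have hS : ∀ k ∈ S, k = i ∨ k = j := by
      intro k hk
      by_contra hcon
      push Not at hcon
      have h3 : ({i, j, k} : Set (Fin n)).ncard ≤ S.ncard := by
        apply Set.ncard_le_ncard _ (Set.toFinite S)
        intro x hx
        simp only [Set.mem_insert_iff, Set.mem_singleton_iff] at hx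
        rcases hx with rfl | rfl | rfl
        · exact hi
        · exact hj
        · exact hk
      have h4 : ({i, j, k} : Set (Fin n)).ncard = 3 := by
        rw [Set.ncard_eq_three]
        exact ⟨i, j, k, hji'.symm, hcon.1.symm, hcon.2.symm, rfl⟩
      omega
    by_cases hop : deriv (T.P.γ j) 0 = -deriv (T.P.γ i) 0
    · -- parallel case
      set u := deriv (T.P.γ i) 0 with hu
      let B : ℂ →L[ℝ] ℂ := LinearMap.toContinuousLinearMap
        { toFun := fun x => (ip x u : ℂ) * u
          map_add' := fun x y => by rw [ip_add_left]; push_cast; ring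
          map_smul' := fun c x => by
            simp only [RingHom.id_apply, Complex.real_smul]
            rw [ip_rmul_left]; push_cast; ring }
      have hB : ∀ x, B x = (ip x u : ℂ) * u := fun x => rfl
      refine ⟨B, 0, ?_, ?_, Or.inl ⟨u, ?_⟩⟩
      · intro v
        rw [hB, ip_rmul_left, ip_comm u v]
        exact mul_self_nonneg _
      · intro k hk r hr
        rw [T.main_deriv, hB, add_zero, ip_rmul_left]
        rcases hS k hk with rfl | rfl
        · rw [← hu, ip_I_self, mul_zero]
        · rw [hop, mul_neg, ip_neg_right, ip_I_self, neg_zero, mul_zero]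
      · rw [hB, ip_rmul_left, ip_self, hu, T.main_norm]; norm_num
    · apply hconst
      refine ⟨Complex.I * deriv (T.P.γ i) 0 + Complex.I * deriv (T.P.γ j) 0, ?_⟩
      have h1 : -1 < ip (deriv (T.P.γ j) 0) (deriv (T.P.γ i) 0) :=
        main_ip _ _ (T.main_norm j) (T.main_norm i) hop
      intro k hk
      rcases hS k hk with rfl | rfl
      · rw [ip_add_left, ip_I_mul, ip_I_mul, ip_self, T.main_norm]; linarith
      · rw [ip_add_left, ip_I_mul, ip_I_mul, ip_self, T.main_norm, ip_comm]; linarith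

/-- Common point of all closed outer half planes: `B x = x`, `b = -O`. -/
theorem unloaded_of_common {S : Set (Fin n)} {O : ℂ}
    (h : ∀ i ∈ S, 0 ≤ ip (T.P.γ i 0 - O) (Complex.I * deriv (T.P.γ i) 0)) :
    T.P.Unloaded S := by
  refine ⟨ContinuousLinearMap.id ℝ ℂ, -O, ?_, ?_, Or.inl ⟨1, ?_⟩⟩
  · intro v
    simp only [ContinuousLinearMap.id_apply, ip_self]; positivity
  · intro i hi r hr
    rw [T.main_deriv, T.main_eq i r]
    simp only [ContinuousLinearMap.id_apply]
    have e : T.P.γ i 0 + (r : ℂ) * deriv (T.P.γ i) 0 + -O =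
      (T.P.γ i 0 - O) + (r : ℂ) * deriv (T.P.γ i) 0 := by ring
    rw [e, ip_add_left, ip_rmul_left, ip_I_self, mul_zero, add_zero]
    exact h i hi
  · simp [ip]

/-- Common outer direction: `B = 0`, `b = -e`. -/
theorem unloaded_of_direction {S : Set (Fin n)} (hne : S.Nonempty) {e : ℂ}
    (h : ∀ i ∈ S, ip e (Complex.I * deriv (T.P.γ i) 0) < 0) :
    T.P.Unloaded S := by
  obtain ⟨i0, hi0⟩ := hne
  refine ⟨0, -e, ?_, ?_, Or.inr ⟨i0, hi0, 0, ⟨le_refl _, (T.P.len_pos i0).le⟩, ?_⟩⟩
  · intro v; simp [ip]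
  · intro i hi r hr
    rw [T.main_deriv]
    simp only [zero_apply, zero_add, ip_neg_left]
    linarith [h i hi]
  · simp only [zero_apply, zero_add, ip_neg_left]
    linarith [h i0 hi0]

end SemiDisp

end

end Pool.Agent.MP2e716c
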