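import Pool.Agent.H.MP_2e716c_an.Hit

open Set MeasureTheory Filter Topology

namespace Pool.Agent.MP2e716c

noncomputable section

namespace Table

variable {n : ℕ} [NeZero n] (T : Table n)

/-- `vel` as a rotation of the inward normal. -/
private theorem sard_vel (i : Fin n) (r θ : ℝ) :
    T.vel (i, r, θ) = (Complex.I * deriv (T.γ i) r) * Complex.exp (((-θ : ℝ) : ℂ) * Complex.I) := by
  rw [Complex.exp_mul_I, ← Complex.ofReal_cos, ← Complex.ofReal_sin, Real.cos_neg, Real.sin_neg]
  simp only [vel, nor, tang]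
  push_cast
  linear_combination (Complex.sin (θ : ℂ) * deriv (T.γ i) r) * Complex.I_mul_I

/-- A point on the ray determines the angle. -/
private theorem sard_arg {N w : ℂ} {θ τ : ℝ} (hN : N ≠ 0) (hτ : 0 < τ)
    (hθ : θ ∈ Ioo (-(Real.pi / 2)) (Real.pi / 2))
    (h : w = τ * (N * Complex.exp (((-θ : ℝ) : ℂ) * Complex.I))) :
    -Complex.arg (w / N) = θ ∧ 0 < (w / N).re := by
  have h1 : w / N = (τ : ℂ) * Complex.exp (((-θ : ℝ) : ℂ) * Complex.I) := by
    rw [h]; field_simp
  constructor
  · rw [h1, Complex.arg_real_mul _ hτ, Complex.exp_mul_I, Complex.arg_cos_add_sin_mul_I]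
    · simp
    · constructor
      · have := hθ.2; have := Real.pi_pos; linarith
      · have := hθ.1; have := Real.pi_pos; linarith
  · rw [h1, Complex.re_ofReal_mul, Complex.exp_ofReal_mul_I_re, Real.cos_neg]
    exact mul_pos hτ (Real.cos_pos_of_mem_Ioo hθ)

/-- One dimensional Sard theorem for the argument of a curve. -/
private theorem sard_null (c : ℝ → ℂ) (hc : ∀ s, HasDerivAt c (deriv c s) s) (q N : ℂ)
    (A : Set ℝ) (hA : ∀ s ∈ A, 0 < ((c s - q) / N).re ∧ (deriv c s / (c s - q)).im = 0) :
    volume ((fun s : ℝ => -Complex.arg ((c s - q) / N)) '' A) = 0 := by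
  have hder : ∀ s ∈ A, HasFDerivWithinAt (fun s : ℝ => -Complex.arg ((c s - q) / N))
      (0 : ℝ →L[ℝ] ℝ) A s := by
    intro s hs
    obtain ⟨h1, h2⟩ := hA s hs
    have hN : N ≠ 0 := by
      rintro rfl
      simp at h1
    have hw : HasDerivAt (fun s : ℝ => (c s - q) / N) (deriv c s / N) s :=
      ((hc s).sub_const q).div_const N
    have hsl : (c s - q) / N ∈ Complex.slitPlane := Or.inl h1
    have hlog := hw.clog_real hsl
    have hne : c s - q ≠ 0 := by
      intro h0
      rw [h0] at h1
      simp at h1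
    have hq : deriv c s / N / ((c s - q) / N) = deriv c s / (c s - q) := by
      field_simp
    rw [hq] at hlog
    have him : HasDerivAt (fun s : ℝ => (Complex.log ((c s - q) / N)).im)
        (deriv c s / (c s - q)).im s := by
      have := (Complex.imCLM.hasFDerivAt (x := Complex.log ((c s - q) / N))).comp_hasDerivAt s hlog
      simpa [Function.comp_def] using this
    rw [h2] at him
    have h3 : HasDerivAt (fun s : ℝ => -Complex.arg ((c s - q) / N)) 0 s := by
      have h0 : HasDerivAt (fun s : ℝ => -(Complex.log ((c s - q) / N)).im) (-0) s := him.neg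
      simpa only [Complex.log_im, neg_zero] using h0
    have h4 := h3.hasFDerivAt.hasFDerivWithinAt (s := A)
    have h5 : (0 : ℝ →L[ℝ] ℝ) = ContinuousLinearMap.toSpanSingleton ℝ (0 : ℝ) := by
      ext
      simp
    rw [h5]
    exact h4
  refine addHaar_image_eq_zero_of_det_fderivWithin_eq_zero volume hder ?_
  intro s _
  simp

/-- For a fixed foot point almost every direction has a successor.
Proof. Let `q = γ i r`, `N = I * deriv (γ i) r`, so `vel (i, r, θ) = N * exp (-θ I)` (as
`T = -I N`).  If there is no successor, `next_or_bad` gives a corner or a tangential hit.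
(1) Corners: `γ j 0 = q + τ vel`, `τ > 0`: for given `j` at most one `θ ∈ (-π/2, π/2)`
(`vel = (γ j 0 - q)/‖γ j 0 - q‖` and `θ ↦ vel` is injective there), so finitely many `θ`.
(2) Tangential hits: `γ j s = q + τ N exp (-θ I)`, so `(γ j s - q)/N` has positive real part and
`θ = g s := -arg ((γ j s - q)/N)`; `g` is differentiable there with
`g' s = -Im (deriv (γ j) s / (γ j s - q))`, which is `0` since `deriv (γ j) s` is a real multiple of
`vel` (its inner product with `I vel` vanishes: `ip vel (I * deriv) = 0`).  So `θ` is a critical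
value of `g` on `A = {s | 0 < Re ((γ j s - q)/N), g' s = 0}`; by the one dimensional Sard theorem
`MeasureTheory.addHaar_image_eq_zero_of_det_fderiv_eq_zero` the image `g '' A` is null.  Finite
union over `j`. -/
theorem ae_next (i : Fin n) {r : ℝ} (hr : r ∈ Ioo 0 (T.len i)) :
    ∀ᵐ θ : ℝ, θ ∈ Ioo (-(Real.pi / 2)) (Real.pi / 2) → ∃ a, T.Next (i, r, θ) a := by
  set q : ℂ := T.γ i r with hq
  set N : ℂ := Complex.I * deriv (T.γ i) r with hNdef
  have hN : N ≠ 0 := by
    have h1 : ‖deriv (T.γ i) r‖ = 1 := T.unit i r ⟨hr.1.le, hr.2.le⟩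
    rw [hNdef]
    refine mul_ne_zero Complex.I_ne_zero ?_
    intro h0
    rw [h0, norm_zero] at h1
    exact zero_ne_one h1
  let C : Fin n → Set ℝ := fun j => {-Complex.arg ((T.γ j 0 - q) / N)}
  let A : Fin n → Set ℝ := fun j =>
    {s | 0 < ((T.γ j s - q) / N).re ∧ (deriv (T.γ j) s / (T.γ j s - q)).im = 0}
  let G : Fin n → Set ℝ := fun j => (fun s : ℝ => -Complex.arg ((T.γ j s - q) / N)) '' A j
  have hnull : volume (⋃ j, (C j ∪ G j)) = 0 := by
    refine measure_iUnion_null fun j => measure_union_null ?_ ?_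
    · exact Real.volume_singleton
    · refine sard_null (T.γ j) (fun s => ?_) q N (A j) fun s hs => hs
      exact ((T.smooth j).differentiable (by norm_num) s).hasDerivAt
  rw [ae_iff]
  refine measure_mono_null ?_ hnull
  intro θ hθ
  simp only [mem_ofPred_eq, Classical.not_imp] at hθ
  obtain ⟨hθ, hno⟩ := hθ
  have hz : (i, r, θ) ∈ T.phase := ⟨hr, hθ⟩
  have hpt : T.pt (i, r, θ) = q := rfl
  have hvel : T.vel (i, r, θ) = N * Complex.exp (((-θ : ℝ) : ℂ) * Complex.I) := T.sard_vel i r θ
  rcases T.next_or_bad hz with h | ⟨τ, hτ, -, h | h⟩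
  · exact absurd h hno
  · obtain ⟨j, hj⟩ := h
    rw [hpt, hvel] at hj
    have h1 : T.γ j 0 - q = τ * (N * Complex.exp (((-θ : ℝ) : ℂ) * Complex.I)) := by
      rw [hj]; ring
    have h2 := (sard_arg hN hτ hθ h1).1
    exact mem_iUnion.2 ⟨j, Or.inl h2.symm⟩
  · obtain ⟨j, s, hs, hj, hip⟩ := h
    rw [hpt] at hj
    have h1 : T.γ j s - q = τ * (N * Complex.exp (((-θ : ℝ) : ℂ) * Complex.I)) := by
      rw [hj, hvel]; ring
    have h2 := sard_arg hN hτ hθ h1
    refine mem_iUnion.2 ⟨j, Or.inr ⟨s, ⟨h2.2, ?_⟩, h2.1⟩⟩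
    have h3 : T.γ j s - q = τ * T.vel (i, r, θ) := by rw [hj]; ring
    rw [h3, Complex.div_im]
    simp only [ip, Complex.mul_re, Complex.mul_im, Complex.I_re, Complex.I_im, zero_mul, one_mul,
      zero_sub, zero_add] at hip
    simp only [Complex.mul_re, Complex.mul_im, Complex.ofReal_re, Complex.ofReal_im, zero_mul,
      sub_zero, add_zero]
    rw [← sub_div, div_eq_zero_iff]
    left
    linear_combination (-τ) * hip

end Table

end

end Pool.Agent.MP2e716c
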