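import Pool.Agent.H.MP_2e716c_an.BMap
import Pool.Agent.H.MP_2e716c_an.Sard

open Set MeasureTheory Filter Topology

namespace Pool.Agent.MP2e716c

noncomputable section

namespace Table

variable {n : ℕ} [NeZero n] (T : Table n)

/-- The invariant measure `cos θ dr dθ` on the phase space. -/
def μ : Measure (Fin n × ℝ × ℝ) :=
  (((Measure.count : Measure (Fin n)).prod (volume : Measure (ℝ × ℝ))).withDensity
    (fun z => ENNReal.ofReal (Real.cos z.2.2))).restrict T.phase

omit [NeZero n] in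
private theorem meas_dens : Measurable fun z : Fin n × ℝ × ℝ =>
    ENNReal.ofReal (Real.cos z.2.2) := by
  fun_prop

private theorem meas_apply {A : Set (Fin n × ℝ × ℝ)} (hA : MeasurableSet A) :
    T.μ A = ∑ i : Fin n, ∫⁻ x in {x : ℝ × ℝ | (i, x) ∈ A ∧ (i, x) ∈ T.phase},
      ENNReal.ofReal (Real.cos x.2) := by
  have hS : MeasurableSet (A ∩ T.phase) := hA.inter T.measurableSet_phase
  rw [μ, Measure.restrict_apply hA, withDensity_apply _ hS, ← lintegral_indicator hS,
    lintegral_prod _ (meas_dens.indicator hS).aemeasurable, lintegral_count, tsum_fintype]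
  apply Finset.sum_congr rfl
  intro i _
  have hSi : MeasurableSet {x : ℝ × ℝ | (i, x) ∈ A ∧ (i, x) ∈ T.phase} :=
    measurable_prodMk_left hS
  rw [← lintegral_indicator hSi]
  rfl

instance : IsFiniteMeasure T.μ := by
  constructor
  rw [T.meas_apply MeasurableSet.univ]
  apply ENNReal.sum_lt_top.2
  intro i _
  have h1 : ∫⁻ x in {x : ℝ × ℝ | (i, x) ∈ univ ∧ (i, x) ∈ T.phase},
      ENNReal.ofReal (Real.cos x.2) ≤
      ∫⁻ _ in {x : ℝ × ℝ | (i, x) ∈ univ ∧ (i, x) ∈ T.phase}, 1 := by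
    apply lintegral_mono
    intro x
    rw [← ENNReal.ofReal_one]
    exact ENNReal.ofReal_le_ofReal (Real.cos_le_one _)
  refine h1.trans_lt ?_
  rw [setLIntegral_one]
  have h2 : {x : ℝ × ℝ | (i, x) ∈ (univ : Set (Fin n × ℝ × ℝ)) ∧ (i, x) ∈ T.phase} ⊆
      Icc 0 (T.len i) ×ˢ Icc (-(Real.pi / 2)) (Real.pi / 2) := by
    rintro x ⟨-, hx⟩
    exact ⟨⟨hx.1.1.le, hx.1.2.le⟩, ⟨hx.2.1.le, hx.2.2.le⟩⟩
  exact (measure_mono h2).trans_lt (isCompact_Icc.prod isCompact_Icc).measure_lt_top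

omit [NeZero n] in
private theorem meas_ae_prod {q : Fin n × ℝ × ℝ → Prop} :
    (∀ᵐ z ∂((Measure.count : Measure (Fin n)).prod (volume : Measure (ℝ × ℝ))), q z) ↔
      ∀ i, ∀ᵐ x : ℝ × ℝ, q (i, x) := by
  constructor
  · intro h
    have h1 := Measure.ae_ae_of_ae_prod h
    rw [Measure.ae_count_iff] at h1
    exact h1
  · intro h
    rw [ae_iff]
    have hsub : {z : Fin n × ℝ × ℝ | ¬ q z} ⊆
        ⋃ i : Fin n, ({i} : Set (Fin n)) ×ˢ {x : ℝ × ℝ | ¬ q (i, x)} := by
      rintro ⟨i, x⟩ hz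
      exact mem_iUnion.2 ⟨i, rfl, hz⟩
    refine measure_mono_null hsub (measure_iUnion_null fun i => ?_)
    rw [Measure.prod_prod, ae_iff.1 (h i), mul_zero]

/-- `μ`-almost everywhere is Lebesgue almost everywhere in each slice of the phase space
(the density `cos θ` is positive there).  Use `Measure.ae_prod_iff`-type lemmas or
`lintegral`/`measure_prod_null` with `Measure.count`. -/
theorem ae_mu_iff {p : Fin n × ℝ × ℝ → Prop} :
    (∀ᵐ z ∂T.μ, p z) ↔ ∀ i, ∀ᵐ x : ℝ × ℝ, (i, x) ∈ T.phase → p (i, x) := by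
  rw [μ, ae_restrict_iff' T.measurableSet_phase, ae_withDensity_iff meas_dens, ← meas_ae_prod
    (q := fun z => z ∈ T.phase → p z)]
  apply eventually_congr
  apply Eventually.of_forall
  intro z
  constructor
  · intro h hz
    exact h (ENNReal.ofReal_pos.2 (T.cos_pos hz)).ne' hz
  · intro h _ hz
    exact h hz

/-- `μ A = ∑ i, ∫⁻ x in {x | (i,x) ∈ A ∩ phase}, cos x.2`. -/
theorem mu_apply {A : Set (Fin n × ℝ × ℝ)} (hA : MeasurableSet A) :
    T.μ A = ∑ i : Fin n, ∫⁻ x in {x : ℝ × ℝ | (i, x) ∈ A ∧ (i, x) ∈ T.phase},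
      ENNReal.ofReal (Real.cos x.2) :=
  T.meas_apply hA

theorem ae_mem_phase : ∀ᵐ z ∂T.μ, z ∈ T.phase :=
  T.ae_mu_iff.2 fun _ => Eventually.of_forall fun _ hx => hx

/-- Almost every phase point has a successor: `ae_next` in each vertical line, measurability of
`dom`, and Fubini (`measure_prod_null` or `Measure.ae_prod_iff_ae_ae`). -/
theorem ae_mem_dom : ∀ᵐ z ∂T.μ, z ∈ T.dom := by
  refine T.ae_mu_iff.2 fun i => ?_
  have hm : MeasurableSet {x : ℝ × ℝ | ¬((i, x) ∈ T.phase → (i, x) ∈ T.dom)} := by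
    have : {x : ℝ × ℝ | ¬((i, x) ∈ T.phase → (i, x) ∈ T.dom)} =
        (Prod.mk i) ⁻¹' (T.phase \ T.dom) := by
      ext x
      simp [Classical.not_imp]
    rw [this]
    exact measurable_prodMk_left (T.measurableSet_phase.diff T.measurableSet_dom)
  rw [ae_iff, Measure.volume_eq_prod, Measure.measure_prod_null hm]
  apply Eventually.of_forall
  intro r
  by_cases hr : r ∈ Ioo 0 (T.len i)
  · have h1 := T.ae_next i hr
    rw [ae_iff] at h1
    refine measure_mono_null ?_ h1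
    intro θ hθ
    simp only [mem_preimage, mem_ofPred_eq, Classical.not_imp] at hθ ⊢
    exact ⟨hθ.1.2, hθ.2⟩
  · have : (Prod.mk r ⁻¹' {x : ℝ × ℝ | ¬((i, x) ∈ T.phase → (i, x) ∈ T.dom)}) = ∅ := by
      ext θ
      simp only [mem_preimage, mem_ofPred_eq, Classical.not_imp, mem_empty_iff_false, iff_false,
        not_and]
      intro h
      exact absurd h.1 hr
    simp only [this, measure_empty, Pi.zero_apply]

end Table

end

end Pool.Agent.MP2e716c
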