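import Pool.Agent.H.MP_2e716c_an.ASet
import Pool.Agent.H.MP_2e716c_an.h4.Main

/-!
# Separated sets of neutral sides (MP_2e716c_an, helper4)

If the arcs of `S` are straight, pairwise disjoint (no two of them adjacent) and no chord of the
closed table between two of them meets a third one, then almost no orbit hits only arcs of `S`.
-/

open Set MeasureTheory Filter Topology

namespace Pool.Agent.MP2e716c

noncomputable section

namespace Table

variable {n : ℕ} [NeZero n] (T : Table n)

/-- The `i`-th closed arc. -/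
def side (i : Fin n) : Set ℂ := T.γ i '' Icc 0 (T.len i)

/-- The arcs of `S` are pairwise disjoint, and no segment which lies in the closed table and joins
two arcs of `S` meets a third arc of `S`. -/
def Separated (S : Set (Fin n)) : Prop :=
  (∀ i ∈ S, ∀ j ∈ S, i ≠ j → Disjoint (T.side i) (T.side j)) ∧
  ∀ i ∈ S, ∀ j ∈ S, ∀ k ∈ S, i ≠ j → i ≠ k → j ≠ k → ∀ p ∈ T.side i, ∀ q ∈ T.side j,
    segment ℝ p q ⊆ closure T.region → Disjoint (segment ℝ p q) (T.side k)

variable {T}

theorem na_deriv {i : Fin n} {p u : ℂ} (h : ∀ r : ℝ, T.γ i r = p + r * u) (r : ℝ) :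
    deriv (T.γ i) r = u := by
  have h1 : T.γ i = fun r : ℝ => p + r * u := funext h
  rw [h1]
  have : HasDerivAt (fun r : ℝ => p + (r : ℂ) * u) (1 * u) r :=
    ((Complex.ofRealCLM.hasDerivAt (x := r)).mul_const u).const_add p
  rw [this.deriv, one_mul]

theorem na_norm {i : Fin n} {p u : ℂ} (h : ∀ r : ℝ, T.γ i r = p + r * u) : ‖u‖ = 1 := by
  rw [← na_deriv h 0]
  exact T.unit i 0 ⟨le_refl _, (T.len_pos i).le⟩

theorem na_segment {i : Fin n} {p u : ℂ} (h : ∀ r : ℝ, T.γ i r = p + r * u) :
    segment ℝ (T.γ i 0) (T.γ i (T.len i)) = T.side i := by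
  have hl := T.len_pos i
  ext z
  rw [Pool.Agent.H.MP_2e716c_an.mem_seg]
  constructor
  · rintro ⟨s, h0, h1, rfl⟩
    refine ⟨s * T.len i, ⟨by positivity, ?_⟩, ?_⟩
    · nlinarith
    · rw [h, h, h]; push_cast; ring
  · rintro ⟨r, ⟨h0, h1⟩, rfl⟩
    refine ⟨r / T.len i, by positivity, (div_le_one hl).2 h1, ?_⟩
    rw [h, h, h]; push_cast
    have : (T.len i : ℂ) ≠ 0 := by exact_mod_cast hl.ne'
    field_simp
    ring

theorem na_openSegment {i : Fin n} {p u : ℂ} (h : ∀ r : ℝ, T.γ i r = p + r * u) {r : ℝ}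
    (hr : r ∈ Ioo 0 (T.len i)) : T.γ i r ∈ openSegment ℝ (T.γ i 0) (T.γ i (T.len i)) := by
  have hl := T.len_pos i
  refine ⟨1 - r / T.len i, r / T.len i, ?_, div_pos hr.1 hl, by ring, ?_⟩
  · have : r / T.len i < 1 := (div_lt_one hl).2 hr.2
    linarith
  · rw [h, h, h]
    simp only [Complex.real_smul]
    push_cast
    have : (T.len i : ℂ) ≠ 0 := by exact_mod_cast hl.ne'
    field_simp
    ring

theorem na_frontier {i : Fin n} {p u : ℂ} (h : ∀ r : ℝ, T.γ i r = p + r * u) :
    T.side i ⊆ frontier (closure T.region) := by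
  have hopen : T.γ i '' Ioo 0 (T.len i) ⊆ frontier (closure T.region) := by
    rintro _ ⟨r, hr, rfl⟩
    rw [frontier, closure_closure]
    refine ⟨frontier_subset_closure (T.arc_mem_frontier i ⟨hr.1.le, hr.2.le⟩), ?_⟩
    intro hint
    obtain ⟨ε, hε, hleft⟩ := T.left i r hr
    have hu := na_norm h
    rw [na_deriv h] at hleft
    -- small outward translates are not in the closure
    have hout : ∀ t : ℝ, 0 < t → t < ε → T.γ i r - t * (Complex.I * u) ∉ closure T.region := by
      intro t ht htε hmem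
      rw [Metric.mem_closure_iff] at hmem
      obtain ⟨b, hb, hdist⟩ := hmem (min t (ε - t)) (lt_min ht (by linarith))
      rw [dist_eq_norm] at hdist
      set w := T.γ i r - t * (Complex.I * u) - b with hw
      have hdec := ip_decomp w u hu
      have n1 : |ip w u| ≤ ‖w‖ := by
        have := abs_ip_le w u; rwa [hu, mul_one] at this
      have n2 : |ip w (Complex.I * u)| ≤ ‖w‖ := by
        have := abs_ip_le w (Complex.I * u)
        rwa [norm_mul, Complex.norm_I, one_mul, hu, mul_one] at this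
      have m1 := hdist.trans_le (min_le_left _ _)
      have m2 := hdist.trans_le (min_le_right _ _)
      have m3 := abs_le.1 (n2.trans m1.le)
      have m4 := abs_le.1 (n2.trans m2.le)
      have m5 : |ip w (Complex.I * u)| < t := n2.trans_lt m1
      have m6 : |ip w (Complex.I * u)| < ε - t := n2.trans_lt m2
      have key := (hleft (-(ip w u)) (t + ip w (Complex.I * u)) (by
        rw [abs_neg]; linarith [n1]) (by
        have := (abs_lt.1 m5).1; linarith) (by
        have := (abs_lt.1 m6).2; linarith)).2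
      apply key
      have e : T.γ i (r + -(ip w u)) - ((t + ip w (Complex.I * u) : ℝ) : ℂ) * (Complex.I * u) =
          b := by
        rw [h]
        have e1 : T.γ i r = p + r * u := h r
        have e2 : b = T.γ i r - t * (Complex.I * u) - w := by rw [hw]; ring
        rw [e2, e1]
        push_cast
        linear_combination hdec
      rw [e]; exact hb
    rw [mem_interior_iff_mem_nhds, Metric.mem_nhds_iff] at hint
    obtain ⟨δ, hδ, hball⟩ := hint
    set t := min δ ε / 2 with ht
    have ht0 : 0 < t := by positivity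
    have htδ : t < δ := by
      have := min_le_left δ ε; rw [ht]; linarith
    have htε : t < ε := by
      have := min_le_right δ ε; rw [ht]; linarith
    apply hout t ht0 htε
    apply hball
    rw [Metric.mem_ball, dist_eq_norm, show T.γ i r - t * (Complex.I * u) - T.γ i r =
      -((t : ℂ) * (Complex.I * u)) by ring, norm_neg, norm_mul, norm_mul, Complex.norm_I, hu,
      Complex.norm_real, Real.norm_of_nonneg ht0.le]
    linarith
  have hcl : closure (T.γ i '' Ioo 0 (T.len i)) ⊆ frontier (closure T.region) :=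
    closure_minimal hopen isClosed_frontier
  refine Subset.trans ?_ hcl
  rw [side, ← closure_Ioo (T.len_pos i).ne]
  exact image_closure_subset_closure_image (T.smooth i).continuous

theorem na_vel {i : Fin n} {r θ : ℝ} {φ : ℝ} (h : deriv (T.γ i) r = Complex.exp (φ * Complex.I)) :
    T.vel (i, r, θ) = Complex.exp (((φ + Real.pi / 2 - θ : ℝ) : ℂ) * Complex.I) := by
  have e : ((φ + Real.pi / 2 - θ : ℝ) : ℂ) * Complex.I =
      φ * Complex.I + ((Real.pi / 2 - θ : ℝ) : ℂ) * Complex.I := by push_cast; ring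
  rw [e, Complex.exp_add, Complex.exp_mul_I ((Real.pi / 2 - θ : ℝ) : ℂ), ← Complex.ofReal_cos,
    ← Complex.ofReal_sin, Real.cos_pi_div_two_sub, Real.sin_pi_div_two_sub]
  show (Real.cos θ : ℂ) * (Complex.I * deriv (T.γ i) r) + (Real.sin θ : ℂ) * deriv (T.γ i) r = _
  rw [h]
  ring

theorem na_refl {i : Fin n} {p u : ℂ} (h : ∀ r : ℝ, T.γ i r = p + r * u) (r θ : ℝ) :
    T.vel (i, r, θ) = Pool.Agent.H.MP_2e716c_an.refl (T.γ i (T.len i) - T.γ i 0)
      (T.inc (i, r, θ)) := by
  have hu := na_norm h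
  have hu0 : u ≠ 0 := by intro h0; rw [h0] at hu; simp at hu
  have hl : (T.len i : ℂ) ≠ 0 := by exact_mod_cast (T.len_pos i).ne'
  have hcu : (starRingEnd ℂ) u ≠ 0 := by simpa using hu0
  show (Real.cos θ : ℂ) * (Complex.I * deriv (T.γ i) r) + (Real.sin θ : ℂ) * deriv (T.γ i) r =
    Pool.Agent.H.MP_2e716c_an.refl _ (-(Real.cos θ : ℂ) * (Complex.I * deriv (T.γ i) r) +
      (Real.sin θ : ℂ) * deriv (T.γ i) r)
  rw [na_deriv h, Pool.Agent.H.MP_2e716c_an.refl, h, h]
  rw [show p + ((T.len i : ℝ) : ℂ) * u - (p + ((0 : ℝ) : ℂ) * u) = (T.len i : ℂ) * u by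
    push_cast; ring]
  simp only [map_add, map_mul, map_neg, Complex.conj_ofReal, Complex.conj_I]
  field_simp

theorem na_trapped {S : Set (Fin n)} (hs : ∀ i ∈ S, ∃ p u : ℂ, ∀ r : ℝ, T.γ i r = p + r * u)
    {z : Fin n × ℝ × ℝ} (hz : z ∈ T.AS S) :
    Pool.Agent.H.MP_2e716c_an.Trapped (closure T.region) (fun i : S => T.γ i 0)
      (fun i : S => T.γ i (T.len i)) (T.pt z) (T.vel z) := by
  refine ⟨fun k => T.pt (T.bmap^[k] z), fun k => T.vel (T.bmap^[k] z),
    fun k => ⟨(T.bmap^[k + 1] z).1, (hz (k + 1)).2.1⟩, rfl, rfl, ?_⟩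
  intro k
  obtain ⟨hp0, hp1, τ, hτ, hin, hpt, hinc⟩ := (hz k).1
  obtain ⟨p, u, hpu⟩ := hs _ (hz (k + 1)).2.1
  refine ⟨⟨τ, hτ, hpt⟩, ?_, ?_, ?_⟩
  · exact na_openSegment hpu hp1.1
  · rintro x ⟨s, t, hs0, ht0, hst, rfl⟩
    apply T.isOpen.subset_interior_closure
    have := hin (t * τ) ⟨by positivity, by nlinarith⟩
    convert this using 1
    show s • T.pt (T.bmap^[k] z) + t • T.pt (T.bmap^[k + 1] z) = _
    rw [hpt]
    simp only [Complex.real_smul]
    have : (s : ℂ) = 1 - t := by
      have : s = 1 - t := by linarith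
      rw [this]; push_cast; ring
    rw [this]
    push_cast; ring
  · show T.vel (T.bmap^[k + 1] z) = Pool.Agent.H.MP_2e716c_an.refl
      (T.γ (T.bmap^[k + 1] z).1 (T.len (T.bmap^[k + 1] z).1) - T.γ (T.bmap^[k + 1] z).1 0)
        (T.vel (T.bmap^[k] z))
    rw [← hinc]
    exact na_refl hpu _ _

/-- Separated sets of straight sides: almost no orbit hits only sides of `S`. -/
theorem AS_null_of_separated {S : Set (Fin n)}
    (hs : ∀ i ∈ S, ∃ p u : ℂ, ∀ r : ℝ, T.γ i r = p + r * u) (h : T.Separated S) :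
    T.μ (T.AS S) = 0 := by
  have hseg : ∀ i : S, segment ℝ (T.γ i 0) (T.γ i (T.len i)) = T.side i := by
    intro i
    obtain ⟨p, u, hpu⟩ := hs i i.2
    exact na_segment hpu
  have key : ∀ y : ℂ, ∀ᵐ t : ℝ, ¬ Pool.Agent.H.MP_2e716c_an.Trapped (closure T.region)
      (fun i : S => T.γ i 0) (fun i : S => T.γ i (T.len i)) y (Complex.exp (t * Complex.I)) := by
    intro y
    refine Pool.Agent.H.MP_2e716c_an.ae_not_trapped isClosed_closure ?_ ?_ ?_ ?_ y
    · intro i heq
      obtain ⟨p, u, hpu⟩ := hs i i.2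
      have hu := na_norm hpu
      simp only [hpu] at heq
      have : ((T.len i : ℝ) : ℂ) * u = 0 := by
        push_cast at heq; linear_combination -heq
      rcases mul_eq_zero.1 this with h0 | h0
      · exact (T.len_pos i).ne' (by exact_mod_cast h0)
      · rw [h0] at hu; simp at hu
    · intro i
      obtain ⟨p, u, hpu⟩ := hs i i.2
      rw [hseg]
      exact na_frontier hpu
    · intro i j hij
      rw [hseg, hseg]
      exact h.1 i i.2 j j.2 fun h' => hij (Subtype.ext h')
    · intro i j k hij hik hjk p hp q hq hpq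
      rw [hseg] at hp hq ⊢
      exact h.2 i i.2 j j.2 k k.2 (fun h' => hij (Subtype.ext h'))
        (fun h' => hik (Subtype.ext h')) (fun h' => hjk (Subtype.ext h')) p hp q hq hpq
  have hae : ∀ᵐ z ∂T.μ, z ∉ T.AS S := by
    rw [T.ae_mu_iff]
    intro i
    have hmeas : MeasurableSet {x : ℝ × ℝ | (i, x) ∈ T.AS S} :=
      measurable_prodMk_left (T.measurableSet_AS S)
    have hnull : volume {x : ℝ × ℝ | (i, x) ∈ T.AS S} = 0 := by
      rw [Measure.volume_eq_prod, Measure.measure_prod_null hmeas]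
      refine Filter.Eventually.of_forall fun r => ?_
      show volume (Prod.mk r ⁻¹' {x : ℝ × ℝ | (i, x) ∈ T.AS S}) = 0
      obtain ⟨φ, hφ⟩ : ∃ φ : ℝ, ‖deriv (T.γ i) r‖ = 1 →
          deriv (T.γ i) r = Complex.exp (φ * Complex.I) := by
        refine ⟨Complex.arg (deriv (T.γ i) r), fun h1 => ?_⟩
        have := Complex.norm_mul_exp_arg_mul_I (deriv (T.γ i) r)
        rw [h1] at this
        simpa using this.symm
      have hk := key (T.γ i r)
      rw [ae_iff] at hk
      have hpre := (Measure.measurePreserving_sub_left (volume : Measure ℝ)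
        (φ + Real.pi / 2)).quasiMeasurePreserving.preimage_null hk
      refine measure_mono_null ?_ hpre
      intro θ hθ
      have hz : (i, r, θ) ∈ T.AS S := hθ
      have hph := (hz 0).1.1
      have hnorm : ‖deriv (T.γ i) r‖ = 1 := T.tang_norm hph
      have htr := na_trapped hs hz
      rw [na_vel (hφ hnorm)] at htr
      show ¬ ¬ Pool.Agent.H.MP_2e716c_an.Trapped _ _ _ _ _
      rw [not_not]
      exact htr
    filter_upwards [measure_eq_zero_iff_ae_notMem.1 hnull] with x hx _
    exact hx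
  exact measure_eq_zero_iff_ae_notMem.2 hae

end Table

end

end Pool.Agent.MP2e716c
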