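import Pool.Agent.H.MP_2e716c_an.Hit

open Set MeasureTheory Filter Topology

namespace Pool.Agent.MP2e716c

noncomputable section

namespace Table

variable {n : ℕ} [NeZero n] (T : Table n)

theorem stab_cont_γ (i : Fin n) : Continuous (T.γ i) := (T.smooth i).continuous

theorem stab_cont_deriv (i : Fin n) : Continuous (deriv (T.γ i)) :=
  (T.smooth i).continuous_deriv (by norm_num)

theorem continuous_pt (i : Fin n) : Continuous (fun x : ℝ × ℝ => T.pt (i, x)) := by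
  show Continuous (fun x : ℝ × ℝ => T.γ i x.1)
  exact (T.stab_cont_γ i).comp continuous_fst

theorem continuous_vel (i : Fin n) : Continuous (fun x : ℝ × ℝ => T.vel (i, x)) := by
  show Continuous (fun x : ℝ × ℝ => (Real.cos x.2 : ℂ) * (Complex.I * deriv (T.γ i) x.1) +
    (Real.sin x.2 : ℂ) * deriv (T.γ i) x.1)
  have h := (T.stab_cont_deriv i).comp (continuous_fst (X := ℝ) (Y := ℝ))
  have h' : Continuous (fun x : ℝ × ℝ => deriv (T.γ i) x.1) := h
  have hc : Continuous (fun x : ℝ × ℝ => (Real.cos x.2 : ℂ)) :=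
    Complex.continuous_ofReal.comp (Real.continuous_cos.comp continuous_snd)
  have hs : Continuous (fun x : ℝ × ℝ => (Real.sin x.2 : ℂ)) :=
    Complex.continuous_ofReal.comp (Real.continuous_sin.comp continuous_snd)
  exact (hc.mul (continuous_const.mul h')).add (hs.mul h')

/-- The three parts of the chord. -/
theorem stab_mem {q w v : ℂ} {τ τ0 ε1 ε2 : ℝ} (hε1 : 0 < ε1) (hτ : |τ - τ0| < ε2 / 2)
    (hw : w = q + τ * v)
    (h1 : ∀ t ∈ Ioo (0 : ℝ) ε1, q + t * v ∈ T.region)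
    (h2 : ∀ t ∈ Icc (ε1 / 2) (τ0 - ε2 / 2), q + t * v ∈ T.region)
    (h3 : ∀ t ∈ Ioo (0 : ℝ) ε2, w + t * (-v) ∈ T.region) :
    ∀ t ∈ Ioo (0 : ℝ) τ, q + t * v ∈ T.region := by
  intro t ht
  by_cases ha : t < ε1
  · exact h1 t ⟨ht.1, ha⟩
  by_cases hb : t ≤ τ0 - ε2 / 2
  · exact h2 t ⟨by linarith, hb⟩
  have hlt := abs_lt.1 hτ
  have h := h3 (τ - t) ⟨by linarith [ht.2], by linarith [hlt.2]⟩
  have he : w + ((τ - t : ℝ) : ℂ) * (-v) = q + t * v := by
    rw [hw]; push_cast; ring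
  rwa [he] at h

/-- Stability of the first hit.  Let `τ0` be the length of the chord from `(i, x0)` to `(j, y0)`.
Proof. For `x` near `x0`, `s` near `y0.1`: `γ j s - pt (i, x) = τ vel (i, x)` is near
`τ0 vel (i, x0)`, hence `τ` is near `τ0 > 0` (take the inner product with the unit vector
`vel (i, x)`).  Start: `inward_cone i` at `x0.1` with `c = cos x0.2 / 2` (for `x` near `x0`,
`ip (vel (i,x)) (nor (i,x0)) ≥ c` by continuity) gives `pt + t vel ∈ region` for `t ∈ (0, ε1)`.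
End: `inward_cone j` at `y0.1` with `v = -vel (i, x)` and `c = cos y0.2 / 2`
(`-vel (i,x0) = -inc (j,y0)` has inner product `cos y0.2` with the normal): `γ j s + t' (-vel) ∈ region`
for `t' ∈ (0, ε2)`.  Middle: `{pt (i,x0) + t vel (i,x0) | t ∈ [ε1/2, τ0 - ε2/2]}` is compact in the
open region; by compactness (tube lemma, `generalized_tube_lemma` or uniform continuity) the same
holds for `x` near `x0`.  Then `next_of_hit` (transversality persists near). -/
theorem chord_stable {i j : Fin n} {x0 y0 : ℝ × ℝ} (h : T.Next (i, x0) (j, y0)) :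
    ∃ δ > 0, ∀ x : ℝ × ℝ, dist x x0 < δ → ∀ s : ℝ, |s - y0.1| < δ → ∀ τ : ℝ,
      T.γ j s = T.pt (i, x) + τ * T.vel (i, x) →
      T.Next (i, x) (j, s, Real.arcsin (ip (T.vel (i, x)) (deriv (T.γ j) s))) := by
  obtain ⟨hz, ha, τ0, hτ0, hin, hp, hv⟩ := h
  have hcx := T.cos_pos hz
  have hcy := T.cos_pos ha
  simp only at hcx hcy
  have hcγ := T.stab_cont_γ
  have hcd := T.stab_cont_deriv
  have hcp := T.continuous_pt i
  have hcv := T.continuous_vel i
  -- constants from the cones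
  obtain ⟨ε1, hε1, H1⟩ := T.inward_cone i hz.1 (half_pos hcx)
  obtain ⟨ε2, hε2, H2⟩ := T.inward_cone j ha.1 (half_pos hcy)
  simp only at H1 H2
  -- eventual facts
  have E : ∀ᶠ p : (ℝ × ℝ) × ℝ in 𝓝 (x0, y0.1), ∀ τ : ℝ,
      T.γ j p.2 = T.pt (i, p.1) + τ * T.vel (i, p.1) →
      T.Next (i, p.1) (j, p.2, Real.arcsin (ip (T.vel (i, p.1)) (deriv (T.γ j) p.2))) := by
    have e1 : ∀ᶠ p : (ℝ × ℝ) × ℝ in 𝓝 (x0, y0.1), (i, p.1) ∈ T.phase := by
      have ho : IsOpen {p : (ℝ × ℝ) × ℝ | (p.1.1 ∈ Ioo 0 (T.len i)) ∧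
          p.1.2 ∈ Ioo (-(Real.pi / 2)) (Real.pi / 2)} :=
        (isOpen_Ioo.preimage (continuous_fst.comp continuous_fst)).inter
          (isOpen_Ioo.preimage (continuous_snd.comp continuous_fst))
      exact ho.mem_nhds ⟨hz.1, hz.2⟩
    have e2 : ∀ᶠ p : (ℝ × ℝ) × ℝ in 𝓝 (x0, y0.1), p.2 ∈ Ioo 0 (T.len j) :=
      (isOpen_Ioo.preimage continuous_snd).mem_nhds ha.1
    have cτ : Continuous (fun p : (ℝ × ℝ) × ℝ =>
        ip (T.γ j p.2 - T.pt (i, p.1)) (T.vel (i, p.1))) :=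
      ip_continuous.comp ((((hcγ j).comp continuous_snd).sub (hcp.comp continuous_fst)).prodMk
        (hcv.comp continuous_fst))
    have vτ : ip (T.γ j y0.1 - T.pt (i, x0)) (T.vel (i, x0)) = τ0 := by
      have : T.γ j y0.1 - T.pt (i, x0) = τ0 * T.vel (i, x0) := by
        have h1 : T.γ j y0.1 = T.pt (i, x0) + τ0 * T.vel (i, x0) := hp
        rw [h1]; ring
      rw [this, ip_rmul_left, ip_self, T.vel_norm hz]; ring
    have e3 : ∀ᶠ p : (ℝ × ℝ) × ℝ in 𝓝 (x0, y0.1),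
        |ip (T.γ j p.2 - T.pt (i, p.1)) (T.vel (i, p.1)) - τ0| < min (ε2 / 2) τ0 := by
      have ho : IsOpen {p : (ℝ × ℝ) × ℝ |
          |ip (T.γ j p.2 - T.pt (i, p.1)) (T.vel (i, p.1)) - τ0| < min (ε2 / 2) τ0} :=
        isOpen_lt (cτ.sub continuous_const).abs continuous_const
      refine ho.mem_nhds ?_
      show |ip (T.γ j y0.1 - T.pt (i, x0)) (T.vel (i, x0)) - τ0| < min (ε2 / 2) τ0
      rw [vτ, sub_self, abs_zero]
      exact lt_min (half_pos hε2) hτ0
    have e4 : ∀ᶠ p : (ℝ × ℝ) × ℝ in 𝓝 (x0, y0.1), |p.1.1 - x0.1| < ε1 := by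
      have ho : IsOpen {p : (ℝ × ℝ) × ℝ | |p.1.1 - x0.1| < ε1} :=
        isOpen_lt ((continuous_fst.comp continuous_fst).sub continuous_const).abs continuous_const
      refine ho.mem_nhds ?_
      show |x0.1 - x0.1| < ε1
      rw [sub_self, abs_zero]; exact hε1
    have e5 : ∀ᶠ p : (ℝ × ℝ) × ℝ in 𝓝 (x0, y0.1), |p.2 - y0.1| < ε2 := by
      have ho : IsOpen {p : (ℝ × ℝ) × ℝ | |p.2 - y0.1| < ε2} :=
        isOpen_lt (continuous_snd.sub continuous_const).abs continuous_const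
      refine ho.mem_nhds ?_
      show |y0.1 - y0.1| < ε2
      rw [sub_self, abs_zero]; exact hε2
    have e6 : ∀ᶠ p : (ℝ × ℝ) × ℝ in 𝓝 (x0, y0.1),
        Real.cos x0.2 / 2 < ip (T.vel (i, p.1)) (Complex.I * deriv (T.γ i) x0.1) := by
      have hc : Continuous (fun p : (ℝ × ℝ) × ℝ =>
          ip (T.vel (i, p.1)) (Complex.I * deriv (T.γ i) x0.1)) :=
        ip_continuous.comp ((hcv.comp continuous_fst).prodMk continuous_const)
      refine (isOpen_lt continuous_const hc).mem_nhds ?_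
      show Real.cos x0.2 / 2 < ip (T.vel (i, x0)) (Complex.I * deriv (T.γ i) x0.1)
      have h1 := T.ip_vel_nor hz
      have h2 : ip (T.vel (i, x0)) (Complex.I * deriv (T.γ i) x0.1) = Real.cos x0.2 := h1
      rw [h2]; linarith
    have e7 : ∀ᶠ p : (ℝ × ℝ) × ℝ in 𝓝 (x0, y0.1),
        Real.cos y0.2 / 2 < ip (-T.vel (i, p.1)) (Complex.I * deriv (T.γ j) y0.1) := by
      have hc : Continuous (fun p : (ℝ × ℝ) × ℝ =>
          ip (-T.vel (i, p.1)) (Complex.I * deriv (T.γ j) y0.1)) :=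
        ip_continuous.comp ((hcv.comp continuous_fst).neg.prodMk continuous_const)
      refine (isOpen_lt continuous_const hc).mem_nhds ?_
      show Real.cos y0.2 / 2 < ip (-T.vel (i, x0)) (Complex.I * deriv (T.γ j) y0.1)
      have h1 := T.ip_inc_nor ha
      rw [hv] at h1
      have h2 : ip (T.vel (i, x0)) (Complex.I * deriv (T.γ j) y0.1) = -Real.cos y0.2 := h1
      rw [ip_neg_left, h2]; linarith
    have e8 : ∀ᶠ p : (ℝ × ℝ) × ℝ in 𝓝 (x0, y0.1),
        ip (T.vel (i, p.1)) (Complex.I * deriv (T.γ j) p.2) < 0 := by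
      have hc : Continuous (fun p : (ℝ × ℝ) × ℝ =>
          ip (T.vel (i, p.1)) (Complex.I * deriv (T.γ j) p.2)) :=
        ip_continuous.comp ((hcv.comp continuous_fst).prodMk
          (continuous_const.mul ((hcd j).comp continuous_snd)))
      refine (isOpen_lt hc continuous_const).mem_nhds ?_
      show ip (T.vel (i, x0)) (Complex.I * deriv (T.γ j) y0.1) < 0
      have h1 := T.ip_inc_nor ha
      rw [hv] at h1
      have h2 : ip (T.vel (i, x0)) (Complex.I * deriv (T.γ j) y0.1) = -Real.cos y0.2 := h1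
      rw [h2]; linarith
    have e9 : ∀ᶠ x : ℝ × ℝ in 𝓝 x0, ∀ t ∈ Icc (ε1 / 2) (τ0 - ε2 / 2),
        T.pt (i, x) + t * T.vel (i, x) ∈ T.region := by
      refine isCompact_Icc.eventually_forall_of_forall_eventually ?_
      intro t ht
      have hc : Continuous (fun q : (ℝ × ℝ) × ℝ =>
          T.pt (i, q.1) + (q.2 : ℂ) * T.vel (i, q.1)) :=
        (hcp.comp continuous_fst).add
          ((Complex.continuous_ofReal.comp continuous_snd).mul (hcv.comp continuous_fst))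
      refine (T.isOpen.preimage hc).mem_nhds ?_
      exact hin t ⟨by linarith [ht.1], by linarith [ht.2]⟩
    have e9' : ∀ᶠ p : (ℝ × ℝ) × ℝ in 𝓝 (x0, y0.1), ∀ t ∈ Icc (ε1 / 2) (τ0 - ε2 / 2),
        T.pt (i, p.1) + t * T.vel (i, p.1) ∈ T.region :=
      (continuous_fst.tendsto (x0, y0.1)).eventually e9
    filter_upwards [e1, e2, e3, e4, e5, e6, e7, e8, e9'] with p f1 f2 f3 f4 f5 f6 f7 f8 f9
    intro τ hτ
    have hτe : ip (T.γ j p.2 - T.pt (i, p.1)) (T.vel (i, p.1)) = τ := by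
      have : T.γ j p.2 - T.pt (i, p.1) = τ * T.vel (i, p.1) := by rw [hτ]; ring
      rw [this, ip_rmul_left, ip_self, T.vel_norm f1]; ring
    rw [hτe] at f3
    have f31 : |τ - τ0| < ε2 / 2 := lt_of_lt_of_le f3 (min_le_left _ _)
    have f32 : |τ - τ0| < τ0 := lt_of_lt_of_le f3 (min_le_right _ _)
    have hτpos : 0 < τ := by
      have := (abs_lt.1 f32).1
      linarith
    have hvn := T.vel_norm f1
    refine T.next_of_hit f1 hτpos ?_ f2 hτ (ne_of_lt f8)
    refine T.stab_mem hε1 f31 hτ ?_ f9 ?_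
    · intro t ht
      exact (H1 p.1.1 f4 _ hvn f6.le t ht).1
    · intro t ht
      exact (H2 p.2 f5 _ (by rw [norm_neg]; exact hvn) f7.le t ht).1
  obtain ⟨δ, hδ, H⟩ := Metric.eventually_nhds_iff.1 E
  refine ⟨δ, hδ, ?_⟩
  intro x hx s hs τ hτ
  have hd : dist ((x, s) : (ℝ × ℝ) × ℝ) (x0, y0.1) < δ := by
    rw [Prod.dist_eq]
    exact max_lt hx hs
  exact H hd τ hτ

end Table

end

end Pool.Agent.MP2e716c
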